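import Pool.Agent.H183.GL.Stm

/-!
# Project GL: `S_BF1` (medium prime factors of the quadratic polynomials)
-/

set_option autoImplicit false

namespace Pool.Agent.H183.GL

open Finset Pool.Agent.H183.MU

namespace BF1

/-- the numbers up to `X` in one residue class modulo `M` -/
theorem class_card (X M c : ℕ) :
    ((range (X + 1)).filter (fun n : ℕ => n ≡ c [MOD M])).card ≤ X / M + 1 := by
  have h1 : ((range (X + 1)).filter (fun n : ℕ => n ≡ c [MOD M])).card ≤ (range (X / M + 1)).card := by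
    apply Finset.card_le_card_of_injOn (fun n => n / M)
    · intro n hn
      have hn' := (mem_filter.1 (mem_coe.1 hn)).1
      rw [mem_range] at hn'
      apply mem_coe.2
      rw [mem_range]
      exact Nat.lt_succ_of_le (Nat.div_le_div_right (Nat.lt_succ_iff.1 hn'))
    · intro n hn m hm h
      have h2 := (mem_filter.1 (mem_coe.1 hn)).2
      have h3 := (mem_filter.1 (mem_coe.1 hm)).2
      have h4 : n % M = m % M := h2.trans h3.symm
      have h5 : n / M = m / M := h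
      rw [← Nat.div_add_mod n M, ← Nat.div_add_mod m M, h4, h5]
  rwa [card_range] at h1

/-- the numbers `n ≤ X` with `w ∣ n + 1` and `q ∣ fa a n` -/
def AA (a : ℤ) (X w q : ℕ) : Finset ℕ :=
  (range (X + 1)).filter (fun n : ℕ => w ∣ n + 1 ∧ (q : ℤ) ∣ fa a n)

theorem combine {q w n m : ℕ} (hqw : Nat.Coprime q w) (h1 : (q : ℤ) ∣ (n : ℤ) - m)
    (hn : w ∣ n + 1) (hm : w ∣ m + 1) : n ≡ m [MOD q * w] := by
  have h2 : (w : ℤ) ∣ (n : ℤ) - m := by
    have h3 : (w : ℤ) ∣ ((n + 1 : ℕ) : ℤ) := Int.natCast_dvd_natCast.2 hn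
    have h4 : (w : ℤ) ∣ ((m + 1 : ℕ) : ℤ) := Int.natCast_dvd_natCast.2 hm
    have := dvd_sub h3 h4
    rwa [show (((n + 1 : ℕ) : ℤ) - ((m + 1 : ℕ) : ℤ)) = (n : ℤ) - m by push_cast; ring] at this
  have h5 : ((q : ℤ) * w) ∣ (n : ℤ) - m :=
    IsCoprime.mul_dvd (Nat.isCoprime_iff_coprime.2 hqw) h1 h2
  have h6 : ((q * w : ℕ) : ℤ) ∣ (m : ℤ) - n := by
    rw [← dvd_neg, neg_sub]
    rw [Nat.cast_mul]
    exact h5
  exact (Nat.modEq_iff_dvd).2 h6

theorem AA_card (a : ℤ) (X w q : ℕ) (hq : q.Prime) (hw : w.Prime) (hqw : q ≠ w) :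
    (AA a X w q).card ≤ 2 * (X / (q * w) + 1) := by
  have hcop : Nat.Coprime q w := (Nat.coprime_primes hq hw).2 hqw
  have hqp : Prime (q : ℤ) := Nat.prime_iff_prime_int.1 hq
  by_cases hne : (AA a X w q).Nonempty
  · obtain ⟨n₀, hn₀⟩ := hne
    have hn₀' := mem_filter.1 hn₀
    -- the two classes
    have hsplit : ∀ n ∈ AA a X w q, (q : ℤ) ∣ (n : ℤ) - n₀ ∨ (q : ℤ) ∣ (n : ℤ) + n₀ + a := by
      intro n hn
      have hn' := mem_filter.1 hn
      have h1 : (q : ℤ) ∣ fa a n - fa a n₀ := dvd_sub hn'.2.2 hn₀'.2.2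
      have h2 : fa a n - fa a n₀ = ((n : ℤ) - n₀) * ((n : ℤ) + n₀ + a) := by
        unfold fa; ring
      rw [h2] at h1
      exact hqp.dvd_or_dvd h1
    -- a representative of the second class
    have hex : ∃ n₁ : ℕ, ∀ n ∈ AA a X w q, (q : ℤ) ∣ (n : ℤ) + n₀ + a → n ≡ n₁ [MOD q * w] := by
      by_cases h : ∃ n₁ ∈ AA a X w q, (q : ℤ) ∣ (n₁ : ℤ) + n₀ + a
      · obtain ⟨n₁, hn₁, hn₁d⟩ := h
        refine ⟨n₁, fun n hn hd => ?_⟩
        have hn' := mem_filter.1 hn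
        have hn₁' := mem_filter.1 hn₁
        refine combine hcop ?_ hn'.2.1 hn₁'.2.1
        have := dvd_sub hd hn₁d
        rwa [show (n : ℤ) + n₀ + a - ((n₁ : ℤ) + n₀ + a) = (n : ℤ) - n₁ by ring] at this
      · refine ⟨0, fun n hn hd => ?_⟩
        exact absurd ⟨n, hn, hd⟩ h
    obtain ⟨n₁, hn₁⟩ := hex
    have hsub : AA a X w q ⊆ (range (X + 1)).filter (fun n : ℕ => n ≡ n₀ [MOD q * w]) ∪
        (range (X + 1)).filter (fun n : ℕ => n ≡ n₁ [MOD q * w]) := by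
      intro n hn
      have hn' := mem_filter.1 hn
      rw [mem_union, mem_filter, mem_filter]
      rcases hsplit n hn with h | h
      · left
        exact ⟨hn'.1, combine hcop h hn'.2.1 hn₀'.2.1⟩
      · right
        exact ⟨hn'.1, hn₁ n hn h⟩
    calc (AA a X w q).card ≤ _ := card_le_card hsub
      _ ≤ _ := card_union_le _ _
      _ ≤ (X / (q * w) + 1) + (X / (q * w) + 1) :=
          Nat.add_le_add (class_card X _ _) (class_card X _ _)
      _ = 2 * (X / (q * w) + 1) := by ring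
  · rw [not_nonempty_iff_eq_empty] at hne
    rw [hne, card_empty]
    exact Nat.zero_le _

/-- `w` itself does not divide `fa a n` -/
theorem not_w {a : ℤ} (ha : IsA a) {w n : ℕ} (hw3 : 3 < w) (hn : w ∣ n + 1) :
    ¬ (w : ℤ) ∣ fa a n := by
  intro h
  have h1 : (w : ℤ) ∣ ((n + 1 : ℕ) : ℤ) := Int.natCast_dvd_natCast.2 hn
  have h2 : fa a n = ((n + 1 : ℕ) : ℤ) * ((n : ℤ) + a - 1) + (2 - a) := by
    unfold fa; push_cast; ring
  rw [h2] at h
  have h3 : (w : ℤ) ∣ 2 - a := (dvd_add_right (Dvd.dvd.mul_right h1 _)).1 h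
  have h4 : (0 : ℤ) < 2 - a := by
    rcases ha with rfl | rfl | rfl <;> norm_num
  have h5 : (2 - a : ℤ) ≤ 3 := by
    rcases ha with rfl | rfl | rfl <;> norm_num
  have h6 := Int.le_of_dvd h4 h3
  have h7 : ((3 : ℕ) : ℤ) < (w : ℤ) := Int.ofNat_lt.2 hw3
  push_cast at h7
  linarith

theorem LL_large : ∃ X₁ : ℕ, ∀ X : ℕ, X₁ ≤ X → 2 ≤ LL X := by
  have h1 : Filter.Tendsto (fun X : ℕ => Real.log (Real.log (X : ℝ))) Filter.atTop Filter.atTop :=
    Real.tendsto_log_atTop.comp (Real.tendsto_log_atTop.comp tendsto_natCast_atTop_atTop)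
  have h2 := h1.eventually (Filter.eventually_ge_atTop (2 : ℝ))
  obtain ⟨X₁, hX₁⟩ := Filter.eventually_atTop.1 h2
  exact ⟨X₁, fun X hX => hX₁ X hX⟩

end BF1

open BF1

theorem t_BF1 (h : S_HL) : S_BF1 := by
  intro a ha η hη
  obtain ⟨X₀, hX₀⟩ := h (η / 4) (by positivity)
  obtain ⟨X₁, hX₁⟩ := LL_large
  refine ⟨max X₀ X₁, fun X hX w l hadm => ?_⟩
  have hX0 : X₀ ≤ X := le_trans (le_max_left _ _) hX
  have hX1 : X₁ ≤ X := le_trans (le_max_right _ _) hX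
  obtain ⟨hwp, hlp, hlw, hw4, hll⟩ := hadm
  have hLL := hX₁ X hX1
  have hl3 : (3 : ℝ) < l := by
    have h1 : (2 : ℝ) ^ 9 ≤ (LL X) ^ 9 := pow_le_pow_left₀ (by norm_num) hLL 9
    have h2 : (3 : ℝ) < (2 : ℝ) ^ 9 := by norm_num
    linarith
  have hl3' : 3 < l := by exact_mod_cast hl3
  have hw1 : 0 < w - 1 := Nat.sub_pos_of_lt hwp.one_lt
  have hlw' : l ≤ w - 1 := Nat.le_of_dvd hw1 hlw
  have hlw2 : l < w := by omega
  have hw3 : 3 < w := by omega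
  have hl4 : (l : ℝ) ^ 4 ≤ Real.log X := by
    have h1 : (l : ℝ) ≤ w := by exact_mod_cast hlw2.le
    have h2 : (l : ℝ) ^ 4 ≤ (w : ℝ) ^ 4 := pow_le_pow_left₀ (Nat.cast_nonneg l) h1 4
    linarith
  classical
  let F : Finset ℕ := (range (X + 2)).filter (fun q : ℕ => q.Prime ∧ q ≠ w ∧
    (l ∣ q - 1 ∨ q = l) ∧ q * w ≤ X)
  have hF := hX₀ X hX0 l hlp hll hl4 F (by
    intro q hq
    have hq' := mem_filter.1 hq
    exact ⟨hq'.2.1, Nat.lt_succ_iff.1 (mem_range.1 hq'.1), hq'.2.2.2.1⟩)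
  have hsub : {n : ℕ | 1 ≤ n ∧ n ≤ X ∧ w ∣ n + 1 ∧ ∃ q : ℕ, q.Prime ∧ (q : ℤ) ∣ fa a n ∧
      (l ∣ q - 1 ∨ q = l) ∧ q * w ≤ X} ⊆ ((F.biUnion (fun q => AA a X w q) : Finset ℕ) : Set ℕ) := by
    rintro n ⟨hn1, hnX, hwn, q, hq, hqd, hql, hqw⟩
    apply mem_coe.2
    rw [mem_biUnion]
    refine ⟨q, ?_, ?_⟩
    · apply mem_filter.2
      refine ⟨?_, hq, ?_, hql, hqw⟩
      · rw [mem_range]
        have : q ≤ q * w := Nat.le_mul_of_pos_right q hwp.pos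
        omega
      · rintro rfl
        exact not_w ha hw3 hwn hqd
    · apply mem_filter.2
      refine ⟨?_, hwn, hqd⟩
      rw [mem_range]
      omega
  have hcard : ({n : ℕ | 1 ≤ n ∧ n ≤ X ∧ w ∣ n + 1 ∧ ∃ q : ℕ, q.Prime ∧ (q : ℤ) ∣ fa a n ∧
      (l ∣ q - 1 ∨ q = l) ∧ q * w ≤ X}.ncard : ℕ) ≤ ∑ q ∈ F, (AA a X w q).card := by
    calc _ ≤ ((F.biUnion (fun q => AA a X w q) : Finset ℕ) : Set ℕ).ncard :=
          Set.ncard_le_ncard hsub (Finset.finite_toSet _)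
      _ = (F.biUnion (fun q => AA a X w q)).card := Set.ncard_coe_finset _
      _ ≤ _ := card_biUnion_le
  have hterm : ∀ q ∈ F, (((AA a X w q).card : ℕ) : ℝ) ≤ (4 * X / w) * (1 / q) := by
    intro q hq
    have hq' := mem_filter.1 hq
    have hqp := hq'.2.1
    have hqne := hq'.2.2.1
    have hqX := hq'.2.2.2.2
    have h1 := AA_card a X w q hqp hwp hqne
    have h2 : (((AA a X w q).card : ℕ) : ℝ) ≤ 2 * (((X / (q * w) : ℕ) : ℝ) + 1) := by
      exact_mod_cast h1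
    have h3 : ((X / (q * w) : ℕ) : ℝ) ≤ (X : ℝ) / (q * w) := by
      have := @Nat.cast_div_le ℝ _ _ _ X (q * w)
      rwa [Nat.cast_mul] at this
    have hq0 : (0 : ℝ) < q := by exact_mod_cast hqp.pos
    have hw0 : (0 : ℝ) < w := by exact_mod_cast hwp.pos
    have h4 : (1 : ℝ) ≤ (X : ℝ) / (q * w) := by
      rw [le_div_iff₀ (by positivity), one_mul]
      exact_mod_cast hqX
    have h5 : (4 * (X : ℝ) / w) * (1 / q) = 4 * ((X : ℝ) / (q * w)) := by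
      field_simp
    rw [h5]
    linarith
  have hw0 : (0 : ℝ) < w := by exact_mod_cast hwp.pos
  calc (({n : ℕ | 1 ≤ n ∧ n ≤ X ∧ w ∣ n + 1 ∧ ∃ q : ℕ, q.Prime ∧ (q : ℤ) ∣ fa a n ∧
      (l ∣ q - 1 ∨ q = l) ∧ q * w ≤ X}.ncard : ℕ) : ℝ)
      ≤ ((∑ q ∈ F, (AA a X w q).card : ℕ) : ℝ) := by exact_mod_cast hcard
    _ = ∑ q ∈ F, (((AA a X w q).card : ℕ) : ℝ) := by push_cast; rfl
    _ ≤ ∑ q ∈ F, (4 * (X : ℝ) / w) * (1 / (q : ℝ)) := sum_le_sum hterm
    _ = (4 * (X : ℝ) / w) * ∑ q ∈ F, (1 : ℝ) / q := by rw [mul_sum]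
    _ ≤ (4 * (X : ℝ) / w) * (η / 4) := by
        apply mul_le_mul_of_nonneg_left hF
        positivity
    _ = η * ((X : ℝ) / w) := by ring

end Pool.Agent.H183.GL
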