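import Pool.Agent.H183.GL.Stm

/-!
# Prime factors `q` near `X` of the quadratic polynomials are negligible

For a prime `q` with `X < q w` at most two `n ≤ X` with `w ∣ n + 1` have `q ∣ fa a n`; there are
few primes `q ≤ 2 X l w` by Chebyshev.
-/

set_option autoImplicit false

namespace Pool.Agent.H183.GL

open Finset Pool.Agent.H183.MU

namespace BF2

lemma key (a : ℤ) (X w q m n : ℕ) (hw : w.Prime) (hq : q.Prime) (hqw : q ≠ w)
    (hX : X < q * w) (hm : m ≤ X) (hn : n ≤ X) (hwm : w ∣ m + 1) (hwn : w ∣ n + 1)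
    (hqm : (q : ℤ) ∣ fa a m) (hqn : (q : ℤ) ∣ fa a n) (hmn : m ≠ n) :
    (q : ℤ) ∣ (m : ℤ) + n + a := by
  have hdiff : (q : ℤ) ∣ ((m : ℤ) - n) * ((m : ℤ) + n + a) := by
    have h := dvd_sub hqm hqn
    have he : fa a m - fa a n = ((m : ℤ) - n) * ((m : ℤ) + n + a) := by
      unfold fa; ring
    rwa [he] at h
  rcases (Nat.prime_iff_prime_int.mp hq).dvd_or_dvd hdiff with h | h
  · exfalso
    have hw' : (w : ℤ) ∣ (m : ℤ) - n := by
      have h1 : (w : ℤ) ∣ ((m + 1 : ℕ) : ℤ) := Int.natCast_dvd_natCast.mpr hwm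
      have h2 : (w : ℤ) ∣ ((n + 1 : ℕ) : ℤ) := Int.natCast_dvd_natCast.mpr hwn
      have h3 := dvd_sub h1 h2
      have he : ((m + 1 : ℕ) : ℤ) - ((n + 1 : ℕ) : ℤ) = (m : ℤ) - n := by
        push_cast; ring
      rwa [he] at h3
    have hcop : IsCoprime (q : ℤ) (w : ℤ) :=
      Nat.isCoprime_iff_coprime.mpr ((Nat.coprime_primes hq hw).mpr hqw)
    have hprod : ((q : ℤ) * w) ∣ (m : ℤ) - n := hcop.mul_dvd h hw'
    have hne : (m : ℤ) - n ≠ 0 := by
      intro h0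
      apply hmn
      have : (m : ℤ) = n := by linarith
      exact_mod_cast this
    have hle := Int.le_of_dvd (abs_pos.mpr hne) ((dvd_abs _ _).mpr hprod)
    have hX' : (X : ℤ) < (q : ℤ) * w := by exact_mod_cast hX
    have hm' : (m : ℤ) ≤ X := by exact_mod_cast hm
    have hn' : (n : ℤ) ≤ X := by exact_mod_cast hn
    have hm0 : (0 : ℤ) ≤ m := by positivity
    have hn0 : (0 : ℤ) ≤ n := by positivity
    have habs : |(m : ℤ) - n| ≤ X := abs_le.mpr ⟨by linarith, by linarith⟩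
    linarith
  · exact h

lemma card_q (a : ℤ) (X w q : ℕ) (hw : w.Prime) (hq : q.Prime) (hqw : q ≠ w)
    (hX : X < q * w) :
    ((Finset.Icc 1 X).filter (fun n : ℕ => w ∣ n + 1 ∧ (q : ℤ) ∣ fa a n)).card ≤ 2 := by
  by_contra hcon
  push Not at hcon
  obtain ⟨n1, h1, n2, h2, n3, h3, h12, h13, h23⟩ := Finset.two_lt_card.mp hcon
  simp only [Finset.mem_filter, Finset.mem_Icc] at h1 h2 h3
  have k12 := key a X w q n1 n2 hw hq hqw hX h1.1.2 h2.1.2 h1.2.1 h2.2.1 h1.2.2 h2.2.2 h12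
  have k13 := key a X w q n1 n3 hw hq hqw hX h1.1.2 h3.1.2 h1.2.1 h3.2.1 h1.2.2 h3.2.2 h13
  have hd : (q : ℤ) ∣ (n2 : ℤ) - n3 := by
    have h := dvd_sub k12 k13
    have he : ((n1 : ℤ) + n2 + a) - ((n1 : ℤ) + n3 + a) = (n2 : ℤ) - n3 := by ring
    rwa [he] at h
  have hw' : (w : ℤ) ∣ (n2 : ℤ) - n3 := by
    have h1' : (w : ℤ) ∣ ((n2 + 1 : ℕ) : ℤ) := Int.natCast_dvd_natCast.mpr h2.2.1
    have h2' : (w : ℤ) ∣ ((n3 + 1 : ℕ) : ℤ) := Int.natCast_dvd_natCast.mpr h3.2.1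
    have h3' := dvd_sub h1' h2'
    have he : ((n2 + 1 : ℕ) : ℤ) - ((n3 + 1 : ℕ) : ℤ) = (n2 : ℤ) - n3 := by
      push_cast; ring
    rwa [he] at h3'
  have hcop : IsCoprime (q : ℤ) (w : ℤ) :=
    Nat.isCoprime_iff_coprime.mpr ((Nat.coprime_primes hq hw).mpr hqw)
  have hprod : ((q : ℤ) * w) ∣ (n2 : ℤ) - n3 := hcop.mul_dvd hd hw'
  have hne : (n2 : ℤ) - n3 ≠ 0 := by
    intro h0
    apply h23
    have : (n2 : ℤ) = n3 := by linarith
    exact_mod_cast this
  have hle := Int.le_of_dvd (abs_pos.mpr hne) ((dvd_abs _ _).mpr hprod)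
  have hX' : (X : ℤ) < (q : ℤ) * w := by exact_mod_cast hX
  have hm' : (n2 : ℤ) ≤ X := by exact_mod_cast h2.1.2
  have hn' : (n3 : ℤ) ≤ X := by exact_mod_cast h3.1.2
  have hm0 : (0 : ℤ) ≤ n2 := by positivity
  have hn0 : (0 : ℤ) ≤ n3 := by positivity
  have habs : |(n2 : ℤ) - n3| ≤ X := abs_le.mpr ⟨by linarith, by linarith⟩
  linarith

end BF2

theorem t_BF2 : S_BF2 := by
  intro a _ η hη
  have h1 := Chebyshev.eventually_primeCounting_le (ε := 1 / 2) (by norm_num)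
  obtain ⟨N0, hN0⟩ := Filter.eventually_atTop.mp h1
  have h2 := Filter.tendsto_atTop.mp
    (Real.tendsto_log_atTop.comp tendsto_natCast_atTop_atTop) (max ((8 / η) ^ 4) 1)
  obtain ⟨X₁, hX₁⟩ := Filter.eventually_atTop.mp h2
  refine ⟨max (max X₁ ⌈N0⌉₊) 3, ?_⟩
  intro X hX w l hadm
  obtain ⟨hw, hl, hlw, hw4, _⟩ := hadm
  have hXX₁ : X₁ ≤ X := le_trans (le_trans (le_max_left _ _) (le_max_left _ _)) hX
  have hXN : ⌈N0⌉₊ ≤ X := le_trans (le_trans (le_max_right _ _) (le_max_left _ _)) hX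
  have hX3 : 3 ≤ X := le_trans (le_max_right _ _) hX
  have hlog := hX₁ X hXX₁
  simp only [Function.comp] at hlog
  have hlogK : (8 / η) ^ 4 ≤ Real.log X := le_trans (le_max_left _ _) hlog
  have hlog1 : 1 ≤ Real.log X := le_trans (le_max_right _ _) hlog
  have hlogpos : 0 < Real.log X := by linarith
  have hXpos : (0 : ℝ) < X := by
    have : (3 : ℝ) ≤ X := by exact_mod_cast hX3
    linarith
  have hwpos : (0 : ℝ) < w := by exact_mod_cast hw.pos
  have hlpos : (0 : ℝ) < l := by exact_mod_cast hl.pos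
  -- `l ≤ w`
  have hlw' : l ≤ w := by
    have : l ≤ w - 1 := Nat.le_of_dvd (Nat.sub_pos_of_lt hw.one_lt) hlw
    omega
  -- `w ^ 2 ≤ X`
  have hlogX : Real.log X ≤ X := by
    have := Real.log_le_sub_one_of_pos hXpos
    linarith
  have hw1 : (1 : ℝ) ≤ w := by exact_mod_cast hw.one_lt.le
  have hw2X : w * w ≤ X := by
    have h : (w : ℝ) * w ≤ X := by
      have h4 : (w : ℝ) * w ≤ (w : ℝ) ^ 4 := by
        have : (w : ℝ) ^ 2 ≤ (w : ℝ) ^ 4 := pow_le_pow_right₀ hw1 (by norm_num)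
        nlinarith
      linarith
    exact_mod_cast h
  -- the set is covered
  set N : ℕ := 2 * X * l * w with hN
  have hcover : {n : ℕ | 1 ≤ n ∧ n ≤ X ∧ w ∣ n + 1 ∧ ∃ q : ℕ, q.Prime ∧ (q : ℤ) ∣ fa a n ∧
      X < q * w ∧ q ≤ 2 * X * l * w} ⊆
      ((((Nat.primesLE N).filter (fun q => X < q * w)).biUnion (fun q =>
        (Finset.Icc 1 X).filter (fun n : ℕ => w ∣ n + 1 ∧ (q : ℤ) ∣ fa a n)) : Finset ℕ) :
          Set ℕ) := by
    rintro n ⟨hn1, hnX, hwn, q, hq, hqn, hXq, hqN⟩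
    simp only [Finset.coe_biUnion, Set.mem_iUnion, Finset.mem_coe, Finset.mem_filter,
      Finset.mem_Icc]
    exact ⟨q, ⟨Nat.mem_primesLE.mpr ⟨hqN, hq⟩, hXq⟩, ⟨hn1, hnX⟩, hwn, hqn⟩
  have hcard1 : ({n : ℕ | 1 ≤ n ∧ n ≤ X ∧ w ∣ n + 1 ∧ ∃ q : ℕ, q.Prime ∧ (q : ℤ) ∣ fa a n ∧
      X < q * w ∧ q ≤ 2 * X * l * w}).ncard ≤ 2 * Nat.primeCounting N := by
    calc _ ≤ Set.ncard ((((Nat.primesLE N).filter (fun q => X < q * w)).biUnion (fun q =>
        (Finset.Icc 1 X).filter (fun n : ℕ => w ∣ n + 1 ∧ (q : ℤ) ∣ fa a n)) : Finset ℕ) :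
          Set ℕ) := Set.ncard_le_ncard hcover (Finset.finite_toSet _)
      _ = _ := Set.ncard_coe_finset _
      _ ≤ ∑ q ∈ (Nat.primesLE N).filter (fun q => X < q * w),
          ((Finset.Icc 1 X).filter (fun n : ℕ => w ∣ n + 1 ∧ (q : ℤ) ∣ fa a n)).card :=
        Finset.card_biUnion_le
      _ ≤ ∑ _q ∈ (Nat.primesLE N).filter (fun q => X < q * w), 2 := by
        apply Finset.sum_le_sum
        intro q hq
        obtain ⟨hqm, hqX⟩ := Finset.mem_filter.mp hq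
        have hqp : q.Prime := (Nat.mem_primesLE.mp hqm).2
        have hqw : q ≠ w := by
          rintro rfl
          omega
        exact BF2.card_q a X w q hw hqp hqw hqX
      _ = ((Nat.primesLE N).filter (fun q => X < q * w)).card * 2 := by
        rw [Finset.sum_const, smul_eq_mul]
      _ ≤ (Nat.primesLE N).card * 2 :=
        Nat.mul_le_mul_right 2 (Finset.card_filter_le _ _)
      _ = 2 * Nat.primeCounting N := by
        rw [Nat.primesLE_card_eq_primeCounting, mul_comm]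
  -- Chebyshev
  have hNX : X ≤ N := by
    rw [hN]
    have h1 : 1 ≤ l := hl.one_lt.le
    have h2 : 1 ≤ w := hw.one_lt.le
    calc X = X * 1 * 1 := by ring
      _ ≤ (2 * X) * l * w := by
        apply Nat.mul_le_mul _ h2
        apply Nat.mul_le_mul _ h1
        omega
  have hNX' : (X : ℝ) ≤ (N : ℝ) := by exact_mod_cast hNX
  have hNN0 : N0 ≤ (N : ℝ) := le_trans (Nat.le_ceil N0) (by exact_mod_cast le_trans hXN hNX)
  have hcheb := hN0 (N : ℝ) hNN0
  rw [Nat.floor_natCast] at hcheb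
  have hlogN : Real.log X ≤ Real.log N := Real.log_le_log hXpos hNX'
  have hlogNpos : 0 < Real.log N := by linarith
  have hlog4 : Real.log 4 + 1 / 2 ≤ 2 := by
    have h : Real.log 4 = 2 * Real.log 2 := by
      rw [show (4 : ℝ) = 2 ^ 2 by norm_num, Real.log_pow]; norm_num
    have := Real.log_two_lt_d9
    rw [h]; linarith
  have hNpos : (0 : ℝ) < N := by linarith
  have hpi : (Nat.primeCounting N : ℝ) ≤ 2 * N / Real.log X := by
    calc (Nat.primeCounting N : ℝ) ≤ (Real.log 4 + 1 / 2) * N / Real.log N := hcheb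
      _ ≤ 2 * N / Real.log N := by
        apply div_le_div_of_nonneg_right _ hlogNpos.le
        exact mul_le_mul_of_nonneg_right hlog4 hNpos.le
      _ ≤ 2 * N / Real.log X := by
        apply div_le_div_of_nonneg_left (by positivity) hlogpos hlogN
  have hNreal : (N : ℝ) = 2 * X * l * w := by
    rw [hN]; push_cast; ring
  -- `8 l w ^ 2 ≤ η log X`
  have hmain : 8 * (l : ℝ) * w ^ 2 ≤ η * Real.log X := by
    have hlw3 : 8 * (l : ℝ) * w ^ 2 ≤ 8 * (w : ℝ) ^ 3 := by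
      have : (l : ℝ) ≤ w := by exact_mod_cast hlw'
      have h2 : (0 : ℝ) ≤ (w : ℝ) ^ 2 := by positivity
      nlinarith
    have h3 : (8 / η) * (w : ℝ) ^ 3 ≤ Real.log X := by
      rcases le_or_gt (8 / η) (w : ℝ) with h | h
      · calc (8 / η) * (w : ℝ) ^ 3 ≤ w * (w : ℝ) ^ 3 :=
            mul_le_mul_of_nonneg_right h (by positivity)
          _ = (w : ℝ) ^ 4 := by ring
          _ ≤ Real.log X := hw4
      · calc (8 / η) * (w : ℝ) ^ 3 ≤ (8 / η) * (8 / η) ^ 3 := by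
              apply mul_le_mul_of_nonneg_left _ (by positivity)
              exact pow_le_pow_left₀ hwpos.le h.le 3
          _ = (8 / η) ^ 4 := by ring
          _ ≤ Real.log X := hlogK
    have h4 : η * ((8 / η) * (w : ℝ) ^ 3) ≤ η * Real.log X :=
      mul_le_mul_of_nonneg_left h3 hη.le
    have h5 : η * ((8 / η) * (w : ℝ) ^ 3) = 8 * (w : ℝ) ^ 3 := by
      field_simp
    linarith
  calc (({n : ℕ | 1 ≤ n ∧ n ≤ X ∧ w ∣ n + 1 ∧ ∃ q : ℕ, q.Prime ∧ (q : ℤ) ∣ fa a n ∧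
      X < q * w ∧ q ≤ 2 * X * l * w}.ncard : ℕ) : ℝ) ≤ ((2 * Nat.primeCounting N : ℕ) : ℝ) := by
        exact_mod_cast hcard1
    _ = 2 * (Nat.primeCounting N : ℝ) := by push_cast; ring
    _ ≤ 2 * (2 * N / Real.log X) := by linarith
    _ = (8 * (l : ℝ) * w ^ 2) * X / (Real.log X * w) := by
      rw [hNreal]; field_simp; ring
    _ ≤ (η * Real.log X) * X / (Real.log X * w) := by
      apply div_le_div_of_nonneg_right _ (by positivity)
      exact mul_le_mul_of_nonneg_right hmain hXpos.le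
    _ = η * ((X : ℝ) / w) := by
      field_simp

end Pool.Agent.H183.GL
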