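import Pool.Agent.H183.GL.Stm

/-!
# Project GL (helper183): `S_BF3` (helper767)
-/

set_option autoImplicit false

namespace Pool.Agent.H183.GL

open Finset Pool.Agent.H183.MU

namespace BF3

theorem fa_pos {a : ℤ} (ha : IsA a) {n : ℕ} (hn : 1 ≤ n) : 0 < fa a n := by
  have h1 : (1 : ℤ) ≤ n := by exact_mod_cast hn
  unfold fa
  rcases ha with h | h | h <;> subst h <;> nlinarith

theorem fa_le {a : ℤ} (ha : IsA a) {n X : ℕ} (hn : n ≤ X) : fa a n ≤ (X : ℤ) ^ 2 + X + 1 := by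
  have h0 : (0 : ℤ) ≤ n := Int.natCast_nonneg n
  have h1 : (n : ℤ) ≤ X := by exact_mod_cast hn
  have h2 : (n : ℤ) ^ 2 ≤ (X : ℤ) ^ 2 := pow_le_pow_left₀ h0 h1 2
  unfold fa
  rcases ha with h | h | h <;> subst h <;> linarith

theorem KK_cases (a : ℤ) : KK a = 3 ∨ KK a = 4 := by
  unfold KK
  split_ifs
  · exact Or.inr rfl
  · exact Or.inl rfl

theorem sum_rho (h1 : S_RHO1) (h2 : S_RHO2) {a : ℤ} (ha : IsA a) {y : ℕ} (hy : 1 ≤ y) :
    ∑ c ∈ Icc 1 y, ((rho a c : ℕ) : ℝ) ≤ 4 * y := by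
  refine le_trans ?_ (h2 (KK a) (KK_cases a) y hy)
  have h3 : ∑ c ∈ Icc 1 y, ((rho a c : ℕ) : ℤ) ≤ ∑ c ∈ Icc 1 y, rr (KK a) c :=
    Finset.sum_le_sum fun c hc => h1 a ha c (Finset.mem_Icc.mp hc).1
  have h4 : ((∑ c ∈ Icc 1 y, ((rho a c : ℕ) : ℤ) : ℤ) : ℝ) ≤
      ((∑ c ∈ Icc 1 y, rr (KK a) c : ℤ) : ℝ) := by exact_mod_cast h3
  refine le_trans (le_of_eq ?_) h4
  push_cast
  rfl

/-- the cofactor -/
theorem cofactor {a : ℤ} (ha : IsA a) {X w l n q : ℕ} (hX : 2 ≤ X) (hn1 : 1 ≤ n) (hn : n ≤ X)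
    (hw : 1 ≤ w) (hl : 1 ≤ l) (hq : (q : ℤ) ∣ fa a n) (hlt : 2 * X * l * w < q) :
    ∃ c : ℕ, 1 ≤ c ∧ c * l * w ≤ X ∧ X < q ∧ (c : ℤ) * q = fa a n := by
  obtain ⟨b, hb⟩ := hq
  have hpos := fa_pos ha hn1
  have hle := fa_le ha hn
  have hq0 : (0 : ℤ) < q := by
    have : 0 < q := lt_of_le_of_lt (Nat.zero_le _) hlt
    exact_mod_cast this
  have hb0 : 0 < b := by
    rw [hb] at hpos
    exact (mul_pos_iff_of_pos_left hq0).mp hpos
  obtain ⟨c, rfl⟩ := Int.eq_ofNat_of_zero_le hb0.le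
  have hc1 : 1 ≤ c := by
    have : (0 : ℤ) < (c : ℤ) := hb0
    exact_mod_cast this
  refine ⟨c, hc1, ?_, ?_, by rw [hb]; ring⟩
  · by_contra hcon
    rw [not_le] at hcon
    have h1 : (X : ℤ) + 1 ≤ (c : ℤ) * l * w := by exact_mod_cast hcon
    have h2 : (2 * X * l * w : ℤ) + 1 ≤ q := by exact_mod_cast hlt
    have h3 : (c : ℤ) * (2 * X * l * w + 1) ≤ c * q :=
      mul_le_mul_of_nonneg_left h2 (Int.natCast_nonneg c)
    have h4 : (q : ℤ) * c ≤ (X : ℤ) ^ 2 + X + 1 := by rw [← hb]; exact hle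
    have hX' : (2 : ℤ) ≤ X := by exact_mod_cast hX
    have hc' : (1 : ℤ) ≤ c := by exact_mod_cast hc1
    have h5 : 2 * (X : ℤ) * (X + 1) ≤ 2 * X * (c * l * w) :=
      mul_le_mul_of_nonneg_left h1 (by linarith)
    nlinarith
  · have h1 : X * 1 ≤ 2 * X * l * w := by
      calc X * 1 ≤ X * (2 * l * w) := Nat.mul_le_mul_left _ (by
            have : 1 * 1 ≤ l * w := Nat.mul_le_mul hl hw
            nlinarith)
        _ = 2 * X * l * w := by ring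
    omega

/-- largeness -/
theorem large (K η : ℝ) : ∃ X₀ : ℕ, ∀ X : ℕ, X₀ ≤ X →
    1024 ≤ X ∧ 2 ≤ LL X ∧ K / η ≤ LL X := by
  have h1 : Filter.Tendsto (fun X : ℕ => LL X) Filter.atTop Filter.atTop := by
    unfold LL
    exact Real.tendsto_log_atTop.comp (Real.tendsto_log_atTop.comp tendsto_natCast_atTop_atTop)
  obtain ⟨X₀, hX₀⟩ := Filter.eventually_atTop.mp
    ((Filter.eventually_ge_atTop 1024).and
      ((h1.eventually_ge_atTop 2).and (h1.eventually_ge_atTop (K / η))))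
  exact ⟨X₀, fun X hX => ⟨(hX₀ X hX).1, (hX₀ X hX).2.1, (hX₀ X hX).2.2⟩⟩

theorem log_le {x : ℝ} (hx : 1024 ≤ x) : 16 * Real.log x ≤ x := by
  have hx0 : 0 < x := by linarith
  have hs : 0 < Real.sqrt x := Real.sqrt_pos.mpr hx0
  have hsq : Real.sqrt x ^ 2 = x := Real.sq_sqrt hx0.le
  have h1 : Real.log x = 2 * Real.log (Real.sqrt x) := by
    rw [Real.log_sqrt hx0.le]
    ring
  have h2 := Real.log_le_sub_one_of_pos hs
  have h3 : 32 ≤ Real.sqrt x := by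
    rw [Real.le_sqrt' (by norm_num)]
    norm_num
    exact hx
  nlinarith

theorem BB_nonneg {x : ℝ} (hx : 0 ≤ x) : 0 ≤ BB x := by
  unfold BB
  exact div_nonneg hx (Real.log_nonneg (by linarith))

theorem kap_nonneg (q : ℕ) : 0 ≤ kap q := by
  unfold kap
  positivity

end BF3

open BF3 in
theorem t_BF3 (hA : S_F3A) (hB : S_F3B) (hk : S_KAP) (hl : S_LOGS) (h1 : S_RHO1) (h2 : S_RHO2) :
    S_BF3 := by
  intro a ha η hη
  obtain ⟨CA, hCA, HA⟩ := hA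
  obtain ⟨CB, hCB, HB⟩ := hB
  obtain ⟨X1, HK⟩ := hk
  obtain ⟨C', hC', HL⟩ := hl
  obtain ⟨X2, HX⟩ := large ((CA + CB) * (C' * 4)) η
  refine ⟨max X1 X2, fun X hX w l hadm => ?_⟩
  obtain ⟨hX1024, hLL2, hLLK⟩ := HX X ((le_max_right _ _).trans hX)
  have hKX := HK X ((le_max_left _ _).trans hX)
  obtain ⟨hw, hlp, hlw, hw4, hll⟩ := hadm
  have hX2 : 2 ≤ X := by omega
  have hXr : (1024 : ℝ) ≤ X := by exact_mod_cast hX1024
  have hX0 : (0 : ℝ) < X := by linarith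
  have hw1 : 1 ≤ w := hw.one_lt.le
  have hl1 : 1 ≤ l := hlp.one_lt.le
  have hwr : (0 : ℝ) < w := by exact_mod_cast hw.pos
  have hlr : (0 : ℝ) < l := by exact_mod_cast hlp.pos
  have hlwle : l ≤ w := by
    have h3 : 0 < w - 1 := by
      have := hw.one_lt
      omega
    have := Nat.le_of_dvd h3 hlw
    omega
  have hLL0 : 0 ≤ LL X := by linarith
  -- `l > 3`
  have hl3 : 3 < l := by
    have h3 : (2 : ℝ) ^ 9 ≤ (LL X) ^ 9 := pow_le_pow_left₀ (by norm_num) hLL2 9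
    have h4 : (3 : ℝ) < l := by
      have : (2 : ℝ) ^ 9 ≤ l := h3.trans hll
      norm_num at this
      linarith
    exact_mod_cast h4
  -- `Y`
  obtain ⟨Y, hY⟩ : ∃ Y : ℝ, Y = X / ((l : ℝ) * w) := ⟨_, rfl⟩
  have hlwr : (0 : ℝ) < (l : ℝ) * w := by positivity
  have hlog1 : 1 ≤ Real.log X := by
    have h3 : (1 : ℝ) ≤ (w : ℝ) ^ 4 := one_le_pow₀ (by exact_mod_cast hw1)
    linarith
  have hlwlog : (l : ℝ) * w ≤ Real.log X := by
    have h3 : (l : ℝ) * w ≤ (w : ℝ) ^ 2 := by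
      rw [sq]
      exact mul_le_mul_of_nonneg_right (by exact_mod_cast hlwle) hwr.le
    have h4 : (w : ℝ) ^ 2 ≤ (w : ℝ) ^ 4 :=
      pow_le_pow_right₀ (by exact_mod_cast hw1) (by norm_num)
    linarith
  have hY16 : 16 ≤ Y := by
    rw [hY, le_div_iff₀ hlwr]
    have h3 := log_le hXr
    linarith
  have hYX : Y ≤ X := by
    rw [hY]
    refine div_le_self hX0.le ?_
    have h3 : (1 : ℝ) ≤ l := by exact_mod_cast hl1
    have h4 : (1 : ℝ) ≤ w := by exact_mod_cast hw1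
    nlinarith
  have hY0 : 0 < Y := by linarith
  have hloglog : Real.log (Real.log Y) ≤ LL X := by
    unfold LL
    have h3 : 0 < Real.log Y := Real.log_pos (by linarith)
    exact Real.log_le_log h3 (Real.log_le_log hY0 hYX)
  -- the sets
  let I : Finset ℕ := Icc 1 ⌊Y⌋₊
  let A : ℕ → Set ℕ := fun c => {n : ℕ | ¬ l ∣ c ∧ 1 ≤ n ∧ n ≤ X ∧ w ∣ n + 1 ∧ ∃ q : ℕ, q.Prime ∧
    X < q ∧ l ∣ q - 1 ∧ (c : ℤ) * q = fa a n}
  let B : ℕ → Set ℕ := fun c => {n : ℕ | 1 ≤ n ∧ n ≤ X ∧ w ∣ n + 1 ∧ ∃ q : ℕ, q.Prime ∧ X < q ∧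
    ((l * c : ℕ) : ℤ) * q = fa a n}
  have hI : ∀ c, 1 ≤ c → c * l * w ≤ X → c ∈ I := by
    intro c hc hcX
    rw [Finset.mem_Icc]
    refine ⟨hc, Nat.le_floor ?_⟩
    rw [hY, le_div_iff₀ hlwr, ← mul_assoc]
    exact_mod_cast hcX
  have hI' : ∀ c ∈ I, 1 ≤ c ∧ c * l * w ≤ X := by
    intro c hc
    rw [Finset.mem_Icc] at hc
    refine ⟨hc.1, ?_⟩
    have h3 : (c : ℝ) ≤ Y := le_trans (by exact_mod_cast hc.2) (Nat.floor_le hY0.le)
    rw [hY, le_div_iff₀ hlwr, ← mul_assoc] at h3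
    exact_mod_cast h3
  have hsub : {n : ℕ | 1 ≤ n ∧ n ≤ X ∧ w ∣ n + 1 ∧ ∃ q : ℕ, q.Prime ∧ (q : ℤ) ∣ fa a n ∧
      l ∣ q - 1 ∧ 2 * X * l * w < q} ⊆ (⋃ c ∈ I, A c) ∪ ⋃ c ∈ I, B c := by
    rintro n ⟨hn1, hnX, hwn, q, hq, hqd, hlq, hlt⟩
    obtain ⟨c, hc1, hcX, hXq, hcq⟩ := cofactor ha hX2 hn1 hnX hw1 hl1 hqd hlt
    by_cases hlc : l ∣ c
    · obtain ⟨c1, rfl⟩ := hlc
      have hc11 : 1 ≤ c1 := by
        rcases Nat.eq_zero_or_pos c1 with h | h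
        · subst h
          simp at hc1
        · exact h
      refine Or.inr (Set.mem_iUnion₂.mpr ⟨c1, hI c1 hc11 ?_, hn1, hnX, hwn, q, hq, hXq, hcq⟩)
      calc c1 * l * w ≤ l * c1 * l * w := by
            refine Nat.mul_le_mul_right _ (Nat.mul_le_mul_right _ ?_)
            exact Nat.le_mul_of_pos_left _ hlp.pos
        _ ≤ X := hcX
    · exact Or.inl (Set.mem_iUnion₂.mpr ⟨c, hI c hc1 hcX, hlc, hn1, hnX, hwn, q, hq, hXq, hlq, hcq⟩)
  have hfin : ((⋃ c ∈ I, A c) ∪ ⋃ c ∈ I, B c).Finite := by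
    refine (Set.finite_Iic X).subset ?_
    rintro n (hn | hn)
    · obtain ⟨c, -, hc⟩ := Set.mem_iUnion₂.mp hn
      exact hc.2.2.1
    · obtain ⟨c, -, hc⟩ := Set.mem_iUnion₂.mp hn
      exact hc.2.1
  have hcard := Set.ncard_le_ncard hsub hfin
  have hcard2 : ((⋃ c ∈ I, A c) ∪ ⋃ c ∈ I, B c).ncard ≤
      ∑ c ∈ I, (A c).ncard + ∑ c ∈ I, (B c).ncard :=
    (Set.ncard_union_le _ _).trans (add_le_add (Finset.set_ncard_biUnion_le I A)
      (Finset.set_ncard_biUnion_le I B))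
  have hBBeq : ∀ c : ℕ, BB ((X : ℝ) / (c * l * w)) = BB (Y / c) := by
    intro c
    congr 1
    rw [hY, div_div]
    congr 1
    ring
  have hAc : ∀ c ∈ I, ((A c).ncard : ℝ) ≤ CA * (LL X) ^ 4 * ((rho a c : ℝ) * BB (Y / c)) := by
    intro c hc
    obtain ⟨hc1, hcX⟩ := hI' c hc
    have hbb : 0 ≤ BB (Y / c) := BB_nonneg (by positivity)
    have hkk := hKX (c * l * w) (by
      have : 0 < c * l * w := by positivity
      exact this) hcX
    by_cases hlc : l ∣ c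
    · have h3 : A c = ∅ := by
        ext n
        simp only [A, Set.mem_ofPred_eq, Set.mem_empty_iff_false, iff_false]
        exact fun h => h.1 hlc
      rw [h3, Set.ncard_empty, Nat.cast_zero]
      positivity
    · have h3 := HA a ha X w l c hw hlp hl3 hlw hc1 hcX hlc
      have h4 : A c = {n : ℕ | 1 ≤ n ∧ n ≤ X ∧ w ∣ n + 1 ∧ ∃ q : ℕ, q.Prime ∧ X < q ∧ l ∣ q - 1 ∧
          (c : ℤ) * q = fa a n} := by
        ext n
        simp only [A, Set.mem_ofPred_eq]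
        exact ⟨fun h => h.2, fun h => ⟨hlc, h⟩⟩
      rw [h4]
      refine h3.trans ?_
      rw [hBBeq]
      calc CA * (rho a c : ℝ) * kap (c * l * w) * BB (Y / c)
          ≤ CA * (rho a c : ℝ) * (LL X) ^ 4 * BB (Y / c) := by
            refine mul_le_mul_of_nonneg_right ?_ hbb
            exact mul_le_mul_of_nonneg_left hkk (by positivity)
        _ = CA * (LL X) ^ 4 * ((rho a c : ℝ) * BB (Y / c)) := by ring
  have hBc : ∀ c ∈ I, ((B c).ncard : ℝ) ≤ CB * (LL X) ^ 4 * ((rho a c : ℝ) * BB (Y / c)) := by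
    intro c hc
    obtain ⟨hc1, hcX⟩ := hI' c hc
    have hbb : 0 ≤ BB (Y / c) := BB_nonneg (by positivity)
    have hkk := hKX (c * l * w) (by
      have : 0 < c * l * w := by positivity
      exact this) hcX
    have h3 := HB a ha X w l c hw hlp hl3 hlw hc1 hcX
    refine h3.trans ?_
    rw [hBBeq]
    calc CB * (rho a c : ℝ) * kap (c * l * w) * BB (Y / c)
        ≤ CB * (rho a c : ℝ) * (LL X) ^ 4 * BB (Y / c) := by
          refine mul_le_mul_of_nonneg_right ?_ hbb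
          exact mul_le_mul_of_nonneg_left hkk (by positivity)
      _ = CB * (LL X) ^ 4 * ((rho a c : ℝ) * BB (Y / c)) := by ring
  have hS := HL (fun c => (rho a c : ℝ)) 4 (fun c => Nat.cast_nonneg _)
    (fun y hy => sum_rho h1 h2 ha hy) Y hY16
  -- the final estimate
  have hfinal : ((∑ c ∈ I, (A c).ncard + ∑ c ∈ I, (B c).ncard : ℕ) : ℝ) ≤
      (CA + CB) * (LL X) ^ 4 * (C' * 4 * Y * LL X) := by
    push_cast
    calc ∑ c ∈ I, ((A c).ncard : ℝ) + ∑ c ∈ I, ((B c).ncard : ℝ)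
        ≤ ∑ c ∈ I, CA * (LL X) ^ 4 * ((rho a c : ℝ) * BB (Y / c)) +
          ∑ c ∈ I, CB * (LL X) ^ 4 * ((rho a c : ℝ) * BB (Y / c)) :=
          add_le_add (Finset.sum_le_sum hAc) (Finset.sum_le_sum hBc)
      _ = (CA + CB) * (LL X) ^ 4 * ∑ c ∈ I, (rho a c : ℝ) * BB (Y / c) := by
          rw [← Finset.mul_sum, ← Finset.mul_sum]
          ring
      _ ≤ (CA + CB) * (LL X) ^ 4 * (C' * 4 * Y * LL X) := by
          refine mul_le_mul_of_nonneg_left ?_ (by positivity)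
          refine hS.trans ?_
          exact mul_le_mul_of_nonneg_left hloglog (by positivity)
  have hKl : (CA + CB) * (C' * 4) * (LL X) ^ 5 ≤ η * l := by
    have h3 : (CA + CB) * (C' * 4) ≤ η * LL X := by
      rw [div_le_iff₀ hη] at hLLK
      linarith
    have h4 : LL X ≤ (LL X) ^ 4 := by
      calc LL X = LL X ^ 1 := (pow_one _).symm
        _ ≤ LL X ^ 4 := pow_le_pow_right₀ (by linarith) (by norm_num)
    calc (CA + CB) * (C' * 4) * (LL X) ^ 5 ≤ (η * (LL X) ^ 4) * (LL X) ^ 5 := by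
          refine mul_le_mul_of_nonneg_right ?_ (by positivity)
          exact h3.trans (mul_le_mul_of_nonneg_left h4 hη.le)
      _ = η * (LL X) ^ 9 := by ring
      _ ≤ η * l := mul_le_mul_of_nonneg_left hll hη.le
  calc (({n : ℕ | 1 ≤ n ∧ n ≤ X ∧ w ∣ n + 1 ∧ ∃ q : ℕ, q.Prime ∧ (q : ℤ) ∣ fa a n ∧
      l ∣ q - 1 ∧ 2 * X * l * w < q}.ncard : ℕ) : ℝ)
      ≤ ((∑ c ∈ I, (A c).ncard + ∑ c ∈ I, (B c).ncard : ℕ) : ℝ) := by
        exact_mod_cast hcard.trans hcard2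
    _ ≤ (CA + CB) * (LL X) ^ 4 * (C' * 4 * Y * LL X) := hfinal
    _ = ((CA + CB) * (C' * 4) * (LL X) ^ 5) * Y := by ring
    _ ≤ (η * l) * Y := mul_le_mul_of_nonneg_right hKl hY0.le
    _ = η * ((X : ℝ) / w) := by
        rw [hY]
        field_simp

end Pool.Agent.H183.GL
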