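import Pool.Agent.H183.GL.Stm

/-! Project GL (helper183): S_BP1 (helper675). -/

set_option autoImplicit false

namespace Pool.Agent.H183.GL

open Finset Pool.Agent.H183.MU

namespace BP1

/-- numbers `≤ X` in one class modulo `M` -/
theorem cls (A : Finset ℕ) (M X : ℕ) (hM : 0 < M) (h1 : ∀ n ∈ A, n ≤ X)
    (h2 : ∀ n ∈ A, ∀ m ∈ A, n % M = m % M) : (A.card : ℝ) ≤ (X : ℝ) / M + 1 := by
  have hc : A.card ≤ X / M + 1 := by
    have h3 : A.card ≤ (range (X / M + 1)).card := by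
      refine card_le_card_of_injOn (fun n => n / M) ?_ ?_
      · intro n hn
        have := Nat.div_le_div_right (c := M) (h1 n hn)
        exact mem_coe.2 (mem_range.2 (Nat.lt_succ_of_le this))
      · intro n hn m hm hnm
        have e1 := h2 n hn m hm
        have e2 : n / M = m / M := hnm
        have e3 := Nat.div_add_mod n M
        have e4 := Nat.div_add_mod m M
        rw [← e3, ← e4, e1, e2]
    rwa [card_range] at h3
  have h4 : ((X / M : ℕ) : ℝ) ≤ (X : ℝ) / M := Nat.cast_div_le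
  calc (A.card : ℝ) ≤ ((X / M + 1 : ℕ) : ℝ) := by exact_mod_cast hc
    _ = ((X / M : ℕ) : ℝ) + 1 := by push_cast; ring
    _ ≤ _ := by linarith

theorem LL_tendsto : Filter.Tendsto (fun X : ℕ => LL X) Filter.atTop Filter.atTop := by
  unfold LL
  exact Real.tendsto_log_atTop.comp (Real.tendsto_log_atTop.comp tendsto_natCast_atTop_atTop)

/-- multiples of `p` which are `-1` modulo `w` -/
theorem one (X w p : ℕ) (hw : w.Prime) (hp : p.Prime) (hw4 : (w : ℝ) ^ 4 ≤ Real.log X)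
    (hX : 1 ≤ X) (hpX : p ^ 2 ≤ X) :
    (({n : ℕ | 1 ≤ n ∧ n ≤ X ∧ w ∣ n + 1 ∧ p ∣ n}.ncard : ℕ) : ℝ) ≤
      2 * ((X : ℝ) / w) * (1 / p) := by
  have hw0 : (0 : ℝ) < w := by exact_mod_cast hw.pos
  have hp0 : (0 : ℝ) < p := by exact_mod_cast hp.pos
  have hX0 : (0 : ℝ) < X := by exact_mod_cast hX
  by_cases hpw : p = w
  · have : {n : ℕ | 1 ≤ n ∧ n ≤ X ∧ w ∣ n + 1 ∧ p ∣ n} = ∅ := by
      ext n
      simp only [Set.mem_ofPred_eq, Set.mem_empty_iff_false, iff_false]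
      rintro ⟨-, -, h1, h2⟩
      rw [hpw] at h2
      have := (Nat.dvd_add_right h2).1 h1
      exact hw.one_lt.ne' (Nat.dvd_one.1 this)
    rw [this, Set.ncard_empty]
    push_cast
    positivity
  · classical
    have hcop : Nat.Coprime p w := (Nat.coprime_primes hp hw).2 hpw
    have hset : {n : ℕ | 1 ≤ n ∧ n ≤ X ∧ w ∣ n + 1 ∧ p ∣ n} =
        (((Icc 1 X).filter (fun n => w ∣ n + 1 ∧ p ∣ n) : Finset ℕ) : Set ℕ) := by
      ext n
      simp only [Set.mem_ofPred_eq, coe_filter, mem_Icc]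
      tauto
    rw [hset, Set.ncard_coe_finset]
    have h1 := cls ((Icc 1 X).filter (fun n => w ∣ n + 1 ∧ p ∣ n)) (p * w) X
      (Nat.mul_pos hp.pos hw.pos)
      (by
        intro n hn
        exact (mem_Icc.1 (mem_filter.1 hn).1).2)
      (by
        intro n hn m hm
        obtain ⟨-, hn1, hn2⟩ := mem_filter.1 hn
        obtain ⟨-, hm1, hm2⟩ := mem_filter.1 hm
        have e1 : n ≡ m [MOD p] :=
          ((Nat.modEq_zero_iff_dvd.2 hn2).trans (Nat.modEq_zero_iff_dvd.2 hm2).symm)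
        have e2 : n + 1 ≡ m + 1 [MOD w] :=
          ((Nat.modEq_zero_iff_dvd.2 hn1).trans (Nat.modEq_zero_iff_dvd.2 hm1).symm)
        have e3 : n ≡ m [MOD w] := Nat.ModEq.add_right_cancel' 1 e2
        exact (Nat.modEq_and_modEq_iff_modEq_mul hcop).1 ⟨e1, e3⟩)
    have hlog : Real.log X ≤ X := (Real.log_le_sub_one_of_pos hX0).trans (by linarith)
    have hw1 : (1 : ℝ) ≤ w := by exact_mod_cast hw.one_lt.le
    have hw2 : (w : ℝ) ^ 2 ≤ X := by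
      have : (w : ℝ) ^ 2 ≤ (w : ℝ) ^ 4 := pow_le_pow_right₀ hw1 (by norm_num)
      linarith
    have hp2 : (p : ℝ) ^ 2 ≤ X := by exact_mod_cast hpX
    have h2 : (p : ℝ) * w ≤ X := by
      have h2' : ((p : ℝ) * w) ^ 2 ≤ (X : ℝ) ^ 2 := by
        calc ((p : ℝ) * w) ^ 2 = (p : ℝ) ^ 2 * (w : ℝ) ^ 2 := by ring
          _ ≤ (X : ℝ) * (X : ℝ) := mul_le_mul hp2 hw2 (by positivity) hX0.le
          _ = (X : ℝ) ^ 2 := by ring
      exact le_of_sq_le_sq h2' hX0.le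
    have h3 : 1 ≤ (X : ℝ) / (p * w) := by
      rw [le_div_iff₀ (by positivity)]
      linarith
    push_cast at h1
    calc (((Icc 1 X).filter (fun n => w ∣ n + 1 ∧ p ∣ n)).card : ℝ)
        ≤ (X : ℝ) / (p * w) + 1 := h1
      _ ≤ 2 * ((X : ℝ) / (p * w)) := by linarith
      _ = 2 * ((X : ℝ) / w) * (1 / p) := by
        field_simp

end BP1

theorem t_BP1 (h : S_HP) : S_BP1 := by
  intro δ hδ hδ2 η hη
  obtain ⟨C, hC, X₀, hX₀⟩ := h δ hδ hδ2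
  have hev : ∀ᶠ X : ℕ in Filter.atTop, max 1 (2 * C / η) ≤ LL X :=
    BP1.LL_tendsto.eventually_ge_atTop _
  obtain ⟨X₁, hX₁⟩ := Filter.eventually_atTop.1 hev
  refine ⟨max (max X₀ X₁) 1, ?_⟩
  intro X hX w l hA
  have hX0 : X₀ ≤ X := (le_max_left _ _).trans ((le_max_left _ _).trans hX)
  have hX1 : X₁ ≤ X := (le_max_right _ _).trans ((le_max_left _ _).trans hX)
  have hX2 : 1 ≤ X := (le_max_right _ _).trans hX
  obtain ⟨hw, hl, hlw, hw4, hl9⟩ := hA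
  have hLL := hX₁ X hX1
  have hLL1 : 1 ≤ LL X := (le_max_left _ _).trans hLL
  have hLL2 : 2 * C / η ≤ LL X := (le_max_right _ _).trans hLL
  have hl0 : (0 : ℝ) < l := by exact_mod_cast hl.pos
  have hw0 : (0 : ℝ) < w := by exact_mod_cast hw.pos
  have hXr : (0 : ℝ) < X := by exact_mod_cast hX2
  have hlη : 2 * C / η ≤ l := by
    have : LL X ≤ (LL X) ^ 9 := le_self_pow₀ hLL1 (by norm_num)
    linarith
  classical
  set F : Finset ℕ := (range (X + 1)).filter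
    (fun p => p.Prime ∧ (X : ℝ) ^ δ < p ∧ p ^ 2 ≤ X ∧ HH w l p) with hF
  have hsum := hX₀ X hX0 w l ⟨hw, hl, hlw, hw4, hl9⟩ F (fun p hp => (mem_filter.1 hp).2)
  have hsub : {n : ℕ | 1 ≤ n ∧ n ≤ X ∧ w ∣ n + 1 ∧ ∃ p : ℕ, p.Prime ∧ p ∣ n ∧
      (X : ℝ) ^ δ < p ∧ p ^ 2 ≤ X ∧ HH w l p} ⊆
      ⋃ p ∈ F, {n : ℕ | 1 ≤ n ∧ n ≤ X ∧ w ∣ n + 1 ∧ p ∣ n} := by
    rintro n ⟨h1, h2, h3, p, hp1, hp2, hp3, hp4, hp5⟩
    simp only [Set.mem_iUnion, Set.mem_ofPred_eq, exists_prop]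
    refine ⟨p, ?_, h1, h2, h3, hp2⟩
    rw [hF, mem_filter, mem_range]
    exact ⟨Nat.lt_succ_of_le ((Nat.le_of_dvd (by omega) hp2).trans h2), hp1, hp3, hp4, hp5⟩
  have hfin : (⋃ p ∈ F, {n : ℕ | 1 ≤ n ∧ n ≤ X ∧ w ∣ n + 1 ∧ p ∣ n}).Finite := by
    refine Set.Finite.subset (Set.finite_Icc 1 X) ?_
    intro n hn
    simp only [Set.mem_iUnion, Set.mem_ofPred_eq, exists_prop] at hn
    obtain ⟨p, -, h1, h2, -⟩ := hn
    exact ⟨h1, h2⟩
  have hc1 := Set.ncard_le_ncard hsub hfin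
  have hc2 := Finset.set_ncard_biUnion_le F
    (fun p => {n : ℕ | 1 ≤ n ∧ n ≤ X ∧ w ∣ n + 1 ∧ p ∣ n})
  have hc3 : (({n : ℕ | 1 ≤ n ∧ n ≤ X ∧ w ∣ n + 1 ∧ ∃ p : ℕ, p.Prime ∧ p ∣ n ∧
      (X : ℝ) ^ δ < p ∧ p ^ 2 ≤ X ∧ HH w l p}.ncard : ℕ) : ℝ) ≤
      ∑ p ∈ F, (({n : ℕ | 1 ≤ n ∧ n ≤ X ∧ w ∣ n + 1 ∧ p ∣ n}.ncard : ℕ) : ℝ) := by
    exact_mod_cast hc1.trans hc2
  refine hc3.trans ?_
  calc ∑ p ∈ F, (({n : ℕ | 1 ≤ n ∧ n ≤ X ∧ w ∣ n + 1 ∧ p ∣ n}.ncard : ℕ) : ℝ)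
      ≤ ∑ p ∈ F, 2 * ((X : ℝ) / w) * (1 / p) := by
        refine sum_le_sum fun p hp => ?_
        obtain ⟨-, hp1, hp2, hp3, hp4⟩ := mem_filter.1 hp
        exact BP1.one X w p hw hp1 hw4 hX2 hp3
    _ = 2 * ((X : ℝ) / w) * ∑ p ∈ F, (1 : ℝ) / p := by rw [mul_sum]
    _ ≤ 2 * ((X : ℝ) / w) * (C / l) := mul_le_mul_of_nonneg_left hsum (by positivity)
    _ = (2 * C / l) * ((X : ℝ) / w) := by ring
    _ ≤ η * ((X : ℝ) / w) := by
        refine mul_le_mul_of_nonneg_right ?_ (by positivity)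
        rw [div_le_iff₀ hη] at hlη
        rw [div_le_iff₀ hl0]
        linarith

end Pool.Agent.H183.GL
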