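import Pool.Agent.H183.GL.Stm
import Pool.Graph.R_seed8.TH888.B1.PrimeSieve

/-!
# Large prime factors which are `l`-th powers are rare (project GL, S_BP2)
-/

set_option autoImplicit false

namespace Pool.Agent.H183.GL

open Finset Pool.Agent.H183.MU

namespace BP2

instance decHH (w l : ℕ) : DecidablePred (fun s => HH w l s) :=
  fun s => inferInstanceAs (Decidable (s ^ ((w - 1) / l) ≡ 1 [MOD w]))

theorem card_roots (w k : ℕ) (hw : w.Prime) (hk : 0 < k) :
    ((range w).filter (fun r => r ^ k ≡ 1 [MOD w])).card ≤ k := by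
  classical
  have : Fact w.Prime := ⟨hw⟩
  have h1 : ((range w).filter (fun r => r ^ k ≡ 1 [MOD w])).card ≤
      ((Polynomial.nthRoots k (1 : ZMod w)).toFinset).card := by
    apply Finset.card_le_card_of_injOn (fun r : ℕ => (r : ZMod w))
    · intro r hr
      have hr' := (mem_filter.mp hr).2
      simp only [Finset.mem_coe, Multiset.mem_toFinset, Polynomial.mem_nthRoots hk]
      have := (ZMod.natCast_eq_natCast_iff _ _ _).mpr hr'
      push_cast at this
      exact this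
    · intro a ha b hb hab
      have ha' : a < w := mem_range.mp (mem_filter.mp ha).1
      have hb' : b < w := mem_range.mp (mem_filter.mp hb).1
      have h : a ≡ b [MOD w] := (ZMod.natCast_eq_natCast_iff _ _ _).mp hab
      exact Nat.ModEq.eq_of_lt_of_lt h ha' hb'
  refine h1.trans ((Multiset.toFinset_card_le _).trans ?_)
  exact Polynomial.card_nthRoots k 1

theorem two_dvd (w l : ℕ) (hw : w.Prime) (hl : l.Prime) (hlw : l ∣ w - 1) (hl2 : 2 < l) :
    2 ∣ (w - 1) / l ∧ 0 < (w - 1) / l ∧ l ≤ w - 1 := by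
  have hw1 : 0 < w - 1 := by have := hw.two_le; omega
  have hle : l ≤ w - 1 := Nat.le_of_dvd hw1 hlw
  have hodd : w % 2 = 1 := by
    rcases hw.eq_two_or_odd with h | h
    · omega
    · exact h
  have hlodd : l % 2 = 1 := by
    rcases hl.eq_two_or_odd with h | h
    · omega
    · exact h
  obtain ⟨m, hm⟩ := hlw
  have hdiv : (w - 1) / l = m := by
    rw [hm]; exact Nat.mul_div_cancel_left m hl.pos
  refine ⟨?_, Nat.div_pos hle hl.pos, hle⟩
  rw [hdiv]
  have h2 : 2 ∣ l * m := by rw [← hm]; omega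
  rcases (Nat.prime_two.dvd_mul).mp h2 with h | h
  · omega
  · exact h

theorem HH_cof (w l p s : ℕ) (h2 : 2 ∣ (w - 1) / l) (hp : HH w l p) (hps : w ∣ p * s + 1) :
    HH w l s := by
  unfold HH at *
  have e1 : ((p : ZMod w)) ^ ((w - 1) / l) = 1 := by
    have := (ZMod.natCast_eq_natCast_iff _ _ _).mpr hp
    push_cast at this
    exact this
  have e2 : (p : ZMod w) * (s : ZMod w) = -1 := by
    have := (ZMod.natCast_eq_zero_iff (p * s + 1) w).mpr hps
    push_cast at this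
    exact eq_neg_of_add_eq_zero_left this
  have e3 : (s : ZMod w) ^ ((w - 1) / l) = 1 := by
    have : ((p : ZMod w) * (s : ZMod w)) ^ ((w - 1) / l) = 1 := by
      rw [e2]; exact Even.neg_one_pow (even_iff_two_dvd.mpr h2)
    rw [mul_pow, e1, one_mul] at this
    exact this
  apply (ZMod.natCast_eq_natCast_iff _ _ _).mp
  push_cast
  exact e3

theorem harm (n : ℕ) : ∑ s ∈ Icc 1 n, (1 : ℝ) / s ≤ 1 + Real.log n := by
  have h := harmonic_le_one_add_log n
  have e : ((harmonic n : ℚ) : ℝ) = ∑ s ∈ Icc 1 n, (1 : ℝ) / s := by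
    rw [harmonic_eq_sum_Icc]
    push_cast
    exact Finset.sum_congr rfl (fun i _ => by rw [one_div])
  rw [← e]
  exact h

theorem sum_inv (w l R : ℕ) (hw : w.Prime) (hl : 0 < l) (hk : 0 < (w - 1) / l) :
    ∑ s ∈ (Icc 1 R).filter (fun s => HH w l s), (1 : ℝ) / s ≤
      (1 + Real.log w) + 1 / l * (1 + Real.log R) := by
  classical
  have hw0 : 0 < w := hw.pos
  have hwR : (0 : ℝ) < w := by exact_mod_cast hw0
  have hlR : (0 : ℝ) < l := by exact_mod_cast hl
  rw [← Finset.sum_filter_add_sum_filter_not _ (fun s => s < w)]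
  apply add_le_add
  · refine le_trans ?_ (harm w)
    apply Finset.sum_le_sum_of_subset_of_nonneg
    · intro s hs
      have h1 := mem_filter.mp hs
      have h2 := mem_filter.mp h1.1
      have h3 := mem_Icc.mp h2.1
      exact mem_Icc.mpr ⟨h3.1, h1.2.le⟩
    · intro i _ _
      positivity
  · have hlogR : 0 ≤ 1 + Real.log R := by
      have : 0 ≤ Real.log R := Real.log_natCast_nonneg R
      linarith
    set B := (range w).filter (fun r => r ^ ((w - 1) / l) ≡ 1 [MOD w]) with hB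
    have hBc : B.card ≤ (w - 1) / l := card_roots w _ hw hk
    set V := ((Icc 1 R).filter (fun s => HH w l s)).filter (fun s => ¬ s < w) with hV
    have h1 : ∑ s ∈ V, (1 : ℝ) / s ≤ ∑ s ∈ V, (fun q : ℕ × ℕ => (1 : ℝ) / (q.1 * w)) (s / w, s % w) := by
      apply Finset.sum_le_sum
      intro s hs
      have hs1 := (mem_filter.mp hs).2
      have hs2 : w ≤ s := not_lt.mp hs1
      have hq : 0 < s / w := Nat.div_pos hs2 hw0
      have hle : s / w * w ≤ s := Nat.div_mul_le_self s w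
      have hpos : (0 : ℝ) < ((s / w : ℕ) : ℝ) * w := by
        have : (0 : ℝ) < ((s / w : ℕ) : ℝ) := by exact_mod_cast hq
        positivity
      simp only
      apply one_div_le_one_div_of_le hpos
      exact_mod_cast hle
    have hinj : Set.InjOn (fun s : ℕ => (s / w, s % w)) (V : Set ℕ) := by
      intro a _ b _ hab
      simp only [Prod.mk.injEq] at hab
      have ha := Nat.div_add_mod a w
      have hb := Nat.div_add_mod b w
      rw [hab.1, hab.2] at ha
      omega
    have h2 : ∑ s ∈ V, (fun q : ℕ × ℕ => (1 : ℝ) / (q.1 * w)) (s / w, s % w) =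
        ∑ q ∈ V.image (fun s : ℕ => (s / w, s % w)), (1 : ℝ) / (q.1 * w) := by
      rw [Finset.sum_image hinj]
    have h3 : ∑ q ∈ V.image (fun s : ℕ => (s / w, s % w)), (1 : ℝ) / (q.1 * w) ≤
        ∑ q ∈ (Icc 1 R) ×ˢ B, (1 : ℝ) / (q.1 * w) := by
      apply Finset.sum_le_sum_of_subset_of_nonneg
      · intro q hq
        obtain ⟨s, hs, rfl⟩ := mem_image.mp hq
        have hs0 := (mem_filter.mp hs)
        have hs1 := (mem_filter.mp hs0.1)
        have hs2 := mem_Icc.mp hs1.1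
        have hs3 : w ≤ s := not_lt.mp hs0.2
        rw [mem_product]
        refine ⟨mem_Icc.mpr ⟨Nat.div_pos hs3 hw0, (Nat.div_le_self _ _).trans hs2.2⟩, ?_⟩
        rw [hB, mem_filter]
        refine ⟨mem_range.mpr (Nat.mod_lt _ hw0), ?_⟩
        have h := hs1.2
        unfold HH at h
        exact ((Nat.mod_modEq s w).pow _).trans h
      · intro i _ _
        positivity
    have h4 : ∑ q ∈ (Icc 1 R) ×ˢ B, (1 : ℝ) / (q.1 * w) =
        (B.card : ℝ) / w * ∑ s ∈ Icc 1 R, (1 : ℝ) / s := by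
      rw [Finset.sum_product]
      simp only [Finset.sum_const, nsmul_eq_mul]
      rw [Finset.mul_sum]
      apply Finset.sum_congr rfl
      intro s hs
      have hs1 := (mem_Icc.mp hs).1
      have : (0 : ℝ) < s := by exact_mod_cast hs1
      field_simp
    have h5 : (B.card : ℝ) / w ≤ 1 / l := by
      rw [div_le_div_iff₀ hwR hlR, one_mul]
      have : B.card * l ≤ w := by
        have h6 : B.card * l ≤ (w - 1) / l * l := Nat.mul_le_mul_right l hBc
        have h7 : (w - 1) / l * l ≤ w - 1 := Nat.div_mul_le_self _ _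
        omega
      exact_mod_cast this
    calc ∑ s ∈ V, (1 : ℝ) / s ≤ _ := h1
      _ = _ := h2
      _ ≤ _ := h3
      _ = (B.card : ℝ) / w * ∑ s ∈ Icc 1 R, (1 : ℝ) / s := h4
      _ ≤ 1 / l * (1 + Real.log R) := by
        apply mul_le_mul h5 (harm R) _ (by positivity)
        apply Finset.sum_nonneg
        intro i _
        positivity

theorem log_sqrt (X R : ℕ) (hR : R = Nat.sqrt X) (h4 : 4 ≤ R) :
    Real.log X ≤ 3 * Real.log R := by
  have h1 : X < (R + 1) * (R + 1) := by rw [hR]; exact Nat.lt_succ_sqrt X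
  have h2 : X ≤ R ^ 3 := by nlinarith
  have h3 : Real.log X ≤ Real.log ((R : ℝ) ^ 3) := by
    rcases Nat.eq_zero_or_pos X with h | h
    · subst h
      simp at hR
      omega
    · apply Real.log_le_log
      · exact_mod_cast h
      · exact_mod_cast h2
  rw [Real.log_pow] at h3
  exact_mod_cast h3

theorem count (N₁ : ℕ)
    (hN₁ : ∀ (M : ℕ) (b : Finset ℕ), 1 ≤ M → ∀ N : ℕ, N₁ * M ≤ N → M ^ 2 ≤ N →
      4 ≤ N → ((((range (N + 1)).filter (fun p : ℕ => p.Prime ∧ p % M ∈ b)).card : ℕ) : ℝ) ≤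
      12 * ((b.card : ℝ) / Nat.totient M) * (N / Real.log N))
    (X w l R : ℕ) (hR : R = Nat.sqrt X) (hw : w.Prime) (hl : l.Prime) (hlw : l ∣ w - 1)
    (hl2 : 2 < l) (h1 : N₁ * w ≤ R) (h2 : w ^ 2 ≤ R) (h4 : 4 ≤ R) :
    (({n : ℕ | 1 ≤ n ∧ n ≤ X ∧ w ∣ n + 1 ∧
        ∃ p : ℕ, p.Prime ∧ p ∣ n ∧ X < p ^ 2 ∧ HH w l p}.ncard : ℕ) : ℝ) ≤
      72 * X / (w * Real.log X) * ∑ s ∈ (Icc 1 R).filter (fun s => HH w l s), (1 : ℝ) / s := by
  classical
  have : Fact w.Prime := ⟨hw⟩
  obtain ⟨hev, hk, hle⟩ := two_dvd w l hw hl hlw hl2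
  have hRX : R * R ≤ X := by rw [hR]; exact Nat.sqrt_le X
  have hXpos : 0 < X := by nlinarith
  have hlogX : 0 < Real.log X := by
    apply Real.log_pos
    have : 1 < X := by nlinarith
    exact_mod_cast this
  have hlogR := log_sqrt X R hR h4
  have hwR : (0 : ℝ) < w := by exact_mod_cast hw.pos
  set T := (Icc 1 R).filter (fun s => HH w l s) with hT
  set cl : ℕ → Finset ℕ := fun s => {(-(s : ZMod w)⁻¹).val} with hcl
  set P : ℕ → Finset ℕ := fun s =>
    (range (X / s + 1)).filter (fun p : ℕ => p.Prime ∧ p % w ∈ cl s) with hP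
  set U := T.biUnion (fun s => (P s).image (fun p => p * s)) with hU
  have hsub : {n : ℕ | 1 ≤ n ∧ n ≤ X ∧ w ∣ n + 1 ∧
        ∃ p : ℕ, p.Prime ∧ p ∣ n ∧ X < p ^ 2 ∧ HH w l p} ⊆ (U : Set ℕ) := by
    rintro n ⟨hn1, hnX, hwn, p, hp, ⟨s, rfl⟩, hXp, hHp⟩
    have hs1 : 1 ≤ s := by
      rcases Nat.eq_zero_or_pos s with h | h
      · subst h; simp at hn1
      · exact h
    have hsR : s ≤ R := by
      rw [hR]
      apply Nat.le_sqrt.mpr
      by_contra hcon
      push Not at hcon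
      have hlt : X * X < (p * s) * (p * s) := by
        calc X * X < p ^ 2 * X := by
              apply Nat.mul_lt_mul_of_pos_right hXp hXpos
          _ ≤ p ^ 2 * (s * s) := Nat.mul_le_mul_left _ hcon.le
          _ = (p * s) * (p * s) := by ring
      have := Nat.mul_le_mul hnX hnX
      omega
    have hHs : HH w l s := HH_cof w l p s hev hHp hwn
    rw [hU, Finset.mem_coe, Finset.mem_biUnion]
    refine ⟨s, mem_filter.mpr ⟨mem_Icc.mpr ⟨hs1, hsR⟩, hHs⟩, ?_⟩
    refine mem_image.mpr ⟨p, ?_, rfl⟩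
    rw [hP]
    refine mem_filter.mpr ⟨mem_range.mpr ?_, hp, ?_⟩
    · have : p ≤ X / s := (Nat.le_div_iff_mul_le hs1).mpr hnX
      omega
    · rw [hcl]
      simp only [Finset.mem_singleton]
      have e2 : (p : ZMod w) * (s : ZMod w) = -1 := by
        have := (ZMod.natCast_eq_zero_iff (p * s + 1) w).mpr hwn
        push_cast at this
        exact eq_neg_of_add_eq_zero_left this
      have hs0 : (s : ZMod w) ≠ 0 := by
        intro h
        rw [h, mul_zero] at e2
        have : (1 : ZMod w) = 0 := by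
          have := congrArg Neg.neg e2
          simpa using this.symm
        exact one_ne_zero this
      have e3 : (p : ZMod w) = -(s : ZMod w)⁻¹ := by
        have : (p : ZMod w) * (s : ZMod w) * (s : ZMod w)⁻¹ = -(s : ZMod w)⁻¹ := by
          rw [e2]; ring
        rw [mul_assoc, mul_inv_cancel₀ hs0, mul_one] at this
        exact this
      rw [← e3, ZMod.val_natCast]
  have hcard : {n : ℕ | 1 ≤ n ∧ n ≤ X ∧ w ∣ n + 1 ∧
        ∃ p : ℕ, p.Prime ∧ p ∣ n ∧ X < p ^ 2 ∧ HH w l p}.ncard ≤ ∑ s ∈ T, (P s).card := by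
    have hb1 := Set.ncard_le_ncard hsub (Finset.finite_toSet U)
    rw [Set.ncard_coe_finset] at hb1
    refine hb1.trans (Finset.card_biUnion_le.trans ?_)
    exact Finset.sum_le_sum (fun s _ => Finset.card_image_le)
  have hcard' : (({n : ℕ | 1 ≤ n ∧ n ≤ X ∧ w ∣ n + 1 ∧
        ∃ p : ℕ, p.Prime ∧ p ∣ n ∧ X < p ^ 2 ∧ HH w l p}.ncard : ℕ) : ℝ) ≤
        ∑ s ∈ T, ((P s).card : ℝ) := by exact_mod_cast hcard
  refine hcard'.trans ?_
  rw [Finset.mul_sum]
  apply Finset.sum_le_sum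
  intro s hs
  have hs1 := mem_Icc.mp (mem_filter.mp hs).1
  have hsR : (0 : ℝ) < s := by exact_mod_cast hs1.1
  have hRN : R ≤ X / s := by
    apply (Nat.le_div_iff_mul_le hs1.1).mpr
    calc R * s ≤ R * R := Nat.mul_le_mul_left _ hs1.2
      _ ≤ X := hRX
  have hb := hN₁ w (cl s) hw.one_le (X / s) (h1.trans hRN) (h2.trans hRN) (h4.trans hRN)
  have hRpos : (0 : ℝ) < R := by
    have : 0 < R := by omega
    exact_mod_cast this
  have hlogRN : Real.log R ≤ Real.log ((X / s : ℕ) : ℝ) := by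
    apply Real.log_le_log hRpos
    exact_mod_cast hRN
  have hlogN : 0 < Real.log ((X / s : ℕ) : ℝ) := by linarith
  have hNX : (((X / s : ℕ) : ℝ)) ≤ (X : ℝ) / s := Nat.cast_div_le
  have hfr : ((X / s : ℕ) : ℝ) / Real.log ((X / s : ℕ) : ℝ) ≤ ((X : ℝ) / s) * (3 / Real.log X) := by
    rw [div_le_iff₀ hlogN]
    calc ((X / s : ℕ) : ℝ) ≤ (X : ℝ) / s := hNX
      _ = (X : ℝ) / s * 1 := by ring
      _ ≤ (X : ℝ) / s * (3 / Real.log X * Real.log ((X / s : ℕ) : ℝ)) := by
        apply mul_le_mul_of_nonneg_left _ (by positivity)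
        rw [div_mul_eq_mul_div, le_div_iff₀ hlogX]
        linarith
      _ = (X : ℝ) / s * (3 / Real.log X) * Real.log ((X / s : ℕ) : ℝ) := by ring
  have htot : (Nat.totient w : ℝ) = (w : ℝ) - 1 := by
    rw [Nat.totient_prime hw, Nat.cast_sub hw.one_le, Nat.cast_one]
  have hw2 : (2 : ℝ) ≤ w := by exact_mod_cast hw.two_le
  have hclc : ((cl s).card : ℝ) = 1 := by
    rw [hcl]; simp
  have hq : 12 * (((cl s).card : ℝ) / Nat.totient w) ≤ 24 / w := by
    rw [hclc, htot]
    rw [mul_one_div, div_le_div_iff₀ (by linarith) hwR]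
    nlinarith
  calc ((P s).card : ℝ) ≤ 12 * (((cl s).card : ℝ) / Nat.totient w) *
        (((X / s : ℕ) : ℝ) / Real.log ((X / s : ℕ) : ℝ)) := hb
    _ ≤ 24 / w * (((X : ℝ) / s) * (3 / Real.log X)) := by
        apply mul_le_mul hq hfr _ (by positivity)
        positivity
    _ = 72 * X / (w * Real.log X) * (1 / s) := by
        field_simp
        ring

theorem large (N₁ : ℕ) (η : ℝ) : ∃ X₀ : ℕ, ∀ X : ℕ, X₀ ≤ X →
    ((N₁ : ℝ) + 1) * Real.log X + 5 ≤ Real.sqrt X ∧ 216 / η + 3 ≤ (LL X) ^ 9 ∧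
      1 ≤ Real.log X := by
  have hlog : Filter.Tendsto (fun X : ℕ => Real.log (X : ℝ)) Filter.atTop Filter.atTop :=
    Real.tendsto_log_atTop.comp tendsto_natCast_atTop_atTop
  have hLL : Filter.Tendsto (fun X : ℕ => (LL X) ^ 9) Filter.atTop Filter.atTop := by
    unfold LL
    exact (Filter.tendsto_pow_atTop (by norm_num)).comp (Real.tendsto_log_atTop.comp hlog)
  have h1 : ∀ᶠ X : ℕ in Filter.atTop, 216 / η + 3 ≤ (LL X) ^ 9 := hLL.eventually_ge_atTop _
  have h2 : ∀ᶠ X : ℕ in Filter.atTop, 1 ≤ Real.log (X : ℝ) := hlog.eventually_ge_atTop _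
  have h3 : ∀ᶠ X : ℕ in Filter.atTop,
      ((N₁ : ℝ) + 1) * Real.log X + 5 ≤ Real.sqrt X := by
    have ho : (fun x : ℝ => Real.log x) =o[Filter.atTop] (fun x : ℝ => x ^ ((1 : ℝ) / 2)) :=
      isLittleO_log_rpow_atTop (by norm_num)
    have hc : (0 : ℝ) < 1 / ((N₁ : ℝ) + 6) := by positivity
    have hb := (ho.bound hc)
    have hb' := tendsto_natCast_atTop_atTop (R := ℝ) |>.eventually hb
    filter_upwards [hb', h2] with X hX hX2
    rw [Real.norm_of_nonneg (by linarith), Real.norm_of_nonneg (by positivity),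
      ← Real.sqrt_eq_rpow] at hX
    rw [one_div, inv_mul_eq_div, le_div_iff₀ (by positivity)] at hX
    nlinarith
  obtain ⟨X₀, hX₀⟩ := Filter.eventually_atTop.mp (h3.and (h1.and h2))
  exact ⟨X₀, hX₀⟩

end BP2

/-- **S_BP2.** -/
theorem t_BP2 : S_BP2 := by
  intro η hη
  obtain ⟨N₁, hN₁⟩ := Pool.Agent.TH888.B1.primes_in_classes
  obtain ⟨X₀, hX₀⟩ := BP2.large N₁ η
  refine ⟨X₀, ?_⟩
  intro X hX w l hadm
  obtain ⟨hlg, hLLX, hlog1⟩ := hX₀ X hX
  obtain ⟨hw, hl, hlw, hw4, hlL⟩ := hadm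
  have hdiv0 : 0 ≤ 216 / η := by positivity
  have hlR3 : (3 : ℝ) ≤ l := by linarith
  have hl3 : 3 ≤ l := by exact_mod_cast hlR3
  have hlη : 216 / η ≤ l := by linarith
  obtain ⟨R, hR⟩ : ∃ R, R = Nat.sqrt X := ⟨_, rfl⟩
  have hRs : Real.sqrt X ≤ R + 1 := by
    have h1 : X < (R + 1) * (R + 1) := by rw [hR]; exact Nat.lt_succ_sqrt X
    have h1' : (X : ℝ) ≤ ((R : ℝ) + 1) ^ 2 := by
      have : (X : ℝ) < ((R + 1) * (R + 1) : ℕ) := by exact_mod_cast h1
      push_cast at this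
      nlinarith
    exact Real.sqrt_le_iff.mpr ⟨by positivity, h1'⟩
  have hlog0 : 0 ≤ Real.log X := by linarith
  have hN0 : (0 : ℝ) ≤ N₁ := by positivity
  have hwR : (1 : ℝ) ≤ w := by exact_mod_cast hw.one_le
  have hw14 : (w : ℝ) ≤ (w : ℝ) ^ 4 := by
    have := pow_le_pow_right₀ hwR (show 1 ≤ 4 by norm_num)
    simpa using this
  have hw24 : (w : ℝ) ^ 2 ≤ (w : ℝ) ^ 4 := pow_le_pow_right₀ hwR (by norm_num)
  have hb1 : N₁ * w ≤ R := by
    have : (N₁ : ℝ) * w ≤ R := by nlinarith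
    exact_mod_cast this
  have hb2 : w ^ 2 ≤ R := by
    have : (w : ℝ) ^ 2 ≤ R := by nlinarith
    exact_mod_cast this
  have hb4 : 4 ≤ R := by
    have : (4 : ℝ) ≤ R := by nlinarith
    exact_mod_cast this
  have hcount := BP2.count N₁ hN₁ X w l R hR hw hl hlw (by omega) hb1 hb2 hb4
  obtain ⟨-, hk, hle⟩ := BP2.two_dvd w l hw hl hlw (by omega)
  have hsum := BP2.sum_inv w l R hw hl.pos hk
  have hRX : Real.log R ≤ Real.log X := by
    apply Real.log_le_log
    · have : 0 < R := by omega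
      exact_mod_cast this
    · have : R ≤ X := by rw [hR]; exact Nat.sqrt_le_self X
      exact_mod_cast this
  have hw0 : (0 : ℝ) < w := by linarith
  have hl0 : (0 : ℝ) < l := by linarith
  have hlw' : (l : ℝ) ≤ w := by
    have : l ≤ w := by omega
    exact_mod_cast this
  have hlogw : 1 + Real.log w ≤ Real.log X / l := by
    have h1 : Real.log w ≤ w - 1 := Real.log_le_sub_one_of_pos hw0
    rw [le_div_iff₀ hl0]
    have h2 : (w : ℝ) * l ≤ (w : ℝ) ^ 4 := by
      calc (w : ℝ) * l ≤ w * w := mul_le_mul_of_nonneg_left hlw' hw0.le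
        _ = (w : ℝ) ^ 2 := by ring
        _ ≤ _ := hw24
    calc (1 + Real.log w) * l ≤ w * l := by
          apply mul_le_mul_of_nonneg_right _ hl0.le
          linarith
      _ ≤ _ := h2.trans hw4
  have hsum2 : (1 + Real.log w) + 1 / l * (1 + Real.log R) ≤ 3 * Real.log X / l := by
    have h1 : 1 / (l : ℝ) * (1 + Real.log R) ≤ 1 / l * (2 * Real.log X) := by
      apply mul_le_mul_of_nonneg_left _ (by positivity)
      linarith
    have h2 : Real.log X / l + 1 / l * (2 * Real.log X) = 3 * Real.log X / l := by ring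
    linarith
  have hlogpos : 0 < Real.log X := by linarith
  calc (({n : ℕ | 1 ≤ n ∧ n ≤ X ∧ w ∣ n + 1 ∧
        ∃ p : ℕ, p.Prime ∧ p ∣ n ∧ X < p ^ 2 ∧ HH w l p}.ncard : ℕ) : ℝ) ≤ _ := hcount
    _ ≤ 72 * X / (w * Real.log X) * (3 * Real.log X / l) := by
        apply mul_le_mul_of_nonneg_left (hsum.trans hsum2) (by positivity)
    _ = (216 / l) * ((X : ℝ) / w) := by
        field_simp
        ring
    _ ≤ η * ((X : ℝ) / w) := by
        apply mul_le_mul_of_nonneg_right _ (by positivity)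
        rw [div_le_iff₀ hl0]
        rw [div_le_iff₀ hη] at hlη
        linarith

end Pool.Agent.H183.GL
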