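import Pool.Agent.H183.GL.Stm

/-!
# Task CRT (helper618): counting `j` with prescribed prime divisors of a quadratic polynomial
-/

set_option autoImplicit false

namespace Pool.Agent.H183.GL

open Finset Pool.Agent.H183.MU

namespace CRT

/-- a root of `x² + a x + 1` modulo `r` -/
theorem root_ex {a : ℤ} (ha : IsA a) {r : ℕ} [hr : Fact r.Prime] (h : r % KK a = 1) :
    ∃ x : ZMod r, x ^ 2 + a * x + 1 = 0 := by
  have h3 : a ≠ 0 → r % 3 = 1 → ∃ u : ZMod r, u ^ 2 + u + 1 = 0 := by
    intro _ h1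
    have hcard : Fintype.card (ZMod r)ˣ = r - 1 := ZMod.card_units r
    have hd : 3 ∣ Fintype.card (ZMod r)ˣ := by
      rw [hcard]
      omega
    have : Fact (Nat.Prime 3) := ⟨Nat.prime_three⟩
    obtain ⟨u, hu⟩ := exists_prime_orderOf_dvd_card (G := (ZMod r)ˣ) 3 hd
    have hu3 : u ^ 3 = 1 := by
      rw [← hu]
      exact pow_orderOf_eq_one u
    have hu1 : u ≠ 1 := by
      rintro rfl
      rw [orderOf_one] at hu
      omega
    refine ⟨(u : ZMod r), ?_⟩
    have e1 : ((u : ZMod r) - 1) * ((u : ZMod r) ^ 2 + u + 1) = 0 := by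
      have e2 : (u : ZMod r) ^ 3 = 1 := by
        rw [← Units.val_pow_eq_pow_val, hu3, Units.val_one]
      linear_combination e2
    rcases mul_eq_zero.1 e1 with e3 | e3
    · exfalso
      apply hu1
      ext
      rw [Units.val_one]
      exact sub_eq_zero.1 e3
    · exact e3
  rcases ha with rfl | rfl | rfl
  · unfold KK at h
    rw [if_pos rfl] at h
    have h1 : IsSquare (-1 : ZMod r) := by
      rw [ZMod.exists_sq_eq_neg_one_iff]
      omega
    obtain ⟨i, hi⟩ := h1
    refine ⟨i, ?_⟩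
    push_cast
    linear_combination -hi
  · unfold KK at h
    rw [if_neg (by norm_num)] at h
    obtain ⟨u, hu⟩ := h3 (by norm_num) h
    refine ⟨u, ?_⟩
    push_cast
    linear_combination hu
  · unfold KK at h
    rw [if_neg (by norm_num)] at h
    obtain ⟨u, hu⟩ := h3 (by norm_num) h
    refine ⟨-u, ?_⟩
    push_cast
    linear_combination hu

theorem disc_ne {a : ℤ} (ha : IsA a) {r : ℕ} [hr : Fact r.Prime] (h : r % KK a = 1) :
    (a : ZMod r) ^ 2 - 4 ≠ 0 := by
  have key : ∀ d : ℕ, d < 5 → 0 < d → (d : ZMod r) = 0 → r ∣ d := fun d _ _ hd =>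
    (ZMod.natCast_eq_zero_iff d r).1 hd
  have hr2 := hr.out.two_le
  rcases ha with rfl | rfl | rfl
  · intro h0
    unfold KK at h
    rw [if_pos rfl] at h
    have h1 : ((4 : ℕ) : ZMod r) = 0 := by
      push_cast at h0 ⊢
      linear_combination -h0
    have h2 := key 4 (by norm_num) (by norm_num) h1
    have h3 := Nat.le_of_dvd (by norm_num) h2
    interval_cases r <;> omega
  · intro h0
    unfold KK at h
    rw [if_neg (by norm_num)] at h
    have h1 : ((3 : ℕ) : ZMod r) = 0 := by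
      push_cast at h0 ⊢
      linear_combination -h0
    have h2 := key 3 (by norm_num) (by norm_num) h1
    have h3 := Nat.le_of_dvd (by norm_num) h2
    interval_cases r <;> omega
  · intro h0
    unfold KK at h
    rw [if_neg (by norm_num)] at h
    have h1 : ((3 : ℕ) : ZMod r) = 0 := by
      push_cast at h0 ⊢
      linear_combination -h0
    have h2 := key 3 (by norm_num) (by norm_num) h1
    have h3 := Nat.le_of_dvd (by norm_num) h2
    interval_cases r <;> omega

/-- the two classes modulo `r` -/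
theorem two_cls {a : ℤ} (ha : IsA a) {c g ν r : ℕ} (hr : r.Prime) (h : r % KK a = 1)
    (hcg : ¬ r ∣ c * g) (hν : (c : ℤ) ∣ fa a ν) : ∃ A : Finset (ZMod r), A.card = 2 ∧
      ∀ j : ℕ, ((c * r : ℕ) : ℤ) ∣ fa a ((ν + c * g * j : ℕ) : ℤ) ↔ (j : ZMod r) ∈ A := by
  have : Fact r.Prime := ⟨hr⟩
  obtain ⟨x, hx⟩ := root_ex ha h
  have hd := disc_ne ha h
  set t : ZMod r := ((c * g : ℕ) : ZMod r) with ht
  have ht0 : t ≠ 0 := by
    rw [ht, Ne, ZMod.natCast_eq_zero_iff]
    exact hcg
  have hne : (x - ν) / t ≠ (-a - x - ν) / t := by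
    intro h0
    rw [div_left_inj' ht0] at h0
    apply hd
    linear_combination (2 * x + a) * h0 - 4 * hx
  refine ⟨{(x - ν) / t, (-a - x - ν) / t}, Finset.card_pair hne, fun j => ?_⟩
  have hcop : IsCoprime (c : ℤ) (r : ℤ) := by
    rw [Nat.isCoprime_iff_coprime]
    refine Nat.Coprime.symm ((Nat.Prime.coprime_iff_not_dvd hr).2 fun h0 => hcg (h0.mul_right g))
  have hc : (c : ℤ) ∣ fa a ((ν + c * g * j : ℕ) : ℤ) := by
    obtain ⟨k, hk⟩ := hν
    refine ⟨k + g * j * (2 * ν + c * g * j + a), ?_⟩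
    unfold fa at hk ⊢
    push_cast
    linear_combination hk
  have e1 : ((c * r : ℕ) : ℤ) ∣ fa a ((ν + c * g * j : ℕ) : ℤ) ↔
      (r : ℤ) ∣ fa a ((ν + c * g * j : ℕ) : ℤ) := by
    push_cast
    constructor
    · intro h1
      exact (Dvd.intro_left _ rfl).trans h1
    · intro h1
      push_cast at hc
      exact hcop.mul_dvd hc h1
  rw [e1, ← ZMod.intCast_zmod_eq_zero_iff_dvd]
  have e2 : ((fa a ((ν + c * g * j : ℕ) : ℤ) : ℤ) : ZMod r) =
      ((ν : ZMod r) + t * j - x) * ((ν : ZMod r) + t * j + a + x) := by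
    unfold fa
    rw [ht]
    push_cast
    linear_combination hx
  rw [e2, mul_eq_zero, Finset.mem_insert, Finset.mem_singleton, eq_div_iff ht0, eq_div_iff ht0]
  constructor
  · rintro (h1 | h1)
    · left
      linear_combination h1
    · right
      linear_combination h1
  · rintro (h1 | h1)
    · left
      linear_combination h1
    · right
      linear_combination h1

/-- the classes modulo the product -/
theorem cls_prod (A : (r : ℕ) → Finset (ZMod r)) (s : Finset ℕ)
    (hs : ∀ r ∈ s, r.Prime ∧ (A r).card = 2) : ∃ B : Finset ℕ, B ⊆ range (∏ r ∈ s, r) ∧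
      B.card = 2 ^ s.card ∧ ∀ j : ℕ, (∀ r ∈ s, (j : ZMod r) ∈ A r) ↔ j % (∏ r ∈ s, r) ∈ B := by
  classical
  induction s using Finset.induction_on with
  | empty =>
    refine ⟨{0}, by simp, by simp, fun j => ?_⟩
    simp [Nat.mod_one]
  | insert r s hrs ih =>
    obtain ⟨B, hB1, hB2, hB3⟩ := ih fun x hx => hs x (Finset.mem_insert_of_mem hx)
    obtain ⟨hr, hAr⟩ := hs r (Finset.mem_insert_self r s)
    have : NeZero r := ⟨hr.ne_zero⟩
    set m : ℕ := ∏ r ∈ s, r with hm
    have hm0 : 0 < m := Finset.prod_pos fun x hx => (hs x (Finset.mem_insert_of_mem hx)).1.pos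
    have hcop : Nat.Coprime r m := by
      apply Nat.Coprime.prod_right
      intro x hx
      refine (Nat.coprime_primes hr (hs x (Finset.mem_insert_of_mem hx)).1).2 ?_
      rintro rfl
      exact hrs hx
    rw [Finset.prod_insert hrs, Finset.card_insert_of_notMem hrs]
    have hcast : ∀ j : ℕ, ((j % (r * m) : ℕ) : ZMod r) = (j : ZMod r) := by
      intro j
      rw [ZMod.natCast_eq_natCast_iff]
      exact (Nat.mod_modEq j (r * m)).of_mul_right m
    have hmod : ∀ j : ℕ, j % (r * m) % m = j % m := fun j => Nat.mod_mod_of_dvd j (Dvd.intro_left _ rfl)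
    refine ⟨(range (r * m)).filter (fun j : ℕ => (j : ZMod r) ∈ A r ∧ j % m ∈ B),
      Finset.filter_subset _ _, ?_, fun j => ?_⟩
    · have e1 : ((range (r * m)).filter (fun j : ℕ => (j : ZMod r) ∈ A r ∧ j % m ∈ B)).card =
          ((A r) ×ˢ B).card := by
        refine Finset.card_bij (fun (j : ℕ) _ => ((j : ZMod r), j % m)) ?_ ?_ ?_
        · intro j hj
          rw [Finset.mem_filter] at hj
          exact Finset.mem_product.2 hj.2
        · intro j hj j' hj' he
          rw [Finset.mem_filter, Finset.mem_range] at hj hj'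
          have h1 := congrArg Prod.fst he
          have h2 := congrArg Prod.snd he
          have h3 : j ≡ j' [MOD r] := (ZMod.natCast_eq_natCast_iff _ _ _).1 h1
          have h4 : j ≡ j' [MOD m] := h2
          have h5 : j ≡ j' [MOD r * m] := (Nat.modEq_and_modEq_iff_modEq_mul hcop).1 ⟨h3, h4⟩
          exact Nat.ModEq.eq_of_lt_of_lt h5 hj.1 hj'.1
        · rintro ⟨x, b⟩ hxb
          obtain ⟨hx, hb⟩ := Finset.mem_product.1 hxb
          have hbm : b < m := Finset.mem_range.1 (hB1 hb)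
          obtain ⟨k, hk1, hk2⟩ := Nat.chineseRemainder hcop x.val b
          have e2 : ((k % (r * m) : ℕ) : ZMod r) = x := by
            rw [hcast, (ZMod.natCast_eq_natCast_iff _ _ _).2 hk1, ZMod.natCast_zmod_val]
          have e3 : k % (r * m) % m = b := by
            rw [hmod]
            have : k % m = b % m := hk2
            rw [this, Nat.mod_eq_of_lt hbm]
          refine ⟨k % (r * m), ?_, ?_⟩
          · rw [Finset.mem_filter, Finset.mem_range, e2, e3]
            exact ⟨Nat.mod_lt _ (Nat.mul_pos hr.pos hm0), hx, hb⟩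
          · rw [e2, e3]
      rw [e1, Finset.card_product, hAr, hB2]
      ring
    · rw [Finset.mem_filter, Finset.mem_range, hcast, hmod, ← hB3]
      constructor
      · intro h
        exact ⟨Nat.mod_lt _ (Nat.mul_pos hr.pos hm0), h r (Finset.mem_insert_self r s),
          fun x hx => h x (Finset.mem_insert_of_mem hx)⟩
      · rintro ⟨-, h1, h2⟩ x hx
        rcases Finset.mem_insert.1 hx with rfl | hx
        · exact h1
        · exact h2 x hx

/-- elements of one class -/
theorem one_cls (m N b : ℕ) (hm : 0 < m) (hb : b < m) :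
    |((((range (N + 1)).filter (fun j => j % m = b)).card : ℕ) : ℝ) - ((N : ℝ) + 1) / m| ≤ 1 := by
  have h1 : ((range (N + 1)).filter (fun j => j % m = b)).card =
      (N + 1).count (· ≡ b [MOD m]) := by
    rw [Nat.count_eq_card_filter_range]
    congr 1
    refine Finset.filter_congr fun j _ => ?_
    unfold Nat.ModEq
    rw [Nat.mod_eq_of_lt hb]
  rw [h1, Nat.count_modEq_card _ hm]
  have hm' : (0 : ℝ) < m := by exact_mod_cast hm
  have h2 : ((N + 1 : ℕ) : ℝ) = m * (((N + 1) / m : ℕ) : ℝ) + (((N + 1) % m : ℕ) : ℝ) := by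
    exact_mod_cast (Nat.div_add_mod (N + 1) m).symm
  have h3 : (((N + 1) % m : ℕ) : ℝ) < m := by exact_mod_cast Nat.mod_lt (N + 1) hm
  have h4 : (0 : ℝ) ≤ (((N + 1) % m : ℕ) : ℝ) := Nat.cast_nonneg _
  push_cast at h2
  have h5 : ((N : ℝ) + 1) / m = (((N + 1) / m : ℕ) : ℝ) + (((N + 1) % m : ℕ) : ℝ) / m := by
    rw [h2]
    field_simp
  have h6 : (((N + 1) % m : ℕ) : ℝ) / m < 1 := (div_lt_one hm').2 h3
  have h7 : 0 ≤ (((N + 1) % m : ℕ) : ℝ) / m := div_nonneg h4 hm'.le
  rw [h5]
  push_cast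
  split_ifs
  · rw [abs_le]
    constructor <;> linarith
  · rw [abs_le]
    constructor <;> linarith

end CRT

theorem t_CRT : S_CRT := by
  intro a ha c g ν N hc hg hν s hs
  classical
  have hA : ∀ r : ℕ, ∃ A : Finset (ZMod r), r ∈ s → A.card = 2 ∧
      ∀ j : ℕ, ((c * r : ℕ) : ℤ) ∣ fa a ((ν + c * g * j : ℕ) : ℤ) ↔ (j : ZMod r) ∈ A := by
    intro r
    by_cases hr : r ∈ s
    · obtain ⟨A, hA⟩ := CRT.two_cls ha (hs r hr).1 (hs r hr).2.1 (hs r hr).2.2 hν
      exact ⟨A, fun _ => hA⟩
    · exact ⟨∅, fun h => absurd h hr⟩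
  choose A hA using hA
  obtain ⟨B, hB1, hB2, hB3⟩ := CRT.cls_prod A s fun r hr => ⟨(hs r hr).1, (hA r hr).1⟩
  set m : ℕ := ∏ r ∈ s, r with hm
  have hm0 : 0 < m := Finset.prod_pos fun x hx => (hs x hx).1.pos
  have hset : {j : ℕ | j ≤ N ∧ ∀ r ∈ s, ((c * r : ℕ) : ℤ) ∣ fa a ((ν + c * g * j : ℕ) : ℤ)} =
      (((range (N + 1)).filter (fun j => j % m ∈ B) : Finset ℕ) : Set ℕ) := by
    ext j
    rw [Set.mem_ofPred_eq, Finset.mem_coe, Finset.mem_filter, Finset.mem_range, ← hB3]
    constructor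
    · rintro ⟨h1, h2⟩
      exact ⟨by omega, fun r hr => ((hA r hr).2 j).1 (h2 r hr)⟩
    · rintro ⟨h1, h2⟩
      exact ⟨by omega, fun r hr => ((hA r hr).2 j).2 (h2 r hr)⟩
  rw [hset, Set.ncard_coe_finset]
  have hsum : ((range (N + 1)).filter (fun j => j % m ∈ B)).card =
      ∑ b ∈ B, ((range (N + 1)).filter (fun j => j % m = b)).card := by
    have h0 := Finset.card_eq_sum_card_fiberwise (f := fun j : ℕ => j % m)
      (s := (range (N + 1)).filter (fun j => j % m ∈ B)) (t := B) (fun j hj =>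
      (Finset.mem_filter.1 (Finset.mem_coe.1 hj)).2)
    rw [h0]
    refine Finset.sum_congr rfl fun b hb => ?_
    rw [Finset.filter_filter]
    congr 1
    refine Finset.filter_congr fun j _ => ?_
    constructor
    · exact fun h => h.2
    · exact fun h => ⟨by rw [h]; exact hb, h⟩
  have hprod : ((N : ℝ) + 1) * ∏ r ∈ s, ((2 : ℝ) / r) = ∑ b ∈ B, ((N : ℝ) + 1) / m := by
    rw [Finset.sum_const, hB2, Finset.prod_div_distrib, Finset.prod_const, nsmul_eq_mul, hm]
    push_cast
    ring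
  rw [hsum, hprod]
  push_cast
  rw [← Finset.sum_sub_distrib]
  calc |∑ b ∈ B, ((((range (N + 1)).filter (fun j => j % m = b)).card : ℝ) - ((N : ℝ) + 1) / m)|
      ≤ ∑ b ∈ B, |(((range (N + 1)).filter (fun j => j % m = b)).card : ℝ) - ((N : ℝ) + 1) / m| :=
        Finset.abs_sum_le_sum_abs _ _
    _ ≤ ∑ b ∈ B, (1 : ℝ) := Finset.sum_le_sum fun b hb =>
        CRT.one_cls m N b hm0 (Finset.mem_range.1 (hB1 hb))
    _ = (2 : ℝ) ^ s.card := by
      rw [Finset.sum_const, hB2, nsmul_eq_mul, mul_one]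
      push_cast
      rfl

end Pool.Agent.H183.GL
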