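import Pool.Agent.H183.GL.Stm

/-!
# Project GL (helper183), F3A: cofactor prime to `l` (helper706)
-/

set_option autoImplicit false

namespace Pool.Agent.H183.GL

open Finset

namespace F3A

lemma fa_sub (a x y : ℤ) : fa a x - fa a y = (x - y) * (x + y + a) := by
  unfold fa; ring

lemma dvd_iff {m a x y : ℤ} (h : m ∣ x - y) (b : ℤ) : m ∣ fa a x - b ↔ m ∣ fa a y - b := by
  have h1 : m ∣ (fa a x - b) - (fa a y - b) := by
    have e : (fa a x - b) - (fa a y - b) = (x - y) * (x + y + a) := by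
      rw [← fa_sub]; ring
    rw [e]
    exact Dvd.dvd.mul_right h _
  constructor
  · intro h2
    have := dvd_sub h2 h1
    rwa [sub_sub_cancel] at this
  · intro h2
    have := dvd_add h1 h2
    rwa [sub_add_cancel] at this

lemma mod_dvd (n m : ℕ) : (m : ℤ) ∣ (n : ℤ) - ((n % m : ℕ) : ℤ) := by
  refine ⟨((n / m : ℕ) : ℤ), ?_⟩
  have h := Nat.div_add_mod n m
  have h2 : ((m * (n / m) + n % m : ℕ) : ℤ) = (n : ℤ) := by rw [h]
  rw [Nat.cast_add, Nat.cast_mul] at h2
  linear_combination -h2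

/-- A monic quadratic polynomial has at most two roots modulo a prime. -/
lemma quad_roots {l : ℕ} (hl : l.Prime) (a b : ℤ) :
    ((range l).filter (fun x : ℕ => (l : ℤ) ∣ fa a x - b)).card ≤ 2 := by
  classical
  have : Fact l.Prime := ⟨hl⟩
  set P : Polynomial (ZMod l) := Polynomial.X ^ 2 + Polynomial.C (a : ZMod l) * Polynomial.X +
    Polynomial.C ((1 - b : ℤ) : ZMod l) with hP
  have hdeg : P.natDegree = 2 := by
    rw [hP]
    compute_degree!
  have hP0 : P ≠ 0 := by
    intro h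
    rw [h, Polynomial.natDegree_zero] at hdeg
    omega
  have h1 : ((range l).filter (fun x : ℕ => (l : ℤ) ∣ fa a x - b)).card ≤ P.roots.toFinset.card := by
    refine Finset.card_le_card_of_injOn (fun x : ℕ => (x : ZMod l)) ?_ ?_
    · intro x hx
      rw [Finset.mem_coe, Finset.mem_filter] at hx
      rw [Finset.mem_coe, Multiset.mem_toFinset, Polynomial.mem_roots hP0, Polynomial.IsRoot.def, hP]
      have h2 := (ZMod.intCast_zmod_eq_zero_iff_dvd (fa a x - b) l).2 hx.2
      unfold fa at h2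
      push_cast at h2
      simp only [Polynomial.eval_add, Polynomial.eval_pow, Polynomial.eval_X, Polynomial.eval_mul,
        Polynomial.eval_C]
      push_cast
      linear_combination h2
    · intro x hx y hy hxy
      rw [Finset.mem_coe, Finset.mem_filter, Finset.mem_range] at hx hy
      have h2 : (x : ZMod l) = (y : ZMod l) := hxy
      rw [ZMod.natCast_eq_natCast_iff'] at h2
      rwa [Nat.mod_eq_of_lt hx.1, Nat.mod_eq_of_lt hy.1] at h2
  refine h1.trans ((Multiset.toFinset_card_le _).trans ((Polynomial.card_roots' P).trans ?_))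
  rw [hdeg]

/-- The function `x / log (1 + x)` is increasing. -/
lemma BB_mono {x y : ℝ} (hx : 0 < x) (hxy : x ≤ y) : BB x ≤ BB y := by
  have hy : 0 < y := lt_of_lt_of_le hx hxy
  have h1 : 0 < Real.log (1 + x) := Real.log_pos (by linarith)
  have h2 : 0 < Real.log (1 + y) := Real.log_pos (by linarith)
  unfold BB
  rw [div_le_div_iff₀ h1 h2]
  have h3 : (1 + y) ^ (x / y) ≤ 1 + (x / y) * y :=
    rpow_one_add_le_one_add_mul_self (by linarith) (by positivity) ((div_le_one hy).2 hxy)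
  rw [div_mul_cancel₀ x hy.ne'] at h3
  have h4 := Real.log_le_log (Real.rpow_pos_of_pos (by linarith) _) h3
  rw [Real.log_rpow (by linarith)] at h4
  calc x * Real.log (1 + y) = y * (x / y * Real.log (1 + y)) := by field_simp
    _ ≤ y * Real.log (1 + x) := mul_le_mul_of_nonneg_left h4 hy.le

lemma BB_nonneg {x : ℝ} (hx : 0 < x) : 0 ≤ BB x :=
  div_nonneg hx.le (Real.log_nonneg (by linarith))

lemma two_sub {a : ℤ} (ha : IsA a) : fa a (-1) = 1 ∨ fa a (-1) = 2 ∨ fa a (-1) = 3 := by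
  unfold fa
  rcases ha with rfl | rfl | rfl <;> norm_num

/-- The number of classes. -/
lemma card_V {a : ℤ} {w l c : ℕ} (hw : w.Prime) (hl : l.Prime) (hlw : l < w) (hc : 1 ≤ c)
    (hlc : ¬ l ∣ c) (hwc : ¬ w ∣ c) :
    ((range (c * l * w)).filter (fun ν : ℕ => (c : ℤ) ∣ fa a ν ∧ (l : ℤ) ∣ fa a ν - c ∧
      w ∣ ν + 1)).card ≤ rho a c * 2 := by
  classical
  have hcl : Nat.Coprime c l := ((Nat.Prime.coprime_iff_not_dvd hl).2 hlc).symm
  have hclw : Nat.Coprime (c * l) w := by
    refine Nat.Coprime.mul_left ((Nat.Prime.coprime_iff_not_dvd hw).2 hwc).symm ?_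
    refine ((Nat.Prime.coprime_iff_not_dvd hw).2 fun h => ?_).symm
    have := Nat.le_of_dvd hl.pos h
    omega
  calc ((range (c * l * w)).filter (fun ν : ℕ => (c : ℤ) ∣ fa a ν ∧ (l : ℤ) ∣ fa a ν - c ∧
      w ∣ ν + 1)).card ≤ (((range c).filter (fun ν : ℕ => (c : ℤ) ∣ fa a ν)) ×ˢ
        ((range l).filter (fun x : ℕ => (l : ℤ) ∣ fa a x - c))).card := by
        refine Finset.card_le_card_of_injOn (fun ν => (ν % c, ν % l)) ?_ ?_
        · intro ν hν
          rw [Finset.mem_coe, Finset.mem_filter] at hν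
          obtain ⟨-, h1, h2, -⟩ := hν
          rw [Finset.mem_coe, Finset.mem_product, Finset.mem_filter, Finset.mem_filter, Finset.mem_range,
            Finset.mem_range]
          refine ⟨⟨Nat.mod_lt _ (by omega), ?_⟩, ⟨Nat.mod_lt _ hl.pos, ?_⟩⟩
          · have := (dvd_iff (a := a) (mod_dvd ν c) 0).1 (by rwa [sub_zero])
            rwa [sub_zero] at this
          · exact (dvd_iff (a := a) (mod_dvd ν l) c).1 h2
        · intro x hx y hy hxy
          rw [Finset.mem_coe, Finset.mem_filter, Finset.mem_range] at hx hy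
          obtain ⟨hx1, -, -, hx4⟩ := hx
          obtain ⟨hy1, -, -, hy4⟩ := hy
          rw [Prod.mk.injEq] at hxy
          have h1 : x ≡ y [MOD c * l] := (Nat.modEq_and_modEq_iff_modEq_mul hcl).1 ⟨hxy.1, hxy.2⟩
          have h2 : x ≡ y [MOD w] := by
            have h3 : x + 1 ≡ y + 1 [MOD w] :=
              ((Nat.modEq_zero_iff_dvd).2 hx4).trans ((Nat.modEq_zero_iff_dvd).2 hy4).symm
            exact Nat.ModEq.add_right_cancel' 1 h3
          have h3 : x ≡ y [MOD c * l * w] := (Nat.modEq_and_modEq_iff_modEq_mul hclw).1 ⟨h1, h2⟩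
          exact Nat.ModEq.eq_of_lt_of_lt h3 hx1 hy1
    _ = rho a c * ((range l).filter (fun x : ℕ => (l : ℤ) ∣ fa a x - c)).card := by
        rw [Finset.card_product]
        rfl
    _ ≤ rho a c * 2 := Nat.mul_le_mul_left _ (quad_roots hl a c)

end F3A

open F3A in
theorem t_F3A (h : S_SIEVE) : S_F3A := by
  classical
  obtain ⟨C, hC, hS⟩ := h
  refine ⟨2 * C, by positivity, ?_⟩
  intro a ha X w l c hw hl hl3 hlw hc hX hlc
  have hw1 : 1 ≤ w - 1 := by have := hw.two_le; omega
  have hlw' : l < w := by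
    have := Nat.le_of_dvd (by omega) hlw
    omega
  have hM : 0 < c * l * w := Nat.mul_pos (Nat.mul_pos hc hl.pos) hw.pos
  have hMr : (0 : ℝ) < (c : ℝ) * l * w := by exact_mod_cast hM
  have hkap : ∀ q : ℕ, 0 ≤ kap q := fun q => sq_nonneg _
  have hx0 : (0 : ℝ) < (X : ℝ) / (c * l * w) := by
    apply div_pos _ hMr
    have : 0 < X := lt_of_lt_of_le hM hX
    exact_mod_cast this
  set S : Set ℕ := {n : ℕ | 1 ≤ n ∧ n ≤ X ∧ w ∣ n + 1 ∧ ∃ q : ℕ, q.Prime ∧ X < q ∧ l ∣ q - 1 ∧
      (c : ℤ) * q = fa a n} with hSd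
  -- congruences
  have hcong : ∀ n ∈ S, (c : ℤ) ∣ fa a n ∧ (l : ℤ) ∣ fa a n - c := by
    rintro n ⟨h1, h2, h3, q, hq, hXq, hlq, hcq⟩
    refine ⟨⟨q, hcq.symm⟩, ?_⟩
    rw [← hcq]
    obtain ⟨k, hk⟩ := hlq
    have hq1 : (q : ℤ) = 1 + l * k := by
      have : q = 1 + l * k := by have := hq.one_lt; omega
      rw [this]; push_cast; ring
    exact ⟨c * k, by rw [hq1]; ring⟩
  by_cases hwc : w ∣ c
  · have hempty : S = ∅ := by
      rw [Set.eq_empty_iff_forall_notMem]
      intro n hn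
      have hn0 := (hcong n hn).1
      obtain ⟨h1, h2, h3, -⟩ := hn
      have h4 : (w : ℤ) ∣ fa a n := dvd_trans (Int.natCast_dvd_natCast.2 hwc) hn0
      have h5 : (w : ℤ) ∣ (n : ℤ) - (-1) := by
        have : ((n : ℤ) - (-1)) = ((n + 1 : ℕ) : ℤ) := by push_cast; ring
        rw [this]
        exact Int.natCast_dvd_natCast.2 h3
      have h6 : (w : ℤ) ∣ fa a (-1) := by
        have := (dvd_iff (a := a) h5 0).1 (by rwa [sub_zero])
        rwa [sub_zero] at this
      have h7 := Int.le_of_dvd (by rcases two_sub ha with e | e | e <;> rw [e] <;> norm_num) h6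
      rcases two_sub ha with e | e | e <;> rw [e] at h7 <;> omega
    rw [hempty, Set.ncard_empty, Nat.cast_zero]
    have := hkap (c * l * w)
    have h2 := BB_nonneg hx0
    positivity
  -- the main case
  set N := X / (c * l * w) with hN
  have hN1 : 1 ≤ N := (Nat.one_le_div_iff hM).2 hX
  have hNX : N ≤ X := Nat.div_le_self _ _
  have hNr : (N : ℝ) ≤ (X : ℝ) / (c * l * w) := by
    have := @Nat.cast_div_le ℝ _ _ _ X (c * l * w)
    push_cast at this
    exact this
  set V := (range (c * l * w)).filter (fun ν : ℕ => (c : ℤ) ∣ fa a ν ∧ (l : ℤ) ∣ fa a ν - c ∧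
      w ∣ ν + 1) with hV
  have hcV : (V.card : ℝ) ≤ (rho a c : ℝ) * 2 := by
    exact_mod_cast card_V (a := a) hw hl hlw' hc hlc hwc
  set SF := (Finset.Icc 1 X).filter (fun n => n ∈ S) with hSF
  have hSS : S = (SF : Set ℕ) := by
    ext n
    rw [Finset.mem_coe, hSF, Finset.mem_filter, Finset.mem_Icc]
    exact ⟨fun hn => ⟨⟨hn.1, hn.2.1⟩, hn⟩, fun hn => hn.2⟩
  have hmap : ∀ n ∈ SF, n % (c * l * w) ∈ V := by
    intro n hn
    have hn' : n ∈ S := by rw [hSS]; exact hn
    obtain ⟨h1, h2⟩ := hcong n hn'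
    have hd := mod_dvd n (c * l * w)
    have hdc : (c : ℤ) ∣ (n : ℤ) - ((n % (c * l * w) : ℕ) : ℤ) :=
      dvd_trans (Int.natCast_dvd_natCast.2 ⟨l * w, by ring⟩) hd
    have hdl : (l : ℤ) ∣ (n : ℤ) - ((n % (c * l * w) : ℕ) : ℤ) :=
      dvd_trans (Int.natCast_dvd_natCast.2 ⟨c * w, by ring⟩) hd
    rw [hV, Finset.mem_filter, Finset.mem_range]
    refine ⟨Nat.mod_lt _ hM, ?_, ?_, ?_⟩
    · have := (dvd_iff (a := a) hdc 0).1 (by rwa [sub_zero])
      rwa [sub_zero] at this
    · exact (dvd_iff (a := a) hdl c).1 h2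
    · have h3 : w ∣ n + 1 := hn'.2.2.1
      have h4 : n % (c * l * w) + 1 ≡ n + 1 [MOD w] := by
        have h5 : n % (c * l * w) ≡ n [MOD c * l * w] := Nat.mod_modEq _ _
        have h6 : n % (c * l * w) ≡ n [MOD w] := h5.of_mul_left (c * l)
        exact h6.add_right 1
      exact (Nat.modEq_zero_iff_dvd).1 (h4.trans ((Nat.modEq_zero_iff_dvd).2 h3))
  have hfib : ∀ ν ∈ V, ((SF.filter (fun n => n % (c * l * w) = ν)).card : ℝ) ≤
      C * kap (c * l * w) * BB ((X : ℝ) / (c * l * w)) := by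
    intro ν hν
    rw [hV, Finset.mem_filter] at hν
    set J : Set ℕ := {j : ℕ | j ≤ N ∧ ∃ q : ℕ, q.Prime ∧ N < q ∧
      (c : ℤ) * q = fa a ((ν + c * (l * w) * j : ℕ) : ℤ)} with hJ
    have hJf : J.Finite := (Set.finite_Iic N).subset fun j hj => hj.1
    have h1 : (SF.filter (fun n => n % (c * l * w) = ν)).card ≤ J.ncard := by
      have hinj : Set.InjOn (fun n => n / (c * l * w))
          (SF.filter (fun n => n % (c * l * w) = ν) : Set ℕ) := by
        intro x hx y hy hxy
        rw [Finset.mem_coe, Finset.mem_filter] at hx hy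
        have hxy' : x / (c * l * w) = y / (c * l * w) := hxy
        rw [← Nat.div_add_mod x (c * l * w), ← Nat.div_add_mod y (c * l * w), hx.2, hy.2, hxy']
      rw [← Finset.card_image_of_injOn hinj, ← Set.ncard_coe_finset]
      refine Set.ncard_le_ncard ?_ hJf
      intro j hj
      rw [Finset.mem_coe, Finset.mem_image] at hj
      obtain ⟨n, hn, rfl⟩ := hj
      rw [Finset.mem_filter] at hn
      have hn' : n ∈ S := by rw [hSS]; exact hn.1
      obtain ⟨h1, h2, h3, q, hq, hXq, hlq, hcq⟩ := hn'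
      refine ⟨Nat.div_le_div_right h2, q, hq, lt_of_le_of_lt hNX hXq, ?_⟩
      have e : ν + c * (l * w) * (n / (c * l * w)) = n := by
        have := Nat.div_add_mod n (c * l * w)
        rw [hn.2] at this
        rw [← mul_assoc c l w]
        omega
      rw [e]
      exact hcq
    have h2 := hS a ha c (l * w) ν N hc (Nat.mul_pos hl.pos hw.pos) hN1 hν.2.1
    rw [← mul_assoc c l w] at h2
    calc ((SF.filter (fun n => n % (c * l * w) = ν)).card : ℝ) ≤ (J.ncard : ℝ) := by exact_mod_cast h1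
      _ ≤ C * kap (c * l * w) * BB N := by rw [hJ, ← mul_assoc c l w]; exact h2
      _ ≤ C * kap (c * l * w) * BB ((X : ℝ) / (c * l * w)) := by
          refine mul_le_mul_of_nonneg_left (BB_mono (by exact_mod_cast hN1) hNr) ?_
          exact mul_nonneg hC.le (hkap _)
  have hsum : (SF.card : ℝ) ≤ V.card * (C * kap (c * l * w) * BB ((X : ℝ) / (c * l * w))) := by
    rw [Finset.card_eq_sum_card_fiberwise hmap, Nat.cast_sum]
    refine (Finset.sum_le_sum hfib).trans ?_
    rw [Finset.sum_const, nsmul_eq_mul]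
  rw [hSS, Set.ncard_coe_finset]
  refine hsum.trans ?_
  have h3 : 0 ≤ C * kap (c * l * w) * BB ((X : ℝ) / (c * l * w)) :=
    mul_nonneg (mul_nonneg hC.le (hkap _)) (BB_nonneg hx0)
  calc (V.card : ℝ) * (C * kap (c * l * w) * BB ((X : ℝ) / (c * l * w))) ≤
        ((rho a c : ℝ) * 2) * (C * kap (c * l * w) * BB ((X : ℝ) / (c * l * w))) :=
        mul_le_mul_of_nonneg_right hcV h3
    _ = 2 * C * (rho a c) * kap (c * l * w) * BB ((X : ℝ) / (c * l * w)) := by ring

end Pool.Agent.H183.GL
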