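import Pool.Agent.H183.GL.Stm

set_option autoImplicit false

namespace Pool.Agent.H183.GL

open Finset Pool.Agent.H183.MU

namespace F3B

theorem not_dvd_disc {a : ℤ} (ha : IsA a) {l : ℕ} (hl : l.Prime) (h3 : 3 < l) :
    ¬ (l : ℤ) ∣ 4 - a ^ 2 := by
  intro h
  have h5 : 5 ≤ l := by
    rcases Nat.lt_or_ge 4 l with h4 | h4
    · omega
    · exfalso
      have : l = 4 := by omega
      subst this
      exact absurd hl (by norm_num)
  have h1 : 4 - a ^ 2 = 4 ∨ 4 - a ^ 2 = 3 := by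
    rcases ha with rfl | rfl | rfl <;> norm_num
  have h2 : (l : ℤ) ≤ 4 := by
    rcases h1 with h1 | h1
    · rw [h1] at h
      exact Int.le_of_dvd (by norm_num) h
    · rw [h1] at h
      exact (Int.le_of_dvd (by norm_num) h).trans (by norm_num)
  omega

theorem step {a : ℤ} {l c : ℕ} (hl : l.Prime) (hc : 1 ≤ c) {x y : ℕ} (hx : x < l * c)
    (hy : y < l * c) (hxy : x ≠ y) (hm : x % c = y % c) (h1 : ((l * c : ℕ) : ℤ) ∣ fa a x)
    (h2 : ((l * c : ℕ) : ℤ) ∣ fa a y) :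
    (l : ℤ) ∣ (x : ℤ) + y + a ∧ ∃ d : ℤ, ¬ (l : ℤ) ∣ d ∧ (x : ℤ) - y = c * d := by
  have hc0 : (c : ℤ) ≠ 0 := by
    have : c ≠ 0 := by omega
    exact_mod_cast this
  have hcd : (c : ℤ) ∣ (x : ℤ) - y := by
    have h := (Nat.modEq_iff_dvd.1 (show Nat.ModEq c y x from hm.symm))
    exact h
  obtain ⟨d, hd⟩ := hcd
  have hld : ¬ (l : ℤ) ∣ d := by
    intro hd'
    obtain ⟨e, rfl⟩ := hd'
    have h3 : ((l * c : ℕ) : ℤ) ∣ (x : ℤ) - y := ⟨e, by rw [hd]; push_cast; ring⟩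
    have h4 : y ≡ x [MOD (l * c)] := Nat.modEq_iff_dvd.2 h3
    have h5 : y = x := Nat.ModEq.eq_of_lt_of_lt h4 hy hx
    exact hxy h5.symm
  refine ⟨?_, d, hld, hd⟩
  have h3 : ((l * c : ℕ) : ℤ) ∣ fa a x - fa a y := dvd_sub h1 h2
  have h4 : fa a x - fa a y = (c : ℤ) * (d * ((x : ℤ) + y + a)) := by
    have : fa a x - fa a y = ((x : ℤ) - y) * ((x : ℤ) + y + a) := by
      unfold fa
      ring
    rw [this, hd]
    ring
  rw [h4] at h3
  have h5 : (c : ℤ) * (l : ℤ) ∣ (c : ℤ) * (d * ((x : ℤ) + y + a)) := by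
    have : ((l * c : ℕ) : ℤ) = (c : ℤ) * (l : ℤ) := by push_cast; ring
    rwa [this] at h3
  have h6 : (l : ℤ) ∣ d * ((x : ℤ) + y + a) := (mul_dvd_mul_iff_left hc0).1 h5
  rcases (Nat.prime_iff_prime_int.1 hl).dvd_or_dvd h6 with h | h
  · exact absurd h hld
  · exact h

theorem rho_mul {a : ℤ} (ha : IsA a) {l c : ℕ} (hl : l.Prime) (h3 : 3 < l) (hc : 1 ≤ c) :
    rho a (l * c) ≤ 2 * rho a c := by
  classical
  unfold rho
  have hsub : (((range (l * c)).filter (fun ν : ℕ => ((l * c : ℕ) : ℤ) ∣ fa a ν)).image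
      (fun x => x % c)) ⊆ (range c).filter (fun ν : ℕ => (c : ℤ) ∣ fa a ν) := by
    intro y hy
    obtain ⟨x, hx, rfl⟩ := Finset.mem_image.1 hy
    rw [Finset.mem_filter] at hx ⊢
    refine ⟨Finset.mem_range.2 (Nat.mod_lt _ (by omega)), ?_⟩
    have h1 : (c : ℤ) ∣ fa a x := (Int.natCast_dvd_natCast.2 (Dvd.intro_left l rfl)).trans hx.2
    have h2 : (c : ℤ) ∣ (x : ℤ) - ((x % c : ℕ) : ℤ) :=
      Nat.modEq_iff_dvd.1 (Nat.mod_modEq x c)
    have h3 : fa a ((x % c : ℕ) : ℤ) = fa a x -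
        ((x : ℤ) - ((x % c : ℕ) : ℤ)) * ((x : ℤ) + ((x % c : ℕ) : ℤ) + a) := by
      unfold fa
      ring
    rw [h3]
    exact dvd_sub h1 (h2.mul_right _)
  refine (Finset.card_le_mul_card_image (f := fun x => x % c) _ 2 ?_).trans
    (Nat.mul_le_mul_left 2 (Finset.card_le_card hsub))
  intro b _
  by_contra hcon
  rw [not_le, Finset.two_lt_card] at hcon
  obtain ⟨x, hx, y, hy, z, hz, hxy, hxz, hyz⟩ := hcon
  simp only [Finset.mem_filter, Finset.mem_range] at hx hy hz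
  obtain ⟨e1, d1, hd1, g1⟩ := step hl hc hx.1.1 hy.1.1 hxy (hx.2.trans hy.2.symm) hx.1.2 hy.1.2
  obtain ⟨e2, d2, hd2, g2⟩ := step hl hc hx.1.1 hz.1.1 hxz (hx.2.trans hz.2.symm) hx.1.2 hz.1.2
  obtain ⟨e3, d3, hd3, g3⟩ := step hl hc hy.1.1 hz.1.1 hyz (hy.2.trans hz.2.symm) hy.1.2 hz.1.2
  have hp := Nat.prime_iff_prime_int.1 hl
  have h4 : (l : ℤ) ∣ (c : ℤ) * d3 := by
    rw [← g3]
    have := dvd_sub e1 e2
    have e : (x : ℤ) + y + a - (x + z + a) = (y : ℤ) - z := by ring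
    rwa [e] at this
  have h5 : (l : ℤ) ∣ c := (hp.dvd_or_dvd h4).resolve_right hd3
  have h6 : (l : ℤ) ∣ (x : ℤ) - y := by
    rw [g1]
    exact h5.mul_right _
  have h7 : (l : ℤ) ∣ 2 * (x : ℤ) + a := by
    have := dvd_add e1 h6
    have e : (x : ℤ) + y + a + (x - y) = 2 * (x : ℤ) + a := by ring
    rwa [e] at this
  have h8 : (l : ℤ) ∣ fa a x := (Int.natCast_dvd_natCast.2 (Dvd.intro c rfl)).trans hx.1.2
  have h9 : (l : ℤ) ∣ 4 - a ^ 2 := by
    have e : 4 - a ^ 2 = 4 * fa a x - (2 * (x : ℤ) + a) * (2 * (x : ℤ) + a) := by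
      unfold fa
      ring
    rw [e]
    exact dvd_sub (h8.mul_left _) (h7.mul_left _)
  exact not_dvd_disc ha hl h3 h9

theorem BB_floor {M X : ℕ} (hM : 1 ≤ M) (hX : M ≤ X) :
    BB ((X / M : ℕ) : ℝ) ≤ 2 * BB ((X : ℝ) / M) := by
  have hM0 : (0 : ℝ) < M := by exact_mod_cast hM
  have hN1 : 1 ≤ X / M := (Nat.one_le_div_iff (by omega)).2 hX
  have hN : (1 : ℝ) ≤ ((X / M : ℕ) : ℝ) := by exact_mod_cast hN1
  have h1 : ((X / M : ℕ) : ℝ) ≤ (X : ℝ) / M := Nat.cast_div_le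
  have h2 : (X : ℝ) / M < ((X / M : ℕ) : ℝ) + 1 := by
    rw [div_lt_iff₀ hM0]
    have := Nat.lt_mul_div_succ X (show 0 < M by omega)
    have h : (X : ℝ) < (M : ℝ) * (((X / M : ℕ) : ℝ) + 1) := by exact_mod_cast this
    linarith [mul_comm (M : ℝ) (((X / M : ℕ) : ℝ) + 1)]
  obtain ⟨N, hNe⟩ : ∃ N : ℝ, N = ((X / M : ℕ) : ℝ) := ⟨_, rfl⟩
  obtain ⟨x, hx⟩ : ∃ x : ℝ, x = (X : ℝ) / M := ⟨_, rfl⟩
  rw [← hNe, ← hx]
  rw [← hNe] at hN h1 h2
  rw [← hx] at h1 h2
  unfold BB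
  have l1 : 0 < Real.log (1 + N) := Real.log_pos (by linarith)
  have l2 : 0 < Real.log (1 + x) := Real.log_pos (by linarith)
  have l3 : Real.log (1 + x) ≤ 2 * Real.log (1 + N) := by
    have e : 2 * Real.log (1 + N) = Real.log ((1 + N) ^ 2) := by
      rw [Real.log_pow]
      norm_num
    rw [e]
    exact Real.log_le_log (by linarith) (by nlinarith)
  rw [div_le_iff₀ l1, mul_div_assoc', div_mul_eq_mul_div, le_div_iff₀ l2]
  nlinarith

end F3B

open F3B in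
theorem t_F3B (h : S_SIEVE) : S_F3B := by
  classical
  obtain ⟨C, hC, hS⟩ := h
  refine ⟨4 * C, by positivity, ?_⟩
  intro a ha X w l c hw hl h3 hlw hc hX
  have hkap : ∀ q, 0 ≤ kap q := fun q => by unfold kap; positivity
  have hBB : 0 ≤ BB ((X : ℝ) / (c * l * w)) := by
    unfold BB
    have h0 : (0 : ℝ) ≤ (X : ℝ) / (c * l * w) := by positivity
    exact div_nonneg h0 (Real.log_nonneg (by linarith))
  have hlw' : l < w := by
    have h1 := Nat.le_of_dvd (by have := hw.one_lt; omega) hlw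
    have := hw.one_lt
    omega
  have hw4 : 4 < w := by omega
  have hrhs : 0 ≤ 4 * C * (rho a c) * kap (c * l * w) * BB ((X : ℝ) / (c * l * w)) := by
    have := hkap (c * l * w)
    positivity
  by_cases hwc : w ∣ c
  · have hempty : {n : ℕ | 1 ≤ n ∧ n ≤ X ∧ w ∣ n + 1 ∧ ∃ q : ℕ, q.Prime ∧ X < q ∧
      ((l * c : ℕ) : ℤ) * q = fa a n} = ∅ := by
      refine Set.eq_empty_iff_forall_notMem.2 ?_
      rintro n ⟨-, -, h1, q, -, -, h2⟩
      have h4 : (w : ℤ) ∣ fa a n := by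
        rw [← h2]
        exact (Int.natCast_dvd_natCast.2 (hwc.trans (Dvd.intro_left l rfl))).mul_right _
      have h5 : (w : ℤ) ∣ (n : ℤ) + 1 := by exact_mod_cast (Int.natCast_dvd_natCast.2 h1)
      have h6 : (w : ℤ) ∣ 2 - a := by
        have e : 2 - a = fa a n - ((n : ℤ) + 1) * (n + a - 1) := by
          unfold fa
          ring
        rw [e]
        exact dvd_sub h4 (h5.mul_right _)
      have h7 : 2 - a ≤ 3 ∧ 0 < 2 - a := by
        rcases ha with rfl | rfl | rfl <;> norm_num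
      have h8 := Int.le_of_dvd h7.2 h6
      omega
    rw [hempty, Set.ncard_empty, Nat.cast_zero]
    exact hrhs
  · have hM1 : 1 ≤ l * c * w := Nat.mul_pos (Nat.mul_pos hl.pos hc) hw.pos
    have hMX : l * c * w ≤ X := by
      have e : l * c * w = c * l * w := by ring
      omega
    have hN1 : 1 ≤ X / (l * c * w) := (Nat.one_le_div_iff hM1).2 hMX
    have hcop : Nat.Coprime (l * c) w := by
      refine Nat.Coprime.mul_left ?_ ?_
      · exact (Nat.coprime_primes hl hw).2 (by omega)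
      · exact ((Nat.Prime.coprime_iff_not_dvd hw).2 hwc).symm
    -- the classes
    obtain ⟨R, hR⟩ : ∃ R : Finset ℕ, R = (range (l * c * w)).filter (fun ν : ℕ =>
      ((l * c : ℕ) : ℤ) ∣ fa a ν ∧ w ∣ ν + 1) := ⟨_, rfl⟩
    have hRcard : R.card ≤ 2 * rho a c := by
      refine le_trans ?_ (rho_mul ha hl h3 hc)
      unfold rho
      refine Finset.card_le_card_of_injOn (fun x => x % (l * c)) ?_ ?_
      · intro x hx
        rw [hR, Finset.mem_coe, Finset.mem_filter] at hx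
        rw [Finset.mem_coe, Finset.mem_filter]
        refine ⟨Finset.mem_range.2 (Nat.mod_lt _ (Nat.mul_pos hl.pos hc)), ?_⟩
        have h2 : ((l * c : ℕ) : ℤ) ∣ (x : ℤ) - ((x % (l * c) : ℕ) : ℤ) :=
          Nat.modEq_iff_dvd.1 (Nat.mod_modEq x (l * c))
        have h3 : fa a ((x % (l * c) : ℕ) : ℤ) = fa a x -
            ((x : ℤ) - ((x % (l * c) : ℕ) : ℤ)) * ((x : ℤ) + ((x % (l * c) : ℕ) : ℤ) + a) := by
          unfold fa
          ring
        rw [h3]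
        exact dvd_sub hx.2.1 (h2.mul_right _)
      · intro x hx y hy hxy
        rw [hR, Finset.mem_coe, Finset.mem_filter, Finset.mem_range] at hx hy
        have h1 : x ≡ y [MOD l * c] := hxy
        have h2 : x ≡ y [MOD w] := by
          have h4 : x + 1 ≡ y + 1 [MOD w] :=
            ((Nat.modEq_zero_iff_dvd.2 hx.2.2).trans (Nat.modEq_zero_iff_dvd.2 hy.2.2).symm)
          exact Nat.ModEq.add_right_cancel' 1 h4
        have h5 : x ≡ y [MOD l * c * w] := (Nat.modEq_and_modEq_iff_modEq_mul hcop).1 ⟨h1, h2⟩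
        exact Nat.ModEq.eq_of_lt_of_lt h5 hx.1 hy.1
    have hsub : {n : ℕ | 1 ≤ n ∧ n ≤ X ∧ w ∣ n + 1 ∧ ∃ q : ℕ, q.Prime ∧ X < q ∧
        ((l * c : ℕ) : ℤ) * q = fa a n} ⊆ ⋃ ν ∈ R, (fun j => ν + l * c * w * j) ''
          {j : ℕ | j ≤ X / (l * c * w) ∧ ∃ q : ℕ, q.Prime ∧ X / (l * c * w) < q ∧
            ((l * c : ℕ) : ℤ) * q = fa a ((ν + l * c * w * j : ℕ) : ℤ)} := by
      rintro n ⟨h1, h2, h4, q, hq, hXq, hqn⟩
      have hdecomp : n % (l * c * w) + l * c * w * (n / (l * c * w)) = n := Nat.mod_add_div n _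
      refine Set.mem_iUnion₂.2 ⟨n % (l * c * w), ?_, n / (l * c * w), ⟨?_, q, hq, ?_, ?_⟩, hdecomp⟩
      · rw [hR, Finset.mem_filter]
        refine ⟨Finset.mem_range.2 (Nat.mod_lt _ hM1), ?_, ?_⟩
        · have h5 : ((l * c * w : ℕ) : ℤ) ∣ (n : ℤ) - ((n % (l * c * w) : ℕ) : ℤ) :=
            Nat.modEq_iff_dvd.1 (Nat.mod_modEq n (l * c * w))
          have h5' : ((l * c : ℕ) : ℤ) ∣ (n : ℤ) - ((n % (l * c * w) : ℕ) : ℤ) :=
            (Int.natCast_dvd_natCast.2 (Dvd.intro w rfl)).trans h5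
          have h6 : fa a ((n % (l * c * w) : ℕ) : ℤ) = fa a n -
              ((n : ℤ) - ((n % (l * c * w) : ℕ) : ℤ)) *
                ((n : ℤ) + ((n % (l * c * w) : ℕ) : ℤ) + a) := by
            unfold fa
            ring
          rw [h6, ← hqn]
          exact dvd_sub (Dvd.intro _ rfl) (h5'.mul_right _)
        · have h5 : n % (l * c * w) + 1 ≡ n + 1 [MOD w] :=
            ((Nat.mod_modEq n (l * c * w)).of_dvd (Dvd.intro_left (l * c) rfl)).add_right 1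
          exact (Nat.modEq_zero_iff_dvd.1 (h5.trans (Nat.modEq_zero_iff_dvd.2 h4)))
      · exact Nat.div_le_div_right h2
      · exact (Nat.div_le_self _ _).trans_lt hXq
      · rw [hdecomp]
        exact hqn
    have hfin : (⋃ ν ∈ R, (fun j => ν + l * c * w * j) ''
          {j : ℕ | j ≤ X / (l * c * w) ∧ ∃ q : ℕ, q.Prime ∧ X / (l * c * w) < q ∧
            ((l * c : ℕ) : ℤ) * q = fa a ((ν + l * c * w * j : ℕ) : ℤ)}).Finite := by
      refine Set.Finite.biUnion R.finite_toSet fun ν _ => ?_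
      exact ((Set.finite_Iic (X / (l * c * w))).subset fun j hj => hj.1).image _
    have hcount : ({n : ℕ | 1 ≤ n ∧ n ≤ X ∧ w ∣ n + 1 ∧ ∃ q : ℕ, q.Prime ∧ X < q ∧
        ((l * c : ℕ) : ℤ) * q = fa a n}.ncard : ℝ) ≤
        ∑ ν ∈ R, C * kap (l * c * w) * BB ((X / (l * c * w) : ℕ) : ℝ) := by
      have h1 := (Set.ncard_le_ncard hsub hfin).trans (Finset.set_ncard_biUnion_le R _)
      have h2 : ({n : ℕ | 1 ≤ n ∧ n ≤ X ∧ w ∣ n + 1 ∧ ∃ q : ℕ, q.Prime ∧ X < q ∧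
        ((l * c : ℕ) : ℤ) * q = fa a n}.ncard : ℝ) ≤ ((∑ ν ∈ R, ((fun j => ν + l * c * w * j) ''
          {j : ℕ | j ≤ X / (l * c * w) ∧ ∃ q : ℕ, q.Prime ∧ X / (l * c * w) < q ∧
            ((l * c : ℕ) : ℤ) * q = fa a ((ν + l * c * w * j : ℕ) : ℤ)}).ncard : ℕ) : ℝ) := by
        exact_mod_cast h1
      refine h2.trans ?_
      rw [Nat.cast_sum]
      refine Finset.sum_le_sum fun ν hν => ?_
      rw [hR, Finset.mem_filter] at hν
      refine le_trans ?_ (hS a ha (l * c) w ν (X / (l * c * w)) (Nat.mul_pos hl.pos hc) hw.one_lt.le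
        hN1 hν.2.1)
      have hfin' : {j : ℕ | j ≤ X / (l * c * w) ∧ ∃ q : ℕ, q.Prime ∧ X / (l * c * w) < q ∧
            ((l * c : ℕ) : ℤ) * q = fa a ((ν + l * c * w * j : ℕ) : ℤ)}.Finite :=
        (Set.finite_Iic (X / (l * c * w))).subset fun j hj => hj.1
      exact_mod_cast Set.ncard_image_le hfin'
    refine hcount.trans ?_
    rw [Finset.sum_const, nsmul_eq_mul]
    have hb := BB_floor hM1 hMX
    have hcast : (X : ℝ) / ((l * c * w : ℕ) : ℝ) = (X : ℝ) / (c * l * w) := by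
      push_cast
      congr 1
      ring
    rw [hcast] at hb
    have hk : kap (l * c * w) = kap (c * l * w) := by
      rw [mul_comm l c]
    rw [hk]
    have hRc : (R.card : ℝ) ≤ 2 * (rho a c : ℝ) := by exact_mod_cast hRcard
    have hk0 := hkap (c * l * w)
    calc (R.card : ℝ) * (C * kap (c * l * w) * BB ((X / (l * c * w) : ℕ) : ℝ))
        ≤ (R.card : ℝ) * (C * kap (c * l * w) * (2 * BB ((X : ℝ) / (c * l * w)))) := by
          gcongr
      _ ≤ (2 * (rho a c : ℝ)) * (C * kap (c * l * w) * (2 * BB ((X : ℝ) / (c * l * w)))) := by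
          gcongr
      _ = 4 * C * (rho a c) * kap (c * l * w) * BB ((X : ℝ) / (c * l * w)) := by ring

end Pool.Agent.H183.GL
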