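import Pool.Agent.H183.GL.Stm

set_option autoImplicit false

namespace Pool.Agent.H183.GL

open Finset Filter Topology Pool.Agent.H183.MU

namespace FIN

theorem neg_or {P Q : ℕ → ℕ → ℕ → ℕ → Prop} (hP : Neg P) (hQ : Neg Q) :
    Neg (fun X w l n => P X w l n ∨ Q X w l n) := by
  intro η hη
  obtain ⟨X1, h1⟩ := hP (η / 2) (half_pos hη)
  obtain ⟨X2, h2⟩ := hQ (η / 2) (half_pos hη)
  refine ⟨max X1 X2, fun X hX w l hA => ?_⟩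
  have e1 := h1 X (le_trans (le_max_left _ _) hX) w l hA
  have e2 := h2 X (le_trans (le_max_right _ _) hX) w l hA
  have e : {n : ℕ | 1 ≤ n ∧ n ≤ X ∧ w ∣ n + 1 ∧ (P X w l n ∨ Q X w l n)} =
      {n : ℕ | 1 ≤ n ∧ n ≤ X ∧ w ∣ n + 1 ∧ P X w l n} ∪
        {n : ℕ | 1 ≤ n ∧ n ≤ X ∧ w ∣ n + 1 ∧ Q X w l n} := by
    ext n
    simp only [Set.mem_setOf_eq, Set.mem_union]
    tauto
  rw [e]
  have e3 := Set.ncard_union_le {n : ℕ | 1 ≤ n ∧ n ≤ X ∧ w ∣ n + 1 ∧ P X w l n}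
    {n : ℕ | 1 ≤ n ∧ n ≤ X ∧ w ∣ n + 1 ∧ Q X w l n}
  have e4 : (((({n : ℕ | 1 ≤ n ∧ n ≤ X ∧ w ∣ n + 1 ∧ P X w l n} ∪
        {n : ℕ | 1 ≤ n ∧ n ≤ X ∧ w ∣ n + 1 ∧ Q X w l n} : Set ℕ)).ncard : ℕ) : ℝ) ≤
      (({n : ℕ | 1 ≤ n ∧ n ≤ X ∧ w ∣ n + 1 ∧ P X w l n}.ncard : ℕ) : ℝ) +
        (({n : ℕ | 1 ≤ n ∧ n ≤ X ∧ w ∣ n + 1 ∧ Q X w l n}.ncard : ℕ) : ℝ) := by
    exact_mod_cast e3
  refine e4.trans ((add_le_add e1 e2).trans (le_of_eq ?_))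
  ring

/-- All the exceptional properties together. -/
def Bad (δ : ℝ) (X w l n : ℕ) : Prop :=
  w ^ 2 ∣ n + 1 ∨
  (∃ p : ℕ, p.Prime ∧ p ∣ n ∧ (X : ℝ) ^ δ < p ∧ p ^ 2 ≤ X ∧ HH w l p) ∨
  (∃ p : ℕ, p.Prime ∧ p ∣ n ∧ X < p ^ 2 ∧ HH w l p) ∨
  (∃ q : ℕ, q.Prime ∧ q ≠ w ∧ q ∣ n + 1 ∧ (l ∣ q - 1 ∨ q = l)) ∨
  ((∃ q : ℕ, q.Prime ∧ (q : ℤ) ∣ fa 0 n ∧ (l ∣ q - 1 ∨ q = l) ∧ q * w ≤ X) ∨
   (∃ q : ℕ, q.Prime ∧ (q : ℤ) ∣ fa 0 n ∧ X < q * w ∧ q ≤ 2 * X * l * w) ∨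
   (∃ q : ℕ, q.Prime ∧ (q : ℤ) ∣ fa 0 n ∧ l ∣ q - 1 ∧ 2 * X * l * w < q)) ∨
  ((∃ q : ℕ, q.Prime ∧ (q : ℤ) ∣ fa 1 n ∧ (l ∣ q - 1 ∨ q = l) ∧ q * w ≤ X) ∨
   (∃ q : ℕ, q.Prime ∧ (q : ℤ) ∣ fa 1 n ∧ X < q * w ∧ q ≤ 2 * X * l * w) ∨
   (∃ q : ℕ, q.Prime ∧ (q : ℤ) ∣ fa 1 n ∧ l ∣ q - 1 ∧ 2 * X * l * w < q)) ∨
  ((∃ q : ℕ, q.Prime ∧ (q : ℤ) ∣ fa (-1) n ∧ (l ∣ q - 1 ∨ q = l) ∧ q * w ≤ X) ∨
   (∃ q : ℕ, q.Prime ∧ (q : ℤ) ∣ fa (-1) n ∧ X < q * w ∧ q ≤ 2 * X * l * w) ∨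
   (∃ q : ℕ, q.Prime ∧ (q : ℤ) ∣ fa (-1) n ∧ l ∣ q - 1 ∧ 2 * X * l * w < q))

theorem neg_bad (δ : ℝ) (h0 : 0 < δ) (h1 : δ < 1 / 2) (hSQ : S_SQ) (p1 : S_BP1) (p2 : S_BP2)
    (hBN : S_BN) (f1 : S_BF1) (f2 : S_BF2) (f3 : S_BF3) : Neg (Bad δ) := by
  have a0 : IsA 0 := Or.inl rfl
  have a1 : IsA 1 := Or.inr (Or.inl rfl)
  have a2 : IsA (-1) := Or.inr (Or.inr rfl)
  exact neg_or hSQ (neg_or (p1 δ h0 h1) (neg_or p2 (neg_or hBN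
    (neg_or (neg_or (f1 0 a0) (neg_or (f2 0 a0) (f3 0 a0)))
      (neg_or (neg_or (f1 1 a1) (neg_or (f2 1 a1) (f3 1 a1)))
        (neg_or (f1 (-1) a2) (neg_or (f2 (-1) a2) (f3 (-1) a2))))))))

/-- For large `X` an admissible pair has `3 < w` and `w + 2 ≤ c X`. -/
theorem large (c : ℝ) (hc : 0 < c) : ∃ X₀ : ℕ, ∀ X : ℕ, X₀ ≤ X → ∀ w l : ℕ, Adm X w l →
    3 < w ∧ (w : ℝ) + 2 ≤ c * X ∧ l * w ≤ X := by
  have hlog : Tendsto (fun X : ℕ => Real.log X) atTop atTop :=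
    Real.tendsto_log_atTop.comp tendsto_natCast_atTop_atTop
  have hLL : Tendsto (fun X : ℕ => LL X) atTop atTop := Real.tendsto_log_atTop.comp hlog
  have h1 : ∀ᶠ X : ℕ in atTop, (2 : ℝ) ≤ LL X := hLL.eventually_ge_atTop 2
  have h2 : ∀ᶠ x : ℝ in atTop, Real.log x ≤ (c / 2) * x := by
    have := Real.isLittleO_log_id_atTop.bound (c := c / 2) (half_pos hc)
    filter_upwards [this, eventually_ge_atTop (1 : ℝ)] with x hx hx1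
    rw [id, Real.norm_of_nonneg (Real.log_nonneg hx1), Real.norm_of_nonneg (by linarith)] at hx
    exact hx
  have h3 : ∀ᶠ X : ℕ in atTop, Real.log X ≤ (c / 2) * X :=
    (tendsto_natCast_atTop_atTop (R := ℝ)).eventually h2
  have h4 : ∀ᶠ x : ℝ in atTop, (2 : ℝ) ≤ (c / 2) * x :=
    (tendsto_id.const_mul_atTop (half_pos hc)).eventually_ge_atTop 2
  have h5 : ∀ᶠ X : ℕ in atTop, (2 : ℝ) ≤ (c / 2) * X :=
    (tendsto_natCast_atTop_atTop (R := ℝ)).eventually h4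
  obtain ⟨N, hN⟩ := eventually_atTop.1 (h1.and (h3.and (h5.and (eventually_ge_atTop 2))))
  refine ⟨N, fun X hX w l hA => ?_⟩
  obtain ⟨b1, b2, b3, b4⟩ := hN X hX
  obtain ⟨hw, hl, hlw, hw4, hl9⟩ := hA
  have hl4 : (4 : ℝ) ≤ l := by
    have : (2 : ℝ) ^ 9 ≤ (LL X) ^ 9 := pow_le_pow_left₀ (by norm_num) b1 9
    norm_num at this
    linarith
  have hl4' : 4 ≤ l := by exact_mod_cast hl4
  have hw1 : 0 < w - 1 := by have := hw.two_le; omega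
  have hlew : l ≤ w - 1 := Nat.le_of_dvd hw1 hlw
  have hw1r : (1 : ℝ) ≤ w := by exact_mod_cast hw.one_lt.le
  have hww : (w : ℝ) ≤ (w : ℝ) ^ 4 := le_self_pow₀ hw1r (by norm_num)
  have hww2 : (w : ℝ) ^ 2 ≤ (w : ℝ) ^ 4 := pow_le_pow_right₀ hw1r (by norm_num)
  refine ⟨by omega, ?_, ?_⟩
  · linarith
  · have hX0 : (0 : ℝ) < X := by
      have : 0 < X := by omega
      exact_mod_cast this
    have h6 : Real.log X ≤ X := (Real.log_le_sub_one_of_pos hX0).trans (by linarith)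
    have h7 : ((l * w : ℕ) : ℝ) ≤ (w : ℝ) ^ 2 := by
      have : l * w ≤ w ^ 2 := by
        rw [pow_two]
        exact Nat.mul_le_mul_right w (by omega)
      exact_mod_cast this
    have h8 : ((l * w : ℕ) : ℝ) ≤ X := by linarith
    exact_mod_cast h8

end FIN

open FIN in
theorem t_FIN (hK : S_KEY3) (hW : S_WSET) (hN : S_NOW) (hSQ : S_SQ) (p1 : S_BP1) (p2 : S_BP2)
    (hBN : S_BN) (f1 : S_BF1) (f2 : S_BF2) (f3 : S_BF3) (hS : S_SMO) : S_FIN := by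
  intro ε hε
  obtain ⟨A, hA0, hA⟩ : ∃ A : ℝ, 0 < A ∧ 2 * Real.exp (-A) ≤ ε / 4 := by
    refine ⟨max 1 (Real.log (8 / ε)), lt_of_lt_of_le one_pos (le_max_left _ _), ?_⟩
    have h1 : Real.exp (-(max 1 (Real.log (8 / ε)))) ≤ Real.exp (-(Real.log (8 / ε))) :=
      Real.exp_le_exp.2 (neg_le_neg (le_max_right _ _))
    rw [Real.exp_neg (Real.log (8 / ε)), Real.exp_log (by positivity), inv_div] at h1
    linarith
  obtain ⟨δ, hδ0, hδ1, X1, hX1⟩ := hS (ε / 4) (by positivity)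
  obtain ⟨X2, hX2⟩ := neg_bad δ hδ0 hδ1 hSQ p1 p2 hBN f1 f2 f3 (ε / (4 * (A + 1))) (by positivity)
  obtain ⟨X3, hX3⟩ := hW A hA0
  obtain ⟨X4, hX4⟩ := hN A hA0
  obtain ⟨X5, hX5⟩ := large (ε / 4) (by positivity)
  refine ⟨max X1 (max X2 (max X3 (max X4 X5))), fun X hX => ?_⟩
  simp only [max_le_iff] at hX
  obtain ⟨c1, c2, c3, c4, c5⟩ := hX
  obtain ⟨W, hW1, hW2, hW3⟩ := hX3 X c3
  choose! l hl using hW1
  have hXr : (0 : ℝ) ≤ X := Nat.cast_nonneg X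
  have e1 := hX1 X c1
  have e4 := hX4 X c4 W (fun w hw => ⟨(hl w hw).1, (hl w hw).2.2.2.1⟩) hW2
  have e2 : ∀ w ∈ W, (({n : ℕ | 1 ≤ n ∧ n ≤ X ∧ w ∣ n + 1 ∧ Bad δ X w (l w) n}.ncard : ℕ) : ℝ) ≤
      ε / (4 * (A + 1)) * ((X : ℝ) / w) := fun w hw => hX2 X c2 w (l w) (hl w hw)
  set T : Set ℕ := {n : ℕ | 2 ≤ n ∧ n ≤ X ∧ (HasAb n 4 ∨ HasAb n 6)} with hT
  set T1 : Set ℕ := {n : ℕ | 1 ≤ n ∧ n ≤ X ∧
    (∏ p ∈ n.primeFactors.filter (fun p : ℕ => (X : ℝ) ^ δ < p), p ^ n.factorization p) ^ 4 <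
      2 * n ^ 3} with hT1
  set T4 : Set ℕ := {n : ℕ | 1 ≤ n ∧ n ≤ X ∧ ∀ w ∈ W, ¬ w ∣ n + 1} with hT4
  set T5 : Set ℕ := {n : ℕ | 1 ≤ n ∧ n ≤ ⌊ε / 4 * X⌋₊} with hT5
  set T2 : Set ℕ := ⋃ w ∈ W, {n : ℕ | 1 ≤ n ∧ n ≤ X ∧ w ∣ n + 1 ∧ Bad δ X w (l w) n} with hT2
  have fin1 : T1.Finite := (Set.finite_Icc 1 X).subset (fun n hn => ⟨hn.1, hn.2.1⟩)
  have fin4 : T4.Finite := (Set.finite_Icc 1 X).subset (fun n hn => ⟨hn.1, hn.2.1⟩)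
  have fin5 : T5.Finite := (Set.finite_Icc 1 ⌊ε / 4 * X⌋₊).subset (fun n hn => ⟨hn.1, hn.2⟩)
  have fin2 : T2.Finite := (Set.finite_Icc 1 X).subset (by
    intro n hn
    rw [hT2] at hn
    simp only [Set.mem_iUnion] at hn
    obtain ⟨w, _, hn⟩ := hn
    exact ⟨hn.1, hn.2.1⟩)
  have hsub : T ⊆ T5 ∪ (T4 ∪ (T1 ∪ T2)) := by
    intro n hn
    by_contra hcon
    simp only [Set.mem_union, not_or] at hcon
    obtain ⟨d5, d4, d1, d2⟩ := hcon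
    obtain ⟨hn2, hnX, hn3⟩ := hn
    have hn1 : 1 ≤ n := by omega
    -- n is large
    have hnl : ε / 4 * X < n := by
      by_contra hle
      push Not at hle
      exact d5 ⟨hn1, Nat.le_floor hle⟩
    -- a prime of W
    have hw : ∃ w ∈ W, w ∣ n + 1 := by
      by_contra hne
      push Not at hne
      exact d4 ⟨hn1, hnX, hne⟩
    obtain ⟨w, hwW, hwn⟩ := hw
    have hP : 2 * n ^ 3 ≤ (∏ p ∈ n.primeFactors.filter (fun p : ℕ => (X : ℝ) ^ δ < p),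
        p ^ n.factorization p) ^ 4 := by
      by_contra hlt
      push Not at hlt
      exact d1 ⟨hn1, hnX, hlt⟩
    have hB : ¬ Bad δ X w (l w) n := by
      intro hb
      apply d2
      rw [hT2]
      simp only [Set.mem_iUnion]
      exact ⟨w, hwW, hn1, hnX, hwn, hb⟩
    have hAd := hl w hwW
    obtain ⟨g1, g2, g3⟩ := hX5 X c5 w (l w) hAd
    have g4 : w + 2 ≤ n := by
      have : (w : ℝ) + 2 ≤ n := by linarith
      exact_mod_cast this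
    unfold Bad at hB
    simp only [not_or] at hB
    obtain ⟨B1, B2, B3, B4, ⟨B5, B6, B7⟩, ⟨B8, B9, B10⟩, B11, B12, B13⟩ := hB
    have hno : ∀ m : ℕ, m = 4 ∨ m = 6 → ¬ HasAb n m := by
      intro m hm
      refine hK n m w (l w) ((X : ℝ) ^ δ) hm hAd.1 hAd.2.1 hAd.2.2.1 g1 g4 hwn B1 ?_ hP ?_ ?_
      · intro p hp hpn hyp hH
        rcases le_or_gt (p ^ 2) X with h | h
        · exact B2 ⟨p, hp, hpn, hyp, h, hH⟩
        · exact B3 ⟨p, hp, hpn, h, hH⟩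
      · intro q hq hqw hqn hql
        exact B4 ⟨q, hq, hqw, hqn, hql⟩
      · intro a ha q hq hqf hql
        have key : ∀ b : ℤ,
            (¬ ∃ q : ℕ, q.Prime ∧ (q : ℤ) ∣ fa b n ∧ (l w ∣ q - 1 ∨ q = l w) ∧ q * w ≤ X) →
            (¬ ∃ q : ℕ, q.Prime ∧ (q : ℤ) ∣ fa b n ∧ X < q * w ∧ q ≤ 2 * X * l w * w) →
            (¬ ∃ q : ℕ, q.Prime ∧ (q : ℤ) ∣ fa b n ∧ l w ∣ q - 1 ∧ 2 * X * l w * w < q) →
            (q : ℤ) ∣ fa b n → False := by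
          intro b k1 k2 k3 hb
          rcases le_or_gt (q * w) X with h | h
          · exact k1 ⟨q, hq, hb, hql, h⟩
          · rcases le_or_gt q (2 * X * l w * w) with h' | h'
            · exact k2 ⟨q, hq, hb, h, h'⟩
            · rcases hql with h'' | h''
              · exact k3 ⟨q, hq, hb, h'', h'⟩
              · rw [h''] at h
                omega
        rcases ha with h | h | h
        · rw [h] at hqf; exact key 0 B5 B6 B7 hqf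
        · rw [h] at hqf; exact key 1 B8 B9 B10 hqf
        · rw [h] at hqf; exact key (-1) B11 B12 B13 hqf
    rcases hn3 with h | h
    · exact hno 4 (Or.inl rfl) h
    · exact hno 6 (Or.inr rfl) h
  have c2' : (T2.ncard : ℝ) ≤ ε / 4 * X := by
    have h1 : T2.ncard ≤ ∑ w ∈ W, {n : ℕ | 1 ≤ n ∧ n ≤ X ∧ w ∣ n + 1 ∧ Bad δ X w (l w) n}.ncard :=
      Finset.set_ncard_biUnion_le W _
    have h2 : (T2.ncard : ℝ) ≤ ∑ w ∈ W,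
        (({n : ℕ | 1 ≤ n ∧ n ≤ X ∧ w ∣ n + 1 ∧ Bad δ X w (l w) n}.ncard : ℕ) : ℝ) := by
      exact_mod_cast h1
    refine h2.trans ((sum_le_sum e2).trans ?_)
    have h3 : ∑ w ∈ W, ε / (4 * (A + 1)) * ((X : ℝ) / w) =
        ε / (4 * (A + 1)) * X * ∑ w ∈ W, (1 : ℝ) / w := by
      rw [mul_sum]
      refine sum_congr rfl fun w _ => ?_
      ring
    rw [h3]
    have h4 : ε / (4 * (A + 1)) * X * ∑ w ∈ W, (1 : ℝ) / w ≤ ε / (4 * (A + 1)) * X * (A + 1) :=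
      mul_le_mul_of_nonneg_left hW3 (by positivity)
    refine h4.trans (le_of_eq ?_)
    field_simp
  have c5' : (T5.ncard : ℝ) ≤ ε / 4 * X := by
    have h1 : T5.ncard ≤ ⌊ε / 4 * X⌋₊ := by
      have h2 : T5 = ((Icc 1 ⌊ε / 4 * X⌋₊ : Finset ℕ) : Set ℕ) := by
        rw [hT5]; ext n; simp
      rw [h2, Set.ncard_coe_finset, Nat.card_Icc, Nat.add_sub_cancel]
    have h3 : (T5.ncard : ℝ) ≤ (⌊ε / 4 * X⌋₊ : ℝ) := by exact_mod_cast h1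
    exact h3.trans (Nat.floor_le (by positivity))
  have hcard : T.ncard ≤ T5.ncard + (T4.ncard + (T1.ncard + T2.ncard)) := by
    refine (Set.ncard_le_ncard hsub (fin5.union (fin4.union (fin1.union fin2)))).trans ?_
    refine (Set.ncard_union_le _ _).trans (Nat.add_le_add_left ?_ _)
    refine (Set.ncard_union_le _ _).trans (Nat.add_le_add_left ?_ _)
    exact Set.ncard_union_le _ _
  have hcardR : (T.ncard : ℝ) ≤ T5.ncard + (T4.ncard + (T1.ncard + T2.ncard)) := by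
    exact_mod_cast hcard
  have e4' : (T4.ncard : ℝ) ≤ ε / 4 * X :=
    e4.trans (mul_le_mul_of_nonneg_right hA hXr)
  linarith

end Pool.Agent.H183.GL
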