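import Pool.Agent.H183.GL.Stm

/-!
Project GL (helper183), statement S_GLUE (helper358).
-/

set_option autoImplicit false

namespace Pool.Agent.H183.GL

namespace GLUE

theorem pow_ex {w l : ℕ} [Fact w.Prime] [Fact l.Prime] (hl : l ∣ w - 1) {p : ℕ}
    (hp : Nat.Coprime p w) (hH : ¬ HH w l p) {ξ : ZMod w} (hξ : ξ ^ l = 1) :
    ∃ i : ℕ, (p : ZMod w) ^ ((w - 1) / l * i) = ξ := by
  have hp0 : (p : ZMod w) ≠ 0 := by
    intro h
    have h1 := (ZMod.isUnit_iff_coprime p w).2 hp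
    rw [h] at h1
    exact not_isUnit_zero h1
  set ζ : ZMod w := (p : ZMod w) ^ ((w - 1) / l) with hζ
  have h1 : ζ ^ l = 1 := by
    rw [hζ, ← pow_mul, Nat.div_mul_cancel hl]
    exact ZMod.pow_card_sub_one_eq_one hp0
  have h2 : ζ ≠ 1 := by
    intro h
    apply hH
    unfold HH
    rw [← ZMod.natCast_eq_natCast_iff]
    push_cast
    exact h
  have h3 : orderOf ζ = l := orderOf_eq_prime h1 h2
  have h4 : IsPrimitiveRoot ζ l := by
    rw [← h3]
    exact IsPrimitiveRoot.orderOf ζ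
  have : NeZero l := ⟨(Fact.out : l.Prime).ne_zero⟩
  obtain ⟨i, -, hi⟩ := h4.eq_pow_of_pow_eq_one hξ
  exact ⟨i, by rw [pow_mul]; exact hi⟩

end GLUE

theorem t_GLUE : S_GLUE := by
  intro w v' l hw hl hlw hv hwv hlv
  have : Fact w.Prime := ⟨hw⟩
  have : Fact l.Prime := ⟨hl⟩
  have hcop : Nat.Coprime w v' := (Nat.Prime.coprime_iff_not_dvd hw).2 hwv
  obtain ⟨x, hx⟩ := exists_prime_orderOf_dvd_card' (G := (ZMod w)ˣ) l (by
    rw [Nat.card_eq_fintype_card, ZMod.card_units]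
    exact hlw)
  set ξ : ZMod w := (x : ZMod w) with hξ
  have hξl : ξ ^ l = 1 := by
    rw [hξ, ← Units.val_pow_eq_pow_val, ← hx, pow_orderOf_eq_one, Units.val_one]
  have hξ1 : ξ ≠ 1 := by
    intro h
    have h1 : x = 1 := Units.ext h
    rw [h1, orderOf_one] at hx
    exact hl.one_lt.ne hx
  obtain ⟨t, ht1, ht2⟩ := Nat.chineseRemainder hcop ξ.val 1
  have htw : (t : ZMod w) = ξ := by
    rw [← ZMod.natCast_eq_natCast_iff] at ht1
    rw [ht1, ZMod.natCast_zmod_val]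
  have ht0 : 1 ≤ t := by
    rw [Nat.one_le_iff_ne_zero]
    rintro rfl
    rw [Nat.cast_zero] at htw
    exact x.ne_zero htw.symm
  refine ⟨t, ht0, (Nat.modEq_iff_dvd' ht0).1 ht2.symm, fun h => ?_, ?_, fun p hp hH => ?_⟩
  · have h1 : 1 ≡ t [MOD w] := (Nat.modEq_iff_dvd' ht0).2 h
    rw [← ZMod.natCast_eq_natCast_iff, htw, Nat.cast_one] at h1
    exact hξ1 h1.symm
  · refine Nat.Coprime.mul_right ?_ ?_
    · rw [← ZMod.isUnit_iff_coprime, htw]
      exact x.isUnit
    · have h1 := ht2.gcd_eq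
      rw [Nat.gcd_one_left] at h1
      exact h1
  · have hp1 : Nat.Coprime p w := Nat.Coprime.coprime_mul_right_right hp
    have hp2 : Nat.Coprime p v' := Nat.Coprime.coprime_mul_left_right hp
    obtain ⟨i, hi⟩ := GLUE.pow_ex hlw hp1 hH hξl
    obtain ⟨s, -, hs⟩ := Nat.exists_mul_mod_eq_one_of_coprime
      (((Nat.Prime.coprime_iff_not_dvd hl).2 hlv).symm) hl.one_lt
    refine ⟨(w - 1) / l * i * (Nat.totient v' * s), ?_⟩
    rw [← Nat.modEq_and_modEq_iff_modEq_mul hcop]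
    constructor
    · rw [← ZMod.natCast_eq_natCast_iff, htw, Nat.cast_pow, pow_mul, hi,
        pow_eq_pow_mod _ hξl, hs, pow_one]
    · refine Nat.ModEq.trans ?_ ht2.symm
      have h1 : (w - 1) / l * i * (Nat.totient v' * s) =
          Nat.totient v' * ((w - 1) / l * i * s) := by ring
      rw [h1, pow_mul]
      have h2 := (Nat.ModEq.pow_totient hp2).pow ((w - 1) / l * i * s)
      rw [one_pow] at h2
      exact h2

end Pool.Agent.H183.GL
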