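import Pool.Agent.H183.GL.Stm

/-!
# GS1: lower bound for the logarithmic mean of `1 * chi`

The sum is exactly `∑ d ≤ z, chi d * g d` with `g d = H (z / d) / d` nonincreasing, an alternating sum, so
it is at least `g 1 - g 2 ≥ H z / 2 ≥ log z / 2`.
-/

set_option autoImplicit false

namespace Pool.Agent.H183.GL

open Finset

namespace GS1

/-- harmonic numbers -/
noncomputable def Hn (m : ℕ) : ℝ := ∑ e ∈ Icc 1 m, (1 : ℝ) / e

/-- the weights -/
noncomputable def gg (z d : ℕ) : ℝ := Hn (z / d) / d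

theorem Hn_mono {m n : ℕ} (h : m ≤ n) : Hn m ≤ Hn n := by
  unfold Hn
  exact sum_le_sum_of_subset_of_nonneg (Icc_subset_Icc_right h) fun _ _ _ => by positivity

theorem Hn_nonneg (m : ℕ) : 0 ≤ Hn m := sum_nonneg fun _ _ => by positivity

theorem gg_nonneg (z d : ℕ) : 0 ≤ gg z d := div_nonneg (Hn_nonneg _) (by positivity)

theorem gg_anti (z : ℕ) {d : ℕ} (hd : 1 ≤ d) : gg z (d + 1) ≤ gg z d := by
  unfold gg
  have h1 : z / (d + 1) ≤ z / d := Nat.div_le_div_left (Nat.le_succ d) hd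
  have h2 : (d : ℝ) ≤ ((d + 1 : ℕ) : ℝ) := by
    push_cast
    linarith
  have h3 : (0 : ℝ) < d := by exact_mod_cast hd
  exact div_le_div₀ (Hn_nonneg _) (Hn_mono h1) h3 h2

/-- the extra term -/
noncomputable def ex (K z N : ℕ) : ℝ := if N % K = 1 ∨ (K = 4 ∧ N % K = 2) then gg z N else 0

theorem alt (K : ℕ) (hK : K = 3 ∨ K = 4) (z N : ℕ) (hN : 2 ≤ N) :
    gg z 1 - gg z 2 + ex K z N ≤ ∑ d ∈ Icc 1 N, ((chi K d : ℤ) : ℝ) * gg z d := by
  induction N, hN using Nat.le_induction with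
  | base =>
    have h : Icc 1 2 = {1, 2} := rfl
    rw [h, sum_pair (by norm_num)]
    rcases hK with rfl | rfl
    · simp [chi, ex]
    · simp [chi, ex]
  | succ N hN ih =>
    rw [sum_Icc_succ_top (by omega)]
    have h1 := gg_anti z (d := N) (by omega)
    have h2 := gg_nonneg z N
    have h3 := gg_nonneg z (N + 1)
    unfold ex at ih ⊢
    unfold chi at ih ⊢
    rcases hK with rfl | rfl
    · have h4 : N % 3 = 0 ∧ (N + 1) % 3 = 1 ∨ N % 3 = 1 ∧ (N + 1) % 3 = 2 ∨
          N % 3 = 2 ∧ (N + 1) % 3 = 0 := by omega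
      rcases h4 with ⟨h4, h5⟩ | ⟨h4, h5⟩ | ⟨h4, h5⟩
      · simp only [h4, h5] at ih ⊢
        norm_num at ih ⊢
        linarith
      · simp only [h4, h5] at ih ⊢
        norm_num at ih ⊢
        linarith
      · simp only [h4, h5] at ih ⊢
        norm_num at ih ⊢
        linarith
    · have h4 : N % 4 = 0 ∧ (N + 1) % 4 = 1 ∨ N % 4 = 1 ∧ (N + 1) % 4 = 2 ∨
          N % 4 = 2 ∧ (N + 1) % 4 = 3 ∨ N % 4 = 3 ∧ (N + 1) % 4 = 0 := by omega
      rcases h4 with ⟨h4, h5⟩ | ⟨h4, h5⟩ | ⟨h4, h5⟩ | ⟨h4, h5⟩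
      · simp only [h4, h5] at ih ⊢
        norm_num at ih ⊢
        linarith
      · simp only [h4, h5] at ih ⊢
        norm_num at ih ⊢
        linarith
      · simp only [h4, h5] at ih ⊢
        norm_num at ih ⊢
        linarith
      · simp only [h4, h5] at ih ⊢
        norm_num at ih ⊢
        linarith

theorem swap (K z : ℕ) : ∑ n ∈ Icc 1 z, ((rr K n : ℤ) : ℝ) / n =
    ∑ d ∈ Icc 1 z, ((chi K d : ℤ) : ℝ) * gg z d := by
  have h1 : ∀ n ∈ Icc 1 z, ((rr K n : ℤ) : ℝ) / n =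
      ∑ d ∈ n.divisors, ((chi K d : ℤ) : ℝ) / n := by
    intro n _
    unfold rr
    rw [← sum_div]
    push_cast
    rfl
  rw [sum_congr rfl h1, sum_comm' (t' := Icc 1 z) (s' := fun d => (Icc 1 z).filter (fun n => d ∣ n))]
  · apply sum_congr rfl
    intro d hd
    rw [mem_Icc] at hd
    unfold gg Hn
    rw [sum_div, mul_sum]
    symm
    refine sum_bij (fun e _ => d * e) ?_ ?_ ?_ ?_
    · intro e he
      rw [mem_Icc] at he
      rw [mem_filter, mem_Icc]
      have h2 : e * d ≤ z := (Nat.le_div_iff_mul_le (by omega)).1 he.2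
      refine ⟨⟨Nat.mul_pos (by omega) (by omega), by rw [mul_comm]; exact h2⟩, dvd_mul_right d e⟩
    · intro e _ e' _ hee
      exact Nat.eq_of_mul_eq_mul_left (by omega) hee
    · intro n hn
      rw [mem_filter, mem_Icc] at hn
      obtain ⟨⟨hn1, hn2⟩, e, rfl⟩ := hn
      refine ⟨e, ?_, rfl⟩
      rw [mem_Icc]
      refine ⟨?_, (Nat.le_div_iff_mul_le (by omega)).2 (by rw [mul_comm]; exact hn2)⟩
      rcases Nat.eq_zero_or_pos e with h0 | h0
      · rw [h0, mul_zero] at hn1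
        omega
      · exact h0
    · intro e _
      push_cast
      rw [div_div, mul_one_div, mul_comm (e : ℝ)]
  · intro n d
    simp only [mem_Icc, Nat.mem_divisors, mem_filter]
    constructor
    · rintro ⟨⟨h2, h3⟩, h4, h5⟩
      have h6 := Nat.le_of_dvd (by omega) h4
      have h7 := Nat.pos_of_dvd_of_pos h4 (by omega)
      exact ⟨⟨⟨h2, h3⟩, h4⟩, h7, by omega⟩
    · rintro ⟨⟨⟨h2, h3⟩, h4⟩, _⟩
      exact ⟨⟨h2, h3⟩, h4, by omega⟩

theorem log_le_Hn (z : ℕ) (hz : 1 ≤ z) : Real.log z ≤ Hn z := by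
  have h := log_add_one_le_harmonic z
  have h1 : Real.log z ≤ Real.log (z + 1) := by
    apply Real.log_le_log
    · exact_mod_cast hz
    · linarith
  refine h1.trans (le_trans ?_ (le_trans h (le_of_eq ?_)))
  · push_cast
    exact le_rfl
  · rw [harmonic_eq_sum_Icc]
    unfold Hn
    push_cast
    simp only [one_div]

end GS1

open GS1 in
theorem t_GS1 : S_GS1 := by
  refine ⟨1 / 2, by norm_num, ?_⟩
  intro K hK z hz
  rw [swap]
  refine le_trans ?_ (alt K hK z z hz)
  have h1 : 0 ≤ ex K z z := by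
    unfold ex
    split_ifs
    · exact gg_nonneg _ _
    · exact le_rfl
  have h2 : gg z 1 = Hn z := by
    unfold gg
    simp
  have h3 : gg z 2 ≤ Hn z / 2 := by
    unfold gg
    have h4 := Hn_mono (Nat.div_le_self z 2)
    push_cast
    linarith
  have h5 := log_le_Hn z (by omega)
  linarith

end Pool.Agent.H183.GL
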