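import Pool.Agent.H183.GL.Stm

/-!
# GS2: lower bound of `∑ 2^ω(q)/q` over squarefree `q` with primes `≡ 1` modulo `K` prime to `q₀`
(helper339)
-/

set_option autoImplicit false

namespace Pool.Agent.H183.GL

open Finset

namespace GS2

/-! ### Multiplicative functions from local data -/

/-- the multiplicative function with the values `c p k` at the prime powers -/
noncomputable def MF (c : ℕ → ℕ → ℝ) : ArithmeticFunction ℝ where
  toFun n := if n = 0 then 0 else n.factorization.prod c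
  map_zero' := if_pos rfl

theorem MF_ne {c : ℕ → ℕ → ℝ} {n : ℕ} (hn : n ≠ 0) : MF c n = n.factorization.prod c :=
  if_neg hn

theorem MF_mult {c : ℕ → ℕ → ℝ} : (MF c).IsMultiplicative := by
  rw [ArithmeticFunction.IsMultiplicative.iff_ne_zero]
  refine ⟨?_, fun {m n} hm hn hmn => ?_⟩
  · rw [MF_ne one_ne_zero, Nat.factorization_one, Finsupp.prod_zero_index]
  · rw [MF_ne hm, MF_ne hn, MF_ne (mul_ne_zero hm hn), Nat.factorization_mul_of_coprime hmn,
      Finsupp.prod_add_index_of_disjoint]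
    exact hmn.disjoint_primeFactors

theorem MF_pow {c : ℕ → ℕ → ℝ} {p : ℕ} (hp : p.Prime) (h0 : c p 0 = 1) (k : ℕ) :
    MF c (p ^ k) = c p k := by
  rw [MF_ne (pow_ne_zero _ hp.ne_zero), hp.factorization_pow, Finsupp.prod_single_index h0]

theorem MF_nonneg {c : ℕ → ℕ → ℝ} (hc : ∀ p k, 0 ≤ c p k) (n : ℕ) : 0 ≤ MF c n := by
  rcases eq_or_ne n 0 with rfl | hn
  · simp
  · rw [MF_ne hn]
    exact Finset.prod_nonneg fun p _ => hc _ _

/-- comparison of multiplicative functions -/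
theorem mult_le {f g : ArithmeticFunction ℝ} (hf : f.IsMultiplicative) (hg : g.IsMultiplicative)
    (h0 : ∀ p k : ℕ, p.Prime → 0 ≤ f (p ^ k)) (h : ∀ p k : ℕ, p.Prime → f (p ^ k) ≤ g (p ^ k))
    (n : ℕ) : f n ≤ g n := by
  rcases eq_or_ne n 0 with rfl | hn
  · simp
  · rw [hf.multiplicative_factorization f hn, hg.multiplicative_factorization g hn]
    refine Finset.prod_le_prod (fun p hp => ?_) fun p hp => ?_
    · exact h0 _ _ (Nat.prime_of_mem_primeFactors hp)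
    · exact h _ _ (Nat.prime_of_mem_primeFactors hp)

/-- the sum of a convolution is at most the product of the sums -/
theorem conv_sum_le {f g : ArithmeticFunction ℝ} (hf : ∀ n, 0 ≤ f n) (hg : ∀ n, 0 ≤ g n) (z : ℕ) :
    ∑ n ∈ Icc 1 z, (f * g) n ≤ (∑ q ∈ Icc 1 z, f q) * ∑ b ∈ Icc 1 z, g b := by
  have h1 : ∀ n ∈ Icc 1 z, (f * g) n =
      ∑ x ∈ ((Icc 1 z ×ˢ Icc 1 z).filter fun x => x.1 * x.2 ∈ Icc 1 z).filter
        (fun x => x.1 * x.2 = n), f x.1 * g x.2 := by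
    intro n hn
    rw [ArithmeticFunction.mul_apply]
    refine Finset.sum_congr ?_ fun _ _ => rfl
    ext x
    simp only [Nat.mem_divisorsAntidiagonal, mem_filter, mem_product, mem_Icc] at hn ⊢
    constructor
    · rintro ⟨h, h0⟩
      have hx1 : 1 ≤ x.1 := Nat.one_le_iff_ne_zero.2 fun h' => h0 (by rw [← h, h', zero_mul])
      have hx2 : 1 ≤ x.2 := Nat.one_le_iff_ne_zero.2 fun h' => h0 (by rw [← h, h', mul_zero])
      have h3 : x.1 ≤ x.1 * x.2 := Nat.le_mul_of_pos_right _ hx2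
      have h4 : x.2 ≤ x.1 * x.2 := Nat.le_mul_of_pos_left _ hx1
      refine ⟨⟨⟨⟨hx1, by omega⟩, ⟨hx2, by omega⟩⟩, by omega⟩, h⟩
    · rintro ⟨_, h⟩
      exact ⟨h, by omega⟩
  rw [Finset.sum_congr rfl h1, Finset.sum_fiberwise_of_maps_to (fun x hx => (mem_filter.1 hx).2),
    Finset.sum_mul_sum, ← Finset.sum_product']
  exact Finset.sum_le_sum_of_subset_of_nonneg (filter_subset _ _) fun x _ _ =>
    mul_nonneg (hf _) (hg _)

/-- finite sums of a multiplicative function are bounded by the product of the local sums -/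
theorem sum_le_prod {f : ArithmeticFunction ℝ} (hf : f.IsMultiplicative) (h0 : ∀ n, 0 ≤ f n)
    (hs : ∀ p : ℕ, p.Prime → Summable fun k : ℕ => f (p ^ k)) (z : ℕ) :
    ∑ n ∈ Icc 1 z, f n ≤ ∏ p ∈ (z + 1).primesBelow, ∑' k : ℕ, f (p ^ k) := by
  have h1 := (EulerProduct.summable_and_hasSum_smoothNumbers_prod_primesBelow_tsum (f := f)
    hf.1 (fun {m n} h => hf.2 h) (fun {p} hp => by
      simp only [Real.norm_eq_abs, abs_of_nonneg (h0 _)]
      exact hs p hp) (z + 1)).2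
  have h2 := (hasSum_subtype_iff_indicator (f := fun n => f n)).1 h1
  have h3 : ∀ n ∈ Icc 1 z, f n = Set.indicator (Nat.smoothNumbers (z + 1)) (fun n => f n) n := by
    intro n hn
    rw [Set.indicator_of_mem]
    rw [Nat.mem_smoothNumbers']
    intro p hp hpn
    have := Nat.le_of_dvd (by have := (mem_Icc.1 hn).1; omega) hpn
    have := (mem_Icc.1 hn).2
    omega
  rw [Finset.sum_congr rfl h3]
  refine sum_le_hasSum _ (fun n _ => ?_) h2
  exact Set.indicator_nonneg (fun n _ => h0 n) n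

/-! ### The function `rr` -/

theorem chi_mul (K : ℕ) (hK : K = 3 ∨ K = 4) (m n : ℕ) : chi K (m * n) = chi K m * chi K n := by
  rcases hK with rfl | rfl
  · unfold chi
    rw [Nat.mul_mod]
    have h1 : m % 3 < 3 := Nat.mod_lt _ (by norm_num)
    have h2 : n % 3 < 3 := Nat.mod_lt _ (by norm_num)
    interval_cases m % 3 <;> interval_cases n % 3 <;> simp
  · unfold chi
    rw [Nat.mul_mod]
    have h1 : m % 4 < 4 := Nat.mod_lt _ (by norm_num)
    have h2 : n % 4 < 4 := Nat.mod_lt _ (by norm_num)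
    interval_cases m % 4 <;> interval_cases n % 4 <;> simp

/-- the character as an arithmetic function -/
noncomputable def CH (K : ℕ) : ArithmeticFunction ℝ where
  toFun n := if n = 0 then 0 else (chi K n : ℝ)
  map_zero' := if_pos rfl

theorem CH_ne {K n : ℕ} (hn : n ≠ 0) : CH K n = (chi K n : ℝ) := if_neg hn

theorem CH_mult (K : ℕ) (hK : K = 3 ∨ K = 4) : (CH K).IsMultiplicative := by
  rw [ArithmeticFunction.IsMultiplicative.iff_ne_zero]
  refine ⟨?_, fun {m n} hm hn _ => ?_⟩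
  · rw [CH_ne one_ne_zero]
    rcases hK with rfl | rfl <;> simp [chi]
  · rw [CH_ne hm, CH_ne hn, CH_ne (mul_ne_zero hm hn), chi_mul K hK]
    push_cast
    rfl

/-- the function `rr` as an arithmetic function -/
noncomputable def RR (K : ℕ) : ArithmeticFunction ℝ :=
  (ArithmeticFunction.zeta : ArithmeticFunction ℝ) * CH K

theorem RR_apply (K n : ℕ) : RR K n = (rr K n : ℝ) := by
  rw [RR, ArithmeticFunction.coe_zeta_mul_apply, rr, Int.cast_sum]
  refine Finset.sum_congr rfl fun d hd => ?_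
  exact CH_ne (Nat.pos_of_mem_divisors hd).ne'

theorem RR_mult (K : ℕ) (hK : K = 3 ∨ K = 4) : (RR K).IsMultiplicative :=
  ArithmeticFunction.isMultiplicative_zeta.natCast.mul (CH_mult K hK)

theorem chi_pow (K : ℕ) (hK : K = 3 ∨ K = 4) (p k : ℕ) : chi K (p ^ k) = chi K p ^ k := by
  induction k with
  | zero => rcases hK with rfl | rfl <;> simp [chi]
  | succ k ih => rw [pow_succ, chi_mul K hK, ih, pow_succ]

theorem rr_pow (K : ℕ) (hK : K = 3 ∨ K = 4) {p : ℕ} (hp : p.Prime) (k : ℕ) :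
    rr K (p ^ k) = ∑ i ∈ range (k + 1), chi K p ^ i := by
  rw [rr, Nat.divisors_prime_pow hp, Finset.sum_map]
  refine Finset.sum_congr rfl fun i _ => ?_
  exact chi_pow K hK p i

theorem chi_cases (K d : ℕ) : chi K d = 1 ∨ chi K d = -1 ∨ chi K d = 0 := by
  unfold chi
  split_ifs <;> simp

theorem chi_abs (K d : ℕ) : |chi K d| ≤ 1 := by
  rcases chi_cases K d with h | h | h <;> rw [h] <;> simp

theorem rr_le (K : ℕ) (hK : K = 3 ∨ K = 4) {p : ℕ} (hp : p.Prime) (k : ℕ) :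
    rr K (p ^ k) ≤ k + 1 := by
  rw [rr_pow K hK hp]
  calc ∑ i ∈ range (k + 1), chi K p ^ i ≤ ∑ i ∈ range (k + 1), (1 : ℤ) := by
        refine Finset.sum_le_sum fun i _ => ?_
        refine (le_abs_self _).trans ?_
        rw [abs_pow]
        exact pow_le_one₀ (abs_nonneg _) (chi_abs K p)
    _ = k + 1 := by simp

theorem rr_nonneg (K : ℕ) (hK : K = 3 ∨ K = 4) {p : ℕ} (hp : p.Prime) (k : ℕ) :
    0 ≤ rr K (p ^ k) := by
  rw [rr_pow K hK hp]
  rcases chi_cases K p with h | h | h <;> rw [h]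
  · exact Finset.sum_nonneg fun i _ => by simp
  · rw [neg_one_geom_sum]
    split_ifs <;> simp
  · rw [Finset.sum_range_succ']
    simp

/-- the function `rr K n / n` -/
noncomputable def R1 (K : ℕ) : ArithmeticFunction ℝ where
  toFun n := RR K n / n
  map_zero' := by simp

theorem R1_apply (K n : ℕ) : R1 K n = (rr K n : ℝ) / n := by
  show RR K n / n = _
  rw [RR_apply]

theorem R1_mult (K : ℕ) (hK : K = 3 ∨ K = 4) : (R1 K).IsMultiplicative := by
  have h := RR_mult K hK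
  rw [ArithmeticFunction.IsMultiplicative.iff_ne_zero]
  refine ⟨?_, fun {m n} _ _ hmn => ?_⟩
  · show RR K 1 / ((1 : ℕ) : ℝ) = 1
    rw [h.1]
    simp
  · show RR K (m * n) / ((m * n : ℕ) : ℝ) = RR K m / m * (RR K n / n)
    rw [h.2 hmn, Nat.cast_mul, mul_div_mul_comm]

/-! ### The local data -/

/-- the prime which divides `K` -/
def pK (K : ℕ) : ℕ := if K = 3 then 3 else 2

open Classical in
/-- local data of the second factor -/
noncomputable def cF (K q₀ p k : ℕ) : ℝ :=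
  if k = 1 ∧ ¬ (p ∣ q₀ ∨ p = pK K) then 0 else ((k : ℝ) + 1) / (p : ℝ) ^ k

open Classical in
/-- local data of the first factor -/
noncomputable def cG (K q₀ p k : ℕ) : ℝ :=
  if k = 0 then 1 else if k = 1 ∧ p % K = 1 ∧ ¬ p ∣ q₀ then 2 / (p : ℝ) else 0

theorem cF_zero (K q₀ p : ℕ) : cF K q₀ p 0 = 1 := by
  unfold cF
  rw [if_neg (by simp)]
  simp

theorem cG_zero (K q₀ p : ℕ) : cG K q₀ p 0 = 1 := by
  unfold cG
  rw [if_pos rfl]

theorem cF_nonneg (K q₀ p k : ℕ) : 0 ≤ cF K q₀ p k := by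
  unfold cF
  split_ifs
  · exact le_rfl
  · positivity

theorem cG_nonneg (K q₀ p k : ℕ) : 0 ≤ cG K q₀ p k := by
  unfold cG
  split_ifs
  · exact zero_le_one
  · positivity
  · exact le_rfl

theorem mod_cases (K : ℕ) (hK : K = 3 ∨ K = 4) {p : ℕ} (hp : p.Prime) (h1 : p % K ≠ 1)
    (h2 : p ≠ pK K) : chi K p = -1 := by
  rcases hK with rfl | rfl
  · have h3 : ¬ 3 ∣ p := fun h => h2 (((Nat.prime_dvd_prime_iff_eq Nat.prime_three hp).1 h).symm)
    have h4 : p % 3 = 2 := by omega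
    unfold chi
    rw [if_neg h1, if_pos h4]
  · have h3 : ¬ 2 ∣ p := fun h => h2 (((Nat.prime_dvd_prime_iff_eq Nat.prime_two hp).1 h).symm)
    have h4 : p % 4 = 3 := by omega
    unfold chi
    rw [if_neg h1, if_pos h4]

theorem conv_ge {f g : ArithmeticFunction ℝ} (hf : ∀ n, 0 ≤ f n) (hg : ∀ n, 0 ≤ g n) {a b n : ℕ}
    (h : a * b = n) (hn : n ≠ 0) : f a * g b ≤ (f * g) n := by
  rw [ArithmeticFunction.mul_apply]
  exact Finset.single_le_sum (f := fun x : ℕ × ℕ => f x.1 * g x.2)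
    (fun x _ => mul_nonneg (hf _) (hg _))
    (Nat.mem_divisorsAntidiagonal.2 ⟨h, hn⟩ : (a, b) ∈ n.divisorsAntidiagonal)

theorem local_le (K : ℕ) (hK : K = 3 ∨ K = 4) (q₀ : ℕ) {p : ℕ} (hp : p.Prime) (k : ℕ) :
    R1 K (p ^ k) ≤ (MF (cG K q₀) * MF (cF K q₀)) (p ^ k) := by
  have hpk : p ^ k ≠ 0 := pow_ne_zero _ hp.ne_zero
  have hG := MF_nonneg (cG_nonneg K q₀)
  have hF := MF_nonneg (cF_nonneg K q₀)
  have hp0 : (0 : ℝ) < p := by exact_mod_cast hp.pos
  have hpk0 : (0 : ℝ) < (p : ℝ) ^ k := by positivity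
  rw [R1_apply]
  push_cast
  by_cases h : k = 1 ∧ ¬ (p ∣ q₀ ∨ p = pK K)
  · obtain ⟨rfl, h2⟩ := h
    push Not at h2
    by_cases h3 : p % K = 1
    · have h4 := conv_ge hG hF (a := p ^ 1) (b := 1) (n := p ^ 1) (by ring) hpk
      rw [MF_pow hp (cG_zero K q₀ p), (MF_mult (c := cF K q₀)).1, mul_one] at h4
      have h5 : cG K q₀ p 1 = 2 / (p : ℝ) := by
        unfold cG
        rw [if_neg one_ne_zero, if_pos ⟨rfl, h3, h2.1⟩]
      rw [h5] at h4
      refine le_trans ?_ h4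
      simp only [pow_one]
      refine div_le_div_of_nonneg_right ?_ hp0.le
      have h6 := rr_le K hK hp 1
      have h7 : ((rr K (p ^ 1) : ℤ) : ℝ) ≤ ((((1 : ℕ) : ℤ) + 1 : ℤ) : ℝ) := by exact_mod_cast h6
      rw [pow_one] at h7
      refine h7.trans ?_
      norm_num
    · have h4 : rr K (p ^ 1) = 0 := by
        rw [rr_pow K hK hp, mod_cases K hK hp h3 h2.2]
        simp
      rw [h4]
      simp only [Int.cast_zero, zero_div]
      rw [ArithmeticFunction.mul_apply]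
      exact Finset.sum_nonneg fun x _ => mul_nonneg (hG _) (hF _)
  · have h4 := conv_ge hG hF (a := 1) (b := p ^ k) (n := p ^ k) (by ring) hpk
    rw [MF_pow hp (cF_zero K q₀ p), (MF_mult (c := cG K q₀)).1, one_mul] at h4
    refine le_trans ?_ h4
    unfold cF
    rw [if_neg h]
    refine div_le_div_of_nonneg_right ?_ hpk0.le
    have h6 := rr_le K hK hp k
    exact_mod_cast h6

/-! ### The sum of the first factor -/

theorem sumG (K q₀ z : ℕ) : ∑ q ∈ Icc 1 z, MF (cG K q₀) q ≤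
    ∑ q ∈ (Icc 1 z).filter (fun q : ℕ => Squarefree q ∧
      Nat.Coprime q q₀ ∧ ∀ r ∈ q.primeFactors, r % K = 1), (2 : ℝ) ^ q.primeFactors.card / q := by
  rw [Finset.sum_filter]
  refine Finset.sum_le_sum fun q hq => ?_
  have hq0 : q ≠ 0 := by
    have := (mem_Icc.1 hq).1
    omega
  by_cases hall : ∀ p ∈ q.primeFactors, q.factorization p = 1 ∧ p % K = 1 ∧ ¬ p ∣ q₀
  · have hsq : Squarefree q := by
      rw [Nat.squarefree_iff_factorization_le_one hq0]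
      intro p
      by_cases hp : p ∈ q.primeFactors
      · exact (hall p hp).1.le
      · rw [← Nat.support_factorization, Finsupp.notMem_support_iff] at hp
        omega
    have hcop : Nat.Coprime q q₀ := by
      rw [Nat.coprime_iff_gcd_eq_one]
      by_contra hg
      obtain ⟨p, hp, hpg⟩ := Nat.exists_prime_and_dvd hg
      have hpq := hpg.trans (Nat.gcd_dvd_left q q₀)
      exact (hall p (Nat.mem_primeFactors.2 ⟨hp, hpq, hq0⟩)).2.2 (hpg.trans (Nat.gcd_dvd_right q q₀))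
    rw [if_pos ⟨hsq, hcop, fun r hr => (hall r hr).2.1⟩, MF_ne hq0]
    have h1 : q.factorization.prod (cG K q₀) = ∏ p ∈ q.primeFactors, (2 / (p : ℝ)) := by
      refine Finset.prod_congr rfl fun p hp => ?_
      obtain ⟨g1, g2, g3⟩ := hall p hp
      rw [g1]
      unfold cG
      rw [if_neg one_ne_zero, if_pos ⟨rfl, g2, g3⟩]
    rw [h1, Finset.prod_div_distrib, Finset.prod_const]
    have h2 : (∏ p ∈ q.primeFactors, (p : ℝ)) = q := by
      rw [← Nat.cast_prod, Nat.prod_primeFactors_of_squarefree hsq]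
    rw [h2]
  · push Not at hall
    obtain ⟨p, hp, hp2⟩ := hall
    have h0 : MF (cG K q₀) q = 0 := by
      rw [MF_ne hq0]
      refine Finset.prod_eq_zero hp ?_
      unfold cG
      have h1 : q.factorization p ≠ 0 := by
        rw [← Nat.support_factorization, Finsupp.mem_support_iff] at hp
        exact hp
      rw [if_neg h1, if_neg]
      rintro ⟨g1, g2, g3⟩
      exact g3 (hp2 g1 g2)
    rw [h0]
    split_ifs
    · positivity
    · exact le_rfl

/-! ### The sum of the second factor -/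

theorem hasSum_sq {x : ℝ} (h0 : 0 ≤ x) (h1 : x < 1) :
    HasSum (fun k : ℕ => ((k : ℝ) + 1) * x ^ k) (((1 - x) ^ 2)⁻¹) := by
  have h2 : ‖x‖ < 1 := by rwa [Real.norm_of_nonneg h0]
  have h3 := (hasSum_coe_mul_geometric_of_norm_lt_one h2).add (hasSum_geometric_of_norm_lt_one h2)
  have h4 : x / (1 - x) ^ 2 + (1 - x)⁻¹ = ((1 - x) ^ 2)⁻¹ := by
    have : 1 - x ≠ 0 := by linarith
    field_simp
    ring
  rw [h4] at h3
  refine h3.congr_fun fun k => ?_
  ring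

theorem term_eq (p k : ℕ) : ((k : ℝ) + 1) / (p : ℝ) ^ k = ((k : ℝ) + 1) * ((p : ℝ)⁻¹) ^ k := by
  rw [inv_pow, div_eq_mul_inv]

/-- the local sums -/
theorem local_sum (K q₀ : ℕ) {p : ℕ} (hp : p.Prime) :
    (Summable fun k : ℕ => MF (cF K q₀) (p ^ k)) ∧
    ∑' k : ℕ, MF (cF K q₀) (p ^ k) ≤ (if p ∣ q₀ then ((1 - (p : ℝ)⁻¹) ^ 2)⁻¹ else 1) *
      (if p = pK K then 4 else 1) * Real.exp (8 * (1 / (p : ℝ) ^ 2)) := by
  have hp2 : (2 : ℝ) ≤ p := by exact_mod_cast hp.two_le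
  have hx0 : (0 : ℝ) ≤ (p : ℝ)⁻¹ := by positivity
  have hx2 : (p : ℝ)⁻¹ ≤ 1 / 2 := by
    rw [one_div]
    exact inv_anti₀ (by norm_num) hp2
  have hx1 : (p : ℝ)⁻¹ < 1 := by linarith
  obtain ⟨x, hx⟩ : ∃ x : ℝ, x = (p : ℝ)⁻¹ := ⟨_, rfl⟩
  rw [← hx] at hx0 hx1 hx2
  have hexp : 8 * (1 / (p : ℝ) ^ 2) = 8 * x ^ 2 := by rw [hx, inv_pow, one_div]
  have hmain := hasSum_sq hx0 hx1
  have h1x : 0 < 1 - x := by linarith
  have hinv : ((1 - x) ^ 2)⁻¹ ≤ 4 := by
    rw [inv_le_comm₀ (by positivity) (by norm_num)]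
    nlinarith
  have hinv1 : 1 ≤ ((1 - x) ^ 2)⁻¹ := by
    rw [one_le_inv₀ (by positivity)]
    nlinarith
  have hE : 1 ≤ Real.exp (8 * x ^ 2) := Real.one_le_exp (by positivity)
  simp only [MF_pow hp (cF_zero K q₀ p)]
  rw [hexp, ← hx]
  by_cases h : p ∣ q₀ ∨ p = pK K
  · have h1 : (fun k : ℕ => cF K q₀ p k) = fun k : ℕ => ((k : ℝ) + 1) * x ^ k := by
      funext k
      unfold cF
      rw [if_neg (fun h' => h'.2 h), term_eq, hx]
    rw [h1]
    refine ⟨hmain.summable, ?_⟩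
    rw [hmain.tsum_eq]
    by_cases h2 : p ∣ q₀
    · rw [if_pos h2]
      split_ifs
      · nlinarith [mul_le_mul_of_nonneg_left hE (by positivity : 0 ≤ ((1 - x) ^ 2)⁻¹)]
      · nlinarith [mul_le_mul_of_nonneg_left hE (by positivity : 0 ≤ ((1 - x) ^ 2)⁻¹)]
    · rw [if_neg h2, if_pos (h.resolve_left h2)]
      linarith
  · have h1 : (fun k : ℕ => cF K q₀ p k) =
        fun k : ℕ => ((k : ℝ) + 1) * x ^ k - if k = 1 then 2 * x else 0 := by
      funext k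
      unfold cF
      by_cases hk : k = 1
      · rw [if_pos ⟨hk, h⟩, if_pos hk, hk]
        norm_num
      · rw [if_neg (fun h' => hk h'.1), if_neg hk, term_eq, hx, sub_zero]
    have h2 := hmain.sub (hasSum_ite_eq 1 (2 * x))
    rw [h1]
    refine ⟨h2.summable, ?_⟩
    rw [h2.tsum_eq]
    push Not at h
    rw [if_neg h.1, if_neg h.2, one_mul, one_mul]
    have h3 : 8 * x ^ 2 + 1 ≤ Real.exp (8 * x ^ 2) := Real.add_one_le_exp _
    refine le_trans ?_ h3
    rw [sub_le_iff_le_add, inv_le_iff_one_le_mul₀ (by positivity)]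
    have h4 : 0 ≤ (1 / 2 - x) * (5 - 4 * x) := mul_nonneg (by linarith) (by linarith)
    have h5 : (8 * x ^ 2 + 1 + 2 * x) * (1 - x) ^ 2 - 1 =
        x ^ 2 * (2 * ((1 / 2 - x) * (5 - 4 * x))) := by ring
    have h6 : 0 ≤ x ^ 2 * (2 * ((1 / 2 - x) * (5 - 4 * x))) := by positivity
    linarith

theorem kap_eq {q₀ : ℕ} (h : 1 ≤ q₀) :
    kap q₀ = ∏ p ∈ q₀.primeFactors, ((1 - (p : ℝ)⁻¹) ^ 2)⁻¹ := by
  have h1 : ((Nat.totient q₀ : ℚ) : ℝ) = ((q₀ * ∏ p ∈ q₀.primeFactors, (1 - (p : ℚ)⁻¹) : ℚ) : ℝ) := by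
    rw [Nat.totient_eq_mul_prod_factors]
  push_cast at h1
  have hq : (q₀ : ℝ) ≠ 0 := by
    have : q₀ ≠ 0 := by omega
    exact_mod_cast this
  have h2 : (q₀ : ℝ) / Nat.totient q₀ = (∏ p ∈ q₀.primeFactors, (1 - (p : ℝ)⁻¹))⁻¹ := by
    rw [h1, div_eq_mul_inv, mul_inv, ← mul_assoc, mul_inv_cancel₀ hq, one_mul]
  rw [kap, h2, Finset.prod_inv_distrib, Finset.prod_pow, inv_pow]

theorem prodA {q₀ : ℕ} (h : 1 ≤ q₀) (N : ℕ) :
    ∏ p ∈ N.primesBelow, (if p ∣ q₀ then ((1 - (p : ℝ)⁻¹) ^ 2)⁻¹ else 1) ≤ kap q₀ := by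
  rw [kap_eq h, ← Finset.prod_filter]
  have hsub : N.primesBelow.filter (fun p => p ∣ q₀) ⊆ q₀.primeFactors := by
    intro p hp
    obtain ⟨h1, h2⟩ := mem_filter.1 hp
    exact Nat.mem_primeFactors.2 ⟨Nat.prime_of_mem_primesBelow h1, h2, by omega⟩
  rw [← Finset.prod_sdiff hsub]
  have hfac : ∀ p ∈ q₀.primeFactors, 1 ≤ ((1 - (p : ℝ)⁻¹) ^ 2)⁻¹ := by
    intro p hp
    have hp2 : (2 : ℝ) ≤ p := by exact_mod_cast (Nat.prime_of_mem_primeFactors hp).two_le
    have h1 : (p : ℝ)⁻¹ ≤ 1 / 2 := by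
      rw [one_div]
      exact inv_anti₀ (by norm_num) hp2
    have h2 : (0 : ℝ) < (p : ℝ)⁻¹ := by positivity
    rw [one_le_inv₀ (by
      have : 0 < 1 - (p : ℝ)⁻¹ := by linarith
      positivity)]
    nlinarith
  have h1 : 1 ≤ ∏ p ∈ q₀.primeFactors \ N.primesBelow.filter (fun p => p ∣ q₀),
      ((1 - (p : ℝ)⁻¹) ^ 2)⁻¹ := by
    calc (1 : ℝ) = ∏ p ∈ q₀.primeFactors \ N.primesBelow.filter (fun p => p ∣ q₀), (1 : ℝ) :=
          Finset.prod_const_one.symm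
      _ ≤ _ := Finset.prod_le_prod (fun _ _ => zero_le_one) fun p hp => hfac p (mem_sdiff.1 hp).1
  have h2 : 0 ≤ ∏ p ∈ N.primesBelow.filter (fun p => p ∣ q₀), ((1 - (p : ℝ)⁻¹) ^ 2)⁻¹ :=
    Finset.prod_nonneg fun p hp => zero_le_one.trans (hfac p (hsub hp))
  nlinarith

theorem prodB (K N : ℕ) : ∏ p ∈ N.primesBelow, (if p = pK K then (4 : ℝ) else 1) ≤ 4 := by
  rw [Finset.prod_ite_eq']
  split_ifs <;> norm_num

theorem prodE (N : ℕ) : ∏ p ∈ N.primesBelow, Real.exp (8 * (1 / (p : ℝ) ^ 2)) ≤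
    Real.exp (8 * ∑' n : ℕ, 1 / (n : ℝ) ^ 2) := by
  rw [← Real.exp_sum, ← Finset.mul_sum]
  refine Real.exp_le_exp.2 (mul_le_mul_of_nonneg_left ?_ (by norm_num))
  exact (Real.summable_one_div_nat_pow.2 (by norm_num : 1 < 2)).sum_le_tsum _
    (fun n _ => by positivity)

theorem sumF (K : ℕ) {q₀ : ℕ} (h : 1 ≤ q₀) (z : ℕ) : ∑ b ∈ Icc 1 z, MF (cF K q₀) b ≤
    kap q₀ * 4 * Real.exp (8 * ∑' n : ℕ, 1 / (n : ℝ) ^ 2) := by
  refine (sum_le_prod MF_mult (MF_nonneg (cF_nonneg K q₀))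
    (fun p hp => (local_sum K q₀ hp).1) z).trans ?_
  have h1 : ∏ p ∈ (z + 1).primesBelow, ∑' k : ℕ, MF (cF K q₀) (p ^ k) ≤
      ∏ p ∈ (z + 1).primesBelow, ((if p ∣ q₀ then ((1 - (p : ℝ)⁻¹) ^ 2)⁻¹ else 1) *
      (if p = pK K then 4 else 1) * Real.exp (8 * (1 / (p : ℝ) ^ 2))) :=
    Finset.prod_le_prod (fun p _ => tsum_nonneg fun k => MF_nonneg (cF_nonneg K q₀) _)
      fun p hp => (local_sum K q₀ (Nat.prime_of_mem_primesBelow hp)).2
  refine h1.trans ?_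
  rw [Finset.prod_mul_distrib, Finset.prod_mul_distrib]
  have hA := prodA h (z + 1)
  have hB := prodB K (z + 1)
  have hE := prodE (z + 1)
  have hA0 : 0 ≤ ∏ p ∈ (z + 1).primesBelow, (if p ∣ q₀ then ((1 - (p : ℝ)⁻¹) ^ 2)⁻¹ else 1) :=
    Finset.prod_nonneg fun p _ => by split_ifs <;> positivity
  have hB0 : 0 ≤ ∏ p ∈ (z + 1).primesBelow, (if p = pK K then (4 : ℝ) else 1) :=
    Finset.prod_nonneg fun p _ => by split_ifs <;> norm_num
  have hE0 : 0 ≤ ∏ p ∈ (z + 1).primesBelow, Real.exp (8 * (1 / (p : ℝ) ^ 2)) :=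
    Finset.prod_nonneg fun p _ => (Real.exp_pos _).le
  have hk : 0 ≤ kap q₀ := hA0.trans hA
  exact mul_le_mul (mul_le_mul hA hB hB0 hk) hE hE0 (by positivity)

end GS2

open GS2 in
theorem t_GS2 (h : S_GS1) : S_GS2 := by
  obtain ⟨c₁, hc₁, h1⟩ := h
  obtain ⟨W, hW⟩ : ∃ W : ℝ, W = 4 * Real.exp (8 * ∑' n : ℕ, 1 / (n : ℝ) ^ 2) := ⟨_, rfl⟩
  have hW0 : 0 < W := by
    rw [hW]
    positivity
  refine ⟨c₁ / W, by positivity, fun K hK q₀ z hq hz => ?_⟩
  have h2 := h1 K hK z hz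
  have h3 : ∑ n ∈ Icc 1 z, ((rr K n : ℤ) : ℝ) / n ≤
      ∑ n ∈ Icc 1 z, (MF (cG K q₀) * MF (cF K q₀)) n := by
    refine Finset.sum_le_sum fun n _ => ?_
    rw [← R1_apply]
    refine mult_le (R1_mult K hK) (MF_mult.mul MF_mult) (fun p k hp => ?_)
      (fun p k hp => local_le K hK q₀ hp k) n
    rw [R1_apply]
    have := rr_nonneg K hK hp k
    have h' : (0 : ℝ) ≤ (rr K (p ^ k) : ℤ) := by exact_mod_cast this
    positivity
  have h4 := conv_sum_le (MF_nonneg (cG_nonneg K q₀)) (MF_nonneg (cF_nonneg K q₀)) z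
  have h5 := sumG K q₀ z
  have h6 := sumF K hq z
  set SQ := ∑ q ∈ (Icc 1 z).filter (fun q : ℕ => Squarefree q ∧
      Nat.Coprime q q₀ ∧ ∀ r ∈ q.primeFactors, r % K = 1), (2 : ℝ) ^ q.primeFactors.card / q
  have h7 : 0 ≤ ∑ b ∈ Icc 1 z, MF (cF K q₀) b :=
    Finset.sum_nonneg fun b _ => MF_nonneg (cF_nonneg K q₀) b
  have h8 : 0 ≤ SQ := Finset.sum_nonneg fun q _ => by positivity
  have h9 : (∑ q ∈ Icc 1 z, MF (cG K q₀) q) * ∑ b ∈ Icc 1 z, MF (cF K q₀) b ≤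
      SQ * (kap q₀ * 4 * Real.exp (8 * ∑' n : ℕ, 1 / (n : ℝ) ^ 2)) := mul_le_mul h5 h6 h7 h8
  have h10 : c₁ * Real.log z ≤ SQ * (kap q₀ * W) := by
    have : SQ * (kap q₀ * 4 * Real.exp (8 * ∑' n : ℕ, 1 / (n : ℝ) ^ 2)) = SQ * (kap q₀ * W) := by
      rw [hW]
      ring
    linarith
  rw [div_mul_eq_mul_div, div_le_iff₀ hW0]
  linarith

end Pool.Agent.H183.GL
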