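import Pool.Agent.H183.GL.Stm
import Pool.Graph.R_seed8.TH888.B1.PrimeSieve

/-!
# The sum of `1 / q` over the primes `q` in the class `1` modulo `l`
-/

set_option autoImplicit false

namespace Pool.Agent.H183.GL

open Finset

namespace HL

/-- the harmonic sum, real version -/
theorem harm (n : ℕ) (_hn : 1 ≤ n) : ∑ i ∈ range n, 1 / ((i : ℝ) + 1) ≤ 1 + Real.log n := by
  have h1 := harmonic_le_one_add_log n
  have h2 : ((harmonic n : ℚ) : ℝ) = ∑ i ∈ range n, 1 / ((i : ℝ) + 1) := by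
    unfold harmonic
    push_cast
    refine sum_congr rfl fun i _ => ?_
    rw [one_div]
  rwa [h2] at h1

/-- the small numbers of the class -/
theorem small {l Y : ℕ} (hl : 1 ≤ l) (hY : 1 ≤ Y) (F : Finset ℕ)
    (hF : ∀ q ∈ F, 2 ≤ q ∧ q ≤ Y ∧ l ∣ q - 1) :
    ∑ q ∈ F, (1 : ℝ) / q ≤ (1 + Real.log Y) / l := by
  have hl0 : (0 : ℝ) < l := by exact_mod_cast hl
  have hinj : ∀ q ∈ F, ∀ q' ∈ F, (q - 1) / l - 1 = (q' - 1) / l - 1 → q = q' := by
    intro q hq q' hq' h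
    obtain ⟨h1, -, j, hj⟩ := hF q hq
    obtain ⟨h2, -, j', hj'⟩ := hF q' hq'
    have hj0 : 1 ≤ j := by
      rcases Nat.eq_zero_or_pos j with h0 | h0
      · rw [h0, mul_zero] at hj
        omega
      · exact h0
    have hj0' : 1 ≤ j' := by
      rcases Nat.eq_zero_or_pos j' with h0 | h0
      · rw [h0, mul_zero] at hj'
        omega
      · exact h0
    rw [hj, hj', Nat.mul_div_cancel_left j (by omega), Nat.mul_div_cancel_left j' (by omega)] at h
    have : j = j' := by omega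
    rw [this] at hj
    omega
  have h1 : ∑ q ∈ F, (1 : ℝ) / q ≤ ∑ q ∈ F, (1 / l) * (1 / ((((q - 1) / l - 1 : ℕ) : ℝ) + 1)) := by
    refine sum_le_sum fun q hq => ?_
    obtain ⟨h1, -, j, hj⟩ := hF q hq
    have hj0 : 1 ≤ j := by
      rcases Nat.eq_zero_or_pos j with h0 | h0
      · rw [h0, mul_zero] at hj
        omega
      · exact h0
    rw [hj, Nat.mul_div_cancel_left j (by omega)]
    have h3 : (((j - 1 : ℕ) : ℝ) + 1) = j := by
      rw [Nat.cast_sub hj0]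
      push_cast
      ring
    rw [h3, one_div_mul_one_div]
    apply one_div_le_one_div_of_le
    · have : (0 : ℝ) < j := by exact_mod_cast hj0
      positivity
    · have : l * j ≤ q := by omega
      exact_mod_cast this
  refine h1.trans ?_
  rw [← mul_sum]
  have h2 : ∑ q ∈ F, (1 / ((((q - 1) / l - 1 : ℕ) : ℝ) + 1)) ≤ ∑ i ∈ range Y, 1 / ((i : ℝ) + 1) := by
    rw [← sum_image (f := fun i : ℕ => 1 / ((i : ℝ) + 1)) (g := fun q : ℕ => (q - 1) / l - 1)
      (s := F) hinj]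
    refine sum_le_sum_of_subset_of_nonneg ?_ fun i _ _ => by positivity
    intro i hi
    obtain ⟨q, hq, rfl⟩ := mem_image.1 hi
    obtain ⟨h1, h2, -⟩ := hF q hq
    have h3 : (q - 1) / l ≤ q - 1 := Nat.div_le_self _ _
    exact mem_range.2 (by omega)
  calc (1 / (l : ℝ)) * _ ≤ (1 / (l : ℝ)) * (1 + Real.log Y) :=
        mul_le_mul_of_nonneg_left (h2.trans (harm Y hY)) (by positivity)
    _ = (1 + Real.log Y) / l := by ring

/-- one dyadic block -/
theorem block {N₁ : ℕ} (hN₁ : ∀ (M : ℕ) (b : Finset ℕ), 1 ≤ M → ∀ N : ℕ, N₁ * M ≤ N → M ^ 2 ≤ N →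
    4 ≤ N → ((((range (N + 1)).filter (fun p : ℕ => p.Prime ∧ p % M ∈ b)).card : ℕ) : ℝ) ≤
      12 * ((b.card : ℝ) / Nat.totient M) * (N / Real.log N))
    {l : ℕ} (hl : l.Prime) (F : Finset ℕ) (i : ℕ)
    (hF : ∀ q ∈ F, q.Prime ∧ l ∣ q - 1 ∧ (N₁ + 4) * l ^ 2 ≤ q ∧ 2 ^ i ≤ q ∧ q < 2 ^ (i + 1)) :
    ∑ q ∈ F, (1 : ℝ) / q ≤ 70 / l * (1 / ((i : ℝ) + 1)) := by
  have hl2 := hl.two_le
  have hl0 : (0 : ℝ) < l := by
    have : 0 < l := by omega
    exact_mod_cast this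
  rcases F.eq_empty_or_nonempty with h0 | ⟨q₀, hq₀⟩
  · rw [h0, sum_empty]
    positivity
  obtain ⟨N, hN⟩ : ∃ N, N = 2 ^ (i + 1) := ⟨_, rfl⟩
  have hNq : (N₁ + 4) * l ^ 2 ≤ N := by
    obtain ⟨-, -, h1, -, h2⟩ := hF q₀ hq₀
    omega
  have hll : l ≤ l ^ 2 := by nlinarith
  have hl1 : 1 ≤ l ^ 2 := by nlinarith
  have c1 : N₁ * l ≤ N := by
    calc N₁ * l ≤ (N₁ + 4) * l ^ 2 := Nat.mul_le_mul (by omega) hll
      _ ≤ N := hNq
  have c2 : l ^ 2 ≤ N := by
    calc l ^ 2 = 1 * l ^ 2 := (one_mul _).symm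
      _ ≤ (N₁ + 4) * l ^ 2 := Nat.mul_le_mul (by omega) le_rfl
      _ ≤ N := hNq
  have c3 : 4 ≤ N := by
    calc 4 = 4 * 1 := rfl
      _ ≤ (N₁ + 4) * l ^ 2 := Nat.mul_le_mul (by omega) hl1
      _ ≤ N := hNq
  have key := hN₁ l {1} (by omega) N c1 c2 c3
  have hsub : F ⊆ (range (N + 1)).filter (fun p : ℕ => p.Prime ∧ p % l ∈ ({1} : Finset ℕ)) := by
    intro q hq
    obtain ⟨h1, ⟨j, hj⟩, -, -, h2⟩ := hF q hq
    rw [mem_filter, mem_range, mem_singleton]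
    refine ⟨by omega, h1, ?_⟩
    have h3 : q = 1 + l * j := by
      have := h1.two_le
      omega
    rw [h3, Nat.add_mul_mod_self_left, Nat.mod_eq_of_lt (by omega)]
  have hcard : (F.card : ℝ) ≤ 12 * (1 / ((l : ℝ) - 1)) * (N / Real.log N) := by
    refine le_trans ?_ (key.trans (le_of_eq ?_))
    · exact_mod_cast card_le_card hsub
    · rw [card_singleton, Nat.totient_prime hl, Nat.cast_sub (by omega)]
      push_cast
      ring
  have hlogN : Real.log N = ((i : ℝ) + 1) * Real.log 2 := by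
    rw [hN]
    push_cast
    rw [Real.log_pow]
    push_cast
    ring
  have hlog2 := Real.log_two_gt_d9
  have hi : (0 : ℝ) < (i : ℝ) + 1 := by positivity
  have h2i : (0 : ℝ) < (2 : ℝ) ^ i := by positivity
  have hNi : (N : ℝ) = 2 * 2 ^ i := by
    rw [hN]
    push_cast
    rw [pow_succ]
    ring
  have hsum : ∑ q ∈ F, (1 : ℝ) / q ≤ F.card * (1 / (2 : ℝ) ^ i) := by
    rw [← nsmul_eq_mul]
    refine sum_le_card_nsmul _ _ _ fun q hq => ?_
    obtain ⟨-, -, -, h1, -⟩ := hF q hq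
    apply one_div_le_one_div_of_le h2i
    exact_mod_cast h1
  have hl1' : (l : ℝ) / 2 ≤ (l : ℝ) - 1 := by
    have : (2 : ℝ) ≤ l := by exact_mod_cast hl2
    linarith
  have h3 : 1 / ((l : ℝ) - 1) ≤ 2 / l := by
    rw [div_le_div_iff₀ (by linarith) hl0]
    linarith
  have h4 : (N : ℝ) / Real.log N ≤ (2 * 2 ^ i) * (35 / 24 * (1 / ((i : ℝ) + 1))) := by
    rw [hlogN, hNi, mul_div_assoc]
    have h5 : (1 : ℝ) / Real.log 2 ≤ 35 / 24 := by
      rw [div_le_div_iff₀ (by linarith) (by norm_num)]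
      linarith
    have h6 : (2 : ℝ) ^ i / (((i : ℝ) + 1) * Real.log 2) =
        (2 : ℝ) ^ i * ((1 / Real.log 2) * (1 / ((i : ℝ) + 1))) := by
      rw [div_eq_mul_one_div, one_div_mul_one_div, mul_comm (Real.log 2)]
    rw [h6]
    have h7 : (1 / Real.log 2) * (1 / ((i : ℝ) + 1)) ≤ 35 / 24 * (1 / ((i : ℝ) + 1)) :=
      mul_le_mul_of_nonneg_right h5 (by positivity)
    have h8 := mul_le_mul_of_nonneg_left h7 h2i.le
    linarith
  have h9 : (F.card : ℝ) ≤ (12 * (2 / l)) * ((2 * 2 ^ i) * (35 / 24 * (1 / ((i : ℝ) + 1)))) := by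
    refine hcard.trans (mul_le_mul (mul_le_mul_of_nonneg_left h3 (by norm_num)) h4 ?_ (by positivity))
    rw [hlogN]
    positivity
  refine hsum.trans ((mul_le_mul_of_nonneg_right h9 (by positivity)).trans (le_of_eq ?_))
  field_simp
  ring

end HL

theorem t_HL : S_HL := by
  intro η hη
  obtain ⟨N₁, hN₁⟩ := Pool.Agent.TH888.B1.primes_in_classes
  obtain ⟨C, hC⟩ : ∃ C : ℝ, C = 2 + Real.log (N₁ + 4) := ⟨_, rfl⟩
  have hlogN : 0 ≤ Real.log ((N₁ : ℝ) + 4) := by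
    apply Real.log_nonneg
    have : (0 : ℝ) ≤ N₁ := Nat.cast_nonneg _
    linarith
  have hC0 : 0 < C := by rw [hC]; linarith
  obtain ⟨T, hT⟩ : ∃ T : ℝ, T = max 1 ((C + 284) / η) := ⟨_, rfl⟩
  have hlim : Filter.Tendsto (fun X : ℕ => LL X) Filter.atTop Filter.atTop := by
    unfold LL
    exact Real.tendsto_log_atTop.comp (Real.tendsto_log_atTop.comp tendsto_natCast_atTop_atTop)
  obtain ⟨X₀, hX₀⟩ := Filter.eventually_atTop.1 (hlim.eventually_ge_atTop T)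
  refine ⟨max X₀ 3, ?_⟩
  intro X hX l hl hLl hl4 F hF
  have hX3 : 3 ≤ X := (le_max_right _ _).trans hX
  have hLT : T ≤ LL X := hX₀ X ((le_max_left _ _).trans hX)
  obtain ⟨L, hL⟩ : ∃ L, L = LL X := ⟨_, rfl⟩
  rw [← hL] at hLT hLl
  have hL1 : 1 ≤ L := le_trans (by rw [hT]; exact le_max_left _ _) hLT
  have hLη : (C + 284) / η ≤ L := le_trans (by rw [hT]; exact le_max_right _ _) hLT
  have hL0 : 0 < L := by linarith
  have hlp := hl.two_le
  have hl0 : (0 : ℝ) < l := by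
    have : 0 < l := by omega
    exact_mod_cast this
  obtain ⟨Y, hY⟩ : ∃ Y, Y = (N₁ + 4) * l ^ 2 := ⟨_, rfl⟩
  have hl2 : 1 ≤ l ^ 2 := Nat.one_le_pow _ _ (by omega)
  have hY1 : 1 ≤ Y := by
    rw [hY]
    exact Nat.mul_pos (by omega) hl2
  -- the three parts
  obtain ⟨F₀, hF₀⟩ : ∃ F₀, F₀ = F.filter (fun q => q = l) := ⟨_, rfl⟩
  obtain ⟨F₁, hF₁⟩ : ∃ F₁, F₁ = F.filter (fun q => l ∣ q - 1 ∧ q ≤ Y) := ⟨_, rfl⟩
  obtain ⟨F₂, hF₂⟩ : ∃ F₂, F₂ = F.filter (fun q => l ∣ q - 1 ∧ Y < q) := ⟨_, rfl⟩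
  have hnn : ∀ S : Finset ℕ, 0 ≤ ∑ q ∈ S, (1 : ℝ) / q := fun S => sum_nonneg fun q _ => by positivity
  have hsplit : ∑ q ∈ F, (1 : ℝ) / q ≤ ∑ q ∈ F₀, (1 : ℝ) / q + ∑ q ∈ F₁, (1 : ℝ) / q +
      ∑ q ∈ F₂, (1 : ℝ) / q := by
    have e1 : F ⊆ (F₀ ∪ F₁) ∪ F₂ := by
      intro q hq
      rw [mem_union, mem_union, hF₀, hF₁, hF₂, mem_filter, mem_filter, mem_filter]
      rcases (hF q hq).2.2 with h | h
      · rcases le_or_gt q Y with h2 | h2
        · exact Or.inl (Or.inr ⟨hq, h, h2⟩)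
        · exact Or.inr ⟨hq, h, h2⟩
      · exact Or.inl (Or.inl ⟨hq, h⟩)
    have e2 : ∑ q ∈ F, (1 : ℝ) / q ≤ ∑ q ∈ (F₀ ∪ F₁) ∪ F₂, (1 : ℝ) / q :=
      sum_le_sum_of_subset_of_nonneg e1 fun q _ _ => by positivity
    have e3 : ∑ q ∈ (F₀ ∪ F₁) ∪ F₂, (1 : ℝ) / q ≤ ∑ q ∈ F₀ ∪ F₁, (1 : ℝ) / q +
        ∑ q ∈ F₂, (1 : ℝ) / q := by
      rw [← sum_union_inter]
      have := hnn ((F₀ ∪ F₁) ∩ F₂)
      linarith
    have e4 : ∑ q ∈ F₀ ∪ F₁, (1 : ℝ) / q ≤ ∑ q ∈ F₀, (1 : ℝ) / q + ∑ q ∈ F₁, (1 : ℝ) / q := by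
      rw [← sum_union_inter]
      have := hnn (F₀ ∩ F₁)
      linarith
    linarith
  -- `q = l`
  have h0 : ∑ q ∈ F₀, (1 : ℝ) / q ≤ 1 / l := by
    have e1 : F₀ ⊆ {l} := by
      intro q hq
      rw [hF₀, mem_filter] at hq
      rw [mem_singleton]
      exact hq.2
    have e2 : ∑ q ∈ F₀, (1 : ℝ) / q ≤ ∑ q ∈ {l}, (1 : ℝ) / q :=
      sum_le_sum_of_subset_of_nonneg e1 fun q _ _ => by positivity
    rwa [sum_singleton] at e2
  -- small `q`
  have h1 : ∑ q ∈ F₁, (1 : ℝ) / q ≤ (1 + Real.log Y) / l := by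
    apply HL.small (by omega) hY1
    intro q hq
    rw [hF₁, mem_filter] at hq
    exact ⟨(hF q hq.1).1.two_le, hq.2.2, hq.2.1⟩
  -- large `q`
  obtain ⟨I, hI⟩ : ∃ I, I = Nat.log 2 (X + 1) + 1 := ⟨_, rfl⟩
  have h2 : ∑ q ∈ F₂, (1 : ℝ) / q ≤ 70 / l * (1 + Real.log I) := by
    have e1 : ∀ q ∈ F₂, Nat.log 2 q ∈ range I := by
      intro q hq
      rw [hF₂, mem_filter] at hq
      have := Nat.log_mono_right (b := 2) (hF q hq.1).2.1
      exact mem_range.2 (by omega)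
    rw [← sum_fiberwise_of_maps_to e1]
    have e2 : ∀ i ∈ range I, ∑ q ∈ F₂.filter (fun q => Nat.log 2 q = i), (1 : ℝ) / q ≤
        70 / l * (1 / ((i : ℝ) + 1)) := by
      intro i _
      apply HL.block hN₁ hl
      intro q hq
      rw [mem_filter, hF₂, mem_filter] at hq
      obtain ⟨⟨hqF, hq1, hq2⟩, hq3⟩ := hq
      have hqp := (hF q hqF).1
      refine ⟨hqp, hq1, by rw [← hY]; exact hq2.le, ?_, ?_⟩
      · rw [← hq3]
        exact Nat.pow_log_le_self 2 hqp.ne_zero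
      · rw [← hq3]
        exact Nat.lt_pow_succ_log_self (by norm_num) q
    refine (sum_le_sum e2).trans ?_
    rw [← mul_sum]
    exact mul_le_mul_of_nonneg_left (HL.harm I (by omega)) (by positivity)
  -- the logarithms
  have hXpos : (0 : ℝ) < X := by
    have : 0 < X := by omega
    exact_mod_cast this
  have hlogX1 : 1 ≤ Real.log X := by
    rw [Real.le_log_iff_exp_le hXpos]
    have := Real.exp_one_lt_d9
    have h3 : (3 : ℝ) ≤ X := by exact_mod_cast hX3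
    linarith
  have hI4 : (I : ℝ) ≤ 4 * Real.log X := by
    have e1 : (Nat.log 2 (X + 1) : ℝ) * Real.log 2 ≤ Real.log ((X : ℝ) + 1) := by
      rw [← Real.log_pow]
      apply Real.log_le_log (by positivity)
      have := Nat.pow_log_le_self 2 (Nat.succ_ne_zero X)
      exact_mod_cast this
    have e2 : Real.log ((X : ℝ) + 1) ≤ Real.log 2 + Real.log X := by
      rw [← Real.log_mul (by norm_num) hXpos.ne']
      apply Real.log_le_log (by positivity)
      have : (1 : ℝ) ≤ X := by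
        have : 1 ≤ X := by omega
        exact_mod_cast this
      linarith
    have e3 := Real.log_two_gt_d9
    have e4 : (I : ℝ) = Nat.log 2 (X + 1) + 1 := by rw [hI]; push_cast; ring
    have e5 : (Nat.log 2 (X + 1) : ℝ) ≤ 1 + Real.log X / Real.log 2 := by
      have e6 : (0 : ℝ) < Real.log 2 := by linarith
      rw [← mul_le_mul_iff_of_pos_right e6]
      have e7 : (1 + Real.log X / Real.log 2) * Real.log 2 = Real.log 2 + Real.log X := by
        field_simp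
      rw [e7]
      linarith
    have e8 : Real.log X / Real.log 2 ≤ 2 * Real.log X := by
      rw [div_le_iff₀ (by linarith)]
      nlinarith
    rw [e4]
    linarith
  have hI0 : (0 : ℝ) < I := by
    have : 0 < I := by omega
    exact_mod_cast this
  have hlogI : Real.log I ≤ 2 + L := by
    have e1 : Real.log I ≤ Real.log (4 * Real.log X) := Real.log_le_log hI0 hI4
    rw [Real.log_mul (by norm_num) (by linarith)] at e1
    have e2 : Real.log 4 ≤ 2 := by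
      have : (4 : ℝ) = 2 ^ 2 := by norm_num
      rw [this, Real.log_pow]
      have := Real.log_two_lt_d9
      push_cast
      linarith
    have e3 : L = Real.log (Real.log X) := hL
    rw [e3]
    linarith
  obtain ⟨sl, hsl⟩ : ∃ sl, sl = Real.sqrt l := ⟨_, rfl⟩
  have hsl2 : sl * sl = l := by rw [hsl]; exact Real.mul_self_sqrt hl0.le
  have hsl0 : 0 < sl := by rw [hsl]; exact Real.sqrt_pos.2 hl0
  have hslL : L ≤ sl := by
    rw [hsl]
    apply Real.le_sqrt_of_sq_le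
    exact (pow_le_pow_right₀ hL1 (by norm_num)).trans hLl
  have hsl1 : 1 ≤ sl := hL1.trans hslL
  have hlogY : Real.log Y ≤ Real.log ((N₁ : ℝ) + 4) + 4 * sl := by
    rw [hY]
    push_cast
    have e0 : (0 : ℝ) < (N₁ : ℝ) + 4 := by positivity
    rw [Real.log_mul e0.ne' (by positivity), Real.log_pow]
    have e1 : Real.log l ≤ 2 * sl := by
      rw [← hsl2, Real.log_mul hsl0.ne' hsl0.ne']
      have := Real.log_le_sub_one_of_pos hsl0
      linarith
    push_cast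
    linarith
  have hL9 : L ^ 2 ≤ l := (pow_le_pow_right₀ hL1 (by norm_num)).trans hLl
  -- conclusion
  have f1 : 1 / (l : ℝ) + (1 + Real.log Y) / l ≤ (C + 4) / L := by
    have e1 : 1 / (l : ℝ) + (1 + Real.log Y) / l = (2 + Real.log Y) / l := by ring
    rw [e1, div_le_div_iff₀ hl0 hL0]
    have e2 : 2 + Real.log Y ≤ (C + 4) * sl := by
      rw [hC]
      have : (2 + Real.log ((N₁ : ℝ) + 4)) * 1 ≤ (2 + Real.log ((N₁ : ℝ) + 4)) * sl :=
        mul_le_mul_of_nonneg_left hsl1 (by linarith)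
      linarith
    calc (2 + Real.log Y) * L ≤ ((C + 4) * sl) * sl :=
          mul_le_mul e2 hslL hL0.le (by positivity)
      _ = (C + 4) * l := by rw [mul_assoc, hsl2]
  have f2 : 70 / l * (1 + Real.log I) ≤ 280 / L := by
    have e1 : 1 + Real.log I ≤ 4 * L := by linarith
    have e2 : 70 / (l : ℝ) * (1 + Real.log I) ≤ 70 / l * (4 * L) :=
      mul_le_mul_of_nonneg_left e1 (by positivity)
    refine e2.trans ?_
    rw [div_mul_eq_mul_div, div_le_div_iff₀ hl0 hL0]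
    linarith [hL9, (by ring : 70 * (4 * L) * L = 280 * L ^ 2)]
  have f3 : (C + 284) / L ≤ η := by
    rw [div_le_iff₀ hL0]
    rw [div_le_iff₀ hη] at hLη
    linarith
  have f4 : (C + 4) / L + 280 / L = (C + 284) / L := by ring
  linarith

end Pool.Agent.H183.GL
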