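import Pool.Agent.H183.GL.Stm
import Pool.Graph.R_seed8.TH888.B1.PrimeSieve

/-!
# Project GL (helper183), task HP: reciprocals of the primes that are `l`-th powers modulo `w`
-/

set_option autoImplicit false

namespace Pool.Agent.H183.GL

open Finset Pool.Agent.H183.MU

namespace HP

/-- the residues that are `l`-th powers modulo `w` -/
theorem card_HH (w l : ℕ) (hw : w.Prime) (hl : l.Prime) (hlw : l ∣ w - 1) :
    (((range w).filter (fun x => x ^ ((w - 1) / l) % w = 1 % w)).card : ℝ) ≤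
      (((w - 1 : ℕ)) : ℝ) / l := by
  have := Fact.mk hw
  have hw2 := hw.two_le
  have hk : 0 < (w - 1) / l := Nat.div_pos (Nat.le_of_dvd (by omega) hlw) hl.pos
  rw [← Nat.cast_div hlw (by exact_mod_cast hl.ne_zero)]
  have h1 : ((range w).filter (fun x => x ^ ((w - 1) / l) % w = 1 % w)).card ≤ (w - 1) / l := by
    calc ((range w).filter (fun x => x ^ ((w - 1) / l) % w = 1 % w)).card
        ≤ (Polynomial.nthRootsFinset ((w - 1) / l) (1 : ZMod w)).card := by
          refine Finset.card_le_card_of_injOn (fun x => (x : ZMod w)) ?_ ?_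
          · intro x hx
            rw [mem_coe, mem_filter] at hx
            rw [mem_coe, Polynomial.mem_nthRootsFinset hk]
            have h2 : x ^ ((w - 1) / l) ≡ 1 [MOD w] := hx.2
            have h3 := (ZMod.natCast_eq_natCast_iff _ _ _).2 h2
            push_cast at h3
            exact h3
          · intro x hx y hy hxy
            rw [mem_coe, mem_filter, mem_range] at hx hy
            have h2 := (ZMod.natCast_eq_natCast_iff' x y w).1 hxy
            rwa [Nat.mod_eq_of_lt hx.1, Nat.mod_eq_of_lt hy.1] at h2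
      _ ≤ (w - 1) / l := by
          unfold Polynomial.nthRootsFinset
          exact (@Multiset.toFinset_card_le _ (Classical.decEq _) _).trans
            (Polynomial.card_nthRoots _ _)
  exact_mod_cast h1

/-- one dyadic interval -/
theorem dyad (N₁ : ℕ) (hN₁ : ∀ (M : ℕ) (b : Finset ℕ), 1 ≤ M → ∀ N : ℕ, N₁ * M ≤ N → M ^ 2 ≤ N →
    4 ≤ N → ((((range (N + 1)).filter (fun p : ℕ => p.Prime ∧ p % M ∈ b)).card : ℕ) : ℝ) ≤
      12 * ((b.card : ℝ) / Nat.totient M) * (N / Real.log N))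
    (w l : ℕ) (hw : w.Prime) (hl : l.Prime) (hlw : l ∣ w - 1) (Z : ℝ) (hZ : 0 < Z) (i : ℕ)
    (F : Finset ℕ) (hF : ∀ p ∈ F, p.Prime ∧ Real.exp Z < p ∧ HH w l p ∧ Nat.log 2 p = i)
    (h1 : N₁ * w ≤ Real.exp Z) (h2 : (w : ℝ) ^ 2 ≤ Real.exp Z) (h3 : 4 ≤ Real.exp Z) :
    ∑ p ∈ F, (1 : ℝ) / p ≤ 24 / (l * Z) := by
  have hl0 : (0 : ℝ) < l := by exact_mod_cast hl.pos
  have hw2 := hw.two_le
  rcases F.eq_empty_or_nonempty with rfl | ⟨p₀, hp₀⟩
  · rw [sum_empty]; positivity
  obtain ⟨hp0, hpZ, -, hpi⟩ := hF p₀ hp₀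
  have hlt : p₀ < 2 ^ (i + 1) := hpi ▸ Nat.lt_pow_succ_log_self (by norm_num) p₀
  have hNZ : Real.exp Z < ((2 ^ (i + 1) : ℕ) : ℝ) := by
    have : (p₀ : ℝ) < ((2 ^ (i + 1) : ℕ) : ℝ) := by exact_mod_cast hlt
    linarith
  have hlogN : Z ≤ Real.log ((2 ^ (i + 1) : ℕ) : ℝ) := by
    rw [← Real.log_exp Z]
    exact Real.log_le_log (Real.exp_pos _) hNZ.le
  have hc := hN₁ w ((range w).filter (fun x => x ^ ((w - 1) / l) % w = 1 % w)) (by omega)
    (2 ^ (i + 1)) (by
      have : ((N₁ * w : ℕ) : ℝ) ≤ ((2 ^ (i + 1) : ℕ) : ℝ) := by push_cast at hNZ ⊢; linarith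
      exact_mod_cast this) (by
      have : ((w ^ 2 : ℕ) : ℝ) ≤ ((2 ^ (i + 1) : ℕ) : ℝ) := by push_cast at hNZ ⊢; linarith
      exact_mod_cast this) (by
      have : ((4 : ℕ) : ℝ) ≤ ((2 ^ (i + 1) : ℕ) : ℝ) := by push_cast at hNZ ⊢; linarith
      exact_mod_cast this)
  have hsub : F ⊆ (range (2 ^ (i + 1) + 1)).filter (fun p : ℕ => p.Prime ∧
      p % w ∈ (range w).filter (fun x => x ^ ((w - 1) / l) % w = 1 % w)) := by
    intro p hp
    obtain ⟨hpp, -, hpH, hpi⟩ := hF p hp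
    have hplt : p < 2 ^ (i + 1) := hpi ▸ Nat.lt_pow_succ_log_self (by norm_num) p
    rw [mem_filter, mem_range, mem_filter, mem_range]
    refine ⟨by omega, hpp, Nat.mod_lt _ (by omega), ?_⟩
    exact ((Nat.mod_modEq p w).pow ((w - 1) / l)).trans hpH
  have hcard : (F.card : ℝ) ≤ 12 * (1 / l) * (((2 ^ (i + 1) : ℕ) : ℝ) / Z) := by
    refine (show (F.card : ℝ) ≤ _ by exact_mod_cast card_le_card hsub).trans (hc.trans ?_)
    have hb := card_HH w l hw hl hlw
    have hw0 : (0 : ℝ) < ((w - 1 : ℕ) : ℝ) := by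
      have : 0 < w - 1 := by omega
      exact_mod_cast this
    have hb2 : ((((range w).filter (fun x => x ^ ((w - 1) / l) % w = 1 % w)).card : ℕ) : ℝ) /
        ((Nat.totient w : ℕ) : ℝ) ≤ 1 / l := by
      rw [Nat.totient_prime hw, div_le_iff₀ hw0]
      refine hb.trans (le_of_eq ?_)
      ring
    have h5 : (((2 ^ (i + 1) : ℕ) : ℝ) / Real.log ((2 ^ (i + 1) : ℕ) : ℝ)) ≤
        (((2 ^ (i + 1) : ℕ) : ℝ) / Z) :=
      div_le_div_of_nonneg_left (by positivity) hZ hlogN
    have h6 : 0 ≤ (((2 ^ (i + 1) : ℕ) : ℝ) / Real.log ((2 ^ (i + 1) : ℕ) : ℝ)) :=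
      div_nonneg (by positivity) (by linarith)
    exact mul_le_mul (mul_le_mul_of_nonneg_left hb2 (by norm_num)) h5 h6 (by positivity)
  have hterm : ∀ p ∈ F, (1 : ℝ) / p ≤ 1 / 2 ^ i := by
    intro p hp
    obtain ⟨hpp, -, -, hpi⟩ := hF p hp
    have hple : 2 ^ i ≤ p := hpi ▸ Nat.pow_log_le_self 2 hpp.ne_zero
    refine one_div_le_one_div_of_le (by positivity) ?_
    exact_mod_cast hple
  calc ∑ p ∈ F, (1 : ℝ) / p ≤ ∑ _p ∈ F, (1 : ℝ) / 2 ^ i := sum_le_sum hterm
    _ = F.card * (1 / 2 ^ i) := by rw [sum_const, nsmul_eq_mul]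
    _ ≤ (12 * (1 / l) * (((2 ^ (i + 1) : ℕ) : ℝ) / Z)) * (1 / 2 ^ i) :=
        mul_le_mul_of_nonneg_right hcard (by positivity)
    _ = 24 / (l * Z) := by
        push_cast
        rw [pow_succ]
        field_simp
        ring

end HP

open HP in
theorem t_HP : S_HP := by
  intro δ hδ hδ2
  obtain ⟨N₁, hN₁⟩ := Pool.Agent.TH888.B1.primes_in_classes
  have hlo := (isLittleO_log_rpow_atTop hδ).bound (c := 1 / (N₁ + 4)) (by positivity)
  have hlo' := tendsto_natCast_atTop_atTop.eventually hlo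
  rw [Filter.eventually_atTop] at hlo'
  obtain ⟨X₁, hX₁⟩ := hlo'
  refine ⟨72 / δ, by positivity, max X₁ 3, fun X hX w l hA F hF => ?_⟩
  obtain ⟨hw, hl, hlw, hwX, -⟩ := hA
  have hX3 : 3 ≤ X := le_trans (le_max_right _ _) hX
  have hX3' : (3 : ℝ) ≤ X := by exact_mod_cast hX3
  have hlog1 : 1 ≤ Real.log X := by
    have h1 : Real.exp 1 ≤ X := by
      have := Real.exp_one_lt_d9
      linarith
    rw [← Real.log_exp 1]
    exact Real.log_le_log (Real.exp_pos _) h1
  have h1 := hX₁ X (le_trans (le_max_left _ _) hX)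
  have hXpos : (0 : ℝ) < X := by linarith
  have hrp : 0 < (X : ℝ) ^ δ := Real.rpow_pos_of_pos hXpos δ
  rw [Real.norm_of_nonneg (by linarith), Real.norm_of_nonneg hrp.le, one_div, inv_mul_eq_div,
    le_div_iff₀ (by positivity)] at h1
  have hZ : 0 < δ * Real.log X := by positivity
  have hexp : Real.exp (δ * Real.log X) = (X : ℝ) ^ δ := by
    rw [Real.rpow_def_of_pos hXpos, mul_comm]
  have hl0 : (0 : ℝ) < l := by exact_mod_cast hl.pos
  have hw1 : (1 : ℝ) ≤ w := by exact_mod_cast hw.one_lt.le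
  have hwlog : (w : ℝ) ≤ Real.log X := by
    refine le_trans ?_ hwX
    exact le_self_pow₀ hw1 (by norm_num)
  have hw2log : (w : ℝ) ^ 2 ≤ Real.log X := by
    refine le_trans ?_ hwX
    exact pow_le_pow_right₀ hw1 (by norm_num)
  have hN₁0 : (0 : ℝ) ≤ N₁ := Nat.cast_nonneg _
  have hfib : ∑ p ∈ F, (1 : ℝ) / p =
      ∑ i ∈ range (Nat.log 2 X + 1), ∑ p ∈ F.filter (fun p => Nat.log 2 p = i), (1 : ℝ) / p := by
    rw [← Finset.sum_fiberwise_of_maps_to (g := fun p => Nat.log 2 p)]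
    intro p hp
    obtain ⟨hpp, -, hpX, -⟩ := hF p hp
    rw [mem_range]
    have h2 : p ≤ X := le_trans (Nat.le_self_pow (by norm_num) p) hpX
    exact Nat.lt_succ_of_le (Nat.log_mono_right h2)
  rw [hfib]
  calc ∑ i ∈ range (Nat.log 2 X + 1), ∑ p ∈ F.filter (fun p => Nat.log 2 p = i), (1 : ℝ) / p
      ≤ ∑ _i ∈ range (Nat.log 2 X + 1), 24 / (l * (δ * Real.log X)) := by
        refine sum_le_sum fun i _ => ?_
        refine dyad N₁ hN₁ w l hw hl hlw (δ * Real.log X) hZ i _ ?_ ?_ ?_ ?_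
        · intro p hp
          rw [mem_filter] at hp
          obtain ⟨a1, a2, -, a4⟩ := hF p hp.1
          exact ⟨a1, by rw [hexp]; exact a2, a4, hp.2⟩
        · rw [hexp]
          nlinarith
        · rw [hexp]
          nlinarith
        · rw [hexp]
          nlinarith
    _ = (Nat.log 2 X + 1) * (24 / (l * (δ * Real.log X))) := by
        rw [sum_const, card_range, nsmul_eq_mul]
        push_cast
        ring
    _ ≤ (3 * Real.log X) * (24 / (l * (δ * Real.log X))) := by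
        refine mul_le_mul_of_nonneg_right ?_ (by positivity)
        have h2 : ((Nat.log 2 X : ℕ) : ℝ) * Real.log 2 ≤ Real.log X := by
          rw [← Real.log_pow]
          refine Real.log_le_log (by positivity) ?_
          exact_mod_cast Nat.pow_log_le_self 2 (by omega)
        have h3 := Real.log_two_gt_d9
        have h4 : (0 : ℝ) ≤ ((Nat.log 2 X : ℕ) : ℝ) := Nat.cast_nonneg _
        nlinarith
    _ = 72 / δ / l := by
        field_simp
        ring

end Pool.Agent.H183.GL
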