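import Pool.Agent.H183.GL.Stm
import Pool.Graph.R_seed8.Erdos456.Mertens

set_option autoImplicit false

namespace Pool.Agent.H183.GL

open Finset Pool.Agent.H183.MU

namespace KAP

theorem tele (M : ℕ) (hM : 1 ≤ M) :
    ∑ n ∈ Icc 2 M, 1 / ((n : ℝ) * ((n : ℝ) - 1)) ≤ 1 - 1 / (M : ℝ) := by
  induction M, hM using Nat.le_induction with
  | base => simp
  | succ M hM ih =>
    rw [Finset.sum_Icc_succ_top (by omega)]
    have hM0 : (0 : ℝ) < M := by exact_mod_cast hM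
    have h1 : 1 / (((M + 1 : ℕ) : ℝ) * (((M + 1 : ℕ) : ℝ) - 1)) = 1 / (M : ℝ) - 1 / ((M + 1 : ℕ) : ℝ) := by
      have hM1 : ((M : ℝ) + 1) ≠ 0 := by positivity
      have hM2 : (M : ℝ) ≠ 0 := hM0.ne'
      push_cast
      rw [add_sub_cancel_right, div_sub_div _ _ hM2 hM1]
      congr 1
      · ring
      · ring
    rw [h1]
    linarith

theorem small (q : ℕ) (hq : 1 ≤ q) :
    ∑ p ∈ q.primeFactors, 1 / ((p : ℝ) * ((p : ℝ) - 1)) ≤ 1 := by
  have hsub : q.primeFactors ⊆ Icc 2 q := by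
    intro p hp
    have hp1 := Nat.prime_of_mem_primeFactors hp
    have hp2 := Nat.le_of_mem_primeFactors hp
    exact Finset.mem_Icc.2 ⟨hp1.two_le, hp2⟩
  have h1 : ∑ p ∈ q.primeFactors, 1 / ((p : ℝ) * ((p : ℝ) - 1)) ≤
      ∑ p ∈ Icc 2 q, 1 / ((p : ℝ) * ((p : ℝ) - 1)) := by
    refine Finset.sum_le_sum_of_subset_of_nonneg hsub fun p hp _ => ?_
    have h2 : (2 : ℝ) ≤ p := by exact_mod_cast (Finset.mem_Icc.1 hp).1
    have h3 : (0 : ℝ) < (p : ℝ) * ((p : ℝ) - 1) := by nlinarith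
    positivity
  have h2 := tele q hq
  have h3 : (0 : ℝ) ≤ 1 / (q : ℝ) := by positivity
  linarith

theorem ratio_le (q : ℕ) (hq : 1 ≤ q) :
    (q : ℝ) / (Nat.totient q : ℝ) ≤ Real.exp (∑ p ∈ q.primeFactors, 1 / (p : ℝ) + 1) := by
  have hn0 : (0 : ℝ) < q := by exact_mod_cast hq
  have h1 : (Nat.totient q : ℝ) = q * ∏ p ∈ q.primeFactors, (1 - (p : ℝ)⁻¹) := by
    have := Nat.totient_eq_mul_prod_factors q
    have h2 : ((Nat.totient q : ℚ) : ℝ) = ((q * ∏ p ∈ q.primeFactors, (1 - (p : ℚ)⁻¹) : ℚ) : ℝ) := by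
      rw [this]
    push_cast at h2
    exact h2
  have h2 : (q : ℝ) / (Nat.totient q : ℝ) = ∏ p ∈ q.primeFactors, ((1 : ℝ) - (p : ℝ)⁻¹)⁻¹ := by
    rw [h1, ← div_div, div_self hn0.ne', one_div, Finset.prod_inv_distrib]
  have h3 : ∀ p ∈ q.primeFactors, ((1 : ℝ) - (p : ℝ)⁻¹)⁻¹ ≤
      Real.exp (1 / (p : ℝ) + 1 / ((p : ℝ) * ((p : ℝ) - 1))) := by
    intro p hp
    have hp2 : (2 : ℝ) ≤ p := by exact_mod_cast (Nat.prime_of_mem_primeFactors hp).two_le
    have hp0 : (0 : ℝ) < p := by linarith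
    have hp1 : (0 : ℝ) < (p : ℝ) - 1 := by linarith
    have e1 : ((1 : ℝ) - (p : ℝ)⁻¹)⁻¹ = (1 / (p : ℝ) + 1 / ((p : ℝ) * ((p : ℝ) - 1))) + 1 := by
      have h5 : (1 : ℝ) - (p : ℝ)⁻¹ = ((p : ℝ) - 1) / p := by field_simp
      rw [h5, inv_div]
      field_simp
      ring
    rw [e1]
    exact Real.add_one_le_exp _
  rw [h2]
  calc ∏ p ∈ q.primeFactors, ((1 : ℝ) - (p : ℝ)⁻¹)⁻¹
      ≤ ∏ p ∈ q.primeFactors, Real.exp (1 / (p : ℝ) + 1 / ((p : ℝ) * ((p : ℝ) - 1))) := by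
        refine Finset.prod_le_prod (fun p hp => ?_) h3
        have hp2 : (2 : ℝ) ≤ p := by exact_mod_cast (Nat.prime_of_mem_primeFactors hp).two_le
        have h5 : (p : ℝ)⁻¹ ≤ 1 := inv_le_one_of_one_le₀ (by linarith)
        exact inv_nonneg.2 (by linarith)
    _ = Real.exp (∑ p ∈ q.primeFactors, (1 / (p : ℝ) + 1 / ((p : ℝ) * ((p : ℝ) - 1)))) :=
        (Real.exp_sum _ _).symm
    _ ≤ _ := by
        apply Real.exp_le_exp.2
        rw [Finset.sum_add_distrib]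
        have := small q hq
        linarith

theorem card_le (q : ℕ) (hq : 1 ≤ q) : ((q.primeFactors.card : ℕ) : ℝ) * Real.log 2 ≤ Real.log q := by
  have h1 : 2 ^ q.primeFactors.card ≤ q := by
    have h2 : ∏ p ∈ q.primeFactors, p ≤ q := Nat.le_of_dvd hq (Nat.prod_primeFactors_dvd q)
    have h3 : 2 ^ q.primeFactors.card ≤ ∏ p ∈ q.primeFactors, p := by
      rw [← Finset.prod_const]
      exact Finset.prod_le_prod' fun p hp => (Nat.prime_of_mem_primeFactors hp).two_le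
    exact h3.trans h2
  have h4 : ((2 : ℝ) ^ q.primeFactors.card) ≤ q := by exact_mod_cast h1
  rw [← Real.log_pow]
  exact Real.log_le_log (by positivity) h4

theorem sum_le : ∃ C : ℝ, ∀ X q : ℕ, 1 ≤ q → q ≤ X → 8 ≤ Real.log X →
    ∑ p ∈ q.primeFactors, 1 / (p : ℝ) ≤ Real.log (LL X) + C := by
  obtain ⟨C, hC⟩ := Pool.Agent.Erdos456.Mert.mertens_inv
  refine ⟨C + 4, fun X q hq hqX hX => ?_⟩
  set N : ℕ := ⌊Real.log X⌋₊ with hN
  have hlog0 : 0 ≤ Real.log X := by linarith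
  have hN1 : (N : ℝ) ≤ Real.log X := Nat.floor_le hlog0
  have hN2 : Real.log X < N + 1 := Nat.lt_floor_add_one _
  have hN3 : 3 ≤ N := by
    have : (3 : ℝ) < N := by linarith
    exact_mod_cast this.le
  have hNpos : (0 : ℝ) < N := by
    have : (3 : ℝ) ≤ N := by exact_mod_cast hN3
    linarith
  have h1 := (abs_le.1 (hC N hN3)).2
  have hsplit : ∑ p ∈ q.primeFactors, 1 / (p : ℝ) =
      ∑ p ∈ q.primeFactors.filter (fun p => p ≤ N), 1 / (p : ℝ) +
        ∑ p ∈ q.primeFactors.filter (fun p => ¬ p ≤ N), 1 / (p : ℝ) :=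
    (Finset.sum_filter_add_sum_filter_not _ _ _).symm
  have hA : ∑ p ∈ q.primeFactors.filter (fun p => p ≤ N), 1 / (p : ℝ) ≤
      ∑ p ∈ (Finset.Icc 1 N).filter Nat.Prime, (1 : ℝ) / p := by
    refine Finset.sum_le_sum_of_subset_of_nonneg ?_ fun p _ _ => by positivity
    intro p hp
    obtain ⟨hp1, hp2⟩ := Finset.mem_filter.1 hp
    have := Nat.prime_of_mem_primeFactors hp1
    exact Finset.mem_filter.2 ⟨Finset.mem_Icc.2 ⟨this.one_lt.le, hp2⟩, this⟩
  have hB : ∑ p ∈ q.primeFactors.filter (fun p => ¬ p ≤ N), 1 / (p : ℝ) ≤ 4 := by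
    have h2 : ∑ p ∈ q.primeFactors.filter (fun p => ¬ p ≤ N), 1 / (p : ℝ) ≤
        ∑ _p ∈ q.primeFactors.filter (fun p => ¬ p ≤ N), 1 / (N : ℝ) := by
      refine Finset.sum_le_sum fun p hp => ?_
      have h3 : N < p := not_le.1 (Finset.mem_filter.1 hp).2
      have h4 : (N : ℝ) ≤ p := by exact_mod_cast h3.le
      exact one_div_le_one_div_of_le hNpos h4
    rw [Finset.sum_const, nsmul_eq_mul] at h2
    have h5 : ((q.primeFactors.filter (fun p => ¬ p ≤ N)).card : ℝ) ≤ q.primeFactors.card := by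
      exact_mod_cast Finset.card_filter_le _ _
    have h6 := card_le q hq
    have h7 : Real.log q ≤ Real.log X := by
      have : (0 : ℝ) < q := by exact_mod_cast hq
      exact Real.log_le_log this (by exact_mod_cast hqX)
    have h8 := Real.log_two_gt_d9
    have h9 : (q.primeFactors.card : ℝ) * (1 / 2) ≤ Real.log X := by
      have h10 : (0 : ℝ) ≤ q.primeFactors.card := by positivity
      nlinarith
    have h11 : ((q.primeFactors.filter (fun p => ¬ p ≤ N)).card : ℝ) ≤ 4 * N := by linarith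
    calc _ ≤ _ := h2
      _ ≤ 4 * N * (1 / (N : ℝ)) := by
          exact mul_le_mul_of_nonneg_right h11 (by positivity)
      _ = 4 := by field_simp
  have hE : Real.log (Real.log N) ≤ Real.log (LL X) := by
    unfold LL
    have h3 : (0 : ℝ) < Real.log N := by
      have : (3 : ℝ) ≤ N := by exact_mod_cast hN3
      exact Real.log_pos (by linarith)
    exact Real.log_le_log h3 (Real.log_le_log hNpos hN1)
  rw [hsplit]
  linarith

end KAP

theorem t_KAP : S_KAP := by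
  obtain ⟨C, hC⟩ := KAP.sum_le
  set D : ℝ := Real.exp (C + 1) with hD
  have hD0 : 0 < D := Real.exp_pos _
  set L : ℝ := max (Real.exp (max D 1)) 8 with hL
  refine ⟨⌈Real.exp L⌉₊, fun X hX q hq hqX => ?_⟩
  have hX1 : Real.exp L ≤ X := (Nat.le_ceil _).trans (by exact_mod_cast hX)
  have hX0 : (0 : ℝ) < X := lt_of_lt_of_le (Real.exp_pos _) hX1
  have h1 : L ≤ Real.log X := by
    rw [← Real.log_exp L]
    exact Real.log_le_log (Real.exp_pos _) hX1
  have h2 : 8 ≤ Real.log X := (le_max_right _ _).trans h1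
  have h3 : Real.exp (max D 1) ≤ Real.log X := (le_max_left _ _).trans h1
  have h4 : max D 1 ≤ LL X := by
    unfold LL
    rw [← Real.log_exp (max D 1)]
    exact Real.log_le_log (Real.exp_pos _) h3
  have hLD : D ≤ LL X := (le_max_left _ _).trans h4
  have hL1 : 1 ≤ LL X := (le_max_right _ _).trans h4
  have hL0 : 0 < LL X := by linarith
  have h5 : (q : ℝ) / (Nat.totient q : ℝ) ≤ LL X ^ 2 := by
    refine (KAP.ratio_le q hq).trans ?_
    calc Real.exp (∑ p ∈ q.primeFactors, 1 / (p : ℝ) + 1)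
        ≤ Real.exp (Real.log (LL X) + (C + 1)) := by
          apply Real.exp_le_exp.2
          have := hC X q hq hqX h2
          linarith
      _ = LL X * D := by rw [Real.exp_add, Real.exp_log hL0]
      _ ≤ LL X * LL X := mul_le_mul_of_nonneg_left hLD hL0.le
      _ = LL X ^ 2 := by ring
  have h6 : (0 : ℝ) ≤ (q : ℝ) / (Nat.totient q : ℝ) := by positivity
  unfold kap
  calc ((q : ℝ) / (Nat.totient q : ℝ)) ^ 2 ≤ (LL X ^ 2) ^ 2 := pow_le_pow_left₀ h6 h5 2
    _ = LL X ^ 4 := by ring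

end Pool.Agent.H183.GL
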