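import Pool.Agent.H183.GL.Stm

/-!
# S_KEY2: exclusion by the glued multiplier (by helper703)
-/

set_option autoImplicit false

namespace Pool.Agent.H183.GL

open Finset Pool.Agent.H183.MU

namespace KEY2

/-- Geometric sums. -/
theorem geom (n : ℕ) (hn : 2 ≤ n) (j : ℕ) : (∑ i ∈ range j, n ^ i) * (n - 1) = n ^ j - 1 := by
  have hd : n - 1 ∣ n ^ j - 1 := by
    have h := Nat.sub_dvd_pow_sub_pow n 1 j
    rwa [one_pow] at h
  rw [Nat.geomSum_eq hn j]
  exact Nat.div_mul_cancel hd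

theorem geom_succ (n j : ℕ) : ∑ i ∈ range (j + 1), n ^ i = n * (∑ i ∈ range j, n ^ i) + 1 := by
  rw [Finset.mul_sum, Finset.sum_range_succ', pow_zero]
  congr 1
  exact Finset.sum_congr rfl fun i _ => by rw [pow_succ, mul_comm]

theorem not_dvd_geom (n p j : ℕ) (hp : p.Prime) (hpn : p ∣ n) (hj : 1 ≤ j) :
    ¬ p ∣ ∑ i ∈ range j, n ^ i := by
  intro h
  obtain ⟨j', rfl⟩ : ∃ j', j = j' + 1 := ⟨j - 1, by omega⟩
  rw [geom_succ] at h
  have h5 := (Nat.dvd_add_right (hpn.mul_right (∑ i ∈ range j', n ^ i))).1 h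
  exact hp.one_lt.ne' (Nat.dvd_one.1 h5)

theorem pow_eq {G : Type} [CommGroup G] [Fintype G] (a b N : ℕ) (hN : Fintype.card G = N)
    (h : a ≡ b [MOD N]) (g : G) : g ^ a = g ^ b := by
  rw [pow_eq_pow_iff_modEq]
  refine h.of_dvd ?_
  rw [← hN]
  exact orderOf_dvd_card

end KEY2

/-- **S_KEY2** -/
theorem t_KEY2 (h1 : S_MULT2) (h2 : Pool.Agent.H183.MU.S_FIX) (h3 : S_SIZE) (h4 : S_GLUE) :
    S_KEY2 := by
  intro n m w v' l S hn hm hmev hw hl hlw hwv hwv' hlv hwn hS hprod h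
  obtain ⟨G, hG, hGf, hGd, D, hv, hk, hlam⟩ := h
  have hpos : 0 < n - 1 := by omega
  obtain ⟨r, hr⟩ := hmev
  have hr2 : 2 ≤ r := by omega
  obtain ⟨u, hu⟩ : ∃ u : ℕ, u = n ^ (r - 1) := ⟨_, rfl⟩
  have hu0 : 0 < u := by
    rw [hu]
    exact Nat.pos_of_ne_zero (pow_ne_zero _ (by omega))
  have hu2 : u ^ 2 = n ^ (m - 2) := by
    rw [hu, ← pow_mul]
    congr 1
    omega
  obtain ⟨lam, hlamdef⟩ : ∃ lam : ℕ, lam = ∑ i ∈ range (m - 2), n ^ i := ⟨_, rfl⟩
  have hlam' : lam * (n - 1) = n ^ (m - 2) - 1 := by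
    rw [hlamdef]
    exact KEY2.geom n hn (m - 2)
  have hDS : IsDS D D.card lam := ⟨rfl, fun g hg =>
    Nat.eq_of_mul_eq_mul_right hpos ((hlam g hg).trans hlam'.symm)⟩
  have hcard : Fintype.card G = ∑ i ∈ range m, n ^ i :=
    Nat.eq_of_mul_eq_mul_right hpos (hv.trans (KEY2.geom n hn m).symm)
  have hkcard : D.card = ∑ i ∈ range (m - 1), n ^ i :=
    Nat.eq_of_mul_eq_mul_right hpos (hk.trans (KEY2.geom n hn (m - 1)).symm)
  have hcardw : Fintype.card G = w * v' := hcard.trans hwv.symm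
  have hGk : Fintype.card G = n * D.card + 1 := by
    rw [hcard, hkcard, ← KEY2.geom_succ]
    congr 2
    omega
  have hklam : D.card = n * lam + 1 := by
    rw [hkcard, hlamdef, ← KEY2.geom_succ]
    congr 2
    omega
  have hku : D.card = lam + u ^ 2 := by
    rw [hkcard, hlamdef, hu2, ← Finset.sum_range_succ]
    congr 2
    omega
  have hlk : lam < D.card := by
    rw [hku]
    have : 0 < u ^ 2 := by positivity
    omega
  -- `lam` is small
  have hlt : lam < 2 * n ^ (m - 3) := by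
    have e : n ^ (m - 2) = n ^ (m - 3) * n := by
      rw [← pow_succ]
      congr 1
      omega
    have h5 : lam * (n - 1) < 2 * n ^ (m - 3) * (n - 1) := by
      have h6 : 1 ≤ n ^ (m - 2) := Nat.one_le_pow _ _ (by omega)
      have h7 : n ^ (m - 2) ≤ 2 * n ^ (m - 3) * (n - 1) := by
        rw [e, mul_comm 2, mul_assoc]
        exact Nat.mul_le_mul_left _ (by omega)
      omega
    exact lt_of_mul_lt_mul_right h5 (Nat.zero_le _)
  have hv0 : 0 < v' := by
    rcases Nat.eq_zero_or_pos v' with h0 | h0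
    · exfalso
      rw [h0, mul_zero] at hcardw
      exact Fintype.card_ne_zero hcardw
    · exact h0
  obtain ⟨t, ht1, htv, htw, htc, htp⟩ := h4 w v' l hw hl hlw hv0 hwv' hlv
  rw [← hcardw] at htc
  have hpS : ∀ p ∈ S, p.Prime ∧ ¬ p ∣ Fintype.card G ∧ ¬ p ∣ D.card ∧
      p ^ (n.factorization p * (m - 2)) ∣ D.card - lam ∧ ∃ j : ℕ, ∀ g : G, g ^ t = g ^ (p ^ j) := by
    intro p hp
    obtain ⟨hp1, hp2, hp3⟩ := hS p hp
    have hpG : ¬ p ∣ Fintype.card G := by
      rw [hcard]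
      exact KEY2.not_dvd_geom n p m hp1 hp2 (by omega)
    refine ⟨hp1, hpG, ?_, ?_, ?_⟩
    · rw [hkcard]
      exact KEY2.not_dvd_geom n p (m - 1) hp1 hp2 (by omega)
    · rw [hku, Nat.add_sub_cancel_left, hu2, pow_mul]
      exact pow_dvd_pow_of_dvd (Nat.ordProj_dvd n p) _
    · have hcop : Nat.Coprime p (w * v') := by
        rw [← hcardw]
        exact (Nat.Prime.coprime_iff_not_dvd hp1).2 hpG
      obtain ⟨j, hj⟩ := htp p hcop hp3
      exact ⟨j, fun g => KEY2.pow_eq t (p ^ j) (w * v') hcardw hj.symm g⟩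
  have hprod' : lam < ∏ p ∈ S, p ^ (n.factorization p * (m - 2)) := by
    refine lt_of_lt_of_le hlt (hprod.trans (le_of_eq ?_))
    rw [← Finset.prod_pow]
    exact Finset.prod_congr rfl fun p _ => (pow_mul _ _ _).symm
  have hmul := h1 G D D.card lam t S (fun p => n.factorization p * (m - 2)) hDS hlk htc hpS hprod'
  have hcop1 : Nat.Coprime D.card (Fintype.card G) := by
    rw [hGk]
    exact (Nat.coprime_mul_right_add_right D.card 1 n).2 (Nat.coprime_one_right _)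
  obtain ⟨D', hDS', hfix⟩ := h2 G D D.card lam t hDS ht1 hcop1 htc hmul
  have hsize := h3 G D' D.card lam w v' t u hDS' hcardw hw hwv' ht1 htv htw hfix hku
  -- the end
  have hul : u ≤ lam := by
    rw [hu, hlamdef]
    have h5 : n ^ (r - 1) ≤ n ^ (m - 3) := Nat.pow_le_pow_right (by omega) (by omega)
    have h6 : n ^ (m - 3) ≤ ∑ i ∈ range (m - 2), n ^ i :=
      Finset.single_le_sum (f := fun i => n ^ i) (fun _ _ => Nat.zero_le _)
        (Finset.mem_range.mpr (by omega))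
    exact h5.trans h6
  have h7 : lam * (w + 2) ≤ lam * n := Nat.mul_le_mul_left lam hwn
  rw [Nat.mul_add] at h7
  rw [hklam, Nat.mul_comm n lam] at hsize
  omega

end Pool.Agent.H183.GL
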