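import Pool.Agent.H183.GL.Stm

set_option autoImplicit false

/-!
Project GL of helper183: `S_KEY3` from `S_KEY2`.
-/

namespace Pool.Agent.H183.GL

open Finset Pool.Agent.H183.MU

namespace KEY3

/-- a prime factor of the totient -/
theorem prime_dvd_totient {l v : ℕ} (hl : l.Prime) (hv : v ≠ 0) (h : l ∣ Nat.totient v) :
    ∃ q : ℕ, q.Prime ∧ q ∣ v ∧ (l ∣ q - 1 ∨ q = l) := by
  rw [Nat.totient_eq_prod_factorization hv, Finsupp.prod] at h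
  obtain ⟨q, hq, hd⟩ := (hl.prime.dvd_finsetProd_iff _).1 h
  rw [Nat.support_factorization] at hq
  have hqp := Nat.prime_of_mem_primeFactors hq
  refine ⟨q, hqp, Nat.dvd_of_mem_primeFactors hq, ?_⟩
  rcases (Nat.Prime.dvd_mul hl).1 hd with h1 | h1
  · right
    exact ((Nat.prime_dvd_prime_iff_eq hl hqp).1 (hl.dvd_of_dvd_pow h1)).symm
  · left
    exact h1

theorem not_dvd_two {w n : ℕ} (hw3 : 3 < w) (hn : w ∣ n + 1) : ¬ w ∣ n ^ 2 + 1 := by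
  intro h
  have h1 : (w : ℤ) ∣ (n : ℤ) + 1 := by exact_mod_cast hn
  have h2 : (w : ℤ) ∣ (n : ℤ) ^ 2 + 1 := by exact_mod_cast h
  have h3 : (w : ℤ) ∣ 2 := by
    have h4 := dvd_sub h2 (h1.mul_right ((n : ℤ) - 1))
    have e : (n : ℤ) ^ 2 + 1 - ((n : ℤ) + 1) * ((n : ℤ) - 1) = 2 := by ring
    rwa [e] at h4
  have h5 := Int.le_of_dvd (by norm_num) h3
  omega

theorem not_dvd_three {w n : ℕ} (hw3 : 3 < w) (hn : w ∣ n + 1) : ¬ w ∣ n ^ 4 + n ^ 2 + 1 := by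
  intro h
  have h1 : (w : ℤ) ∣ (n : ℤ) + 1 := by exact_mod_cast hn
  have h2 : (w : ℤ) ∣ (n : ℤ) ^ 4 + (n : ℤ) ^ 2 + 1 := by exact_mod_cast h
  have h3 : (w : ℤ) ∣ 3 := by
    have h4 := dvd_sub h2 (h1.mul_right (((n : ℤ) - 1) * ((n : ℤ) ^ 2 + 2)))
    have e : (n : ℤ) ^ 4 + (n : ℤ) ^ 2 + 1 - ((n : ℤ) + 1) * (((n : ℤ) - 1) * ((n : ℤ) ^ 2 + 2)) =
        3 := by ring
    rwa [e] at h4
  have h5 := Int.le_of_dvd (by norm_num) h3
  omega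

/-- the common part of both cases -/
theorem core (hK : S_KEY2) (n m w l Q : ℕ) (S : Finset ℕ) (hn2 : 2 ≤ n) (hm : 4 ≤ m)
    (hme : Even m) (hw : w.Prime) (hl : l.Prime) (hlw : l ∣ w - 1) (hwn : w + 2 ≤ n)
    (hw1 : w ∣ n + 1) (hw2 : ¬ w ^ 2 ∣ n + 1) (hQ : ¬ w ∣ Q)
    (hsum : (n + 1) * Q = ∑ i ∈ range m, n ^ i)
    (hS : ∀ p ∈ S, p.Prime ∧ p ∣ n ∧ ¬ HH w l p)
    (hP : 2 * n ^ (m - 3) ≤ (∏ p ∈ S, p ^ n.factorization p) ^ (m - 2))
    (hq1 : ∀ q : ℕ, q.Prime → q ≠ w → q ∣ n + 1 → ¬ (l ∣ q - 1 ∨ q = l))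
    (hq2 : ∀ q : ℕ, q.Prime → q ∣ Q → ¬ (l ∣ q - 1 ∨ q = l)) : ¬ HasAb n m := by
  obtain ⟨c, hc⟩ := hw1
  have hwc : ¬ w ∣ c := by
    rintro ⟨d, hd⟩
    exact hw2 ⟨d, by rw [hc, hd]; ring⟩
  have hwv : ¬ w ∣ c * Q := by
    intro h
    rcases (Nat.Prime.dvd_mul hw).1 h with h1 | h1
    · exact hwc h1
    · exact hQ h1
  have hv0 : c * Q ≠ 0 := by
    intro h
    exact hwv (h ▸ dvd_zero w)
  refine hK n m w (c * Q) l S hn2 hm hme hw hl hlw ?_ hwv ?_ hwn hS hP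
  · rw [← hsum, hc]
    ring
  · intro h
    obtain ⟨q, hqp, hqv, hql⟩ := prime_dvd_totient hl hv0 h
    rcases (Nat.Prime.dvd_mul hqp).1 hqv with h1 | h1
    · refine hq1 q hqp ?_ ?_ hql
      · rintro rfl
        exact hwc h1
      · rw [hc]
        exact h1.mul_left w
    · exact hq2 q hqp h1 hql

end KEY3

theorem t_KEY3 (h : S_KEY2) : S_KEY3 := by
  intro n m w l y hm hw hl hlw hw3 hwn hw1 hw2 hp hP hq hf
  have hn2 : 2 ≤ n := by omega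
  have hS : ∀ p ∈ n.primeFactors.filter (fun p : ℕ => y < p), p.Prime ∧ p ∣ n ∧ ¬ HH w l p := by
    intro p hp1
    rw [mem_filter] at hp1
    have h1 := Nat.prime_of_mem_primeFactors hp1.1
    have h2 := Nat.dvd_of_mem_primeFactors hp1.1
    exact ⟨h1, h2, hp p h1 h2 hp1.2⟩
  rcases hm with rfl | rfl
  · refine KEY3.core h n 4 w l (n ^ 2 + 1) _ hn2 le_rfl ⟨2, rfl⟩ hw hl hlw hwn hw1 hw2
      (KEY3.not_dvd_two hw3 hw1) ?_ hS ?_ hq ?_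
    · simp only [sum_range_succ, range_zero, sum_empty]
      ring
    · have e1 : (4 : ℕ) - 3 = 1 := rfl
      have e2 : (4 : ℕ) - 2 = 2 := rfl
      rw [e1, e2, pow_one]
      generalize (∏ p ∈ n.primeFactors.filter (fun p : ℕ => y < p), p ^ n.factorization p) = P at hP
      by_contra hcon
      push Not at hcon
      have h1 : (P ^ 2) ^ 2 < (2 * n) ^ 2 := Nat.pow_lt_pow_left hcon two_ne_zero
      have h2 : (2 * n) ^ 2 ≤ 2 * n ^ 3 := by nlinarith [sq_nonneg n]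
      have h3 : (P ^ 2) ^ 2 = P ^ 4 := by ring
      omega
    · intro q hqp hqd
      refine hf 0 (Or.inl rfl) q hqp ?_
      have h1 : (q : ℤ) ∣ (n : ℤ) ^ 2 + 1 := by exact_mod_cast hqd
      have e : fa 0 n = (n : ℤ) ^ 2 + 1 := by
        unfold fa
        ring
      rw [e]
      exact h1
  · refine KEY3.core h n 6 w l (n ^ 4 + n ^ 2 + 1) _ hn2 (by norm_num) ⟨3, rfl⟩ hw hl hlw hwn hw1
      hw2 (KEY3.not_dvd_three hw3 hw1) ?_ hS hP hq ?_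
    · simp only [sum_range_succ, range_zero, sum_empty]
      ring
    · intro q hqp hqd
      have h1 : (q : ℤ) ∣ (n : ℤ) ^ 4 + (n : ℤ) ^ 2 + 1 := by exact_mod_cast hqd
      have e : fa 1 n * fa (-1) n = (n : ℤ) ^ 4 + (n : ℤ) ^ 2 + 1 := by
        unfold fa
        ring
      rw [← e] at h1
      have hqi : Prime (q : ℤ) := Nat.prime_iff_prime_int.1 hqp
      rcases hqi.dvd_or_dvd h1 with h2 | h2
      · exact hf 1 (Or.inr (Or.inl rfl)) q hqp h2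
      · exact hf (-1) (Or.inr (Or.inr rfl)) q hqp h2

end Pool.Agent.H183.GL
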