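import Pool.Agent.H183.GL.Stm

set_option autoImplicit false

namespace Pool.Agent.H183.GL

open Finset Pool.Agent.H183.MU

namespace LIFT2

theorem tau_congr (G : Type) [CommGroup G] (s t : ℕ) (h : ∀ g : G, g ^ s = g ^ t) :
    tau G s = tau G t := by
  unfold tau
  have : (powMonoidHom s : G →* G) = powMonoidHom t := by
    ext g
    simpa using h g
  rw [this]

theorem tau_one (G : Type) [CommGroup G] (x : MonoidAlgebra ℤ G) : tau G 1 x = x := by
  unfold tau
  have : (powMonoidHom 1 : G →* G) = MonoidHom.id G := by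
    ext g
    simp
  rw [this]
  have h2 := MonoidAlgebra.mapDomainRingHom_id (R := ℤ) (M := G)
  rw [h2]
  rfl

theorem tau_mul (G : Type) [CommGroup G] (s t : ℕ) (x : MonoidAlgebra ℤ G) :
    tau G (s * t) x = tau G t (tau G s x) := by
  unfold tau
  have : (powMonoidHom (s * t) : G →* G) = (powMonoidHom t : G →* G).comp (powMonoidHom s) := by
    ext g
    simp [pow_mul]
  rw [this]
  have h2 := MonoidAlgebra.mapDomainRingHom_comp (R := ℤ) (powMonoidHom t : G →* G) (powMonoidHom s : G →* G)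
  rw [h2]
  rfl

theorem main (h : S_LIFT) (G : Type) [CommGroup G] [Fintype G] (p : ℕ) (hp : p.Prime)
    (hG : ¬ p ∣ Fintype.card G) (e j : ℕ) (x : MonoidAlgebra ℤ G) :
    ∃ r : MonoidAlgebra ℤ G, (p : MonoidAlgebra ℤ G) ^ e ∣ tau G (p ^ j) x - x * r := by
  induction j with
  | zero =>
    refine ⟨1, ?_⟩
    rw [pow_zero, tau_one, mul_one, sub_self]
    exact dvd_zero _
  | succ j ih =>
    obtain ⟨r, s, hs⟩ := ih
    obtain ⟨r', s', hs'⟩ := h G p hp hG e x
    refine ⟨r' * tau G p r, tau G p s + s' * tau G p r, ?_⟩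
    rw [pow_succ, tau_mul]
    have h1 : tau G (p ^ j) x = x * r + (p : MonoidAlgebra ℤ G) ^ e * s := by
      rw [← hs]; ring
    have h2 : tau G p x = x * r' + (p : MonoidAlgebra ℤ G) ^ e * s' := by
      rw [← hs']; ring
    rw [h1, map_add, map_mul, map_mul, map_pow, map_natCast, h2]
    ring

end LIFT2

theorem t_LIFT2 (h : Pool.Agent.H183.MU.S_LIFT) : S_LIFT2 := by
  intro G _ _ p t j hp hG ht e x
  rw [LIFT2.tau_congr G t (p ^ j) ht]
  exact LIFT2.main h G p hp hG e j x

end Pool.Agent.H183.GL
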