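import Pool.Agent.H183.GL.Stm

set_option autoImplicit false

/-! Dyadic summation. -/

namespace Pool.Agent.H183.GL

open Finset Pool.Agent.H183.MU

namespace LOGS

theorem log_two_lb : (1 : ℝ) / 2 ≤ Real.log 2 := by
  have := Real.log_two_gt_d9
  linarith

/-- the coefficient of the dyadic block `i` -/
noncomputable def aa (i : ℕ) : ℝ := 2 ^ (i + 1) / Real.log (1 + 2 ^ i)

theorem log_pos' (i : ℕ) : 0 < Real.log (1 + 2 ^ i) := by
  apply Real.log_pos
  have : (0 : ℝ) < 2 ^ i := by positivity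
  linarith

theorem aa_nonneg (i : ℕ) : 0 ≤ aa i := div_nonneg (by positivity) (log_pos' i).le

theorem BB_le {x : ℝ} {i : ℕ} (h1 : (2 : ℝ) ^ i ≤ x) (h2 : x ≤ 2 ^ (i + 1)) : BB x ≤ aa i := by
  unfold BB aa
  have h3 := log_pos' i
  have h4 : Real.log (1 + 2 ^ i) ≤ Real.log (1 + x) :=
    Real.log_le_log (by positivity) (by linarith)
  exact div_le_div₀ (by positivity) h2 h3 h4

theorem inv_log (i : ℕ) : 1 / Real.log (1 + 2 ^ (i + 1)) ≤ 2 / ((i : ℝ) + 1) := by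
  have h1 : ((i : ℝ) + 1) * Real.log 2 ≤ Real.log (1 + 2 ^ (i + 1)) := by
    have e : ((i : ℝ) + 1) * Real.log 2 = Real.log (2 ^ (i + 1)) := by
      rw [Real.log_pow]
      push_cast
      ring
    rw [e]
    apply Real.log_le_log (by positivity)
    linarith
  have h2 := log_two_lb
  have hi : (0 : ℝ) ≤ i := Nat.cast_nonneg i
  rw [div_le_div_iff₀ (log_pos' (i + 1)) (by positivity)]
  nlinarith

theorem sum_inv_log (N : ℕ) : ∑ i ∈ range (N + 1), 1 / Real.log (1 + 2 ^ i) ≤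
    2 + 2 * (1 + Real.log N) := by
  rw [sum_range_succ']
  have h0 : 1 / Real.log (1 + 2 ^ 0) ≤ 2 := by
    have e : (1 : ℝ) + 2 ^ 0 = 2 := by norm_num
    rw [e, div_le_iff₀ (Real.log_pos (by norm_num))]
    have := log_two_lb
    linarith
  have h1 : ∑ i ∈ range N, 1 / Real.log (1 + 2 ^ (i + 1)) ≤ 2 * (harmonic N : ℝ) := by
    rw [harmonic, Rat.cast_sum, mul_sum]
    apply sum_le_sum
    intro i _
    refine (inv_log i).trans (le_of_eq ?_)
    push_cast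
    rw [div_eq_mul_inv]
  have h2 : (harmonic N : ℝ) ≤ 1 + Real.log N := harmonic_le_one_add_log N
  linarith

end LOGS

open LOGS in
theorem t_LOGS : S_LOGS := by
  refine ⟨16, by norm_num, ?_⟩
  intro ρ C hρ hsum Y hY
  have hC : 0 ≤ C := by
    have h1 := hsum 1 le_rfl
    rw [Icc_self, sum_singleton, Nat.cast_one, mul_one] at h1
    exact (hρ 1).trans h1
  have hY0 : 0 < Y := by linarith
  obtain ⟨N, hN⟩ : ∃ N : ℕ, N = Nat.log 2 ⌊Y⌋₊ := ⟨_, rfl⟩
  have hfl16 : 16 ≤ ⌊Y⌋₊ := Nat.le_floor (by exact_mod_cast hY)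
  have hfl0 : ⌊Y⌋₊ ≠ 0 := by omega
  have h2N : (2 : ℝ) ^ N ≤ Y := by
    have h1 : 2 ^ N ≤ ⌊Y⌋₊ := by
      rw [hN]
      exact Nat.pow_log_le_self 2 hfl0
    have h2 : ((2 ^ N : ℕ) : ℝ) ≤ Y := (Nat.le_floor_iff hY0.le).1 h1
    exact_mod_cast h2
  have hN1 : 1 ≤ N := by
    rw [hN]
    exact Nat.log_pos (by norm_num) (by omega)
  -- pointwise bound
  have hpt : ∀ c ∈ Icc 1 ⌊Y⌋₊, BB (Y / c) ≤
      ∑ i ∈ range (N + 1), if (c : ℝ) ≤ Y / 2 ^ i then aa i else 0 := by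
    intro c hc
    rw [mem_Icc] at hc
    have hc0 : (0 : ℝ) < c := by exact_mod_cast hc.1
    have hcY : (c : ℝ) ≤ Y := (Nat.le_floor_iff hY0.le).1 hc.2
    have hYc : 1 ≤ Y / c := by rwa [le_div_iff₀ hc0, one_mul]
    have hflc : ⌊Y / c⌋₊ ≠ 0 := by
      have : 1 ≤ ⌊Y / c⌋₊ := Nat.le_floor (by exact_mod_cast hYc)
      omega
    obtain ⟨i, hi⟩ : ∃ i : ℕ, i = Nat.log 2 ⌊Y / c⌋₊ := ⟨_, rfl⟩
    have h1 : (2 : ℝ) ^ i ≤ Y / c := by
      have h1 : 2 ^ i ≤ ⌊Y / c⌋₊ := by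
        rw [hi]
        exact Nat.pow_log_le_self 2 hflc
      have h2 : ((2 ^ i : ℕ) : ℝ) ≤ Y / c := (Nat.le_floor_iff (by positivity)).1 h1
      exact_mod_cast h2
    have h2 : Y / c ≤ 2 ^ (i + 1) := by
      have h1 : ⌊Y / c⌋₊ < 2 ^ (i + 1) := by
        rw [hi]
        exact Nat.lt_pow_succ_log_self (by norm_num) _
      have h2 : Y / c < ⌊Y / c⌋₊ + 1 := Nat.lt_floor_add_one _
      have h3 : ((⌊Y / c⌋₊ : ℕ) : ℝ) + 1 ≤ 2 ^ (i + 1) := by exact_mod_cast h1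
      linarith
    have hiN : i ≤ N := by
      rw [hi, hN]
      apply Nat.log_mono_right
      apply Nat.floor_le_floor
      rw [div_le_iff₀ hc0]
      have : (1 : ℝ) ≤ c := by exact_mod_cast hc.1
      nlinarith
    have h3 : (c : ℝ) ≤ Y / 2 ^ i := by
      rw [le_div_iff₀ (by positivity)]
      rw [le_div_iff₀ hc0] at h1
      linarith
    refine (BB_le h1 h2).trans ?_
    have h4 := single_le_sum (f := fun i : ℕ => if (c : ℝ) ≤ Y / 2 ^ i then aa i else 0)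
      (s := range (N + 1)) (fun j _ => by
        show (0 : ℝ) ≤ if (c : ℝ) ≤ Y / 2 ^ j then aa j else 0
        split_ifs
        · exact aa_nonneg j
        · exact le_rfl) (mem_range.2 (Nat.lt_succ_of_le hiN))
    rwa [if_pos h3] at h4
  -- block sums
  have hblock : ∀ i : ℕ, i ≤ N → ∑ c ∈ Icc 1 ⌊Y⌋₊, (if (c : ℝ) ≤ Y / 2 ^ i then ρ c else 0) ≤
      C * (Y / 2 ^ i) := by
    intro i hi
    have h2i : (2 : ℝ) ^ i ≤ Y :=
      (pow_le_pow_right₀ (by norm_num : (1 : ℝ) ≤ 2) hi).trans h2N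
    have hge1 : 1 ≤ Y / 2 ^ i := by rwa [le_div_iff₀ (by positivity), one_mul]
    have hpos : 0 ≤ Y / 2 ^ i := by positivity
    rw [← sum_filter]
    have hset : (Icc 1 ⌊Y⌋₊).filter (fun c : ℕ => (c : ℝ) ≤ Y / 2 ^ i) = Icc 1 ⌊Y / 2 ^ i⌋₊ := by
      ext c
      rw [mem_filter, mem_Icc, mem_Icc]
      constructor
      · rintro ⟨⟨h1, _⟩, h3⟩
        exact ⟨h1, Nat.le_floor h3⟩
      · rintro ⟨h1, h2⟩
        have h3 : (c : ℝ) ≤ Y / 2 ^ i := (Nat.le_floor_iff hpos).1 h2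
        refine ⟨⟨h1, ?_⟩, h3⟩
        apply Nat.le_floor
        refine h3.trans (div_le_self hY0.le ?_)
        exact one_le_pow₀ (by norm_num)
    rw [hset]
    have h1 : 1 ≤ ⌊Y / 2 ^ i⌋₊ := Nat.le_floor (by exact_mod_cast hge1)
    refine (hsum _ h1).trans (mul_le_mul_of_nonneg_left (Nat.floor_le hpos) hC)
  have hmain : ∑ c ∈ Icc 1 ⌊Y⌋₊, ρ c * BB (Y / c) ≤
      2 * C * Y * ∑ i ∈ range (N + 1), 1 / Real.log (1 + 2 ^ i) := by
    calc ∑ c ∈ Icc 1 ⌊Y⌋₊, ρ c * BB (Y / c)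
        ≤ ∑ c ∈ Icc 1 ⌊Y⌋₊, ρ c *
            ∑ i ∈ range (N + 1), (if (c : ℝ) ≤ Y / 2 ^ i then aa i else 0) :=
          sum_le_sum fun c hc => mul_le_mul_of_nonneg_left (hpt c hc) (hρ c)
      _ = ∑ i ∈ range (N + 1), aa i *
            ∑ c ∈ Icc 1 ⌊Y⌋₊, (if (c : ℝ) ≤ Y / 2 ^ i then ρ c else 0) := by
          simp only [mul_sum]
          rw [sum_comm]
          refine sum_congr rfl fun i _ => sum_congr rfl fun c _ => ?_
          split_ifs
          · ring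
          · ring
      _ ≤ ∑ i ∈ range (N + 1), aa i * (C * (Y / 2 ^ i)) :=
          sum_le_sum fun i hi => mul_le_mul_of_nonneg_left
            (hblock i (Nat.lt_succ_iff.1 (mem_range.1 hi))) (aa_nonneg i)
      _ = 2 * C * Y * ∑ i ∈ range (N + 1), 1 / Real.log (1 + 2 ^ i) := by
          rw [mul_sum]
          refine sum_congr rfl fun i _ => ?_
          unfold aa
          have h1 := (log_pos' i).ne'
          rw [pow_succ]
          field_simp
  have hlogY : Real.exp 1 ≤ Real.log Y := by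
    have h1 : Real.log 16 ≤ Real.log Y := Real.log_le_log (by norm_num) hY
    have h2 : Real.log 16 = 4 * Real.log 2 := by
      have : (16 : ℝ) = 2 ^ 4 := by norm_num
      rw [this, Real.log_pow]
      push_cast
      ring
    have h3 := Real.log_two_gt_d9
    have h4 := Real.exp_one_lt_d9
    linarith
  have hlogY0 : 0 < Real.log Y := (Real.exp_pos 1).trans_le hlogY
  have hLL : 1 ≤ Real.log (Real.log Y) := by
    rw [Real.le_log_iff_exp_le hlogY0]
    exact hlogY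
  have hNle : (N : ℝ) ≤ 2 * Real.log Y := by
    have h1 : (N : ℝ) * Real.log 2 ≤ Real.log Y := by
      rw [← Real.log_pow]
      exact Real.log_le_log (by positivity) h2N
    have h2 := log_two_lb
    have h3 : (0 : ℝ) ≤ N := Nat.cast_nonneg N
    nlinarith
  have hlogN : Real.log N ≤ 7 / 10 + Real.log (Real.log Y) := by
    have h1 : Real.log N ≤ Real.log (2 * Real.log Y) :=
      Real.log_le_log (by exact_mod_cast hN1) hNle
    rw [Real.log_mul (by norm_num) hlogY0.ne'] at h1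
    have h2 := Real.log_two_lt_d9
    linarith
  have hfin : ∑ i ∈ range (N + 1), 1 / Real.log (1 + 2 ^ i) ≤ 8 * Real.log (Real.log Y) := by
    have h1 := sum_inv_log N
    linarith
  have hCY : 0 ≤ 2 * C * Y := by positivity
  calc ∑ c ∈ Icc 1 ⌊Y⌋₊, ρ c * BB (Y / c) ≤
      2 * C * Y * ∑ i ∈ range (N + 1), 1 / Real.log (1 + 2 ^ i) := hmain
    _ ≤ 2 * C * Y * (8 * Real.log (Real.log Y)) := mul_le_mul_of_nonneg_left hfin hCY
    _ = 16 * C * Y * Real.log (Real.log Y) := by ring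

end Pool.Agent.H183.GL
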