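import Pool.Agent.H183.GL.Stm

/-! Project GL (helper183): S_NOW (helper675). -/

set_option autoImplicit false

namespace Pool.Agent.H183.GL

open Finset Pool.Agent.H183.MU

namespace NOW

theorem tot (W : Finset ℕ) (hW : ∀ w ∈ W, w.Prime) (A : ℝ) (hA : A ≤ ∑ w ∈ W, (1 : ℝ) / w) :
    ((Nat.totient (∏ w ∈ W, w) : ℕ) : ℝ) ≤ ((∏ w ∈ W, w : ℕ) : ℝ) * Real.exp (-A) := by
  have h1 := Nat.totient_eq_mul_prod_factors (∏ w ∈ W, w)
  rw [Nat.primeFactors_prod hW] at h1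
  have h2 : ((Nat.totient (∏ w ∈ W, w) : ℕ) : ℝ) =
      ((∏ w ∈ W, w : ℕ) : ℝ) * ∏ w ∈ W, (1 - (w : ℝ)⁻¹) := by
    have h3 := congrArg (fun x : ℚ => (x : ℝ)) h1
    push_cast at h3 ⊢
    exact h3
  rw [h2]
  refine mul_le_mul_of_nonneg_left ?_ (Nat.cast_nonneg _)
  calc ∏ w ∈ W, (1 - (w : ℝ)⁻¹) ≤ ∏ w ∈ W, Real.exp (-((1 : ℝ) / w)) := by
        refine prod_le_prod ?_ ?_
        · intro w hw
          have : (1 : ℝ) ≤ w := by exact_mod_cast (hW w hw).one_lt.le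
          have := inv_le_one_of_one_le₀ this
          linarith
        · intro w hw
          have := Real.add_one_le_exp (-((1 : ℝ) / w))
          rw [one_div] at this ⊢
          linarith
    _ = Real.exp (-∑ w ∈ W, (1 : ℝ) / w) := by
        rw [← Real.exp_sum, sum_neg_distrib]
    _ ≤ Real.exp (-A) := Real.exp_le_exp.2 (by linarith)

theorem bnd (W : Finset ℕ) (hne : W.Nonempty) (hW : ∀ w ∈ W, w.Prime) (Λ : ℝ)
    (h4 : ∀ w ∈ W, (w : ℝ) ^ 4 ≤ Λ) : ((∏ w ∈ W, w : ℕ) : ℝ) ≤ Real.exp (Λ / 2) := by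
  obtain ⟨z, hz, hmax⟩ := W.exists_max_image id hne
  have h1 : ∏ w ∈ W, w ∣ primorial z := by
    unfold primorial
    refine prod_dvd_prod_of_subset _ _ _ ?_
    intro w hw
    rw [mem_filter, mem_range]
    exact ⟨Nat.lt_succ_of_le (hmax w hw), hW w hw⟩
  have h2 : ∏ w ∈ W, w ≤ 4 ^ z :=
    (Nat.le_of_dvd (primorial_pos z) h1).trans (primorial_le_four_pow z)
  have h3 : ((∏ w ∈ W, w : ℕ) : ℝ) ≤ (4 : ℝ) ^ z := by exact_mod_cast h2
  refine h3.trans ?_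
  have h5 : (4 : ℝ) ≤ Real.exp 2 := by
    have := Real.add_one_le_exp (1 : ℝ)
    have h6 : Real.exp 2 = Real.exp 1 * Real.exp 1 := by
      rw [← Real.exp_add]
      norm_num
    rw [h6]
    nlinarith
  have h7 : (4 : ℝ) ^ z ≤ Real.exp (2 * z) := by
    calc (4 : ℝ) ^ z ≤ (Real.exp 2) ^ z := pow_le_pow_left₀ (by norm_num) h5 z
      _ = Real.exp (2 * z) := by rw [← Real.exp_nat_mul]; ring_nf
  refine h7.trans (Real.exp_le_exp.2 ?_)
  have h8 := h4 z hz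
  have hz2 : (2 : ℝ) ≤ z := by exact_mod_cast (hW z hz).two_le
  have h9 : 8 * (z : ℝ) ≤ (z : ℝ) ^ 4 := by
    have : (2 : ℝ) ^ 3 ≤ (z : ℝ) ^ 3 := pow_le_pow_left₀ (by norm_num) hz2 3
    nlinarith
  linarith

end NOW

theorem t_NOW : S_NOW := by
  intro A hA
  have hlog : Filter.Tendsto (fun X : ℕ => Real.log X) Filter.atTop Filter.atTop :=
    Real.tendsto_log_atTop.comp tendsto_natCast_atTop_atTop
  obtain ⟨X₀, hX₀⟩ := Filter.eventually_atTop.1 (hlog.eventually_ge_atTop (8 + 2 * A))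
  refine ⟨max X₀ 1, ?_⟩
  intro X hX W hW hsum
  have hX1 : 1 ≤ X := (le_max_right _ _).trans hX
  have hL := hX₀ X ((le_max_left _ _).trans hX)
  have hXr : (0 : ℝ) < X := by exact_mod_cast hX1
  have hne : W.Nonempty := by
    rw [nonempty_iff_ne_empty]
    rintro rfl
    simp only [sum_empty] at hsum
    linarith
  have hpr : ∀ w ∈ W, w.Prime := fun w hw => (hW w hw).1
  have hM := NOW.bnd W hne hpr (Real.log X) (fun w hw => (hW w hw).2)
  have ht := NOW.tot W hpr A hsum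
  set M : ℕ := ∏ w ∈ W, w with hMd
  have hM0 : 0 < M := prod_pos fun w hw => (hpr w hw).pos
  have hM0r : (0 : ℝ) < M := by exact_mod_cast hM0
  classical
  have hsub : {n : ℕ | 1 ≤ n ∧ n ≤ X ∧ ∀ w ∈ W, ¬ w ∣ n + 1} ⊆
      (fun m => m - 1) '' (((Ico 2 (2 + X)).filter (fun x => M.Coprime x) : Finset ℕ) : Set ℕ) := by
    rintro n ⟨h1, h2, h3⟩
    refine ⟨n + 1, ?_, by simp⟩
    rw [mem_coe, mem_filter, mem_Ico]
    refine ⟨⟨by omega, by omega⟩, ?_⟩
    rw [hMd]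
    refine Nat.Coprime.prod_left fun w hw => ?_
    exact (Nat.Prime.coprime_iff_not_dvd (hpr w hw)).2 (h3 w hw)
  have hc1 := Set.ncard_le_ncard hsub (Set.Finite.image _ (finite_toSet _))
  have hc2 := Set.ncard_image_le (f := fun m : ℕ => m - 1)
    (s := (((Ico 2 (2 + X)).filter (fun x => M.Coprime x) : Finset ℕ) : Set ℕ)) (finite_toSet _)
  rw [Set.ncard_coe_finset] at hc2
  have hc3 := Nat.Ico_filter_coprime_le (a := M) 2 X hM0.ne'
  have hc4 : (({n : ℕ | 1 ≤ n ∧ n ≤ X ∧ ∀ w ∈ W, ¬ w ∣ n + 1}.ncard : ℕ) : ℝ) ≤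
      ((Nat.totient M * (X / M + 1) : ℕ) : ℝ) := by
    exact_mod_cast (hc1.trans hc2).trans hc3
  refine hc4.trans ?_
  have h4 : ((X / M : ℕ) : ℝ) ≤ (X : ℝ) / M := Nat.cast_div_le
  have hE : 0 < Real.exp (-A) := Real.exp_pos _
  have hexp : Real.exp (Real.log X / 2) ≤ X := by
    have h5 : Real.exp (Real.log X / 2) ≤ Real.exp (Real.log X) :=
      Real.exp_le_exp.2 (by linarith)
    rwa [Real.exp_log hXr] at h5
  calc ((Nat.totient M * (X / M + 1) : ℕ) : ℝ)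
      = ((Nat.totient M : ℕ) : ℝ) * (((X / M : ℕ) : ℝ) + 1) := by push_cast; ring
    _ ≤ ((M : ℝ) * Real.exp (-A)) * ((X : ℝ) / M + 1) :=
        mul_le_mul ht (by linarith) (by positivity) (by positivity)
    _ = Real.exp (-A) * X + Real.exp (-A) * M := by
        field_simp
    _ ≤ Real.exp (-A) * X + Real.exp (-A) * X := by
        have : (M : ℝ) ≤ X := hM.trans hexp
        nlinarith
    _ = 2 * Real.exp (-A) * X := by ring

end Pool.Agent.H183.GL
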