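import Pool.Agent.H183.GL.Stm

/-!
# The number of roots of `n^2 + a n + 1` modulo `c` is at most `∑_{d ∣ c} χ(d)`
-/

set_option autoImplicit false

namespace Pool.Agent.H183.GL

open Finset

namespace RHO1

open ArithmeticFunction in
theorem coe_mul_zeta_apply' (f : ArithmeticFunction ℤ) (n : ℕ) :
    (f * (zeta : ArithmeticFunction ℤ)) n = ∑ d ∈ n.divisors, f d := by
  exact coe_mul_zeta_apply

theorem chi_zero (K : ℕ) (hK : K = 3 ∨ K = 4) : chi K 0 = 0 := by
  rcases hK with rfl | rfl <;> simp [chi]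

theorem chi_one (K : ℕ) (hK : K = 3 ∨ K = 4) : chi K 1 = 1 := by
  rcases hK with rfl | rfl <;> simp [chi]

theorem chi_mul (K : ℕ) (hK : K = 3 ∨ K = 4) (m n : ℕ) :
    chi K (m * n) = chi K m * chi K n := by
  rcases hK with rfl | rfl
  · have hm : m % 3 < 3 := Nat.mod_lt _ (by norm_num)
    have hn : n % 3 < 3 := Nat.mod_lt _ (by norm_num)
    unfold chi
    rw [Nat.mul_mod]
    generalize m % 3 = x at *
    generalize n % 3 = y at *
    interval_cases x <;> interval_cases y <;> rfl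
  · have hm : m % 4 < 4 := Nat.mod_lt _ (by norm_num)
    have hn : n % 4 < 4 := Nat.mod_lt _ (by norm_num)
    unfold chi
    rw [Nat.mul_mod]
    generalize m % 4 = x at *
    generalize n % 4 = y at *
    interval_cases x <;> interval_cases y <;> rfl

/-- `chi K` as an arithmetic function. -/
def chiA (K : ℕ) (hK : K = 3 ∨ K = 4) : ArithmeticFunction ℤ := ⟨fun n => chi K n, chi_zero K hK⟩

theorem chiA_mult (K : ℕ) (hK : K = 3 ∨ K = 4) : (chiA K hK).IsMultiplicative :=
  ⟨chi_one K hK, fun {m n} _ => chi_mul K hK m n⟩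

theorem rr_mul (K : ℕ) (hK : K = 3 ∨ K = 4) (m n : ℕ) (h : Nat.Coprime m n) :
    rr K (m * n) = rr K m * rr K n := by
  have h1 := ((chiA_mult K hK).mul
    (ArithmeticFunction.isMultiplicative_zeta.natCast (R := ℤ))).map_mul_of_coprime h
  rw [coe_mul_zeta_apply', coe_mul_zeta_apply', coe_mul_zeta_apply'] at h1
  exact h1

theorem chi_pow (K : ℕ) (hK : K = 3 ∨ K = 4) (p j : ℕ) : chi K (p ^ j) = chi K p ^ j := by
  induction j with
  | zero => rw [pow_zero, pow_zero, chi_one K hK]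
  | succ j ih => rw [pow_succ, chi_mul K hK, ih, pow_succ]

theorem rr_pow (K : ℕ) (hK : K = 3 ∨ K = 4) (p k : ℕ) (hp : p.Prime) :
    rr K (p ^ k) = ∑ j ∈ range (k + 1), chi K p ^ j := by
  unfold rr
  rw [Nat.divisors_prime_pow hp, Finset.sum_map]
  refine Finset.sum_congr rfl (fun j _ => ?_)
  exact chi_pow K hK p j

theorem fa_dvd (a : ℤ) (m : ℕ) (x y : ℤ) (h : (m : ℤ) ∣ x - y) (hx : (m : ℤ) ∣ fa a x) :
    (m : ℤ) ∣ fa a y := by
  have h1 : fa a y = fa a x - (x - y) * (x + y + a) := by unfold fa; ring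
  rw [h1]
  exact dvd_sub hx (Dvd.dvd.mul_right h _)

theorem rho_mul (a : ℤ) (m n : ℕ) (hm : 0 < m) (hn : 0 < n) (h : Nat.Coprime m n) :
    rho a (m * n) ≤ rho a m * rho a n := by
  unfold rho
  rw [← Finset.card_product]
  refine Finset.card_le_card_of_injOn (fun ν => (ν % m, ν % n)) ?_ ?_
  · intro ν hν
    have hν' := Finset.mem_filter.1 (Finset.mem_coe.1 hν)
    refine Finset.mem_coe.2 (Finset.mem_product.2 ⟨?_, ?_⟩)
    · refine Finset.mem_filter.2 ⟨Finset.mem_range.2 (Nat.mod_lt _ hm), ?_⟩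
      refine fa_dvd a m (ν : ℤ) _ ?_ ?_
      · push_cast
        exact Int.dvd_self_sub_emod
      · refine dvd_trans ?_ hν'.2
        push_cast
        exact Dvd.intro _ rfl
    · refine Finset.mem_filter.2 ⟨Finset.mem_range.2 (Nat.mod_lt _ hn), ?_⟩
      refine fa_dvd a n (ν : ℤ) _ ?_ ?_
      · push_cast
        exact Int.dvd_self_sub_emod
      · refine dvd_trans ?_ hν'.2
        push_cast
        exact Dvd.intro_left _ rfl
  · intro x hx y hy hxy
    have hx' := Finset.mem_range.1 (Finset.mem_filter.1 (Finset.mem_coe.1 hx)).1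
    have hy' := Finset.mem_range.1 (Finset.mem_filter.1 (Finset.mem_coe.1 hy)).1
    have h1 : x % m = y % m := (Prod.mk.inj hxy).1
    have h2 : x % n = y % n := (Prod.mk.inj hxy).2
    have h3 : x ≡ y [MOD m * n] := (Nat.modEq_and_modEq_iff_modEq_mul h).1 ⟨h1, h2⟩
    exact Nat.ModEq.eq_of_lt_of_lt h3 hx' hy'

theorem four_fa (a x : ℤ) : 4 * fa a x = (2 * x + a) ^ 2 - (a ^ 2 - 4) := by
  unfold fa; ring

/-- At most two roots modulo a power of a prime which does not divide `a^2 - 4`. -/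
theorem rho_two (a : ℤ) (p k : ℕ) (hp : p.Prime) (hD : ¬ (p : ℤ) ∣ a ^ 2 - 4) (hk : 0 < k) :
    rho a (p ^ k) ≤ 2 := by
  by_cases hne : ((range (p ^ k)).filter (fun ν : ℕ => ((p ^ k : ℕ) : ℤ) ∣ fa a ν)).Nonempty
  swap
  · unfold rho
    rw [Finset.not_nonempty_iff_eq_empty.1 hne]
    simp
  obtain ⟨ν, hν⟩ := hne
  have hν2 := (Finset.mem_filter.1 hν).2
  have hpp : 0 < p ^ k := pow_pos hp.pos k
  have hsub : (range (p ^ k)).filter (fun ν : ℕ => ((p ^ k : ℕ) : ℤ) ∣ fa a ν) ⊆
      {ν, ((-a - (ν : ℤ)) % ((p ^ k : ℕ) : ℤ)).toNat} := by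
    intro x hx
    have hx2 := (Finset.mem_filter.1 hx).2
    have hxr := Finset.mem_range.1 (Finset.mem_filter.1 hx).1
    have hνr := Finset.mem_range.1 (Finset.mem_filter.1 hν).1
    rw [Finset.mem_insert, Finset.mem_singleton]
    have hmul : ((p ^ k : ℕ) : ℤ) ∣ ((x : ℤ) - ν) * (x + ν + a) := by
      have h1 : ((x : ℤ) - ν) * (x + ν + a) = fa a x - fa a ν := by unfold fa; ring
      rw [h1]
      exact dvd_sub hx2 hν2
    have hpi : Prime (p : ℤ) := Nat.prime_iff_prime_int.1 hp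
    by_cases h1 : (p : ℤ) ∣ (x : ℤ) - ν
    · -- then `p` does not divide the other factor
      have h2 : ¬ (p : ℤ) ∣ (x : ℤ) + ν + a := by
        intro h2
        apply hD
        have h3 : (p : ℤ) ∣ 2 * (x : ℤ) + a := by
          have := dvd_add h1 h2
          have h4 : (x : ℤ) - ν + (x + ν + a) = 2 * (x : ℤ) + a := by ring
          rwa [h4] at this
        have h5 : (p : ℤ) ∣ fa a x := by
          refine dvd_trans ?_ hx2
          push_cast
          exact dvd_pow_self _ (by omega)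
        have h6 : a ^ 2 - 4 = (2 * (x : ℤ) + a) ^ 2 - 4 * fa a x := by
          rw [four_fa]; ring
        rw [h6]
        refine dvd_sub ?_ (Dvd.dvd.mul_left h5 4)
        exact Dvd.dvd.pow h3 (by norm_num)
      have h7 : IsCoprime ((p ^ k : ℕ) : ℤ) ((x : ℤ) + ν + a) := by
        push_cast
        exact IsCoprime.pow_left ((Prime.coprime_iff_not_dvd hpi).2 h2)
      have h8 : ((p ^ k : ℕ) : ℤ) ∣ (x : ℤ) - ν := h7.dvd_of_dvd_mul_right hmul
      left
      have h9 : ν ≡ x [MOD p ^ k] := (Nat.modEq_iff_dvd).2 h8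
      exact (Nat.ModEq.eq_of_lt_of_lt h9 hνr hxr).symm
    · have h7 : IsCoprime ((p ^ k : ℕ) : ℤ) ((x : ℤ) - ν) := by
        push_cast
        exact IsCoprime.pow_left ((Prime.coprime_iff_not_dvd hpi).2 h1)
      have h8 : ((p ^ k : ℕ) : ℤ) ∣ (x : ℤ) + ν + a := h7.dvd_of_dvd_mul_left hmul
      right
      have h9 : (-a - (ν : ℤ)) % ((p ^ k : ℕ) : ℤ) = (x : ℤ) := by
        have h10 : (x : ℤ) % ((p ^ k : ℕ) : ℤ) = (x : ℤ) :=
          Int.emod_eq_of_lt (by positivity) (by exact_mod_cast hxr)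
        have h11 : ((p ^ k : ℕ) : ℤ) ∣ (x : ℤ) - (-a - (ν : ℤ)) := by
          have h12 : (x : ℤ) - (-a - (ν : ℤ)) = (x : ℤ) + ν + a := by ring
          rw [h12]; exact h8
        have h13 : (-a - (ν : ℤ)) % ((p ^ k : ℕ) : ℤ) = (x : ℤ) % ((p ^ k : ℕ) : ℤ) :=
          (Int.modEq_iff_dvd).2 h11
        rw [h13, h10]
      rw [h9]
      exact (Int.toNat_natCast x).symm
  unfold rho
  refine (Finset.card_le_card hsub).trans ?_
  exact Finset.card_le_two

/-- No roots modulo a power when there are no roots modulo the base. -/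
theorem rho_zero (a : ℤ) (c d : ℕ) (hd : (d : ℤ) ∣ (c : ℤ))
    (h : ∀ x : ℕ, ¬ (d : ℤ) ∣ fa a x) : rho a c = 0 := by
  unfold rho
  rw [Finset.card_eq_zero, Finset.filter_eq_empty_iff]
  intro x _ hx
  exact h x (dvd_trans hd hx)

theorem noroot4 (p : ℕ) (hp : p.Prime) (h : p % 4 = 3) (x : ℕ) : ¬ (p : ℤ) ∣ fa 0 x := by
  intro hx
  have : Fact p.Prime := ⟨hp⟩
  have h1 : ((fa 0 x : ℤ) : ZMod p) = 0 := (ZMod.intCast_zmod_eq_zero_iff_dvd _ _).2 hx
  have h2 : ((x : ZMod p)) ^ 2 = -1 := by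
    unfold fa at h1
    push_cast at h1
    linear_combination h1
  exact ZMod.mod_four_ne_three_of_sq_eq_neg_one h2 h

theorem noroot3 (a : ℤ) (ha : a = 1 ∨ a = -1) (p : ℕ) (hp : p.Prime) (h : p % 3 = 2) (x : ℕ) :
    ¬ (p : ℤ) ∣ fa a x := by
  intro hx
  have : Fact p.Prime := ⟨hp⟩
  have h1 : ((fa a x : ℤ) : ZMod p) = 0 := (ZMod.intCast_zmod_eq_zero_iff_dvd _ _).2 hx
  have ha2 : ((a : ZMod p)) ^ 2 = 1 := by
    rcases ha with rfl | rfl <;> simp
  obtain ⟨y, hy⟩ : ∃ y : ZMod p, y = (a : ZMod p) * x := ⟨_, rfl⟩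
  have h2 : y ^ 2 + y + 1 = 0 := by
    unfold fa at h1
    push_cast at h1
    rw [hy]
    linear_combination h1 + (x : ZMod p) ^ 2 * ha2
  have h3 : y ^ 3 = 1 := by linear_combination (y - 1) * h2
  have hy0 : y ≠ 0 := by
    rintro h0
    rw [h0] at h3
    norm_num at h3
  have h4 : y ^ (p - 1) = 1 := ZMod.pow_card_sub_one_eq_one hy0
  obtain ⟨q, hq⟩ : ∃ q, p - 1 = 3 * q + 1 := ⟨p / 3, by omega⟩
  rw [hq, pow_succ, pow_mul, h3, one_pow, one_mul] at h4
  rw [h4] at h2
  have h5 : ((3 : ℕ) : ZMod p) = 0 := by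
    push_cast
    linear_combination h2
  have h6 : p ∣ 3 := (ZMod.natCast_eq_zero_iff 3 p).1 h5
  have h7 : p = 3 := (Nat.prime_dvd_prime_iff_eq hp Nat.prime_three).1 h6
  rw [h7] at h
  norm_num at h

theorem noroot_two (x : ℕ) : ¬ ((4 : ℕ) : ℤ) ∣ fa 0 x := by
  intro hx
  have h1 : ((fa 0 x : ℤ) : ZMod 4) = 0 := (ZMod.intCast_zmod_eq_zero_iff_dvd _ _).2 hx
  have h2 : ∀ y : ZMod 4, y ^ 2 + 1 ≠ 0 := by decide
  apply h2 (x : ZMod 4)
  unfold fa at h1
  push_cast at h1
  linear_combination h1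

theorem noroot_three (a : ℤ) (ha : a = 1 ∨ a = -1) (x : ℕ) : ¬ ((9 : ℕ) : ℤ) ∣ fa a x := by
  intro hx
  have h1 : ((fa a x : ℤ) : ZMod 9) = 0 := (ZMod.intCast_zmod_eq_zero_iff_dvd _ _).2 hx
  have h2 : ∀ y : ZMod 9, y ^ 2 + y + 1 ≠ 0 := by decide
  have h3 : ∀ y : ZMod 9, y ^ 2 - y + 1 ≠ 0 := by decide
  rcases ha with rfl | rfl
  · apply h2 (x : ZMod 9)
    unfold fa at h1
    push_cast at h1
    linear_combination h1
  · apply h3 (x : ZMod 9)
    unfold fa at h1
    push_cast at h1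
    linear_combination h1

theorem rho2 : rho 0 2 = 1 := by decide

theorem rho3 (a : ℤ) (ha : a = 1 ∨ a = -1) : rho a 3 = 1 := by
  rcases ha with rfl | rfl <;> decide

theorem KK_cases (a : ℤ) : KK a = 3 ∨ KK a = 4 := by
  unfold KK; split_ifs
  · right; rfl
  · left; rfl

theorem neg_sum (k : ℕ) : (0 : ℤ) ≤ ∑ j ∈ range (k + 1), (-1 : ℤ) ^ j := by
  rw [Finset.sum_range_succ_comm]
  have h : ∀ n : ℕ, ∑ j ∈ range n, (-1 : ℤ) ^ j = if Even n then 0 else 1 := by
    intro n
    exact neg_one_geom_sum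
  rw [h k]
  rcases Nat.even_or_odd k with hk | hk
  · rw [if_pos hk, hk.neg_one_pow]; norm_num
  · rw [if_neg (Nat.not_even_iff_odd.2 hk), hk.neg_one_pow]; norm_num

theorem primepow (a : ℤ) (ha : IsA a) (p k : ℕ) (hp : p.Prime) (hk : 0 < k) :
    ((rho a (p ^ k) : ℕ) : ℤ) ≤ rr (KK a) (p ^ k) := by
  rw [rr_pow (KK a) (KK_cases a) p k hp]
  have hpdvd : ∀ j : ℕ, j ≤ k → (((p ^ j : ℕ)) : ℤ) ∣ ((p ^ k : ℕ) : ℤ) := by
    intro j hj
    exact_mod_cast pow_dvd_pow p hj
  by_cases h1 : p % KK a = 1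
  · -- split primes
    have hchi : chi (KK a) p = 1 := by unfold chi; rw [if_pos h1]
    rw [hchi]
    have hs : ∑ j ∈ range (k + 1), (1 : ℤ) ^ j = (k : ℤ) + 1 := by simp
    rw [hs]
    have hD : ¬ (p : ℤ) ∣ a ^ 2 - 4 := by
      rcases ha with rfl | rfl | rfl
      · intro hd
        have h2 : (p : ℤ) ∣ 4 := by
          have : (p : ℤ) ∣ -((0 : ℤ) ^ 2 - 4) := (dvd_neg).2 hd
          norm_num at this
          exact this
        have h3 : p ∣ 2 ^ 2 := by exact_mod_cast h2
        have h4 : p = 2 := (Nat.prime_dvd_prime_iff_eq hp Nat.prime_two).1 (hp.dvd_of_dvd_pow h3)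
        rw [h4] at h1
        simp [KK] at h1
      · intro hd
        have h2 : (p : ℤ) ∣ 3 := by
          have : (p : ℤ) ∣ -((1 : ℤ) ^ 2 - 4) := (dvd_neg).2 hd
          norm_num at this
          exact this
        have h3 : p ∣ 3 := by exact_mod_cast h2
        have h4 : p = 3 := (Nat.prime_dvd_prime_iff_eq hp Nat.prime_three).1 h3
        rw [h4] at h1
        simp [KK] at h1
      · intro hd
        have h2 : (p : ℤ) ∣ 3 := by
          have : (p : ℤ) ∣ -((-1 : ℤ) ^ 2 - 4) := (dvd_neg).2 hd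
          norm_num at this
          exact this
        have h3 : p ∣ 3 := by exact_mod_cast h2
        have h4 : p = 3 := (Nat.prime_dvd_prime_iff_eq hp Nat.prime_three).1 h3
        rw [h4] at h1
        simp [KK] at h1
    have h5 := rho_two a p k hp hD hk
    have h6 : ((rho a (p ^ k) : ℕ) : ℤ) ≤ 2 := by exact_mod_cast h5
    have h7 : (1 : ℤ) ≤ (k : ℤ) := by exact_mod_cast hk
    linarith only [h6, h7]
  by_cases h2 : p % KK a = KK a - 1
  · -- inert primes
    have hchi : chi (KK a) p = -1 := by unfold chi; rw [if_neg h1, if_pos h2]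
    rw [hchi]
    have h3 : rho a (p ^ k) = 0 := by
      refine rho_zero a (p ^ k) p ?_ ?_
      · have := hpdvd 1 hk
        rwa [pow_one] at this
      · rcases ha with rfl | ha'
        · have h4 : p % 4 = 3 := by simpa [KK] using h2
          exact noroot4 p hp h4
        · have h4 : p % 3 = 2 := by
            have h5 : KK a = 3 := by rcases ha' with rfl | rfl <;> simp [KK]
            rw [h5] at h2
            exact h2
          exact noroot3 a ha' p hp h4
    rw [h3]
    exact_mod_cast neg_sum k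
  · -- ramified primes
    have hchi : chi (KK a) p = 0 := by unfold chi; rw [if_neg h1, if_neg h2]
    rw [hchi]
    have hs : ∑ j ∈ range (k + 1), (0 : ℤ) ^ j = 1 := by
      rw [Finset.sum_range_succ']
      simp
    rw [hs]
    have h3 : rho a (p ^ k) ≤ 1 := by
      rcases ha with rfl | ha'
      · have h4 : KK 0 = 4 := by simp [KK]
        rw [h4] at h1 h2
        have h5 : p = 2 := by
          rcases hp.eq_two_or_odd with h6 | h6
          · exact h6
          · exfalso; omega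
        rw [h5]
        rcases Nat.lt_or_ge k 2 with h7 | h7
        · have h8 : k = 1 := by omega
          rw [h8, pow_one, rho2]
        · rw [rho_zero 0 (2 ^ k) 4 ?_ noroot_two]
          · norm_num
          · have := hpdvd 2 h7
            rw [h5] at this
            exact this
      · have h4 : KK a = 3 := by rcases ha' with rfl | rfl <;> simp [KK]
        rw [h4] at h1 h2
        have h5 : p = 3 := by
          have h6 : 3 ∣ p := by omega
          exact ((Nat.prime_dvd_prime_iff_eq Nat.prime_three hp).1 h6).symm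
        rw [h5]
        rcases Nat.lt_or_ge k 2 with h7 | h7
        · have h8 : k = 1 := by omega
          rw [h8, pow_one, rho3 a ha']
        · rw [rho_zero a (3 ^ k) 9 ?_ (noroot_three a ha')]
          · norm_num
          · have := hpdvd 2 h7
            rw [h5] at this
            exact this
    exact_mod_cast h3

end RHO1

open RHO1 in
theorem t_RHO1 : S_RHO1 := by
  intro a ha c
  induction c using Nat.recOnPosPrimePosCoprime with
  | prime_pow p n hp hn => intro _; exact primepow a ha p n hp hn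
  | zero => intro h; omega
  | one =>
    intro _
    have h1 : rho a 1 ≤ 1 := by
      unfold rho
      refine (Finset.card_filter_le _ _).trans ?_
      simp
    have h2 : rr (KK a) 1 = 1 := by
      unfold rr
      rw [Nat.divisors_one, Finset.sum_singleton]
      exact chi_one _ (KK_cases a)
    rw [h2]
    exact_mod_cast h1
  | coprime m n hm hn hc ihm ihn =>
    intro _
    have h1 := ihm (by omega)
    have h2 := ihn (by omega)
    rw [rr_mul (KK a) (KK_cases a) m n hc]
    have h3 := rho_mul a m n (by omega) (by omega) hc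
    have h4 : ((rho a (m * n) : ℕ) : ℤ) ≤ ((rho a m : ℕ) : ℤ) * ((rho a n : ℕ) : ℤ) := by
      exact_mod_cast h3
    refine h4.trans ?_
    exact mul_le_mul h1 h2 (by positivity) (le_trans (by positivity) h1)

end Pool.Agent.H183.GL
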