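import Pool.Agent.H183.GL.Stm

/-!
# `S_RHO2`: the mean value of `rr`

`∑_{c ≤ y} rr K c = ∑_{d ≤ y} χ(d) ⌊y/d⌋ ≤ y`, by partial summation: the partial sums of `χ` are at
most `1` and `⌊y/d⌋` is nonincreasing.
-/

set_option autoImplicit false

namespace Pool.Agent.H183.GL

open Finset Pool.Agent.H183.MU

namespace RHO2

theorem sum_chi3 (N : ℕ) : ∑ d ∈ Icc 1 N, chi 3 d = if N % 3 = 1 then 1 else 0 := by
  induction N with
  | zero => simp
  | succ N ih =>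
    rw [Finset.sum_Icc_succ_top (by omega), ih]
    unfold chi
    split_ifs <;> omega

theorem sum_chi4 (N : ℕ) :
    ∑ d ∈ Icc 1 N, chi 4 d = if N % 4 = 1 ∨ N % 4 = 2 then 1 else 0 := by
  induction N with
  | zero => simp
  | succ N ih =>
    rw [Finset.sum_Icc_succ_top (by omega), ih]
    unfold chi
    split_ifs <;> omega

theorem sum_chi_le {K : ℕ} (hK : K = 3 ∨ K = 4) (N : ℕ) : ∑ d ∈ Icc 1 N, chi K d ≤ 1 := by
  rcases hK with rfl | rfl
  · rw [sum_chi3]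
    split_ifs <;> omega
  · rw [sum_chi4]
    split_ifs <;> omega

/-- partial summation -/
theorem abel (χ b : ℕ → ℤ) (hχ : ∀ N, ∑ d ∈ Icc 1 N, χ d ≤ 1) (hb : ∀ d, 1 ≤ d → b (d + 1) ≤ b d)
    (N : ℕ) : ∑ d ∈ Icc 1 N, χ d * b d ≤ b 1 - (1 - ∑ d ∈ Icc 1 N, χ d) * b (N + 1) := by
  induction N with
  | zero => simp
  | succ N ih =>
    have h1 := hχ (N + 1)
    rw [Finset.sum_Icc_succ_top (by omega)] at h1
    rw [Finset.sum_Icc_succ_top (by omega), Finset.sum_Icc_succ_top (by omega)]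
    have h2 := hb (N + 1) (by omega)
    have h3 := mul_le_mul_of_nonneg_left h2
      (show (0 : ℤ) ≤ 1 - (∑ d ∈ Icc 1 N, χ d + χ (N + 1)) by linarith)
    linarith

theorem sum_rr (K y : ℕ) : ∑ c ∈ Icc 1 y, rr K c = ∑ d ∈ Icc 1 y, chi K d * ((y / d : ℕ) : ℤ) := by
  have h1 : ∀ c ∈ Icc 1 y, rr K c = ∑ d ∈ Icc 1 y, if d ∣ c then chi K d else 0 := by
    intro c hc
    obtain ⟨hc1, hc2⟩ := Finset.mem_Icc.1 hc
    unfold rr
    rw [← Finset.sum_filter]
    refine Finset.sum_subset_zero_on_sdiff ?_ ?_ fun _ _ => rfl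
    · intro d hd
      rw [Nat.mem_divisors] at hd
      rw [Finset.mem_filter, Finset.mem_Icc]
      exact ⟨⟨Nat.pos_of_dvd_of_pos hd.1 hc1, (Nat.le_of_dvd hc1 hd.1).trans hc2⟩, hd.1⟩
    · intro d hd
      rw [Finset.mem_sdiff, Finset.mem_filter, Nat.mem_divisors] at hd
      exact absurd ⟨hd.1.2, by omega⟩ hd.2
  rw [Finset.sum_congr rfl h1, Finset.sum_comm]
  refine Finset.sum_congr rfl fun d _ => ?_
  rw [← Finset.sum_filter, Finset.sum_const, nsmul_eq_mul, mul_comm]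
  congr 2
  exact Nat.Ioc_filter_dvd_card_eq_div y d

end RHO2

theorem t_RHO2 : S_RHO2 := by
  intro K hK y hy
  have h1 : ∑ c ∈ Icc 1 y, rr K c ≤ (y : ℤ) := by
    rw [RHO2.sum_rr]
    have h2 := RHO2.abel (chi K) (fun d => ((y / d : ℕ) : ℤ)) (RHO2.sum_chi_le hK)
      (fun d hd => by
        have : y / (d + 1) ≤ y / d := Nat.div_le_div_left (by omega) (by omega)
        exact_mod_cast this) y
    have h3 : 0 ≤ (1 - ∑ d ∈ Icc 1 y, chi K d) * ((y / (y + 1) : ℕ) : ℤ) :=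
      mul_nonneg (by linarith [RHO2.sum_chi_le hK y]) (by positivity)
    simp only [Nat.div_one] at h2
    linarith
  have h2 : ((∑ c ∈ Icc 1 y, rr K c : ℤ) : ℝ) ≤ (y : ℝ) := by exact_mod_cast h1
  have h3 : (0 : ℝ) ≤ y := Nat.cast_nonneg y
  linarith

end Pool.Agent.H183.GL
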