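import Pool.Agent.H183.GL.Stm
import Pool.Graph.R_pool_sql_team_909e0234.H25.Selberg

set_option autoImplicit false

namespace Pool.Agent.H183.GL

open Finset Pool.Agent.H183.MU

namespace SIEVE

open Pool.Agent.H25

theorem KK_cases (a : ℤ) : KK a = 3 ∨ KK a = 4 := by
  unfold KK
  split_ifs
  · exact Or.inr rfl
  · exact Or.inl rfl

theorem five_le {K r : ℕ} (hK : K = 3 ∨ K = 4) (hr : r.Prime) (h1 : r % K = 1) : 5 ≤ r := by
  by_contra hlt
  push Not at hlt
  have h2 := hr.two_le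
  rcases hK with rfl | rfl
  · have h4 : r = 4 := by omega
    subst h4
    revert hr
    decide
  · omega

/-- the sifting primes -/
def PP (K z q₀ : ℕ) : Finset ℕ := (Icc 1 z).filter fun r => r.Prime ∧ r % K = 1 ∧ ¬ r ∣ q₀

/-- the support of the weights -/
def TT (K z q₀ : ℕ) : Finset (Finset ℕ) := (PP K z q₀).powerset.filter fun t => ∏ r ∈ t, r ≤ z

theorem mem_PP {K z q₀ r : ℕ} :
    r ∈ PP K z q₀ ↔ (1 ≤ r ∧ r ≤ z) ∧ r.Prime ∧ r % K = 1 ∧ ¬ r ∣ q₀ := by
  rw [PP, mem_filter, mem_Icc]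

theorem mem_TT {K z q₀ : ℕ} {t : Finset ℕ} :
    t ∈ TT K z q₀ ↔ t ⊆ PP K z q₀ ∧ ∏ r ∈ t, r ≤ z := by
  rw [TT, mem_filter, mem_powerset]

/-- the weights -/
noncomputable def gw (r : ℕ) : ℝ := (2 : ℝ) / r

theorem card_TT (K z q₀ : ℕ) : (TT K z q₀).card ≤ z := by
  have h : (TT K z q₀).card ≤ (Icc 1 z).card := by
    refine card_le_card_of_injOn (fun t => ∏ r ∈ t, r) ?_ ?_
    · intro t ht
      have ht' := mem_TT.1 (mem_coe.1 ht)
      rw [mem_coe, mem_Icc]
      have h0 : 0 < ∏ r ∈ t, r := Finset.prod_pos fun r hr => (mem_PP.1 (ht'.1 hr)).1.1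
      exact ⟨h0, ht'.2⟩
    · intro t ht t' ht' heq
      have h1 := mem_TT.1 (mem_coe.1 ht)
      have h2 := mem_TT.1 (mem_coe.1 ht')
      have e1 := Nat.primeFactors_prod (s := t) fun r hr => (mem_PP.1 (h1.1 hr)).2.1
      have e2 := Nat.primeFactors_prod (s := t') fun r hr => (mem_PP.1 (h2.1 hr)).2.1
      simp only at heq
      rw [← e1, ← e2, heq]
  rwa [Nat.card_Icc, Nat.add_sub_cancel] at h

theorem err_le {K : ℕ} (hK : K = 3 ∨ K = 4) (z q₀ : ℕ) :
    ∑ t ∈ TT K z q₀, ((5 : ℝ) / 3 * 2) ^ t.card ≤ (z : ℝ) ^ 2 := by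
  have h1 : ∀ t ∈ TT K z q₀, ((5 : ℝ) / 3 * 2) ^ t.card ≤ z := by
    intro t ht
    have ht' := mem_TT.1 ht
    rw [← prod_const]
    have h2 : ∏ _r ∈ t, ((5 : ℝ) / 3 * 2) ≤ ∏ r ∈ t, (r : ℝ) := by
      refine prod_le_prod (fun _ _ => by norm_num) fun r hr => ?_
      have h3 := mem_PP.1 (ht'.1 hr)
      have h4 : (5 : ℝ) ≤ r := by exact_mod_cast five_le hK h3.2.1 h3.2.2.1
      linarith
    refine h2.trans ?_
    have h5 : ((∏ r ∈ t, r : ℕ) : ℝ) ≤ z := by exact_mod_cast ht'.2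
    rwa [Nat.cast_prod] at h5
  calc ∑ t ∈ TT K z q₀, ((5 : ℝ) / 3 * 2) ^ t.card ≤ ∑ _t ∈ TT K z q₀, (z : ℝ) := sum_le_sum h1
    _ = (TT K z q₀).card * (z : ℝ) := by rw [sum_const, nsmul_eq_mul]
    _ ≤ (z : ℝ) * z := by
        refine mul_le_mul_of_nonneg_right ?_ (Nat.cast_nonneg z)
        exact_mod_cast card_TT K z q₀
    _ = (z : ℝ) ^ 2 := (sq _).symm

theorem LL_ge {K : ℕ} (hK : K = 3 ∨ K = 4) (z q₀ : ℕ) :
    ∑ q ∈ (Icc 1 z).filter (fun q : ℕ => Squarefree q ∧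
      Nat.Coprime q q₀ ∧ ∀ r ∈ q.primeFactors, r % K = 1), (2 : ℝ) ^ q.primeFactors.card / q ≤
      Selberg.LL gw (TT K z q₀) := by
  have h1 : ∑ q ∈ (Icc 1 z).filter (fun q : ℕ => Squarefree q ∧
      Nat.Coprime q q₀ ∧ ∀ r ∈ q.primeFactors, r % K = 1), (2 : ℝ) ^ q.primeFactors.card / q =
      ∑ t ∈ ((Icc 1 z).filter (fun q : ℕ => Squarefree q ∧
      Nat.Coprime q q₀ ∧ ∀ r ∈ q.primeFactors, r % K = 1)).image Nat.primeFactors,
        (2 : ℝ) ^ t.card / ((∏ r ∈ t, r : ℕ) : ℝ) := by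
    rw [sum_image]
    · apply sum_congr rfl
      intro q hq
      rw [mem_filter] at hq
      rw [Nat.prod_primeFactors_of_squarefree hq.2.1]
    · intro x hx y hy hxy
      have hx' := (mem_filter.1 (mem_coe.1 hx)).2.1
      have hy' := (mem_filter.1 (mem_coe.1 hy)).2.1
      rw [← Nat.prod_primeFactors_of_squarefree hx', ← Nat.prod_primeFactors_of_squarefree hy',
        hxy]
  rw [h1, Selberg.LL]
  have h2 : ∀ t ∈ TT K z q₀, (2 : ℝ) ^ t.card / ((∏ r ∈ t, r : ℕ) : ℝ) ≤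
      Selberg.pr (Selberg.hh gw) t := by
    intro t ht
    have ht' := mem_TT.1 ht
    rw [Selberg.pr, ← prod_const, Nat.cast_prod, ← prod_div_distrib]
    refine prod_le_prod (fun r _ => by positivity) fun r hr => ?_
    have h3 := mem_PP.1 (ht'.1 hr)
    have h4 : (5 : ℝ) ≤ r := by exact_mod_cast five_le hK h3.2.1 h3.2.2.1
    rw [Selberg.hh, gw]
    have h5 : (0 : ℝ) < r := by linarith
    have h6 : (2 : ℝ) / r < 1 := by
      rw [div_lt_one h5]
      linarith
    have h7 : (0 : ℝ) < 2 / r := by positivity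
    rw [le_div_iff₀ (by linarith)]
    nlinarith
  refine (sum_le_sum_of_subset_of_nonneg ?_ fun t _ _ => by positivity).trans (sum_le_sum h2)
  intro t ht
  rw [mem_image] at ht
  obtain ⟨q, hq, rfl⟩ := ht
  rw [mem_filter, mem_Icc] at hq
  rw [mem_TT]
  refine ⟨?_, ?_⟩
  · intro r hr
    rw [mem_PP]
    have hr' := Nat.mem_primeFactors.1 hr
    refine ⟨⟨hr'.1.one_lt.le, (Nat.le_of_dvd (by omega) hr'.2.1).trans hq.1.2⟩, hr'.1,
      hq.2.2.2 r hr, fun hd => ?_⟩
    have h3 := Nat.dvd_gcd hr'.2.1 hd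
    rw [hq.2.2.1] at h3
    exact hr'.1.one_lt.ne' (Nat.dvd_one.1 h3)
  · rw [Nat.prod_primeFactors_of_squarefree hq.2.1]
    exact hq.1.2

theorem bound (h1 : S_CRT) {a : ℤ} (ha : IsA a) {c g ν N z : ℕ} (hc : 1 ≤ c) (hg : 1 ≤ g)
    (hν : (c : ℤ) ∣ fa a ν) (hz1 : 1 ≤ z) (hzN : z ≤ N) :
    (({j : ℕ | j ≤ N ∧ ∃ q : ℕ, q.Prime ∧ N < q ∧
      (c : ℤ) * q = fa a ((ν + c * g * j : ℕ) : ℤ)}.ncard : ℕ) : ℝ) ≤
      ((N : ℝ) + 1) / Selberg.LL gw (TT (KK a) z (c * g)) + ((z : ℝ) ^ 2) ^ 2 := by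
  classical
  have hK := KK_cases a
  set P := PP (KK a) z (c * g) with hP
  let D : ℕ → Finset ℕ := fun j =>
    P.filter fun r => ((c * r : ℕ) : ℤ) ∣ fa a ((ν + c * g * j : ℕ) : ℤ)
  have hmem : ∀ j r, r ∈ D j ↔ r ∈ P ∧ ((c * r : ℕ) : ℤ) ∣ fa a ((ν + c * g * j : ℕ) : ℤ) := by
    intro j r
    exact mem_filter
  have hgw : ∀ r ∈ P, 0 < gw r ∧ gw r < 1 := by
    intro r hr
    have h3 := mem_PP.1 hr
    have h4 : (5 : ℝ) ≤ r := by exact_mod_cast five_le hK h3.2.1 h3.2.2.1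
    have h5 : (0 : ℝ) < r := by linarith
    refine ⟨div_pos two_pos h5, ?_⟩
    rw [gw, div_lt_one h5]
    linarith
  have hsel := Selberg.selberg (P := P) (g := gw) (T := TT (KK a) z (c * g)) (range (N + 1)) D
    (fun j _ r hr => ((hmem j r).1 hr).1) hgw
    (fun t ht => mem_powerset.2 (mem_TT.1 ht).1)
    (by
      rw [mem_TT]
      refine ⟨empty_subset _, ?_⟩
      rw [prod_empty]
      exact hz1)
    (by
      intro t ht s hs
      have ht' := mem_TT.1 ht
      rw [mem_TT]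
      refine ⟨hs.trans ht'.1, le_trans ?_ ht'.2⟩
      exact prod_le_prod_of_subset_of_one_le' hs fun r hr _ => (mem_PP.1 (ht'.1 hr)).1.1)
    (5 / 3)
    (by
      intro r hr
      have h3 := mem_PP.1 hr
      have h4 : (5 : ℝ) ≤ r := by exact_mod_cast five_le hK h3.2.1 h3.2.2.1
      have h5 : (0 : ℝ) < r := by linarith
      have h6 : gw r ≤ 2 / 5 := by
        rw [gw]
        exact div_le_div_of_nonneg_left (by norm_num) (by norm_num) h4
      rw [div_le_div_iff₀ (by linarith) (by norm_num)]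
      linarith)
    ((N : ℝ) + 1) 2 (by norm_num)
    (by
      intro s hs
      have h3 := h1 a ha c g ν N hc hg hν s fun r hr => (mem_PP.1 (hs hr)).2
      have h4 : ({j : ℕ | j ≤ N ∧ ∀ r ∈ s, ((c * r : ℕ) : ℤ) ∣
          fa a ((ν + c * g * j : ℕ) : ℤ)} : Set ℕ) =
          ((range (N + 1)).filter fun j => s ⊆ D j : Finset ℕ) := by
        ext j
        rw [coe_filter]
        constructor
        · rintro ⟨h5, h6⟩
          exact ⟨mem_range.2 (by omega), fun r hr => (hmem j r).2 ⟨hs hr, h6 r hr⟩⟩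
        · rintro ⟨h5, h6⟩
          exact ⟨by have := mem_range.1 h5; omega, fun r hr => ((hmem j r).1 (h6 hr)).2⟩
      rw [h4, Set.ncard_coe_finset] at h3
      exact h3)
  refine le_trans ?_ (hsel.trans ?_)
  · have h2 : ({j : ℕ | j ≤ N ∧ ∃ q : ℕ, q.Prime ∧ N < q ∧
        (c : ℤ) * q = fa a ((ν + c * g * j : ℕ) : ℤ)} : Set ℕ) ⊆
        ((range (N + 1)).filter fun j => D j = ∅ : Finset ℕ) := by
      rintro j ⟨hj, q, hq, hNq, heq⟩
      rw [coe_filter]
      refine ⟨mem_range.2 (by omega), ?_⟩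
      rw [eq_empty_iff_forall_notMem]
      intro r hr
      obtain ⟨hrP, hd⟩ := (hmem j r).1 hr
      rw [← heq, Nat.cast_mul] at hd
      have h3 : (r : ℤ) ∣ q := Int.dvd_of_mul_dvd_mul_left
        (by
          have h0 : c ≠ 0 := by omega
          exact_mod_cast h0) hd
      have h4 : r ∣ q := by exact_mod_cast h3
      have h5 := mem_PP.1 hrP
      have h6 : r = q := (Nat.prime_dvd_prime_iff_eq h5.2.1 hq).1 h4
      omega
    have h3 := Set.ncard_le_ncard h2 (finite_toSet _)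
    rw [Set.ncard_coe_finset] at h3
    exact_mod_cast h3
  · gcongr
    exact err_le hK z (c * g)

theorem exists_root (N : ℕ) : ∃ z : ℕ, z ^ 8 ≤ N ∧ N < (z + 1) ^ 8 := by
  induction N with
  | zero => exact ⟨0, by norm_num, by norm_num⟩
  | succ N ih =>
    obtain ⟨z, h1, h2⟩ := ih
    by_cases h : N + 1 < (z + 1) ^ 8
    · exact ⟨z, by omega, h⟩
    · refine ⟨z + 1, by omega, ?_⟩
      have h3 : (z + 1) ^ 8 < (z + 1 + 1) ^ 8 := Nat.pow_lt_pow_left (by omega) (by norm_num)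
      omega

theorem one_le_kap {q : ℕ} (hq : 1 ≤ q) : 1 ≤ kap q := by
  rw [kap]
  have h1 : (0 : ℝ) < Nat.totient q := by exact_mod_cast Nat.totient_pos.2 hq
  have h2 : (1 : ℝ) ≤ (q : ℝ) / Nat.totient q := by
    rw [one_le_div h1]
    exact_mod_cast Nat.totient_le q
  exact one_le_pow₀ h2

end SIEVE

open SIEVE Pool.Agent.H25

theorem t_SIEVE (h1 : S_CRT) (h2 : S_GS2) : S_SIEVE := by
  obtain ⟨c₀, hc₀, h2⟩ := h2
  refine ⟨512 + 32 / c₀, by positivity, ?_⟩
  intro a ha c g ν N hc hg hN hν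
  have hkap : 1 ≤ kap (c * g) := one_le_kap (Nat.mul_pos hc hg)
  have hNpos : (1 : ℝ) ≤ N := by exact_mod_cast hN
  have hlog : 0 < Real.log (1 + N) := Real.log_pos (by linarith)
  have hBB : 0 < BB N := by
    rw [BB]
    positivity
  obtain ⟨z, hz1, hz2⟩ := exists_root N
  by_cases hz : z < 2
  · -- small `N`
    have hN256 : N < 256 := by
      refine lt_of_lt_of_le hz2 ?_
      calc (z + 1) ^ 8 ≤ 2 ^ 8 := Nat.pow_le_pow_left (by omega) 8
        _ = 256 := by norm_num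
    have h3 : (({j : ℕ | j ≤ N ∧ ∃ q : ℕ, q.Prime ∧ N < q ∧
        (c : ℤ) * q = fa a ((ν + c * g * j : ℕ) : ℤ)}.ncard : ℕ) : ℝ) ≤ (N : ℝ) + 1 := by
      have h4 : ({j : ℕ | j ≤ N ∧ ∃ q : ℕ, q.Prime ∧ N < q ∧
          (c : ℤ) * q = fa a ((ν + c * g * j : ℕ) : ℤ)} : Set ℕ) ⊆ (range (N + 1) : Finset ℕ) := by
        rintro j ⟨hj, _⟩
        exact mem_coe.2 (mem_range.2 (by omega))
      have h5 := Set.ncard_le_ncard h4 (finite_toSet _)
      rw [Set.ncard_coe_finset, card_range] at h5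
      exact_mod_cast h5
    have h4 : Real.log (1 + N) ≤ N := by
      have := Real.log_le_sub_one_of_pos (x := 1 + (N : ℝ)) (by linarith)
      linarith
    have h5 : (N : ℝ) ≤ 256 := by exact_mod_cast hN256.le
    have h6 : (N : ℝ) = BB N * Real.log (1 + N) := by
      rw [BB]
      field_simp
    have h7 : (N : ℝ) + 1 ≤ 512 * BB N := by
      have h8 : BB N * Real.log (1 + N) ≤ BB N * 256 :=
        mul_le_mul_of_nonneg_left (h4.trans h5) hBB.le
      linarith
    calc _ ≤ (N : ℝ) + 1 := h3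
      _ ≤ 512 * BB N := h7
      _ ≤ (512 + 32 / c₀) * kap (c * g) * BB N := by
          refine mul_le_mul_of_nonneg_right ?_ hBB.le
          have h9 : 0 < 32 / c₀ := by positivity
          nlinarith
  · push Not at hz
    have hzN : z ≤ N := by
      refine le_trans ?_ hz1
      exact Nat.le_self_pow (by norm_num) z
    have hb := bound h1 ha hc hg hν (by omega : 1 ≤ z) hzN
    have hgs := h2 (KK a) (by
      rcases KK_cases a with h | h
      · exact Or.inl h
      · exact Or.inr h) (c * g) z (Nat.mul_pos hc hg) hz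
    have hLL := LL_ge (KK_cases a) z (c * g)
    have hzr : (2 : ℝ) ≤ z := by exact_mod_cast hz
    have hlz : 0 < Real.log z := Real.log_pos (by linarith)
    have hkL : c₀ * Real.log z ≤ kap (c * g) * Selberg.LL gw (TT (KK a) z (c * g)) :=
      hgs.trans (mul_le_mul_of_nonneg_left hLL (by linarith))
    have hLpos : 0 < Selberg.LL gw (TT (KK a) z (c * g)) := by
      by_contra hneg
      push Not at hneg
      have h3 : kap (c * g) * Selberg.LL gw (TT (KK a) z (c * g)) ≤ 0 :=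
        mul_nonpos_of_nonneg_of_nonpos (by linarith) hneg
      have h4 : 0 < c₀ * Real.log z := by positivity
      linarith
    -- `1 + N ≤ z ^ 16`
    have h3 : (1 : ℝ) + N ≤ (z : ℝ) ^ 16 := by
      have h4 : N + 1 ≤ (z ^ 2) ^ 8 := by
        refine le_trans hz2 (Nat.pow_le_pow_left ?_ 8)
        nlinarith
      have h5 : ((N + 1 : ℕ) : ℝ) ≤ (((z ^ 2) ^ 8 : ℕ) : ℝ) := by exact_mod_cast h4
      push_cast at h5
      rw [← pow_mul] at h5
      norm_num at h5
      linarith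
    have h4 : Real.log (1 + N) ≤ 16 * Real.log z := by
      have h5 := Real.log_le_log (by linarith) h3
      rw [Real.log_pow] at h5
      exact_mod_cast h5
    have hN' : (N : ℝ) = BB N * Real.log (1 + N) := by
      rw [BB]
      field_simp
    -- the main term
    have hmain : ((N : ℝ) + 1) / Selberg.LL gw (TT (KK a) z (c * g)) ≤
        32 / c₀ * kap (c * g) * BB N := by
      rw [div_le_iff₀ hLpos]
      have h5 : (N : ℝ) + 1 ≤ 2 * (BB N * (16 * Real.log z)) := by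
        have h6 : BB N * Real.log (1 + N) ≤ BB N * (16 * Real.log z) :=
          mul_le_mul_of_nonneg_left h4 hBB.le
        linarith
      have h6 : 32 / c₀ * BB N * (c₀ * Real.log z) ≤
          32 / c₀ * BB N * (kap (c * g) * Selberg.LL gw (TT (KK a) z (c * g))) :=
        mul_le_mul_of_nonneg_left hkL (by positivity)
      have h7 : 32 / c₀ * BB N * (c₀ * Real.log z) = 2 * (BB N * (16 * Real.log z)) := by
        field_simp
        ring
      rw [h7] at h6
      calc (N : ℝ) + 1 ≤ 2 * (BB N * (16 * Real.log z)) := h5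
        _ ≤ _ := h6
        _ = _ := by ring
    -- the error term
    have herr : ((z : ℝ) ^ 2) ^ 2 ≤ 512 * kap (c * g) * BB N := by
      have h5 : Real.log z ≤ z := by
        have := Real.log_le_sub_one_of_pos (x := (z : ℝ)) (by linarith)
        linarith
      have h6 : (z : ℝ) ^ 8 ≤ N := by exact_mod_cast hz1
      have h7 : ((z : ℝ) ^ 2) ^ 2 * Real.log (1 + N) ≤ 16 * N := by
        calc ((z : ℝ) ^ 2) ^ 2 * Real.log (1 + N) ≤ ((z : ℝ) ^ 2) ^ 2 * (16 * z) :=
              mul_le_mul_of_nonneg_left (h4.trans (by linarith)) (by positivity)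
          _ = 16 * (z : ℝ) ^ 5 := by ring
          _ ≤ 16 * (z : ℝ) ^ 8 := by
              have : (z : ℝ) ^ 5 ≤ (z : ℝ) ^ 8 :=
                pow_le_pow_right₀ (by linarith) (by norm_num)
              linarith
          _ ≤ 16 * N := by linarith
      have h8 : ((z : ℝ) ^ 2) ^ 2 ≤ 16 * BB N := by
        rw [BB, ← mul_div_assoc, le_div_iff₀ hlog]
        exact h7
      have h9 : 16 * BB N ≤ 512 * kap (c * g) * BB N := by
        refine mul_le_mul_of_nonneg_right ?_ hBB.le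
        linarith
      exact h8.trans h9
    calc _ ≤ _ := hb
      _ ≤ 32 / c₀ * kap (c * g) * BB N + 512 * kap (c * g) * BB N := add_le_add hmain herr
      _ = (512 + 32 / c₀) * kap (c * g) * BB N := by ring

end Pool.Agent.H183.GL
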