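import Pool.Agent.H183.GL.Stm

/-! S_SIZE (helper981, for helper183) -/

set_option autoImplicit false

namespace Pool.Agent.H183.GL

open Finset Pool.Agent.H183.MU

namespace SIZE

variable {G : Type} [CommGroup G] [Fintype G] [DecidableEq G]

/-- the `n`-torsion of a group of order `n m`, `n` and `m` coprime -/
lemma card_tors (n m : ℕ) (hn : 0 < n) (hG : Fintype.card G = n * m) (hc : Nat.Coprime n m) :
    (univ.filter (fun g : G => g ^ n = 1)).card ≤ n := by
  set K : Subgroup G := (powMonoidHom n : G →* G).ker with hK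
  have hmem : ∀ g : G, g ∈ K ↔ g ^ n = 1 := by
    intro g
    rw [hK, MonoidHom.mem_ker, powMonoidHom_apply]
  have hcard : Nat.card K = (univ.filter (fun g : G => g ^ n = 1)).card :=
    Nat.subtype_card _ (fun x => by rw [mem_filter, hmem]; exact ⟨fun h => h.2, fun h => ⟨mem_univ _, h⟩⟩)
  rw [← hcard]
  have hdvd : Nat.card K ∣ n * m := by
    rw [← hG, ← Nat.card_eq_fintype_card]
    exact Subgroup.card_subgroup_dvd_card K
  have hcop : Nat.Coprime (Nat.card K) m := by
    apply Nat.coprime_of_dvd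
    intro q hq hqK hqm
    have : Fact q.Prime := ⟨hq⟩
    obtain ⟨x, hx⟩ := exists_prime_orderOf_dvd_card' (G := K) q hqK
    have h1 : (x : G) ^ n = 1 := (hmem x).1 x.2
    have h2 : x ^ n = 1 := by
      apply Subtype.ext
      simpa using h1
    have h3 : q ∣ n := by
      rw [← hx]; exact orderOf_dvd_of_pow_eq_one h2
    have h4 : q ∣ 1 := by
      have := Nat.dvd_gcd h3 hqm
      rwa [hc] at this
    exact hq.one_lt.ne' (Nat.dvd_one.1 h4)
  exact Nat.le_of_dvd hn (hcop.dvd_of_dvd_mul_right hdvd)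

omit [Fintype G] in
lemma cnt_one (D : Finset G) :
    ((D ×ˢ D).filter (fun p : G × G => p.1 * p.2⁻¹ = 1)).card = D.card := by
  symm
  refine card_bij (fun d _ => (d, d)) ?_ ?_ ?_
  · intro d hd
    rw [mem_filter, mem_product]
    exact ⟨⟨hd, hd⟩, mul_inv_cancel d⟩
  · intro a _ b _ h
    exact (Prod.mk.inj h).1
  · intro p hp
    rw [mem_filter, mem_product] at hp
    refine ⟨p.1, hp.1.1, ?_⟩
    have : p.1 = p.2 := mul_inv_eq_one.1 hp.2
    exact Prod.ext rfl this

lemma cnt_ne {D : Finset G} {k lam : ℕ} (h : IsDS D k lam) (S : Finset G) (h1 : (1 : G) ∉ S) :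
    ((D ×ˢ D).filter (fun p : G × G => p.1 * p.2⁻¹ ∈ S)).card = S.card * lam := by
  rw [card_eq_sum_card_fiberwise (s := (D ×ˢ D).filter (fun p : G × G => p.1 * p.2⁻¹ ∈ S))
    (f := fun p : G × G => p.1 * p.2⁻¹) (t := S)
    (fun p hp => mem_coe.2 (mem_filter.1 (mem_coe.1 hp)).2)]
  rw [sum_congr rfl (fun g hg => ?_), sum_const, smul_eq_mul]
  rw [filter_filter]
  have hg1 : g ≠ 1 := fun e => h1 (e ▸ hg)
  rw [← h.2 g hg1]
  congr 1
  apply filter_congr
  intro p _
  constructor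
  · rintro ⟨_, h2⟩; exact h2
  · intro h2; exact ⟨by rw [h2]; exact hg, h2⟩

lemma cnt_mem {D : Finset G} {k lam : ℕ} (h : IsDS D k lam) (S : Finset G) (h1 : (1 : G) ∈ S) :
    ((D ×ˢ D).filter (fun p : G × G => p.1 * p.2⁻¹ ∈ S)).card = k + (S.card - 1) * lam := by
  have h2 : (D ×ˢ D).filter (fun p : G × G => p.1 * p.2⁻¹ ∈ S)
      = (D ×ˢ D).filter (fun p : G × G => p.1 * p.2⁻¹ = 1) ∪
        (D ×ˢ D).filter (fun p : G × G => p.1 * p.2⁻¹ ∈ S.erase 1) := by
    rw [← filter_or]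
    apply filter_congr
    intro p _
    rw [mem_erase]
    constructor
    · intro hp
      by_cases h3 : p.1 * p.2⁻¹ = 1
      · exact Or.inl h3
      · exact Or.inr ⟨h3, hp⟩
    · rintro (h3 | h3)
      · rw [h3]; exact h1
      · exact h3.2
  have hdis : Disjoint ((D ×ˢ D).filter (fun p : G × G => p.1 * p.2⁻¹ = 1))
      ((D ×ˢ D).filter (fun p : G × G => p.1 * p.2⁻¹ ∈ S.erase 1)) := by
    rw [disjoint_filter]
    intro p _ h3 h4
    rw [h3] at h4
    exact (notMem_erase 1 S) h4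
  rw [h2, card_union_of_disjoint hdis, cnt_one, cnt_ne h _ (notMem_erase 1 S), card_erase_of_mem h1,
    h.1]

end SIZE

theorem t_SIZE : S_SIZE := by
  intro G _ _ _ D k lam w v' t u hD hG hw hwv ht hvt hwt himg hku
  have hw0 : 0 < w := hw.pos
  have hcop : Nat.Coprime w v' := (Nat.Prime.coprime_iff_not_dvd hw).2 hwv
  have hGpos : 0 < Fintype.card G := Fintype.card_pos
  have hv0 : 0 < v' := by
    rcases Nat.eq_zero_or_pos v' with h | h
    · rw [h, mul_zero] at hG; omega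
    · exact h
  set A : Finset G := univ.filter (fun g : G => g ^ w = 1) with hA
  set K : Finset G := univ.filter (fun g : G => g ^ v' = 1) with hK
  have hAc : A.card ≤ w := SIZE.card_tors w v' hw0 hG hcop
  have hKc : K.card ≤ v' := SIZE.card_tors v' w hv0 (by rw [hG, mul_comm]) hcop.symm
  have hA1 : (1 : G) ∈ A := by rw [hA, mem_filter]; exact ⟨mem_univ _, one_pow _⟩
  have hK1 : (1 : G) ∈ K := by rw [hK, mem_filter]; exact ⟨mem_univ _, one_pow _⟩
  have hpow : ∀ g : G, g ^ (w * v') = 1 := by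
    intro g
    rw [← hG]; exact pow_card_eq_one
  -- total count
  have htot : k * k = k + (w * v' - 1) * lam := by
    have h1 := SIZE.cnt_mem hD univ (mem_univ 1)
    have h2 : (D ×ˢ D).filter (fun p : G × G => p.1 * p.2⁻¹ ∈ (univ : Finset G)) = D ×ˢ D := by
      apply filter_true_of_mem
      intro p _
      exact mem_univ _
    rw [h2, card_product, hD.1, card_univ, hG] at h1
    exact h1
  -- the part of D outside K
  set f : G → ℕ := fun h => (D.filter (fun d => d ^ v' = h)).card with hf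
  have hout : k ≤ f 1 + (w - 1) * lam := by
    have h1 : (D.filter (fun d => ¬ d ^ v' = 1)).card
        ≤ ((D ×ˢ D).filter (fun p : G × G => p.1 * p.2⁻¹ ∈ A.erase 1)).card := by
      refine card_le_card_of_injOn (fun d => (d ^ t, d)) ?_ ?_
      · intro d hd
        have hd' := mem_filter.1 (mem_coe.1 hd)
        apply mem_coe.2
        rw [mem_filter, mem_product]
        have e1 : d ^ t * d⁻¹ = d ^ (t - 1) := by
          have : d ^ t = d ^ (t - 1) * d := by
            rw [← pow_succ]; congr 1; omega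
          rw [this, mul_assoc, mul_inv_cancel, mul_one]
        refine ⟨⟨?_, hd'.1⟩, ?_⟩
        · show d ^ t ∈ D
          have : d ^ t ∈ D.image (fun x => x ^ t) := mem_image_of_mem _ hd'.1
          rwa [himg] at this
        · show d ^ t * d⁻¹ ∈ A.erase 1
          rw [e1, mem_erase]
          refine ⟨?_, ?_⟩
          · intro h2
            apply hd'.2
            have o1 : orderOf d ∣ t - 1 := orderOf_dvd_of_pow_eq_one h2
            have o2 : orderOf d ∣ w * v' := orderOf_dvd_of_pow_eq_one (hpow d)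
            have o3 : Nat.Coprime (orderOf d) w := by
              have : Nat.Coprime w (t - 1) := (Nat.Prime.coprime_iff_not_dvd hw).2 hwt
              exact (Nat.Coprime.coprime_dvd_right o1 this).symm
            exact orderOf_dvd_iff_pow_eq_one.1 (o3.dvd_of_dvd_mul_left o2)
          · rw [hA, mem_filter]
            refine ⟨mem_univ _, ?_⟩
            obtain ⟨c, hc⟩ := hvt
            have e2 : (t - 1) * w = (w * v') * c := by rw [hc]; ring
            rw [← pow_mul, e2, pow_mul, hpow, one_pow]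
      · intro a _ b _ h2
        exact (Prod.mk.inj h2).2
    rw [SIZE.cnt_ne hD _ (notMem_erase 1 A), card_erase_of_mem hA1] at h1
    have h2 : (D.filter (fun d => d ^ v' = 1)).card + (D.filter (fun d => ¬ d ^ v' = 1)).card = D.card :=
      card_filter_add_card_filter_not _
    rw [hD.1] at h2
    have h3 : (A.card - 1) * lam ≤ (w - 1) * lam := Nat.mul_le_mul_right _ (by omega)
    have h4 : f 1 = (D.filter (fun d => d ^ v' = 1)).card := rfl
    omega
  -- sums of f
  have hmaps : ∀ d : G, d ^ v' ∈ A := by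
    intro d
    rw [hA, mem_filter]
    refine ⟨mem_univ _, ?_⟩
    rw [← pow_mul, mul_comm, hpow]
  have hsum : ∑ h ∈ A, f h = k := by
    rw [← hD.1, card_eq_sum_card_fiberwise (f := fun d : G => d ^ v') (t := A) (s := D)
      (fun d _ => hmaps d)]
  have hsq : ∑ h ∈ A, (f h) ^ 2 = k + (K.card - 1) * lam := by
    rw [← SIZE.cnt_mem hD K hK1]
    rw [card_eq_sum_card_fiberwise (f := fun p : G × G => p.1 ^ v') (t := A)
      (s := (D ×ˢ D).filter (fun p : G × G => p.1 * p.2⁻¹ ∈ K)) (fun p _ => hmaps p.1)]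
    refine sum_congr rfl fun h _ => ?_
    have e1 : ((D ×ˢ D).filter (fun p : G × G => p.1 * p.2⁻¹ ∈ K)).filter (fun p => p.1 ^ v' = h)
        = (D.filter (fun d => d ^ v' = h)) ×ˢ (D.filter (fun d => d ^ v' = h)) := by
      ext p
      rw [mem_filter, mem_filter, mem_product, mem_product, mem_filter, mem_filter, mem_filter,
        mul_pow, inv_pow, mul_inv_eq_one]
      constructor
      · rintro ⟨⟨⟨h1, h2⟩, _, h3⟩, h4⟩
        exact ⟨⟨h1, h4⟩, h2, h3 ▸ h4⟩
      · rintro ⟨⟨h1, h4⟩, h2, h3⟩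
        exact ⟨⟨⟨h1, h2⟩, mem_univ _, by rw [h4, h3]⟩, h4⟩
    rw [e1, card_product, sq]
  -- Cauchy-Schwarz
  have hCS : ((k : ℤ) - f 1) ^ 2 ≤ ((w : ℤ) - 1) * (k + (v' - 1) * lam - (f 1) ^ 2) := by
    have h1 := sq_sum_le_card_mul_sum_sq (s := A.erase 1) (f := fun h => (f h : ℤ))
    have h2 : ∑ h ∈ A.erase 1, (f h : ℤ) = (k : ℤ) - f 1 := by
      have := sum_erase_add A (fun h => (f h : ℤ)) hA1
      have h3 : ∑ h ∈ A, (f h : ℤ) = k := by exact_mod_cast hsum
      linarith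
    have h3 : ∑ h ∈ A.erase 1, (f h : ℤ) ^ 2 = (k + (K.card - 1) * lam : ℤ) - (f 1) ^ 2 := by
      have := sum_erase_add A (fun h => (f h : ℤ) ^ 2) hA1
      have h4 : ∑ h ∈ A, (f h : ℤ) ^ 2 = ((k + (K.card - 1) * lam : ℕ) : ℤ) := by exact_mod_cast hsq
      have hKpos : 1 ≤ K.card := card_pos.2 ⟨1, hK1⟩
      have h5 : ((k + (K.card - 1) * lam : ℕ) : ℤ) = (k : ℤ) + ((K.card : ℤ) - 1) * lam := by
        push_cast [Nat.cast_sub hKpos]; ring
      rw [h5] at h4
      linarith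
    have hnn : (0 : ℤ) ≤ (k + (K.card - 1) * lam : ℤ) - (f 1) ^ 2 := by
      rw [← h3]; exact sum_nonneg fun _ _ => sq_nonneg _
    rw [h2, h3] at h1
    have hApos : 1 ≤ A.card := card_pos.2 ⟨1, hA1⟩
    have h6 : ((A.erase 1).card : ℤ) = (A.card : ℤ) - 1 := by
      rw [card_erase_of_mem hA1]; push_cast [Nat.cast_sub hApos]; ring
    rw [h6] at h1
    have h7 : (A.card : ℤ) - 1 ≤ (w : ℤ) - 1 := by
      have : (A.card : ℤ) ≤ w := by exact_mod_cast hAc
      linarith
    have h8 : (0 : ℤ) ≤ (w : ℤ) - 1 := by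
      have : (1 : ℤ) ≤ w := by exact_mod_cast hw0
      linarith
    have h9 : (k + (K.card - 1) * lam : ℤ) - (f 1) ^ 2 ≤ (k + (v' - 1) * lam : ℤ) - (f 1) ^ 2 := by
      have h10 : (K.card : ℤ) ≤ v' := by exact_mod_cast hKc
      have h11 : ((K.card : ℤ) - 1) * lam ≤ ((v' : ℤ) - 1) * lam :=
        mul_le_mul_of_nonneg_right (by linarith) (by positivity)
      linarith
    calc ((k : ℤ) - f 1) ^ 2 ≤ ((A.card : ℤ) - 1) * ((k + (K.card - 1) * lam : ℤ) - (f 1) ^ 2) := h1
      _ ≤ ((w : ℤ) - 1) * ((k + (K.card - 1) * lam : ℤ) - (f 1) ^ 2) :=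
        mul_le_mul_of_nonneg_right h7 hnn
      _ ≤ _ := mul_le_mul_of_nonneg_left h9 h8
  -- conclusion
  have hw1 : (1 : ℤ) < w := by exact_mod_cast hw.one_lt
  have htot' : (k : ℤ) * k = k + ((w : ℤ) * v' - 1) * lam := by
    have h1 : 1 ≤ w * v' := Nat.mul_pos hw0 hv0
    have : ((k * k : ℕ) : ℤ) = ((k + (w * v' - 1) * lam : ℕ) : ℤ) := by rw [htot]
    push_cast [Nat.cast_sub h1] at this
    linarith
  have hku' : (k : ℤ) = lam + (u : ℤ) ^ 2 := by exact_mod_cast hku
  have hkey : ((w : ℤ) * f 1 - k) ^ 2 ≤ (((w : ℤ) - 1) * u) ^ 2 := by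
    have h1 : (w : ℤ) * ((k : ℤ) - f 1) ^ 2 ≤ (w : ℤ) * (((w : ℤ) - 1) * (k + (v' - 1) * lam - (f 1) ^ 2)) :=
      mul_le_mul_of_nonneg_left hCS (by linarith)
    have h2 : (w : ℤ) * (k + (v' - 1) * lam) = (k : ℤ) ^ 2 + ((w : ℤ) - 1) * (u : ℤ) ^ 2 := by
      have : (u : ℤ) ^ 2 = k - lam := by linarith
      rw [this]
      linear_combination - htot'
    have h3 : (w : ℤ) * (((w : ℤ) - 1) * (k + (v' - 1) * lam - (f 1) ^ 2))
        = ((w : ℤ) - 1) * ((k : ℤ) ^ 2 + ((w : ℤ) - 1) * (u : ℤ) ^ 2 - w * (f 1) ^ 2) := by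
      rw [← h2]; ring
    rw [h3] at h1
    nlinarith
  have hle : (w : ℤ) * f 1 - k ≤ ((w : ℤ) - 1) * u :=
    le_of_sq_le_sq hkey (by
      have : (0 : ℤ) ≤ u := by positivity
      exact mul_nonneg (by linarith) this)
  have hout' : (k : ℤ) ≤ f 1 + ((w : ℤ) - 1) * lam := by
    have : ((w - 1 : ℕ) : ℤ) = (w : ℤ) - 1 := by push_cast [Nat.cast_sub hw0]; ring
    rw [← this]
    exact_mod_cast hout
  have hfin : ((w : ℤ) - 1) * k ≤ ((w : ℤ) - 1) * (lam * w + u) := by
    have h1 : (w : ℤ) * k ≤ w * (f 1 + ((w : ℤ) - 1) * lam) := mul_le_mul_of_nonneg_left hout' (by linarith)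
    nlinarith
  have hfin2 : (k : ℤ) ≤ lam * w + u := le_of_mul_le_mul_left hfin (by linarith)
  have : (k : ℤ) ≤ lam * w + 2 * u := by
    have : (0 : ℤ) ≤ u := by positivity
    linarith
  exact_mod_cast this

end Pool.Agent.H183.GL
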