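import Pool.Agent.H183.GL.Stm
import Pool.Graph.R_seed8.H370R2.NT

/-!
# The smooth part of `n`
-/

set_option autoImplicit false

namespace Pool.Agent.H183.GL

open Finset Pool.Agent.H183.MU

namespace SMO

lemma fac_sum (p X : ℕ) : ∑ n ∈ Icc 1 X, n.factorization p = (X.factorial).factorization p := by
  induction X with
  | zero => simp
  | succ X ih =>
    rw [Finset.sum_Icc_succ_top (by omega), ih, Nat.factorial_succ,
      Nat.factorization_mul (by omega) (Nat.factorial_ne_zero X), Finsupp.add_apply, add_comm]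

lemma fac_le {p : ℕ} (hp : p.Prime) (X : ℕ) :
    ((X.factorial).factorization p : ℝ) ≤ 2 * X / p := by
  have : Fact p.Prime := ⟨hp⟩
  have h := sub_one_mul_padicValNat_factorial (p := p) X
  have h1 : (p - 1) * (X.factorial).factorization p ≤ X := by
    rw [Nat.factorization_def _ hp, h]
    exact Nat.sub_le _ _
  have hp2 : 2 ≤ p := hp.two_le
  have h2 : p * (X.factorial).factorization p ≤ 2 * X := by
    have h3 : p ≤ 2 * (p - 1) := by omega
    calc p * (X.factorial).factorization p ≤ 2 * (p - 1) * (X.factorial).factorization p :=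
          Nat.mul_le_mul_right _ h3
      _ = 2 * ((p - 1) * (X.factorial).factorization p) := by ring
      _ ≤ 2 * X := Nat.mul_le_mul_left _ h1
  have hp0 : (0 : ℝ) < p := by exact_mod_cast hp.pos
  rw [le_div_iff₀ hp0]
  have h4 : ((p * (X.factorial).factorization p : ℕ) : ℝ) ≤ ((2 * X : ℕ) : ℝ) := by
    exact_mod_cast h2
  push_cast at h4
  linarith

/-- the sum of the logarithms of the smooth parts -/
lemma main_sum (X N : ℕ) (hN : 1 ≤ N) :
    ∑ n ∈ Icc 1 X, ∑ p ∈ (Icc 1 N).filter Nat.Prime, (n.factorization p : ℝ) * Real.log p ≤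
      2 * X * (Real.log N + 6) := by
  rw [Finset.sum_comm]
  have h1 : ∀ p ∈ (Icc 1 N).filter Nat.Prime,
      ∑ n ∈ Icc 1 X, (n.factorization p : ℝ) * Real.log p ≤
        2 * X * (ArithmeticFunction.vonMangoldt p / p) := by
    intro p hp
    have hpp : p.Prime := (mem_filter.1 hp).2
    have hl : 0 ≤ Real.log p := Real.log_natCast_nonneg p
    rw [← Finset.sum_mul, ArithmeticFunction.vonMangoldt_apply_prime hpp]
    have h2 : (∑ n ∈ Icc 1 X, (n.factorization p : ℝ)) = ((X.factorial).factorization p : ℝ) := by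
      rw [← fac_sum]
      push_cast
      rfl
    rw [h2]
    calc ((X.factorial).factorization p : ℝ) * Real.log p ≤ 2 * X / p * Real.log p :=
          mul_le_mul_of_nonneg_right (fac_le hpp X) hl
      _ = _ := by ring
  calc ∑ p ∈ (Icc 1 N).filter Nat.Prime, ∑ n ∈ Icc 1 X, (n.factorization p : ℝ) * Real.log p
      ≤ ∑ p ∈ (Icc 1 N).filter Nat.Prime, 2 * X * (ArithmeticFunction.vonMangoldt p / p) :=
        Finset.sum_le_sum h1
    _ ≤ ∑ p ∈ Icc 1 N, 2 * X * (ArithmeticFunction.vonMangoldt p / p) := by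
        apply Finset.sum_le_sum_of_subset_of_nonneg (Finset.filter_subset _ _)
        intro p _ _
        have : 0 ≤ ArithmeticFunction.vonMangoldt p := ArithmeticFunction.vonMangoldt_nonneg
        positivity
    _ = 2 * X * ∑ p ∈ Icc 1 N, (ArithmeticFunction.vonMangoldt p / p) := by
        rw [Finset.mul_sum]
    _ ≤ 2 * X * (Real.log N + 6) :=
        mul_le_mul_of_nonneg_left (H370.nt_mertens_upper N hN) (by positivity)

/-- a number with a small rough part has a large smooth part -/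
lemma smooth_ge {X n : ℕ} {δ : ℝ} (hX : 1024 ≤ X) (hn : X.sqrt < n)
    (h : (∏ p ∈ n.primeFactors.filter (fun p : ℕ => (X : ℝ) ^ δ < p), p ^ n.factorization p) ^ 4 <
      2 * n ^ 3) :
    Real.log X / 10 ≤ ∑ p ∈ n.primeFactors.filter (fun p : ℕ => ¬ (X : ℝ) ^ δ < p),
      (n.factorization p : ℝ) * Real.log p := by
  have hn0 : n ≠ 0 := by omega
  set P : ℕ := ∏ p ∈ n.primeFactors.filter (fun p : ℕ => (X : ℝ) ^ δ < p),
    p ^ n.factorization p with hP
  set s : ℕ := ∏ p ∈ n.primeFactors.filter (fun p : ℕ => ¬ (X : ℝ) ^ δ < p),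
    p ^ n.factorization p with hs
  have hPs : P * s = n := by
    rw [hP, hs, Finset.prod_filter_mul_prod_filter_not]
    exact Nat.prod_factorization_pow_eq_self hn0
  have hP0 : 0 < P := by
    rcases Nat.eq_zero_or_pos P with h0 | h0
    · rw [h0, zero_mul] at hPs; exact absurd hPs.symm hn0
    · exact h0
  have hs0 : 0 < s := by
    rcases Nat.eq_zero_or_pos s with h0 | h0
    · rw [h0, mul_zero] at hPs; exact absurd hPs.symm hn0
    · exact h0
  have h1 : P < 2 * s ^ 3 := by
    have h2 : P ^ 3 * P < P ^ 3 * (2 * s ^ 3) := by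
      calc P ^ 3 * P = P ^ 4 := by ring
        _ < 2 * n ^ 3 := h
        _ = P ^ 3 * (2 * s ^ 3) := by rw [← hPs]; ring
    exact Nat.lt_of_mul_lt_mul_left h2
  have h3 : n < 2 * s ^ 4 := by
    calc n = P * s := hPs.symm
      _ < 2 * s ^ 3 * s := Nat.mul_lt_mul_of_pos_right h1 hs0
      _ = 2 * s ^ 4 := by ring
  have h4 : X < n * n := by
    calc X < (X.sqrt + 1) * (X.sqrt + 1) := Nat.lt_succ_sqrt X
      _ ≤ n * n := Nat.mul_le_mul hn hn
  have h5 : X < 4 * s ^ 8 := by
    calc X < n * n := h4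
      _ ≤ (2 * s ^ 4) * (2 * s ^ 4) := Nat.mul_le_mul h3.le h3.le
      _ = 4 * s ^ 8 := by ring
  have hsR : (0 : ℝ) < s := by exact_mod_cast hs0
  have hXR : (1024 : ℝ) ≤ X := by exact_mod_cast hX
  have h6 : Real.log X ≤ Real.log 4 + 8 * Real.log s := by
    have h7 : (X : ℝ) ≤ 4 * (s : ℝ) ^ 8 := by exact_mod_cast h5.le
    calc Real.log X ≤ Real.log (4 * (s : ℝ) ^ 8) := Real.log_le_log (by linarith) h7
      _ = Real.log 4 + 8 * Real.log s := by
          rw [Real.log_mul (by norm_num) (by positivity), Real.log_pow]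
          norm_num
  have h8 : 5 * Real.log 4 ≤ Real.log X := by
    have : 5 * Real.log 4 = Real.log 1024 := by
      rw [show (1024 : ℝ) = 4 ^ 5 by norm_num, Real.log_pow]
      norm_num
    rw [this]
    exact Real.log_le_log (by norm_num) hXR
  have h9 : Real.log s = ∑ p ∈ n.primeFactors.filter (fun p : ℕ => ¬ (X : ℝ) ^ δ < p),
      (n.factorization p : ℝ) * Real.log p := by
    rw [hs]
    push_cast
    rw [Real.log_prod]
    · exact Finset.sum_congr rfl fun p _ => Real.log_pow _ _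
    · intro p hp
      have hp0 : (p : ℝ) ≠ 0 := by
        exact_mod_cast (Nat.prime_of_mem_primeFactors (mem_filter.1 hp).1).ne_zero
      exact pow_ne_zero _ hp0
  rw [← h9]
  linarith

end SMO

open SMO in
theorem t_SMO : S_SMO := by
  intro ε hε
  set δ : ℝ := min (ε / 80) (1 / 4) with hδ
  have hδ0 : 0 < δ := lt_min (by positivity) (by norm_num)
  have hδ1 : δ ≤ 1 / 4 := min_le_right _ _
  have hδ2 : δ ≤ ε / 80 := min_le_left _ _
  refine ⟨δ, hδ0, by linarith, ?_⟩
  obtain ⟨X₁, hX₁⟩ := exists_nat_gt (Real.exp (480 / ε))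
  obtain ⟨X₂, hX₂⟩ := exists_nat_gt ((4 / ε) ^ 2)
  refine ⟨max 1024 (max X₁ X₂), fun X hX => ?_⟩
  have hX1024 : 1024 ≤ X := (le_max_left _ _).trans hX
  have hXX₁ : X₁ ≤ X := ((le_max_left _ _).trans (le_max_right _ _)).trans hX
  have hXX₂ : X₂ ≤ X := ((le_max_right _ _).trans (le_max_right _ _)).trans hX
  have hXR : (1024 : ℝ) ≤ X := by exact_mod_cast hX1024
  have hX0 : (0 : ℝ) < X := by linarith
  have hlog : 480 / ε < Real.log X := by
    rw [Real.lt_log_iff_exp_lt hX0]
    exact hX₁.trans_le (by exact_mod_cast hXX₁)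
  have hlog0 : 0 < Real.log X := lt_trans (by positivity) hlog
  have hsq : (4 / ε) ^ 2 < X := hX₂.trans_le (by exact_mod_cast hXX₂)
  have hXd : 1 ≤ (X : ℝ) ^ δ := Real.one_le_rpow (by linarith) hδ0.le
  set N : ℕ := ⌊(X : ℝ) ^ δ⌋₊ with hN
  have hN1 : 1 ≤ N := by
    rw [hN, Nat.one_le_floor_iff]
    exact hXd
  have hNle : (N : ℝ) ≤ (X : ℝ) ^ δ := Nat.floor_le (by linarith)
  have hlogN : Real.log N ≤ δ * Real.log X := by
    rw [← Real.log_rpow hX0]
    exact Real.log_le_log (by exact_mod_cast hN1) hNle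
  -- the sets
  set B : Finset ℕ := (Icc 1 X).filter (fun n => X.sqrt < n ∧
    (∏ p ∈ n.primeFactors.filter (fun p : ℕ => (X : ℝ) ^ δ < p), p ^ n.factorization p) ^ 4 <
      2 * n ^ 3) with hB
  have hsub : {n : ℕ | 1 ≤ n ∧ n ≤ X ∧
      (∏ p ∈ n.primeFactors.filter (fun p : ℕ => (X : ℝ) ^ δ < p), p ^ n.factorization p) ^ 4 <
      2 * n ^ 3} ⊆ ((Icc 1 X.sqrt ∪ B : Finset ℕ) : Set ℕ) := by
    rintro n ⟨h1, h2, h3⟩
    rw [Finset.mem_coe, Finset.mem_union]
    rcases le_or_gt n X.sqrt with h | h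
    · left; exact Finset.mem_Icc.2 ⟨h1, h⟩
    · right; exact Finset.mem_filter.2 ⟨Finset.mem_Icc.2 ⟨h1, h2⟩, h, h3⟩
  have hcard : (({n : ℕ | 1 ≤ n ∧ n ≤ X ∧
      (∏ p ∈ n.primeFactors.filter (fun p : ℕ => (X : ℝ) ^ δ < p), p ^ n.factorization p) ^ 4 <
      2 * n ^ 3}.ncard : ℕ) : ℝ) ≤ X.sqrt + B.card := by
    have h1 := Set.ncard_le_ncard hsub (Finset.finite_toSet _)
    rw [Set.ncard_coe_finset] at h1
    have h2 : (Icc 1 X.sqrt ∪ B : Finset ℕ).card ≤ X.sqrt + B.card := by
      refine (Finset.card_union_le _ _).trans ?_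
      rw [Nat.card_Icc]
      omega
    exact_mod_cast h1.trans h2
  refine hcard.trans ?_
  -- Markov
  have hterm : ∀ n ∈ B, Real.log X / 10 ≤
      ∑ p ∈ (Icc 1 N).filter Nat.Prime, (n.factorization p : ℝ) * Real.log p := by
    intro n hn
    have hn' := (Finset.mem_filter.1 hn).2
    refine (smooth_ge hX1024 hn'.1 hn'.2).trans ?_
    apply Finset.sum_le_sum_of_subset_of_nonneg
    · intro p hp
      have hp' := Finset.mem_filter.1 hp
      have hpp := Nat.prime_of_mem_primeFactors hp'.1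
      rw [Finset.mem_filter, Finset.mem_Icc]
      refine ⟨⟨hpp.one_le, ?_⟩, hpp⟩
      rw [hN]
      exact Nat.le_floor (not_lt.1 hp'.2)
    · intro p _ _
      exact mul_nonneg (Nat.cast_nonneg _) (Real.log_natCast_nonneg p)
  have hmark : (B.card : ℝ) * (Real.log X / 10) ≤ 2 * X * (Real.log N + 6) := by
    calc (B.card : ℝ) * (Real.log X / 10) = ∑ n ∈ B, Real.log X / 10 := by
          rw [Finset.sum_const, nsmul_eq_mul]
      _ ≤ ∑ n ∈ B, ∑ p ∈ (Icc 1 N).filter Nat.Prime, (n.factorization p : ℝ) * Real.log p :=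
          Finset.sum_le_sum hterm
      _ ≤ ∑ n ∈ Icc 1 X, ∑ p ∈ (Icc 1 N).filter Nat.Prime,
          (n.factorization p : ℝ) * Real.log p := by
          apply Finset.sum_le_sum_of_subset_of_nonneg (Finset.filter_subset _ _)
          intro n _ _
          exact Finset.sum_nonneg fun p _ =>
            mul_nonneg (Nat.cast_nonneg _) (Real.log_natCast_nonneg p)
      _ ≤ 2 * X * (Real.log N + 6) := main_sum X N hN1
  have hB1 : (B.card : ℝ) ≤ ε / 2 * X := by
    have h1 : (B.card : ℝ) * (Real.log X / 10) ≤ (ε / 2 * X) * (Real.log X / 10) := by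
      refine hmark.trans ?_
      have h2 : Real.log N + 6 ≤ ε / 80 * Real.log X + ε / 80 * Real.log X := by
        have h3 : 6 ≤ ε / 80 * Real.log X := by
          rw [div_lt_iff₀ hε] at hlog
          nlinarith
        have h4 : δ * Real.log X ≤ ε / 80 * Real.log X :=
          mul_le_mul_of_nonneg_right hδ2 hlog0.le
        linarith
      calc 2 * (X : ℝ) * (Real.log N + 6) ≤ 2 * X * (ε / 80 * Real.log X + ε / 80 * Real.log X) :=
            mul_le_mul_of_nonneg_left h2 (by positivity)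
        _ = (ε / 2 * X) * (Real.log X / 10) := by ring
    exact le_of_mul_le_mul_right h1 (by positivity)
  have hsq1 : (X.sqrt : ℝ) ≤ ε / 4 * X := by
    have h1 : (X.sqrt : ℝ) * X.sqrt ≤ X := by exact_mod_cast Nat.sqrt_le X
    have h2 : 1 ≤ ε / 4 * Real.sqrt X := by
      have h3 : 4 / ε ≤ Real.sqrt X := by
        apply Real.le_sqrt_of_sq_le
        exact hsq.le
      rw [div_le_iff₀ hε] at h3
      linarith
    have h4 : (X.sqrt : ℝ) ≤ Real.sqrt X := by
      apply Real.le_sqrt_of_sq_le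
      nlinarith
    have h5 : Real.sqrt X * Real.sqrt X = X := Real.mul_self_sqrt hX0.le
    calc (X.sqrt : ℝ) ≤ Real.sqrt X := h4
      _ = 1 * Real.sqrt X := (one_mul _).symm
      _ ≤ (ε / 4 * Real.sqrt X) * Real.sqrt X :=
          mul_le_mul_of_nonneg_right h2 (Real.sqrt_nonneg _)
      _ = ε / 4 * X := by rw [mul_assoc, h5]
  nlinarith

end Pool.Agent.H183.GL
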