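import Pool.Agent.H183.GL.Stm

set_option autoImplicit false

/-! Rankin's bound for smooth integers. -/

namespace Pool.Agent.H183.GL

open Finset Pool.Agent.H183.MU

namespace SMP

/-- `n ↦ n ^ (σ - 1)`, `σ = 1 / 18` -/
noncomputable def fR : ℕ →* ℝ where
  toFun n := (n : ℝ) ^ (-(17 / 18) : ℝ)
  map_one' := by rw [Nat.cast_one, Real.one_rpow]
  map_mul' m n := by rw [Nat.cast_mul, Real.mul_rpow (by positivity) (by positivity)]

theorem fR_apply (n : ℕ) : fR n = (n : ℝ) ^ (-(17 / 18) : ℝ) := rfl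

theorem fR_nonneg (n : ℕ) : 0 ≤ fR n := by
  rw [fR_apply]
  positivity

theorem fR_prime {p : ℕ} (hp : p.Prime) : fR p ≤ 3 / 4 := by
  rw [fR_apply]
  have hp2 : (2 : ℝ) ≤ p := by exact_mod_cast hp.two_le
  have h1 : (p : ℝ) ^ (-(17 / 18) : ℝ) ≤ (2 : ℝ) ^ (-(17 / 18) : ℝ) :=
    Real.rpow_le_rpow_of_nonpos (by norm_num) hp2 (by norm_num)
  have h2 : (2 : ℝ) ^ (-(17 / 18) : ℝ) ≤ (2 : ℝ) ^ (-(1 / 2) : ℝ) :=
    Real.rpow_le_rpow_of_exponent_le (by norm_num) (by norm_num)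
  have h3 : (2 : ℝ) ^ (-(1 / 2) : ℝ) ≤ 3 / 4 := by
    rw [Real.rpow_neg (by norm_num), ← Real.sqrt_eq_rpow]
    have h4 : (4 : ℝ) / 3 ≤ Real.sqrt 2 := by
      apply Real.le_sqrt_of_sq_le
      norm_num
    have h5 : (Real.sqrt 2)⁻¹ ≤ ((4 : ℝ) / 3)⁻¹ := inv_anti₀ (by norm_num) h4
    refine h5.trans ?_
    norm_num
  linarith

theorem geo_le {x : ℝ} (h0 : 0 ≤ x) (h1 : x ≤ 3 / 4) : (1 - x)⁻¹ ≤ Real.exp (4 * x) := by
  have h2 : 4 * x + 1 ≤ Real.exp (4 * x) := Real.add_one_le_exp _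
  have h3 : 0 < 1 - x := by linarith
  rw [inv_le_iff_one_le_mul₀ h3]
  nlinarith

theorem sum_fR (K : ℕ) : ∑ n ∈ range K, fR (n + 1) ≤ 18 * (K : ℝ) ^ ((1 : ℝ) / 18) := by
  induction K with
  | zero =>
    rw [range_zero, sum_empty]
    positivity
  | succ K ih =>
    rw [sum_range_succ]
    have hK : (0 : ℝ) < (K : ℝ) + 1 := by positivity
    have h1 : (1 + -(1 / ((K : ℝ) + 1))) ^ ((1 : ℝ) / 18) ≤
        1 + (1 : ℝ) / 18 * -(1 / ((K : ℝ) + 1)) := by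
      apply rpow_one_add_le_one_add_mul_self
      · have : 1 / ((K : ℝ) + 1) ≤ 1 := by
          rw [div_le_one hK]
          have : (0 : ℝ) ≤ K := Nat.cast_nonneg K
          linarith
        linarith
      · norm_num
      · norm_num
    have h2 : (K : ℝ) = ((K : ℝ) + 1) * (1 + -(1 / ((K : ℝ) + 1))) := by
      field_simp
      ring
    have h3 : 0 ≤ 1 + -(1 / ((K : ℝ) + 1)) := by
      have : 1 / ((K : ℝ) + 1) ≤ 1 := by
        rw [div_le_one hK]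
        have : (0 : ℝ) ≤ K := Nat.cast_nonneg K
        linarith
      linarith
    have h4 : (K : ℝ) ^ ((1 : ℝ) / 18) ≤ ((K : ℝ) + 1) ^ ((1 : ℝ) / 18) *
        (1 + (1 : ℝ) / 18 * -(1 / ((K : ℝ) + 1))) := by
      calc (K : ℝ) ^ ((1 : ℝ) / 18) =
          (((K : ℝ) + 1) * (1 + -(1 / ((K : ℝ) + 1)))) ^ ((1 : ℝ) / 18) := by rw [← h2]
        _ = ((K : ℝ) + 1) ^ ((1 : ℝ) / 18) * (1 + -(1 / ((K : ℝ) + 1))) ^ ((1 : ℝ) / 18) :=
            Real.mul_rpow hK.le h3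
        _ ≤ _ := mul_le_mul_of_nonneg_left h1 (by positivity)
    have h5 : fR (K + 1) = ((K : ℝ) + 1) ^ ((1 : ℝ) / 18) * (1 / ((K : ℝ) + 1)) := by
      rw [fR_apply]
      push_cast
      have e : (-(17 / 18) : ℝ) = (1 : ℝ) / 18 - 1 := by norm_num
      rw [e, Real.rpow_sub hK, Real.rpow_one]
      ring
    rw [h5]
    push_cast
    nlinarith

theorem prod_le (M : ℕ) : ∏ p ∈ M.primesBelow, (1 - fR p)⁻¹ ≤
    Real.exp (72 * ((M - 1 : ℕ) : ℝ) ^ ((1 : ℝ) / 18)) := by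
  have h1 : ∏ p ∈ M.primesBelow, (1 - fR p)⁻¹ ≤ ∏ p ∈ M.primesBelow, Real.exp (4 * fR p) := by
    apply prod_le_prod
    · intro p hp
      have := fR_prime (Nat.prime_of_mem_primesBelow hp)
      exact inv_nonneg.2 (by linarith)
    · intro p hp
      exact geo_le (fR_nonneg p) (fR_prime (Nat.prime_of_mem_primesBelow hp))
  refine h1.trans ?_
  rw [← Real.exp_sum]
  apply Real.exp_le_exp.2
  rw [← mul_sum]
  have h2 : ∑ p ∈ M.primesBelow, fR p ≤ ∑ n ∈ range (M - 1), fR (n + 1) := by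
    have h3 : ∑ n ∈ range (M - 1), fR (n + 1) =
        ∑ p ∈ (range (M - 1)).map ⟨fun n => n + 1, fun a b h => by simpa using h⟩, fR p := by
      rw [sum_map]
      rfl
    rw [h3]
    apply sum_le_sum_of_subset_of_nonneg
    · intro p hp
      have hpp := Nat.prime_of_mem_primesBelow hp
      have hlt := Nat.lt_of_mem_primesBelow hp
      have := hpp.two_le
      rw [mem_map]
      refine ⟨p - 1, mem_range.2 (by omega), ?_⟩
      show p - 1 + 1 = p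
      omega
    · intro p _ _
      exact fR_nonneg p
  have h4 := sum_fR (M - 1)
  linarith

theorem rankin (M : ℕ) (F : Finset ℕ) (hF : ∀ N ∈ F, N ∈ M.smoothNumbers) :
    ∑ N ∈ F, fR N ≤ ∏ p ∈ M.primesBelow, (1 - fR p)⁻¹ := by
  have hlt : ∀ {p : ℕ}, p.Prime → ‖fR p‖ < 1 := by
    intro p hp
    rw [Real.norm_of_nonneg (fR_nonneg p)]
    have := fR_prime hp
    linarith
  have h1 := (EulerProduct.summable_and_hasSum_smoothNumbers_prod_primesBelow_geometric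
    (f := fR) hlt M).2
  have h2 := sum_le_hasSum (F.subtype (fun N => N ∈ M.smoothNumbers))
    (fun i _ => fR_nonneg (i : ℕ)) h1
  rw [sum_subtype_of_mem (fun N => fR N) hF] at h2
  exact h2

end SMP

open SMP in
theorem t_SMP : S_SMP := by
  intro η hη
  obtain ⟨T, hT⟩ : ∃ T : ℝ, T = (1314 : ℝ) ^ 6 + (Real.log η) ^ 2 := ⟨_, rfl⟩
  have hT0 : 0 < T := by
    rw [hT]
    positivity
  refine ⟨⌈Real.exp (Real.exp T)⌉₊, fun X hX F hF => ?_⟩
  have hXr : Real.exp (Real.exp T) ≤ X := Nat.ceil_le.1 hX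
  have hlog : Real.exp T ≤ Real.log X := by
    rw [Real.le_log_iff_exp_le ((Real.exp_pos _).trans_le hXr)]
    exact hXr
  obtain ⟨t, ht⟩ : ∃ t : ℝ, t = LL X := ⟨_, rfl⟩
  have hTt : T ≤ t := by
    rw [ht]
    unfold LL
    rw [Real.le_log_iff_exp_le ((Real.exp_pos _).trans_le hlog)]
    exact hlog
  have ht0 : 0 < t := hT0.trans_le hTt
  rw [← ht] at hF
  obtain ⟨M, hM⟩ : ∃ M : ℕ, M = ⌈t ^ 9⌉₊ := ⟨_, rfl⟩
  have hsm : ∀ N ∈ F, N ∈ M.smoothNumbers := by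
    intro N hN
    obtain ⟨h1, h2⟩ := hF N hN
    have hN0 : N ≠ 0 := by
      intro h
      rw [h, Nat.cast_zero] at h1
      exact absurd h1 (not_le.2 (Real.exp_pos _))
    rw [Nat.mem_smoothNumbers]
    refine ⟨hN0, fun q hq => ?_⟩
    have hq1 := Nat.prime_of_mem_primeFactorsList hq
    have hq2 := Nat.dvd_of_mem_primeFactorsList hq
    have h3 := h2 q hq1 hq2
    rw [hM]
    exact Nat.lt_ceil.2 h3
  have h1 := rankin M F hsm
  have h2 := prod_le M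
  have hM1 : ((M - 1 : ℕ) : ℝ) ≤ t ^ 9 := by
    have h3 : 0 < M := by
      rw [hM]
      exact Nat.ceil_pos.2 (by positivity)
    have h4 : M - 1 < ⌈t ^ 9⌉₊ := by omega
    exact (Nat.lt_ceil.1 h4).le
  have h3 : ((M - 1 : ℕ) : ℝ) ^ ((1 : ℝ) / 18) ≤ t ^ ((1 : ℝ) / 2) := by
    have h4 : ((M - 1 : ℕ) : ℝ) ^ ((1 : ℝ) / 18) ≤ (t ^ 9) ^ ((1 : ℝ) / 18) :=
      Real.rpow_le_rpow (Nat.cast_nonneg _) hM1 (by norm_num)
    have h5 : (t ^ 9) ^ ((1 : ℝ) / 18) = t ^ ((1 : ℝ) / 2) := by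
      rw [← Real.rpow_natCast, ← Real.rpow_mul ht0.le]
      congr 1
      norm_num
    rw [h5] at h4
    exact h4
  have h4 : ∑ N ∈ F, (1 : ℝ) / N ≤ Real.exp (-(t ^ ((2 : ℝ) / 3) / 18)) * ∑ N ∈ F, fR N := by
    rw [mul_sum]
    apply sum_le_sum
    intro N hN
    obtain ⟨h5, -⟩ := hF N hN
    have hNpos : (0 : ℝ) < N := (Real.exp_pos _).trans_le h5
    rw [fR_apply]
    have e1 : (1 : ℝ) / N = (N : ℝ) ^ (-((1 : ℝ) / 18)) * (N : ℝ) ^ (-(17 / 18) : ℝ) := by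
      rw [← Real.rpow_add hNpos]
      have : -((1 : ℝ) / 18) + -(17 / 18) = -1 := by norm_num
      rw [this, Real.rpow_neg_one, one_div]
    rw [e1]
    refine mul_le_mul_of_nonneg_right ?_ (by positivity)
    have h6 : (N : ℝ) ^ (-((1 : ℝ) / 18)) ≤
        (Real.exp (t ^ ((2 : ℝ) / 3))) ^ (-((1 : ℝ) / 18)) :=
      Real.rpow_le_rpow_of_nonpos (Real.exp_pos _) h5 (by norm_num)
    refine h6.trans (le_of_eq ?_)
    rw [← Real.exp_mul]
    congr 1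
    ring
  have h5 : ∑ N ∈ F, (1 : ℝ) / N ≤
      Real.exp (-(t ^ ((2 : ℝ) / 3) / 18) + 72 * t ^ ((1 : ℝ) / 2)) := by
    rw [Real.exp_add]
    refine h4.trans (mul_le_mul_of_nonneg_left ?_ (Real.exp_pos _).le)
    refine h1.trans (h2.trans (Real.exp_le_exp.2 ?_))
    linarith
  have hs : |Real.log η| ≤ t ^ ((1 : ℝ) / 2) := by
    rw [← Real.sqrt_eq_rpow]
    apply Real.abs_le_sqrt
    have : (0 : ℝ) ≤ 1314 ^ 6 := by positivity
    linarith
  have h6 : (1314 : ℝ) ≤ t ^ ((1 : ℝ) / 6) := by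
    have h7 : (1314 : ℝ) ^ 6 ≤ t := by
      have : 0 ≤ (Real.log η) ^ 2 := sq_nonneg _
      linarith
    have h8 : ((1314 : ℝ) ^ 6) ^ ((1 : ℝ) / 6) ≤ t ^ ((1 : ℝ) / 6) :=
      Real.rpow_le_rpow (by positivity) h7 (by norm_num)
    have h9 : ((1314 : ℝ) ^ 6) ^ ((1 : ℝ) / 6) = 1314 := by
      rw [← Real.rpow_natCast, ← Real.rpow_mul (by norm_num)]
      norm_num
    rwa [h9] at h8
  have h7 : t ^ ((2 : ℝ) / 3) = t ^ ((1 : ℝ) / 2) * t ^ ((1 : ℝ) / 6) := by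
    rw [← Real.rpow_add ht0]
    congr 1
    norm_num
  have h8 : 0 ≤ t ^ ((1 : ℝ) / 2) := by positivity
  have h9 : -(t ^ ((2 : ℝ) / 3) / 18) + 72 * t ^ ((1 : ℝ) / 2) ≤ -t ^ ((1 : ℝ) / 2) := by
    rw [h7]
    nlinarith
  calc ∑ N ∈ F, (1 : ℝ) / N ≤ Real.exp (-(t ^ ((2 : ℝ) / 3) / 18) + 72 * t ^ ((1 : ℝ) / 2)) := h5
    _ ≤ Real.exp (Real.log η) := by
        apply Real.exp_le_exp.2
        have := neg_abs_le (Real.log η)
        linarith
    _ = η := Real.exp_log hη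

end Pool.Agent.H183.GL
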