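import Pool.Agent.H183.GL.Stm

/-! # Task GL SQBN (helper79): two easy negligible sets -/

set_option autoImplicit false

namespace Pool.Agent.H183.GL

open Finset Pool.Agent.H183.MU

namespace SQBN

/-- the number of multiples -/
theorem count_dvd (X d : ℕ) (hd : 1 ≤ d) :
    (((range (X + 1)).filter (fun n : ℕ => d ∣ n + 1)).card : ℝ) ≤ ((X : ℝ) + 1) / d := by
  have h1 : ((range (X + 1)).filter (fun n : ℕ => d ∣ n + 1)).card ≤ (X + 1) / d := by
    have h2 : ((range (X + 1)).filter (fun n : ℕ => d ∣ n + 1)).card ≤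
        (Icc 1 ((X + 1) / d)).card := by
      refine card_le_card_of_injOn (fun n => (n + 1) / d) ?_ ?_
      · intro n hn
        rw [mem_coe, mem_filter, mem_range] at hn
        obtain ⟨hn1, hn2⟩ := hn
        rw [mem_coe, mem_Icc]
        refine ⟨?_, Nat.div_le_div_right (by omega)⟩
        exact (Nat.one_le_div_iff (by omega)).2 (Nat.le_of_dvd (Nat.succ_pos n) hn2)
      · intro a ha b hb hab
        rw [mem_coe, mem_filter] at ha hb
        simp only at hab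
        have h3 := Nat.div_mul_cancel ha.2
        have h4 := Nat.div_mul_cancel hb.2
        rw [hab, h4] at h3
        omega
    rwa [Nat.card_Icc, Nat.add_sub_cancel] at h2
  have hd' : (0 : ℝ) < d := by exact_mod_cast hd
  calc (((range (X + 1)).filter (fun n : ℕ => d ∣ n + 1)).card : ℝ)
      ≤ (((X + 1) / d : ℕ) : ℝ) := by exact_mod_cast h1
    _ ≤ ((X + 1 : ℕ) : ℝ) / d := Nat.cast_div_le
    _ = ((X : ℝ) + 1) / d := by push_cast; ring

/-- `LL` tends to infinity -/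
theorem LL_large (c : ℝ) : ∃ X₀ : ℕ, ∀ X : ℕ, X₀ ≤ X → c ≤ LL X := by
  have h1 : Filter.Tendsto (fun X : ℕ => Real.log (Real.log (X : ℝ))) Filter.atTop
      Filter.atTop :=
    Real.tendsto_log_atTop.comp (Real.tendsto_log_atTop.comp tendsto_natCast_atTop_atTop)
  obtain ⟨X₀, h2⟩ := Filter.eventually_atTop.1 (h1.eventually_ge_atTop c)
  exact ⟨X₀, h2⟩

theorem adm_lt {X w l : ℕ} (h : Adm X w l) : l < w := by
  obtain ⟨h1, h2, h3, h4, h5⟩ := h
  have h6 := h1.two_le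
  have h7 := Nat.le_of_dvd (by omega) h3
  omega

end SQBN

open SQBN

/-- **SQ.** -/
theorem t_SQ : S_SQ := by
  intro η hη
  obtain ⟨X₀, hX₀⟩ := LL_large (max 1 (2 / η))
  refine ⟨max X₀ 1, fun X hX w l hadm => ?_⟩
  have hX1 : (1 : ℝ) ≤ X := by exact_mod_cast (le_max_right _ _).trans hX
  have h1 := hX₀ X ((le_max_left _ _).trans hX)
  have h2 : 1 ≤ LL X := (le_max_left _ _).trans h1
  have h3 : 2 / η ≤ LL X := (le_max_right _ _).trans h1
  have h4 : LL X ≤ (LL X) ^ 9 := le_self_pow₀ h2 (by norm_num)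
  have h5 : 2 / η ≤ w := by
    have h6 : (l : ℝ) < w := by exact_mod_cast adm_lt hadm
    exact (h3.trans (h4.trans hadm.2.2.2.2)).trans h6.le
  have hw : 1 ≤ w := hadm.1.one_lt.le
  have hw' : (0 : ℝ) < w := by exact_mod_cast hw
  have h6 : ({n : ℕ | 1 ≤ n ∧ n ≤ X ∧ w ∣ n + 1 ∧ w ^ 2 ∣ n + 1}.ncard : ℕ) ≤
      ((range (X + 1)).filter (fun n : ℕ => w ^ 2 ∣ n + 1)).card := by
    rw [← Set.ncard_coe_finset]
    refine Set.ncard_le_ncard ?_ (Finset.finite_toSet _)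
    rintro n ⟨_, hn2, _, hn4⟩
    rw [mem_coe, mem_filter, mem_range]
    exact ⟨by omega, hn4⟩
  have h7 := count_dvd X (w ^ 2) (Nat.one_le_pow _ _ hw)
  have h8 : (({n : ℕ | 1 ≤ n ∧ n ≤ X ∧ w ∣ n + 1 ∧ w ^ 2 ∣ n + 1}.ncard : ℕ) : ℝ) ≤
      ((X : ℝ) + 1) / ((w ^ 2 : ℕ) : ℝ) := le_trans (by exact_mod_cast h6) h7
  refine h8.trans ?_
  rw [Nat.cast_pow, div_le_iff₀ (by positivity)]
  have h9 : η * ((X : ℝ) / w) * (w : ℝ) ^ 2 = η * w * X := by
    field_simp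
  rw [h9]
  have h10 : 2 ≤ η * w := by
    rw [div_le_iff₀ hη] at h5
    linarith
  nlinarith

/-- **BN.** -/
theorem t_BN (h : S_HL) : S_BN := by
  classical
  intro η hη
  obtain ⟨X₀, hX₀⟩ := h (η / 2) (by positivity)
  refine ⟨max X₀ 1, fun X hX w l hadm => ?_⟩
  have hX1 : (1 : ℝ) ≤ X := by exact_mod_cast (le_max_right _ _).trans hX
  have hlw : (l : ℝ) ≤ w := by exact_mod_cast (adm_lt hadm).le
  have hw : 1 ≤ w := hadm.1.one_lt.le
  have hw' : (0 : ℝ) < w := by exact_mod_cast hw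
  have hl4 : (l : ℝ) ^ 4 ≤ Real.log X :=
    (pow_le_pow_left₀ (Nat.cast_nonneg l) hlw 4).trans hadm.2.2.2.1
  let F : Finset ℕ := (range (X + 2)).filter (fun q : ℕ => q.Prime ∧ q ≠ w ∧ (l ∣ q - 1 ∨ q = l))
  have hF : ∀ q ∈ F, q.Prime ∧ q ≤ X + 1 ∧ (l ∣ q - 1 ∨ q = l) := by
    intro q hq
    rw [mem_filter, mem_range] at hq
    exact ⟨hq.2.1, by omega, hq.2.2.2⟩
  have h1 := hX₀ X ((le_max_left _ _).trans hX) l hadm.2.1 hadm.2.2.2.2 hl4 F hF
  have h2 : ({n : ℕ | 1 ≤ n ∧ n ≤ X ∧ w ∣ n + 1 ∧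
      ∃ q : ℕ, q.Prime ∧ q ≠ w ∧ q ∣ n + 1 ∧ (l ∣ q - 1 ∨ q = l)}.ncard : ℕ) ≤
      (F.biUnion fun q => (range (X + 1)).filter (fun n : ℕ => q * w ∣ n + 1)).card := by
    rw [← Set.ncard_coe_finset]
    refine Set.ncard_le_ncard ?_ (Finset.finite_toSet _)
    rintro n ⟨_, hn2, hn3, q, hq1, hq2, hq3, hq4⟩
    rw [mem_coe, mem_biUnion]
    refine ⟨q, ?_, ?_⟩
    · rw [mem_filter, mem_range]
      have := Nat.le_of_dvd (Nat.succ_pos n) hq3
      exact ⟨by omega, hq1, hq2, hq4⟩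
    · rw [mem_filter, mem_range]
      exact ⟨by omega, Nat.Coprime.mul_dvd_of_dvd_of_dvd
        ((Nat.coprime_primes hq1 hadm.1).2 hq2) hq3 hn3⟩
  have h3 : ((F.biUnion fun q => (range (X + 1)).filter (fun n : ℕ => q * w ∣ n + 1)).card : ℝ) ≤
      ∑ q ∈ F, ((X : ℝ) + 1) / w * (1 / q) := by
    calc ((F.biUnion fun q => (range (X + 1)).filter (fun n : ℕ => q * w ∣ n + 1)).card : ℝ)
        ≤ ((∑ q ∈ F, ((range (X + 1)).filter (fun n : ℕ => q * w ∣ n + 1)).card : ℕ) : ℝ) := by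
          exact_mod_cast card_biUnion_le
      _ = ∑ q ∈ F, (((range (X + 1)).filter (fun n : ℕ => q * w ∣ n + 1)).card : ℝ) := by
          rw [Nat.cast_sum]
      _ ≤ ∑ q ∈ F, ((X : ℝ) + 1) / w * (1 / q) := by
          refine sum_le_sum fun q hq => ?_
          have hq0 : (0 : ℝ) < q := by exact_mod_cast (hF q hq).1.pos
          refine (count_dvd X (q * w) (Nat.mul_pos (hF q hq).1.pos hw)).trans (le_of_eq ?_)
          rw [Nat.cast_mul]
          field_simp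
  rw [← mul_sum] at h3
  have h4 : (({n : ℕ | 1 ≤ n ∧ n ≤ X ∧ w ∣ n + 1 ∧
      ∃ q : ℕ, q.Prime ∧ q ≠ w ∧ q ∣ n + 1 ∧ (l ∣ q - 1 ∨ q = l)}.ncard : ℕ) : ℝ) ≤
      ((X : ℝ) + 1) / w * ∑ q ∈ F, (1 : ℝ) / q := le_trans (by exact_mod_cast h2) h3
  refine h4.trans ?_
  have h5 : ((X : ℝ) + 1) / w ≤ 2 * ((X : ℝ) / w) := by
    rw [← mul_div_assoc]
    exact div_le_div_of_nonneg_right (by linarith) hw'.le
  have h6 : 0 ≤ ((X : ℝ) + 1) / w := by positivity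
  calc ((X : ℝ) + 1) / w * ∑ q ∈ F, (1 : ℝ) / q ≤ ((X : ℝ) + 1) / w * (η / 2) :=
        mul_le_mul_of_nonneg_left h1 h6
    _ ≤ 2 * ((X : ℝ) / w) * (η / 2) := mul_le_mul_of_nonneg_right h5 (by positivity)
    _ = η * ((X : ℝ) / w) := by ring

end Pool.Agent.H183.GL
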