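import Pool.Agent.H183.GL.Stm
import Pool.Graph.R_seed8.Helper923.HMertens

set_option autoImplicit false

namespace Pool.Agent.H183.GL

open Finset Filter Topology

namespace WSET

/-- a subset with prescribed sum -/
theorem subset_sum (f : ℕ → ℝ) (h1 : ∀ x, f x ≤ 1) (A : ℝ) (hA : 0 ≤ A)
    (S : Finset ℕ) (hS : A ≤ ∑ x ∈ S, f x) :
    ∃ W ⊆ S, A ≤ ∑ x ∈ W, f x ∧ ∑ x ∈ W, f x ≤ A + 1 := by
  classical
  induction S using Finset.induction_on with
  | empty =>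
    refine ⟨∅, le_rfl, hS, ?_⟩
    rw [Finset.sum_empty] at hS ⊢
    linarith
  | insert a S ha ih =>
    rcases le_or_gt A (∑ x ∈ S, f x) with h | h
    · obtain ⟨W, hW, hW2⟩ := ih h
      exact ⟨W, hW.trans (Finset.subset_insert _ _), hW2⟩
    · refine ⟨insert a S, le_rfl, hS, ?_⟩
      rw [Finset.sum_insert ha]
      have := h1 a
      linarith

end WSET

open WSET in
theorem t_WSET (h : S_SMP) : S_WSET := by
  classical
  intro A hA
  obtain ⟨C, hC, hM⟩ := Pool.Agent.Helper923.HMertens.mertens_ratio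
  obtain ⟨X₁, hX₁⟩ := h 1 one_pos
  obtain ⟨s₀, hs₀⟩ : ∃ s₀ : ℝ, s₀ = 16 * Real.exp (A + 1 + C) := ⟨_, rfl⟩
  have hs₀16 : 16 ≤ s₀ := by
    rw [hs₀]
    have : 1 ≤ Real.exp (A + 1 + C) := Real.one_le_exp (by linarith)
    linarith
  have hlogX : Tendsto (fun X : ℕ => Real.log X) atTop atTop :=
    Real.tendsto_log_atTop.comp tendsto_natCast_atTop_atTop
  have hLL : Tendsto (fun X : ℕ => LL X) atTop atTop :=
    Real.tendsto_log_atTop.comp hlogX
  obtain ⟨X₂, hX₂⟩ := eventually_atTop.mp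
    ((hlogX.eventually (eventually_ge_atTop 1)).and (hLL.eventually (eventually_ge_atTop (s₀ ^ 3))))
  refine ⟨max X₁ X₂, fun X hX => ?_⟩
  have hSMP := hX₁ X ((le_max_left _ _).trans hX)
  obtain ⟨hlX, hyX⟩ := hX₂ X ((le_max_right _ _).trans hX)
  obtain ⟨y, hy⟩ : ∃ y, y = LL X := ⟨_, rfl⟩
  rw [← hy] at hSMP hyX
  have hey : Real.exp y = Real.log X := by
    rw [hy]
    exact Real.exp_log (by linarith)
  have hy0 : 0 < y := lt_of_lt_of_le (by positivity) hyX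
  obtain ⟨s, hs⟩ : ∃ s : ℝ, s = y ^ ((1 : ℝ) / 3) := ⟨_, rfl⟩
  have hs0 : 0 < s := by rw [hs]; exact Real.rpow_pos_of_pos hy0 _
  have hs3 : s ^ 3 = y := by
    rw [hs, ← Real.rpow_natCast, ← Real.rpow_mul hy0.le]
    norm_num
  have hs2 : y ^ ((2 : ℝ) / 3) = s ^ 2 := by
    rw [hs, ← Real.rpow_natCast, ← Real.rpow_mul hy0.le]
    norm_num
  have hss : s₀ ≤ s := by
    by_contra hcon
    push Not at hcon
    have := pow_lt_pow_left₀ hcon hs0.le (by norm_num : (3 : ℕ) ≠ 0)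
    rw [hs3] at this
    linarith
  have hs16 : 16 ≤ s := hs₀16.trans hss
  rw [hs2] at hSMP
  obtain ⟨u, hu⟩ : ∃ u : ℝ, u = Real.exp (y / 4) := ⟨_, rfl⟩
  have hu4 : u ^ 4 = Real.log X := by
    rw [hu, ← Real.exp_nat_mul, ← hey]
    congr 1
    push_cast
    ring
  have hu0 : 0 < u := by rw [hu]; exact Real.exp_pos _
  obtain ⟨Z, hZ⟩ : ∃ Z : ℕ, Z = ⌊u⌋₊ := ⟨_, rfl⟩
  have hZu : (Z : ℝ) ≤ u := by rw [hZ]; exact Nat.floor_le hu0.le
  have hy8 : 8 ≤ y := by rw [← hs3]; nlinarith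
  have he8 : 2 ≤ Real.exp (y / 8) := by
    have := Real.add_one_le_exp (y / 8)
    linarith
  have hZ8 : Real.exp (y / 8) ≤ Z := by
    have h1 : u < (Z : ℝ) + 1 := by rw [hZ]; exact Nat.lt_floor_add_one _
    have h2 : u = Real.exp (y / 8) * Real.exp (y / 8) := by
      rw [hu, ← Real.exp_add]
      congr 1
      ring
    nlinarith
  have hZ0 : (0 : ℝ) < Z := lt_of_lt_of_le (Real.exp_pos _) hZ8
  have hlZ : y / 8 ≤ Real.log Z := by
    rw [Real.le_log_iff_exp_le hZ0]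
    exact hZ8
  obtain ⟨a, ha⟩ : ∃ a : ℕ, a = ⌈Real.exp (s ^ 2)⌉₊ + 1 := ⟨_, rfl⟩
  have hev : 2 ≤ Real.exp (s ^ 2) := by
    have := Real.add_one_le_exp (s ^ 2)
    nlinarith
  have hca : Real.exp (s ^ 2) ≤ (⌈Real.exp (s ^ 2)⌉₊ : ℕ) := Nat.le_ceil _
  have hcb : ((⌈Real.exp (s ^ 2)⌉₊ : ℕ) : ℝ) < Real.exp (s ^ 2) + 1 :=
    Nat.ceil_lt_add_one (Real.exp_pos _).le
  have ha1 : Real.exp (s ^ 2) + 1 ≤ a := by
    rw [ha]
    push_cast
    linarith
  have ha2 : (a : ℝ) ≤ Real.exp (2 * s ^ 2) := by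
    have e : Real.exp (2 * s ^ 2) = Real.exp (s ^ 2) * Real.exp (s ^ 2) := by
      rw [← Real.exp_add]
      congr 1
      ring
    rw [e, ha]
    push_cast
    nlinarith
  have ha0 : (0 : ℝ) < a := by linarith
  have hla1 : s ^ 2 ≤ Real.log a := by
    rw [Real.le_log_iff_exp_le ha0]
    linarith
  have hla2 : Real.log a ≤ 2 * s ^ 2 := by
    rw [Real.log_le_iff_le_exp ha0]
    exact ha2
  have haN : 2 ≤ a := by
    have : (2 : ℝ) ≤ a := by linarith
    exact_mod_cast this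
  have haZ : a ≤ Z := by
    have h1 : (a : ℝ) ≤ Z := by
      refine ha2.trans ((Real.exp_le_exp.2 ?_).trans hZ8)
      rw [← hs3]
      nlinarith [sq_nonneg s]
    exact_mod_cast h1
  have hmain := (abs_le.mp (hM a Z haN haZ)).1
  have hs21 : 1 ≤ s ^ 2 := by nlinarith
  have herr : C / Real.log a ≤ C := div_le_self hC (hs21.trans hla1)
  have hlow : A + 1 + C ≤ Real.log (Real.log Z / Real.log a) := by
    have hla0 : 0 < Real.log a := by linarith
    have hlZ0 : 0 < Real.log Z := by linarith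
    rw [Real.le_log_iff_exp_le (by positivity), le_div_iff₀ hla0]
    have h1 : Real.exp (A + 1 + C) ≤ s / 16 := by
      rw [le_div_iff₀ (by norm_num)]
      linarith
    calc Real.exp (A + 1 + C) * Real.log a ≤ s / 16 * (2 * s ^ 2) :=
          mul_le_mul h1 hla2 hla0.le (by positivity)
      _ = y / 8 := by rw [← hs3]; ring
      _ ≤ _ := hlZ
  -- the primes in the window
  obtain ⟨P, hP⟩ : ∃ P : Finset ℕ, P = (Finset.Ioc a Z).filter Nat.Prime := ⟨_, rfl⟩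
  rw [← hP] at hmain
  have hmemP : ∀ w ∈ P, a < w ∧ w ≤ Z ∧ w.Prime := by
    intro w hw
    rw [hP, Finset.mem_filter, Finset.mem_Ioc] at hw
    exact ⟨hw.1.1, hw.1.2, hw.2⟩
  obtain ⟨Q, hQ⟩ : ∃ Q : ℕ → Prop, Q = fun w => ∀ q : ℕ, q.Prime → q ∣ w - 1 → (q : ℝ) < y ^ 9 :=
    ⟨_, rfl⟩
  have hbad : ∑ w ∈ P.filter Q, (1 : ℝ) / w ≤ 1 := by
    have h1 := hSMP ((P.filter Q).image (fun w => w - 1)) (by
      intro N hN
      rw [Finset.mem_image] at hN
      obtain ⟨w, hw, rfl⟩ := hN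
      rw [Finset.mem_filter] at hw
      obtain ⟨hw1, hw2⟩ := hw
      obtain ⟨h1, h2, h3⟩ := hmemP w hw1
      rw [hQ] at hw2
      refine ⟨?_, hw2⟩
      have h4 : a ≤ w - 1 := by omega
      have h5 : (a : ℝ) ≤ ((w - 1 : ℕ) : ℝ) := by exact_mod_cast h4
      linarith)
    rw [Finset.sum_image (by
      intro w hw w' hw' he
      rw [Finset.mem_coe, Finset.mem_filter] at hw hw'
      have h1 := (hmemP w hw.1).2.2.two_le
      have h2 := (hmemP w' hw'.1).2.2.two_le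
      dsimp only at he
      omega)] at h1
    refine le_trans (Finset.sum_le_sum fun w hw => ?_) h1
    rw [Finset.mem_filter] at hw
    have h2 := (hmemP w hw.1).2.2.two_le
    have h3 : ((w - 1 : ℕ) : ℝ) ≤ w := by exact_mod_cast Nat.sub_le w 1
    have h4 : (0 : ℝ) < ((w - 1 : ℕ) : ℝ) := by exact_mod_cast (by omega : 0 < w - 1)
    exact one_div_le_one_div_of_le h4 h3
  have hsplit : ∑ w ∈ P, (1 : ℝ) / w = ∑ w ∈ P.filter Q, (1 : ℝ) / w +
      ∑ w ∈ P.filter (fun w => ¬ Q w), (1 : ℝ) / w :=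
    (Finset.sum_filter_add_sum_filter_not P Q _).symm
  have hgood : A ≤ ∑ w ∈ P.filter (fun w => ¬ Q w), (1 : ℝ) / w := by
    linarith
  obtain ⟨W, hW, hW1, hW2⟩ := subset_sum (fun w : ℕ => (1 : ℝ) / w)
    (fun x => by
      rcases Nat.eq_zero_or_pos x with h0 | h0
      · rw [h0]; simp
      · rw [div_le_one (by exact_mod_cast h0)]
        exact_mod_cast h0) A hA.le _ hgood
  refine ⟨W, fun w hw => ?_, hW1, hW2⟩
  have h1 := hW hw
  rw [Finset.mem_filter] at h1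
  obtain ⟨h2, h3⟩ := h1
  rw [hQ] at h3
  push Not at h3
  obtain ⟨l, hl1, hl2, hl3⟩ := h3
  obtain ⟨h4, h5, h6⟩ := hmemP w h2
  refine ⟨l, h6, hl1, hl2, ?_, ?_⟩
  · rw [← hu4]
    have h7 : (w : ℝ) ≤ Z := by exact_mod_cast h5
    exact pow_le_pow_left₀ (by positivity) (h7.trans hZu) 4
  · rw [← hy]
    exact hl3

end Pool.Agent.H183.GL
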