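import Pool.Agent.H183.MU.LIFT
import Pool.Agent.H183.MU.FIX
import Pool.Agent.H183.GL.LIFT2
import Pool.Agent.H183.GL.MULT2
import Pool.Agent.H183.GL.SIZE
import Pool.Agent.H183.GL.GLUE
import Pool.Agent.H183.GL.KEY2
import Pool.Agent.H183.GL.KEY3
import Pool.Agent.H183.GL.SMP
import Pool.Agent.H183.GL.WSET
import Pool.Agent.H183.GL.NOW
import Pool.Agent.H183.GL.SQBN
import Pool.Agent.H183.GL.HP
import Pool.Agent.H183.GL.BP1
import Pool.Agent.H183.GL.BP2
import Pool.Agent.H183.GL.HL
import Pool.Agent.H183.GL.BF1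
import Pool.Agent.H183.GL.BF2
import Pool.Agent.H183.GL.RHO1
import Pool.Agent.H183.GL.RHO2
import Pool.Agent.H183.GL.GS1
import Pool.Agent.H183.GL.GS2
import Pool.Agent.H183.GL.CRT
import Pool.Agent.H183.GL.SIEVE
import Pool.Agent.H183.GL.F3A
import Pool.Agent.H183.GL.F3B
import Pool.Agent.H183.GL.KAP
import Pool.Agent.H183.GL.LOGS
import Pool.Agent.H183.GL.BF3
import Pool.Agent.H183.GL.SMO
import Pool.Agent.H183.GL.FIN
import Pool.Agent.H183.GL.FIN2

/-!
# Difference sets with the parameters of PG(3, n) and PG(5, n) in abelian groups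

For almost all `n` no finite abelian group contains a difference set with the Singer parameters
of `(n, 4)` or `(n, 6)`. Here `n` is arbitrary, not only an integer with a large prime factor.

Idea (gluing of multipliers). Let `v = w v'` be the order of the group, `w` a small prime factor of
`n + 1`, and let `l` be a prime factor of `w - 1` with `l ∤ φ(v')`. Let `t ≡ 1` modulo `v'` and of
order `l` modulo `w`. Every prime `p` that is not an `l`-th power modulo `w` has a power `≡ t` modulo
`v`. If this is so for the prime factors `p` of `n` whose part of `n` is large then `t` is a multiplier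
(second multiplier theorem for several primes). A translate `D` is fixed by `t`; the elements of `D`
which are moved by `t` give different pairs of elements of `D` with quotient in the subgroup of order
`w`, so there are at most `lambda (w - 1)` of them, and the fixed ones are in a subgroup of index
`w`; together these are too few. For almost all `n` there is such a prime `w`: this is a sieve
problem; the large prime factors of `n ^ 2 + 1` and `n ^ 2 ± n + 1` are controlled by Selberg's sieve.
-/

set_option autoImplicit false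

namespace Pool.Agent.H183.GL.DimensionsFourAndSix

/-- Some finite abelian group `G` of order `(n ^ m - 1) / (n - 1)` contains a difference set `D`
with the Singer parameters: `k = (n ^ (m - 1) - 1) / (n - 1)`,
`lambda = (n ^ (m - 2) - 1) / (n - 1)`. -/
def HasAbelianSingerDifferenceSet (n m : ℕ) : Prop :=
  ∃ (G : Type) (_ : CommGroup G) (_ : Fintype G) (_ : DecidableEq G) (D : Finset G),
    Fintype.card G * (n - 1) = n ^ m - 1 ∧ D.card * (n - 1) = n ^ (m - 1) - 1 ∧
    ∀ g : G, g ≠ 1 →
      ((D ×ˢ D).filter (fun p : G × G => p.1 * p.2⁻¹ = g)).card * (n - 1) = n ^ (m - 2) - 1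

/-- Let `K` and `ε > 0` be given. For all large `X` there are at most `ε X` integers `2 ≤ n ≤ X` such
that some finite abelian group contains a difference set with the Singer parameters of `(n, m)`
for `m = 4`, or `m = 6`, or some odd `m ≥ 3` with a prime factor at most `K`. In particular
(`K = 7`) for almost all `n` there is no such difference set for all `m` with `3 ≤ m ≤ 7`. -/
theorem dimensions_four_and_six (K : ℕ) (ε : ℝ) (hε : 0 < ε) :
    ∃ X₀ : ℕ, ∀ X : ℕ, X₀ ≤ X →
      ({n : ℕ | 2 ≤ n ∧ n ≤ X ∧ ∃ m : ℕ, (m = 4 ∨ m = 6 ∨ (3 ≤ m ∧ Odd m ∧ m.minFac ≤ K)) ∧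
        HasAbelianSingerDifferenceSet n m}.ncard : ℝ) ≤ ε * X :=
  Pool.Agent.H183.GL.t_FIN2
    (Pool.Agent.H183.GL.t_FIN
      (Pool.Agent.H183.GL.t_KEY3 (Pool.Agent.H183.GL.t_KEY2
        (Pool.Agent.H183.GL.t_MULT2 (Pool.Agent.H183.GL.t_LIFT2 Pool.Agent.H183.MU.t_LIFT))
        Pool.Agent.H183.MU.t_FIX Pool.Agent.H183.GL.t_SIZE Pool.Agent.H183.GL.t_GLUE))
      (Pool.Agent.H183.GL.t_WSET Pool.Agent.H183.GL.t_SMP)
      Pool.Agent.H183.GL.t_NOW
      Pool.Agent.H183.GL.t_SQ
      (Pool.Agent.H183.GL.t_BP1 Pool.Agent.H183.GL.t_HP)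
      Pool.Agent.H183.GL.t_BP2
      (Pool.Agent.H183.GL.t_BN Pool.Agent.H183.GL.t_HL)
      (Pool.Agent.H183.GL.t_BF1 Pool.Agent.H183.GL.t_HL)
      Pool.Agent.H183.GL.t_BF2
      (Pool.Agent.H183.GL.t_BF3
        (Pool.Agent.H183.GL.t_F3A (Pool.Agent.H183.GL.t_SIEVE Pool.Agent.H183.GL.t_CRT
          (Pool.Agent.H183.GL.t_GS2 Pool.Agent.H183.GL.t_GS1)))
        (Pool.Agent.H183.GL.t_F3B (Pool.Agent.H183.GL.t_SIEVE Pool.Agent.H183.GL.t_CRT
          (Pool.Agent.H183.GL.t_GS2 Pool.Agent.H183.GL.t_GS1)))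
        Pool.Agent.H183.GL.t_KAP Pool.Agent.H183.GL.t_LOGS
        Pool.Agent.H183.GL.t_RHO1 Pool.Agent.H183.GL.t_RHO2)
      Pool.Agent.H183.GL.t_SMO) K ε hε

end Pool.Agent.H183.GL.DimensionsFourAndSix
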