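import Pool.Agent.H183.MU.Stm

/-!
# Difference sets with Singer parameters of dimension 4 and 6 in abelian groups: statements

Project GL (helper183), page MP_79499b_co. Gluing of multipliers: let `v = w v'`, `w` a prime, `l` a
prime factor of `w - 1` which does not divide `φ(v')`. The unit `t` modulo `v` with `t ≡ 1` modulo `v'`
and of order `l` modulo `w` is a power of every prime `p` which is not an `l`-th power modulo `w`. So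
`t` is a multiplier, if this holds for prime factors `p` of `n` whose part of `n` is large. But `t`
moves the elements only inside the cosets of the subgroup of order `w`, and this is impossible
by counting. A sieve shows that for almost all `n` (`m = 4` and `m = 6`) there is such a `w ∣ n + 1`.
-/

set_option autoImplicit false

namespace Pool.Agent.H183.GL

open Finset Pool.Agent.H183.MU

/-- `x` is an `l`-th power modulo the prime `w` (for `l ∣ w - 1`, `x` prime to `w`). -/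
def HH (w l x : ℕ) : Prop := x ^ ((w - 1) / l) ≡ 1 [MOD w]

/-! ## A. Algebra -/

/-- **S_LIFT2.** Proof. `tau G t = tau G (p ^ j)` is the `j`-th iterate of `tau G p`. Induction on `j`:
if `τ^j x = x r + p^e s` then `τ^(j+1) x = τ x · τ r + p^e τ s` and `τ x = x r' + p^e s'` by S_LIFT
(project MU; `j = 0`: `r = 1`). -/
def S_LIFT2 : Prop := ∀ (G : Type) [CommGroup G] [Fintype G] (p t j : ℕ), p.Prime →
  ¬ p ∣ Fintype.card G → (∀ g : G, g ^ t = g ^ (p ^ j)) → ∀ (e : ℕ) (x : MonoidAlgebra ℤ G),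
    ∃ r : MonoidAlgebra ℤ G, (p : MonoidAlgebra ℤ G) ^ e ∣ tau G t x - x * r

/-- **S_MULT2.** Second multiplier theorem. It is the proof of `S_MULT` (see
`Pool/Agent/H183/MU/MULT.lean`, docstring in `Pool/Agent/H183/MU/Stm.lean`) with `t` in place of `p`
and `N₁ = ∏ p ∈ S, p ^ e p` in place of `p ^ e`: `F := τ_t x · x' - lam Γ` is divisible by `p ^ e p` for
every `p ∈ S` (S_LIFT2), hence its coefficients are divisible by `N₁` (coprime factors); they are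
`≥ -lam > -N₁`, so `≥ 0`; the rest is the same. `g ↦ g ^ t` is a bijection as `t` is prime to `|G|`. -/
def S_MULT2 : Prop := ∀ (G : Type) [CommGroup G] [Fintype G] [DecidableEq G] (D : Finset G)
  (k lam t : ℕ) (S : Finset ℕ) (e : ℕ → ℕ), IsDS D k lam → lam < k →
    Nat.Coprime t (Fintype.card G) →
    (∀ p ∈ S, p.Prime ∧ ¬ p ∣ Fintype.card G ∧ ¬ p ∣ k ∧ p ^ e p ∣ k - lam ∧
      ∃ j : ℕ, ∀ g : G, g ^ t = g ^ (p ^ j)) →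
    lam < ∏ p ∈ S, p ^ e p →
      ∃ g : G, D.image (fun x => x ^ t) = D.image (fun x => g * x)

/-- **S_SIZE.** Proof. Let `A = {g | g^w = 1}` and `K = {g | g^v' = 1}`, subgroups. `|A| = w`: it is a
`w`-group, `w` divides `|G|` exactly once. `|K| = v'`: the image of `g ↦ g^v'` is in `A` and
nontrivial (Cauchy: an element of order `w`), so it has order `w`. For `d ∈ D`: `d^t ∈ D`,
`d^t d⁻¹ = d^(t-1) ∈ A` as `w v' ∣ w (t-1)`, and `d^(t-1) ≠ 1` if `d ∉ K` (the order of `d` divides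
`w v'`; if it divides `t - 1` it is prime to `w`, so divides `v'`). The map `d ↦ (d^t, d)` from
`D \ K` to the pairs of `D × D` with quotient in `A \ {1}` is injective, so `|D \ K| ≤ lam (w - 1)`.
For a coset `h` of `K` (there are `w`) let `f h = |D ∩ h|`: `∑ f = k`, `∑ f^2 = k + lam (v' - 1)`
(pairs with quotient in `K`), and `k^2 = k + lam (w v' - 1)`; so `∑ (f h - k/w)^2 = u^2 (1 - 1/w)` and
`|D ∩ K| ≤ k/w + u`. Together `k (w-1) ≤ lam w (w-1) + u w`, so `k ≤ lam w + 2 u`. -/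
def S_SIZE : Prop := ∀ (G : Type) [CommGroup G] [Fintype G] [DecidableEq G] (D : Finset G)
  (k lam w v' t u : ℕ), IsDS D k lam → Fintype.card G = w * v' → w.Prime → ¬ w ∣ v' →
    1 ≤ t → v' ∣ t - 1 → ¬ w ∣ t - 1 → D.image (fun x => x ^ t) = D → k = lam + u ^ 2 →
      k ≤ lam * w + 2 * u

/-- **S_GLUE.** Proof. `(ZMod w)ˣ` is cyclic; let `x` be an element of order `l` and `t ≡ x` modulo
`w`, `t ≡ 1` modulo `v'` (Chinese remainder theorem). For `p` as stated let `o` be the order of `p`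
modulo `w`: `o ∣ w - 1`, `o ∤ (w-1)/l`, so `l ∣ o`, and `p^(o/l)` has order `l`; a cyclic group has
only one subgroup of order `l`, so `x = p^(i o/l)` for some `i`. Let `s φ(v') ≡ 1` modulo `l` and
`j = (i o/l) s φ(v')`: modulo `v'` `p^j ≡ 1` (Euler), modulo `w` `p^j ≡ x^(s φ(v')) = x`. -/
def S_GLUE : Prop := ∀ w v' l : ℕ, w.Prime → l.Prime → l ∣ w - 1 → 0 < v' → ¬ w ∣ v' →
  ¬ l ∣ Nat.totient v' → ∃ t : ℕ, 1 ≤ t ∧ v' ∣ t - 1 ∧ ¬ w ∣ t - 1 ∧ Nat.Coprime t (w * v') ∧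
    ∀ p : ℕ, Nat.Coprime p (w * v') → ¬ HH w l p → ∃ j : ℕ, p ^ j ≡ t [MOD w * v']

/-- **S_KEY2.** Proof. Suppose `D ⊆ G` is such a set: `(n-1) |G| = n^m - 1`, so `|G| = ∑_{i<m} n^i =
w v'`; `k = ∑_{i<m-1} n^i`, `lam = ∑_{i<m-2} n^i`; `IsDS D k lam` (cancel `n - 1`). `k = lam n + 1`,
`|G| = k n + 1`, `k - lam = n^(m-2) = u^2` with `u = n^(m/2-1)`. `t` from S_GLUE. Every `p ∈ S` is prime
to `|G|` and `k` (they are `≡ 1` modulo `n`), `p^j ≡ t` modulo `|G|`, so `g^t = g^(p^j)`. S_MULT2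
with `e p = (m-2) (n.factorization p)` (`∏ p ^ e p = P^(m-2) ≥ 2 n^(m-3) > lam` since
`lam (n-1) < n^(m-2) ≤ 2 (n-1) n^(m-3)`; `p^(e p) ∣ n^(m-2)`). S_FIX (project MU): we may assume
`D.image (· ^ t) = D`. S_SIZE: `lam n + 1 = k ≤ lam w + 2 u ≤ lam (n-2) + 2 u`, so `2 lam + 1 ≤ 2 u`, but
`lam ≥ n^(m-3) ≥ n^(m/2-1) = u`. -/
def S_KEY2 : Prop := ∀ (n m w v' l : ℕ) (S : Finset ℕ), 2 ≤ n → 4 ≤ m → Even m → w.Prime →
  l.Prime → l ∣ w - 1 → w * v' = ∑ i ∈ range m, n ^ i → ¬ w ∣ v' → ¬ l ∣ Nat.totient v' →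
  w + 2 ≤ n → (∀ p ∈ S, p.Prime ∧ p ∣ n ∧ ¬ HH w l p) →
  2 * n ^ (m - 3) ≤ (∏ p ∈ S, p ^ n.factorization p) ^ (m - 2) → ¬ HasAb n m

/-- The polynomials `n^2 + 1`, `n^2 + n + 1`, `n^2 - n + 1` for `a = 0, 1, -1`. -/
def fa (a n : ℤ) : ℤ := n ^ 2 + a * n + 1

def IsA (a : ℤ) : Prop := a = 0 ∨ a = 1 ∨ a = -1

/-- **S_KEY3.** Proof. `∑_{i<4} n^i = (n+1)(n^2+1)`, `∑_{i<6} n^i = (n+1)(n^2+n+1)(n^2-n+1)`. `w ∣ n + 1`,
and `w` does not divide `fa a n` (`≡ 2`, `1`, `3` modulo `w`, `w > 3`), nor `(n+1)/w`. So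
`w v' = ∑ n^i` with `w ∤ v'`. If `l ∣ φ(v')` then some prime `q ∣ v'` has `q = l` or `l ∣ q - 1`
(`φ(v') = ∏ q^(a-1) (q-1)`), `q ≠ w`, and `q` divides `n + 1` or a `fa a n`: excluded. S_KEY2 with
`S = n.primeFactors.filter (y < ·)`; for `m = 4`: `2 n ≤ P^2` follows from `2 n^3 ≤ P^4` (`n ≥ 2`). -/
def S_KEY3 : Prop := ∀ (n m w l : ℕ) (y : ℝ), m = 4 ∨ m = 6 → w.Prime → l.Prime → l ∣ w - 1 →
  3 < w → w + 2 ≤ n → w ∣ n + 1 → ¬ w ^ 2 ∣ n + 1 →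
  (∀ p : ℕ, p.Prime → p ∣ n → y < p → ¬ HH w l p) →
  2 * n ^ 3 ≤ (∏ p ∈ n.primeFactors.filter (fun p : ℕ => y < p), p ^ n.factorization p) ^ 4 →
  (∀ q : ℕ, q.Prime → q ≠ w → q ∣ n + 1 → ¬ (l ∣ q - 1 ∨ q = l)) →
  (∀ a : ℤ, IsA a → ∀ q : ℕ, q.Prime → (q : ℤ) ∣ fa a n → ¬ (l ∣ q - 1 ∨ q = l)) →
    ¬ HasAb n m

/-! ## B. The sieve. `X` is large, `w ≤ (log X)^(1/4)`, `l ≥ (log log X)^9`. -/

noncomputable def LL (X : ℕ) : ℝ := Real.log (Real.log X)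

def Adm (X w l : ℕ) : Prop :=
  w.Prime ∧ l.Prime ∧ l ∣ w - 1 ∧ (w : ℝ) ^ 4 ≤ Real.log X ∧ (LL X) ^ 9 ≤ l

/-- The property `P` is negligible among the `n ≤ X`, `n ≡ -1` modulo `w`, uniformly in `w`, `l`. -/
def Neg (P : ℕ → ℕ → ℕ → ℕ → Prop) : Prop := ∀ η : ℝ, 0 < η → ∃ X₀ : ℕ, ∀ X : ℕ, X₀ ≤ X →
  ∀ w l : ℕ, Adm X w l →
    (({n : ℕ | 1 ≤ n ∧ n ≤ X ∧ w ∣ n + 1 ∧ P X w l n}.ncard : ℕ) : ℝ) ≤ η * ((X : ℝ) / w)

/-- **S_SMP.** Integers `N` in `[Y, Z]` without prime factors `≥ L`; `Y = exp ((log log X)^(2/3))`,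
`L = (log log X)^9`; `Z` arbitrary. Proof (Rankin). With `σ = 1/18`: the sum is at most
`Y^(-σ) ∏_{p < L} (1 - p^(σ-1))⁻¹` (finite Euler product), and `(1 - x)⁻¹ ≤ exp (4 x)` for `0 ≤ x ≤ 2^(-17/18)`
(about `0.52`), so the product is at most `exp (4 ∑_{n ≤ L} n^(σ-1)) ≤ exp (4 (1 + 18 L^σ))`, and
`L^σ = (log log X)^(1/2)`, which is `o((log log X)^(2/3))`. -/
def S_SMP : Prop := ∀ η : ℝ, 0 < η → ∃ X₀ : ℕ, ∀ X : ℕ, X₀ ≤ X → ∀ F : Finset ℕ,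
  (∀ N ∈ F, Real.exp ((LL X) ^ ((2 : ℝ) / 3)) ≤ N ∧
    ∀ q : ℕ, q.Prime → q ∣ N → (q : ℝ) < (LL X) ^ 9) →
  ∑ N ∈ F, (1 : ℝ) / N ≤ η

/-- **S_WSET.** Proof. Let `Z = (log X)^(1/4)`, `Y = exp ((log log X)^(2/3)) + 1`. Mertens:
`∑_{Y < w ≤ Z} 1/w ≥ log log Z - log log Y - C = (1/3) log log log X - C' → ∞` (library, e.g.
`Pool.Agent.Helper923.HMertens.mertens_ratio`, see `Pool/Agent/H183/MU/MERT.lean`). Those primes `w`
for which all prime factors of `w - 1` are `< (log log X)^9` contribute at most `1` by S_SMP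
(`N = w - 1`). All the other primes have an `l`; take a subset with sum in `[A, A+1]` (each term is
at most `1`: add the elements one by one). -/
def S_WSET : Prop := ∀ A : ℝ, 0 < A → ∃ X₀ : ℕ, ∀ X : ℕ, X₀ ≤ X → ∃ W : Finset ℕ,
  (∀ w ∈ W, ∃ l : ℕ, Adm X w l) ∧ A ≤ ∑ w ∈ W, (1 : ℝ) / w ∧ ∑ w ∈ W, (1 : ℝ) / w ≤ A + 1

/-- **S_NOW.** Proof. `M = ∏ w ≤ Z^Z ≤ √X` with `Z = (log X)^(1/4)`. The `n` lie in `∏ (w-1)` classes
modulo `M` (Chinese remainder theorem), each has at most `X/M + 1` elements: at most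
`X ∏ (1 - 1/w) + M ≤ exp (-A) X + √X`. -/
def S_NOW : Prop := ∀ A : ℝ, 0 < A → ∃ X₀ : ℕ, ∀ X : ℕ, X₀ ≤ X → ∀ W : Finset ℕ,
  (∀ w ∈ W, w.Prime ∧ (w : ℝ) ^ 4 ≤ Real.log X) → A ≤ ∑ w ∈ W, (1 : ℝ) / w →
    (({n : ℕ | 1 ≤ n ∧ n ≤ X ∧ ∀ w ∈ W, ¬ w ∣ n + 1}.ncard : ℕ) : ℝ) ≤ 2 * Real.exp (-A) * X

/-- **S_SQ.** Proof: at most `(X+1)/w^2` such `n`, and `w > l ≥ (log log X)^9`. -/
def S_SQ : Prop := Neg (fun _ w _ n => w ^ 2 ∣ n + 1)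

/-- **S_HP.** Proof. The residues `x` modulo `w` with `HH w l x` are at most `(w-1)/l` many (roots of a
polynomial). `Pool.Agent.TH888.B1.primes_in_classes` (file
`Pool/Graph/R_seed8/TH888/B1/PrimeSieve.lean`) with `M = w`: in `(2^i, 2^(i+1)]`, `2^(i+1) > X^δ`, there
are at most `(12/l) 2^(i+1)/log 2^(i+1)` such primes, so the sum of `1/p` over them is at most
`24/(l δ log X)`; there are at most `2 log X` values of `i`. (`N₁ w ≤ X^δ`, `w^2 ≤ X^δ` for large `X`.) -/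
def S_HP : Prop := ∀ δ : ℝ, 0 < δ → δ < 1 / 2 → ∃ C : ℝ, 0 < C ∧ ∃ X₀ : ℕ, ∀ X : ℕ, X₀ ≤ X →
  ∀ w l : ℕ, Adm X w l → ∀ F : Finset ℕ,
    (∀ p ∈ F, p.Prime ∧ (X : ℝ) ^ δ < p ∧ p ^ 2 ≤ X ∧ HH w l p) → ∑ p ∈ F, (1 : ℝ) / p ≤ C / l

/-- **S_BP1.** Proof. For each `p` the `n ≤ X` with `p ∣ n`, `w ∣ n + 1` are at most
`X/(p w) + 1 ≤ 2 X/(p w)` (`p ≠ w`, `p w ≤ √X w ≤ X`). S_HP; `l ≥ (log log X)^9 → ∞`. -/
def S_BP1 : Prop := ∀ δ : ℝ, 0 < δ → δ < 1 / 2 → Neg (fun X w l n => ∃ p : ℕ, p.Prime ∧ p ∣ n ∧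
  (X : ℝ) ^ δ < p ∧ p ^ 2 ≤ X ∧ HH w l p)

/-- **S_BP2.** Proof. `n = p s`, `s < √X`, `p s ≡ -1` modulo `w`. As `(w-1)/l` is even (`l`, `w` odd),
`HH w l p` gives `HH w l s`. For given `s` the prime `p ≤ X/s` is in one class modulo `w`: at most
`(12/(w-1)) (X/s)/log (X/s) ≤ (24/(w-1)) (X/s)/log X` (`primes_in_classes` with `M = w`, `b` one class,
`X/s ≥ √X`). The sum of `1/s` over `s < w` is at most `1 + log w`, and over `w ≤ s ≤ √X`, `HH w l s`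
(at most `(w-1)/l` classes, in each `1/s ≤ 1/(j w)`, `j ≥ 1`) at most `(1/l) (1 + log X)`. Total at most
`(48/w) X ((1 + log w)/log X + (2/l))`, and `w ≤ (log X)^(1/4)`, `l → ∞`. -/
def S_BP2 : Prop := Neg (fun X w l n => ∃ p : ℕ, p.Prime ∧ p ∣ n ∧ X < p ^ 2 ∧ HH w l p)

/-- **S_HL.** Proof. `q = 1 + j l`. For `q ≤ e^(√l)` the sum is at most `∑ 1/(j l) ≤ (1 + √l)/l`. For
larger `q`: `primes_in_classes` with `M = l`, `b = {1}` (`l^2 ≤ N`, `N₁ l ≤ N` for `N ≥ e^(√l)`, `l`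
large): `q ∈ (2^i, 2^(i+1)]` contribute at most `24/((l-1) (i+1) log 2)`, and
`∑_{i ≤ 2 log X} 1/(i+1) ≤ 2 log log X` for large `X`. `l ≥ (log log X)^9`. -/
def S_HL : Prop := ∀ η : ℝ, 0 < η → ∃ X₀ : ℕ, ∀ X : ℕ, X₀ ≤ X → ∀ l : ℕ, l.Prime →
  (LL X) ^ 9 ≤ l → (l : ℝ) ^ 4 ≤ Real.log X → ∀ F : Finset ℕ,
    (∀ q ∈ F, q.Prime ∧ q ≤ X + 1 ∧ (l ∣ q - 1 ∨ q = l)) → ∑ q ∈ F, (1 : ℝ) / q ≤ η

/-- **S_BN.** Proof. For each `q` at most `(X+1)/(q w)` (as `q w ∣ n + 1`); S_HL with `η / 2`. -/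
def S_BN : Prop := Neg (fun _ w l n => ∃ q : ℕ, q.Prime ∧ q ≠ w ∧ q ∣ n + 1 ∧ (l ∣ q - 1 ∨ q = l))

/-- **S_BF1.** Proof. `q ≠ w` since `fa a n ≡ 2, 1, 3` modulo `w` (`w > l > 3`). `n` is in at most two
classes modulo `q` (monic quadratic), so in at most two modulo `q w`: at most
`2 (X/(q w) + 1) ≤ 4 X/(q w)`. S_HL with `η / 4`. -/
def S_BF1 : Prop := ∀ a : ℤ, IsA a → Neg (fun X w l n => ∃ q : ℕ, q.Prime ∧ (q : ℤ) ∣ fa a n ∧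
  (l ∣ q - 1 ∨ q = l) ∧ q * w ≤ X)

/-- **S_BF2.** Proof. As in S_BF1, for each `q` at most `2 (X/(q w) + 1) ≤ 4` values of `n`. The number of
primes `q ≤ 2 X l w` is at most `8 X l w/log X` (Chebyshev, `Chebyshev.eventually_primeCounting_le`).
Total `32 X l w/log X ≤ η X/w` as `l w^2 ≤ w^3 ≤ (log X)^(3/4)`. -/
def S_BF2 : Prop := ∀ a : ℤ, IsA a → Neg (fun X w l n => ∃ q : ℕ, q.Prime ∧ (q : ℤ) ∣ fa a n ∧
  X < q * w ∧ q ≤ 2 * X * l * w)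

/-! ### Large `q`: `fa a n = c q` with `c ≤ X/(l w)` -/

/-- Number of roots of `fa a` modulo `c`. -/
def rho (a : ℤ) (c : ℕ) : ℕ := ((range c).filter (fun ν : ℕ => (c : ℤ) ∣ fa a ν)).card

noncomputable def kap (q : ℕ) : ℝ := ((q : ℝ) / Nat.totient q) ^ 2

noncomputable def BB (x : ℝ) : ℝ := x / Real.log (1 + x)

/-- `4` for `n^2 + 1` and `3` for `n^2 ± n + 1`. -/
def KK (a : ℤ) : ℕ := if a = 0 then 4 else 3

/-- The nonprincipal character modulo `K = 3, 4`. -/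
def chi (K d : ℕ) : ℤ := if d % K = 1 then 1 else if d % K = K - 1 then -1 else 0

/-- `∑_{d ∣ n} χ(d)`. -/
def rr (K n : ℕ) : ℤ := ∑ d ∈ n.divisors, chi K d

/-- **S_RHO1.** Proof. Both sides are multiplicative in `c` (Chinese remainder theorem; `chi K` is
completely multiplicative). Prime powers `c = p^k`, `k ≥ 1`, `D = a^2 - 4 = -4` or `-3`,
`4 fa a n = (2 n + a)^2 - D`. If `p ∣ K`: `rr = 1` and `rho ≤ 1` (`p = 2`: `n^2 + 1 ≡ 0` modulo `2`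
has one root and modulo `4` none; `p = 3`: `n^2 ± n + 1` has one root modulo `3` and none modulo `9`;
so none modulo `p^k`, `k ≥ 2`). If `p ≡ -1` modulo `K`: `rr ≥ 0` and `rho = 0`, since there is no root
modulo `p` (`p = 2`, `K = 3`: `n^2 ± n + 1` is odd; otherwise `D` is not a square: an element of order
`4` resp. `3` or `6` of the group of order `p - 1`). If `p ≡ 1` modulo `K`: `rr = k + 1 ≥ 2` and
`rho ≤ 2`: two roots `ν, ν'` modulo `p^k` have `p^k ∣ (ν - ν')(ν + ν' + a)`; `p` does not divide both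
factors (else `p ∣ 2ν + a`, `p ∣ D`), so `ν' ≡ ν` or `ν' ≡ -a - ν` modulo `p^k`. (You may do the
induction with `Nat.recOnPosPrimePosCoprime` or any other way.) -/
def S_RHO1 : Prop := ∀ a : ℤ, IsA a → ∀ c : ℕ, 1 ≤ c → ((rho a c : ℕ) : ℤ) ≤ rr (KK a) c

/-- **S_RHO2.** Proof (hyperbola method). `∑_{c ≤ y} rr K c = ∑_{d e ≤ y} χ(d)`. With `s = √y`: the
part `d ≤ s` is `∑_{d ≤ s} χ(d) ⌊y/d⌋ ≤ y |∑_{d≤s} χ(d)/d| + s ≤ 2 y`, since the partial sums of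
`χ(d)/d` are in `[0, 1]` (alternating), and the part `d > s` is `∑_{e ≤ s} ∑_{s < d ≤ y/e} χ(d) ≤ s`
because the partial sums of `χ` over intervals are at most `1` in absolute value. -/
def S_RHO2 : Prop := ∀ K : ℕ, K = 3 ∨ K = 4 → ∀ y : ℕ, 1 ≤ y →
  ((∑ c ∈ Icc 1 y, rr K c : ℤ) : ℝ) ≤ 4 * y

/-- **S_GS1.** Proof. `∑_{n ≤ z} rr K n/n = ∑_{d ≤ z} (χ(d)/d) H(z/d)` with `H(x) = ∑_{e ≤ x} 1/e`. Split at
`d ≤ s = √z`: `H(z/d) = log (z/d) + O(1)` gives `∑_{d≤s} (χ(d)/d) H(z/d) ≥ log z · S - C`, where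
`S = ∑_{d ≤ s} χ(d)/d ≥ 1/2` (alternating: `≥ 1 - 1/3` resp. `1 - 1/2`), `∑_{d ≤ s} χ(d) (log d)/d` is
bounded (alternating with eventually decreasing terms), and for the error use `H(x) = log x + γ +
O(1/x)`, so that `∑_{d ≤ s} (1/d) O(d/z) = O(1)`. The part `d > s`: `∑_{e ≤ s} (1/e) ∑_{s < d ≤ z/e}
χ(d)/d = O(log z/√z)`. For small `z` use that all terms are `≥ 0` and the term `n = 1` is `1`
(`rr K n ≥ 0`: multiplicative, prime powers `k+1`, `0`, `1`). Any other proof is fine. -/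
def S_GS1 : Prop := ∃ c₁ : ℝ, 0 < c₁ ∧ ∀ K : ℕ, K = 3 ∨ K = 4 → ∀ z : ℕ, 2 ≤ z →
  c₁ * Real.log z ≤ ∑ n ∈ Icc 1 z, ((rr K n : ℤ) : ℝ) / n

/-- **S_GS2.** Proof. Write `n = q b` where `q` is the product of the primes `p ≡ 1` modulo `K` with
`p ∤ q₀`, `p ∣ n`, `p^2 ∤ n`; `rr K n = 2^(ω(q)) rr K b`, `rr K b ≥ 0`. So
`∑_{n ≤ z} rr K n/n ≤ (∑_{q} 2^(ω(q))/q) (∑_b rr K b/b)`, the last sum over the `b ≤ z` of this kind. It
is at most the product over the primes `p ≤ z` of: `∑_{k≠1} (k+1)/p^k ≤ 1 + 20/p^2` if `p ≡ 1` modulo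
`K`, `p ∤ q₀`; `(1 - 1/p)⁻²` if `p ∣ q₀`, `p ≡ 1`; `(1 - p⁻²)⁻¹` if `p ≡ -1`; `(1 - 1/p)⁻¹ ≤ 2` if
`p ∣ K`. The product is at most `C (q₀/φ(q₀))^2`. Then S_GS1. (Alternatively: Mertens' theorem for the
primes `≡ 1` modulo `K` and Rankin's trick.) -/
def S_GS2 : Prop := ∃ c₀ : ℝ, 0 < c₀ ∧ ∀ K : ℕ, K = 3 ∨ K = 4 → ∀ q₀ z : ℕ, 1 ≤ q₀ → 2 ≤ z →
  c₀ * Real.log z ≤ kap q₀ * ∑ q ∈ (Icc 1 z).filter (fun q : ℕ => Squarefree q ∧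
    Nat.Coprime q q₀ ∧ ∀ r ∈ q.primeFactors, r % K = 1), (2 : ℝ) ^ q.primeFactors.card / q

/-- **S_CRT.** Proof. For `r ∈ s`: `r ∤ c g`, and `c r ∣ fa a (ν + c g j)` iff
`F(j) := fa a (ν + c g j)/c ≡ 0` modulo `r` iff `fa a (ν + c g j) ≡ 0` modulo `r`; `fa a` has exactly two
roots modulo `r` (`r ≡ 1` modulo `4`: `-1` is a square; `r ≡ 1` modulo `3`: there is an element
of order `3` and one of order `6`; they are different as `r ∤ a^2 - 4`), `j ↦ ν + c g j` is a bijection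
modulo `r`. Chinese remainder theorem: exactly `2^|s|` classes modulo `∏ r` for `j`, and each class has
`(N+1)/∏ r + θ`, `|θ| ≤ 1`, elements in `[0, N]`. -/
def S_CRT : Prop := ∀ a : ℤ, IsA a → ∀ c g ν N : ℕ, 1 ≤ c → 1 ≤ g → (c : ℤ) ∣ fa a ν →
  ∀ s : Finset ℕ, (∀ r ∈ s, r.Prime ∧ r % KK a = 1 ∧ ¬ r ∣ c * g) →
    |(({j : ℕ | j ≤ N ∧ ∀ r ∈ s, ((c * r : ℕ) : ℤ) ∣ fa a ((ν + c * g * j : ℕ) : ℤ)}.ncard : ℕ) : ℝ) -
      ((N : ℝ) + 1) * ∏ r ∈ s, ((2 : ℝ) / r)| ≤ (2 : ℝ) ^ s.card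

/-- **S_SIEVE.** Proof (from S_CRT, S_GS2). `Pool.Agent.H25.Selberg.selberg` (file
`Pool/Graph/R_pool_sql_team_909e0234/H25/Selberg.lean`) with `J = range (N+1)`, `P` = the primes
`r ≤ z`, `r % KK a = 1`, `r ∤ c g` (so `r ≥ 5`), `D j = {r ∈ P | c r ∣ fa a (ν + c g j)}`, `g r = 2/r`,
`T = {t ⊆ P | ∏ t ≤ z}`, `z = ⌊N^(1/8)⌋`, `c = 5/3`, `κ = 2`. If `fa a (ν + c g j) = c q`, `q > N` prime,
then `D j = ∅`. `LL g T ≥ ∑ 2^(ω(q))/q` over the `q` of S_GS2 with `q₀ = c g`, as `h(r) = 2/(r-2) ≥ 2/r`.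
The error is `(∑_{t ∈ T} (10/3)^|t|)^2 ≤ (∑_{q ≤ z} 4^(ω(q)))^2 ≤ (4 z^2)^2 ≤ 16 √N`, since
`2^(ω(q)) ≤ τ(q) ≤ 2 √q`. For small `N` (`z < 2`) the bound is trivial with large `C` (`kap ≥ 1`). -/
def S_SIEVE : Prop := ∃ C : ℝ, 0 < C ∧ ∀ a : ℤ, IsA a → ∀ c g ν N : ℕ, 1 ≤ c → 1 ≤ g → 1 ≤ N →
  (c : ℤ) ∣ fa a ν →
    (({j : ℕ | j ≤ N ∧ ∃ q : ℕ, q.Prime ∧ N < q ∧
      (c : ℤ) * q = fa a ((ν + c * g * j : ℕ) : ℤ)}.ncard : ℕ) : ℝ) ≤ C * kap (c * g) * BB N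

/-- **S_F3A.** Proof. If `w ∣ c` the set is empty (`fa a n ≡ 2, 1, 3` modulo `w` as `n ≡ -1`). Otherwise
`c, l, w` are pairwise coprime (`l < w`), and `n` modulo `c` is one of `rho a c` classes, `n` modulo `l`
satisfies `n^2 + a n + 1 - c ≡ 0` (as `q ≡ 1` modulo `l`): at most two classes; `n ≡ -1` modulo `w`. So `n`
is in at most `2 rho a c` classes modulo `c l w`. In a class, `n = ν + c l w j`, `0 ≤ ν < c l w`,
`j ≤ N := X/(c l w)`, `N ≥ 1`, and `q > X ≥ N`: S_SIEVE with `g = l w`; `BB` is increasing. -/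
def S_F3A : Prop := ∃ C : ℝ, 0 < C ∧ ∀ a : ℤ, IsA a → ∀ X w l c : ℕ, w.Prime → l.Prime → 3 < l →
  l ∣ w - 1 → 1 ≤ c → c * l * w ≤ X → ¬ l ∣ c →
    (({n : ℕ | 1 ≤ n ∧ n ≤ X ∧ w ∣ n + 1 ∧ ∃ q : ℕ, q.Prime ∧ X < q ∧ l ∣ q - 1 ∧
      (c : ℤ) * q = fa a n}.ncard : ℕ) : ℝ) ≤
      C * (rho a c) * kap (c * l * w) * BB ((X : ℝ) / (c * l * w))

/-- **S_F3B.** The same for cofactor `l c`. Proof. `rho a (l c) ≤ 2 rho a c`: a root `ν` modulo `l c` is a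
root `ν₀` modulo `c`, `ν = ν₀ + c i`, `i` modulo `l`, and `fa a (ν₀ + c i)/c = fa a ν₀/c + (2 ν₀ + a) i +
c i^2` is a polynomial in `i` modulo `l` of degree at most `2`, not zero: if `l ∣ c` then `l ∣ fa a ν₀`
and `l ∤ 2 ν₀ + a` because `4 fa a ν₀ = (2 ν₀ + a)^2 + 4 - a^2`, `l > 3`. So at most two `i`. If `w ∣ c`
the set is empty; otherwise `n` is in at most `rho a (l c)` classes modulo `l c w` and S_SIEVE with
cofactor `l c`, `g = w`, `N = X/(l c w)` gives the bound. -/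
def S_F3B : Prop := ∃ C : ℝ, 0 < C ∧ ∀ a : ℤ, IsA a → ∀ X w l c : ℕ, w.Prime → l.Prime → 3 < l →
  l ∣ w - 1 → 1 ≤ c → c * l * w ≤ X →
    (({n : ℕ | 1 ≤ n ∧ n ≤ X ∧ w ∣ n + 1 ∧ ∃ q : ℕ, q.Prime ∧ X < q ∧
      ((l * c : ℕ) : ℤ) * q = fa a n}.ncard : ℕ) : ℝ) ≤
      C * (rho a c) * kap (c * l * w) * BB ((X : ℝ) / (c * l * w))

/-- **S_KAP.** (The bound is very weak: the truth is `kap q ≤ C (log log X)^2`.) Proof.
`log (q/φ(q)) = ∑_{p ∣ q} -log (1 - 1/p) ≤ ∑_{p ∣ q} 1/p + 1`; the primes `p ∣ q` with `p > log X` are at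
most `2 log X/log log X` many and contribute at most `2`; the others at most `∑_{p ≤ log X} 1/p ≤
log log log X + C` (Mertens, upper bound; e.g. `Pool.Agent.Helper923.HMertens.mertens_ratio` or
another library lemma; `(3/2) log log log X + C` is enough). -/
def S_KAP : Prop := ∃ X₀ : ℕ, ∀ X : ℕ, X₀ ≤ X → ∀ q : ℕ, 1 ≤ q → q ≤ X → kap q ≤ (LL X) ^ 4

/-- **S_LOGS.** Proof. For `i ≥ 0` the `c` with `Y/2^(i+1) < c ≤ Y/2^i` contribute at most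
`∑ ρ(c) (Y/c)/log (1 + 2^i) ≤ 2^(i+1)/log (1 + 2^i) · C Y/2^i = 2 C Y/log (1 + 2^i)` (`Y/c < 2^(i+1)`,
`Y/c ≥ 2^i`), and `∑_{i ≤ log Y/log 2} 1/log (1 + 2^i) ≤ 2 + 2 ∑_{1 ≤ i ≤ 2 log Y} 1/i ≤ C'' log log Y`. -/
def S_LOGS : Prop := ∃ C' : ℝ, 0 < C' ∧ ∀ (ρ : ℕ → ℝ) (C : ℝ), (∀ c, 0 ≤ ρ c) →
  (∀ y : ℕ, 1 ≤ y → ∑ c ∈ Icc 1 y, ρ c ≤ C * y) → ∀ Y : ℝ, 16 ≤ Y →
    ∑ c ∈ Icc 1 ⌊Y⌋₊, ρ c * BB (Y / c) ≤ C' * C * Y * Real.log (Real.log Y)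

/-- **S_BF3.** Proof. `fa a n = c q`, `0 < fa a n ≤ X^2 + X + 1`, so `1 ≤ c < (X^2 + X + 1)/(2 X l w)` and
`c l w ≤ X`; `q > X`. For `l ∤ c` the number of `n` is bounded by S_F3A, for `c = l c₁`
by S_F3B with `c₁`. With `Y = X/(l w)` the total is at most, by S_KAP (`kap ≤ (log log X)^4`, as
`c l w ≤ X`) and S_LOGS for `ρ = rho a` (`∑_{c ≤ y} rho a c ≤ 4 y` by S_RHO1, S_RHO2),
`2 C (log log X)^4 · 4 C' Y log log X = C'' (log log X)^5 X/(l w) ≤ η X/w`, since `l ≥ (log log X)^9`. -/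
def S_BF3 : Prop := ∀ a : ℤ, IsA a → Neg (fun X w l n => ∃ q : ℕ, q.Prime ∧ (q : ℤ) ∣ fa a n ∧
  l ∣ q - 1 ∧ 2 * X * l * w < q)

/-! ### The smooth part of `n` -/

/-- **S_SMO.** Proof. Let `s_n` be the product of the `p ^ v_p(n)` with `p ≤ X^δ`, so `n = s_n P_n`. If
`n > √X` and `P_n^4 < 2 n^3` then `s_n^4 > n/2 > √X/2`, so `log s_n ≥ (1/10) log X`. And
`∑_{n ≤ X} log s_n = ∑_{p ≤ X^δ} ∑_{k≥1} log p ⌊X/p^k⌋ ≤ X ∑_{p ≤ X^δ} log p/(p-1) ≤ X (δ log X + C)`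
(Mertens' first theorem, library, or `4 δ log X + C` from Chebyshev; any constant factor is fine). So
the number of these `n` is at most `√X + 10 X (δ + C/log X)`; take `δ = ε/40` (at most `1/4`). -/
def S_SMO : Prop := ∀ ε : ℝ, 0 < ε → ∃ δ : ℝ, 0 < δ ∧ δ < 1 / 2 ∧ ∃ X₀ : ℕ, ∀ X : ℕ, X₀ ≤ X →
  (({n : ℕ | 1 ≤ n ∧ n ≤ X ∧
    (∏ p ∈ n.primeFactors.filter (fun p : ℕ => (X : ℝ) ^ δ < p), p ^ n.factorization p) ^ 4 <
      2 * n ^ 3}.ncard : ℕ) : ℝ) ≤ ε * X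

/-- **S_FIN.** The theorem. Proof: union bound over `w ∈ W` (S_WSET, with `2 exp (-A) ≤ ε/4`) of the
negligible sets, S_NOW, S_SMO; the `n ≤ (ε/4) X` are trivial; S_KEY3. -/
def S_FIN : Prop := ∀ ε : ℝ, 0 < ε → ∃ X₀ : ℕ, ∀ X : ℕ, X₀ ≤ X →
  (({n : ℕ | 2 ≤ n ∧ n ≤ X ∧ (HasAb n 4 ∨ HasAb n 6)}.ncard : ℕ) : ℝ) ≤ ε * X

end Pool.Agent.H183.GL
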